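import Mathlib
import Pool.Agent.Helper22.Half.MeanA

/-!
MP_16b0ee, project HR: a weighted Cauchy-Schwarz inequality between Bergman norms.
-/

set_option autoImplicit false

open MeasureTheory Set Metric Filter Topology
open scoped ENNReal NNReal Real Nat ComplexConjugate

namespace Pool.Agent.Helper39.HR

open Pool.Agent.Helper22.Half
open Pool.Agent.Helper22.Marshall (coeff)
open Pool.Agent.Helper22.Marshall (parseval_comb)

/-- g -/ noncomputable def gs (H : ℂ → ℂ) (s : ℂ) (z : ℂ) : ℂ := Complex.exp (s * H z)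

/-- B -/ noncomputable def Bs (H : ℂ → ℂ) (s : ℂ) (z : ℂ) : ℂ :=
  (z * deriv H z) ^ 2 * Complex.exp (s * H z)

theorem gs_diff {H : ℂ → ℂ} (hH : DifferentiableOn ℂ H (ball 0 1)) (s : ℂ) :
    DifferentiableOn ℂ (gs H s) (ball 0 1) := (hH.const_mul s).cexp

theorem Bs_diff {H : ℂ → ℂ} (hH : DifferentiableOn ℂ H (ball 0 1)) (s : ℂ) :
    DifferentiableOn ℂ (Bs H s) (ball 0 1) :=
  ((differentiableOn_id.mul (hH.deriv isOpen_ball)).pow 2).mul (hH.const_mul s).cexp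

theorem gs_deriv {H : ℂ → ℂ} (hH : DifferentiableOn ℂ H (ball 0 1)) (s : ℂ) {z : ℂ}
    (hz : z ∈ ball (0 : ℂ) 1) : deriv (gs H s) z = s * deriv H z * gs H s z := by
  have h1 : HasDerivAt H (deriv H z) z := (hH.differentiableAt (isOpen_ball.mem_nhds hz)).hasDerivAt
  have h2 : HasDerivAt (fun w => Complex.exp (s * H w)) (Complex.exp (s * H z) * (s * deriv H z)) z :=
    (h1.const_mul s).cexp
  have h3 : deriv (gs H s) z = Complex.exp (s * H z) * (s * deriv H z) := h2.deriv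
  rw [h3]
  unfold gs
  ring

theorem gs_point {H : ℂ → ℂ} (hH : DifferentiableOn ℂ H (ball 0 1)) (s : ℂ) {z : ℂ}
    (hz : z ∈ ball (0 : ℂ) 1) {l : ℝ} (hl : 0 < l) :
    ‖z * deriv (gs H s) z‖ ^ 2
      ≤ ‖s‖ ^ 2 / 2 * (l * ‖Bs H s z‖ ^ 2 + l⁻¹ * ‖gs H s z‖ ^ 2) := by
  rw [gs_deriv hH s hz]
  have e1 : ‖z * (s * deriv H z * gs H s z)‖ ^ 2 = ‖s‖ ^ 2 * (‖Bs H s z‖ * ‖gs H s z‖) := by
    unfold Bs gs
    simp only [norm_mul, norm_pow]
    ring
  rw [e1]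
  have h2 : 2 * (‖Bs H s z‖ * ‖gs H s z‖) ≤ l * ‖Bs H s z‖ ^ 2 + l⁻¹ * ‖gs H s z‖ ^ 2 := by
    have h3 : 0 ≤ l⁻¹ * (l * ‖Bs H s z‖ - ‖gs H s z‖) ^ 2 := by positivity
    have h4 : l⁻¹ * (l * ‖Bs H s z‖ - ‖gs H s z‖) ^ 2
        = l * ‖Bs H s z‖ ^ 2 + l⁻¹ * ‖gs H s z‖ ^ 2 - 2 * (‖Bs H s z‖ * ‖gs H s z‖) := by
      field_simp
      ring
    linarith
  have h5 : 0 ≤ ‖s‖ ^ 2 / 2 := by positivity
  calc ‖s‖ ^ 2 * (‖Bs H s z‖ * ‖gs H s z‖)
      = ‖s‖ ^ 2 / 2 * (2 * (‖Bs H s z‖ * ‖gs H s z‖)) := by ring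
    _ ≤ _ := mul_le_mul_of_nonneg_left h2 h5

theorem sq_summable {f : ℂ → ℂ} (hf : DifferentiableOn ℂ f (ball 0 1)) {t : ℝ}
    (ht0 : 0 ≤ t) (ht1 : t < 1) : Summable fun m : ℕ => ‖coeff f m‖ ^ 2 * t ^ m := by
  have h0 : 0 ≤ √t := Real.sqrt_nonneg t
  have h1 : √t < 1 := by rw [Real.sqrt_lt' one_pos]; simpa using ht1
  have h := (parseval_comb hf 0 1 h0 h1).summable
  refine h.congr ?_
  intro m
  rw [zero_mul, zero_add, one_mul, pow_mul, Real.sq_sqrt ht0]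

theorem sq_summable2 {f : ℂ → ℂ} (hf : DifferentiableOn ℂ f (ball 0 1)) {t : ℝ}
    (ht0 : 0 ≤ t) (ht1 : t < 1) :
    Summable fun m : ℕ => (m : ℝ) ^ 2 * ‖coeff f m‖ ^ 2 * t ^ m := by
  have h0 : 0 ≤ √t := Real.sqrt_nonneg t
  have h1 : √t < 1 := by rw [Real.sqrt_lt' one_pos]; simpa using ht1
  have h := (parseval_comb hf 1 0 h0 h1).summable
  refine h.congr ?_
  intro m
  rw [one_mul, add_zero, pow_mul, Real.sq_sqrt ht0, norm_mul, Complex.norm_natCast, mul_pow]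

theorem circle_cont {F : ℂ → ℂ} (hF : ContinuousOn F (ball 0 1)) {r : ℝ} (hr : 0 ≤ r)
    (hr1 : r < 1) :
    Continuous fun θ : ℝ => ‖F ((r : ℂ) * Complex.exp ((θ : ℂ) * Complex.I))‖ ^ 2 := by
  apply Continuous.pow
  apply Continuous.norm
  have h1 : Continuous fun θ : ℝ => (r : ℂ) * Complex.exp ((θ : ℂ) * Complex.I) := by fun_prop
  apply hF.comp_continuous h1
  intro θ
  rw [mem_ball_zero_iff, norm_mul, Complex.norm_exp_ofReal_mul_I, mul_one, Complex.norm_real,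
    Real.norm_of_nonneg hr]
  exact hr1

theorem circle_ineq {H : ℂ → ℂ} (hH : DifferentiableOn ℂ H (ball 0 1)) (s : ℂ) {l t : ℝ}
    (hl : 0 < l) (ht0 : 0 ≤ t) (ht1 : t < 1) :
    ∑' m : ℕ, (m : ℝ) ^ 2 * ‖coeff (gs H s) m‖ ^ 2 * t ^ m
      ≤ ‖s‖ ^ 2 / 2 * (l * (∑' m : ℕ, ‖coeff (Bs H s) m‖ ^ 2 * t ^ m)
        + l⁻¹ * ∑' m : ℕ, ‖coeff (gs H s) m‖ ^ 2 * t ^ m) := by
  have h0 : 0 ≤ √t := Real.sqrt_nonneg t
  have h1 : √t < 1 := by rw [Real.sqrt_lt' one_pos]; simpa using ht1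
  have hg := gs_diff hH s
  have hB := Bs_diff hH s
  have p1 := parseval_comb hg 1 0 h0 h1
  have p2 := parseval_comb hB 0 1 h0 h1
  have p3 := parseval_comb hg 0 1 h0 h1
  have e1 : (fun m : ℕ => (m : ℝ) ^ 2 * ‖coeff (gs H s) m‖ ^ 2 * t ^ m)
      = fun m : ℕ => ‖((1 : ℂ) * m + 0) * coeff (gs H s) m‖ ^ 2 * √t ^ (2 * m) := by
    funext m
    rw [one_mul, add_zero, pow_mul, Real.sq_sqrt ht0, norm_mul, Complex.norm_natCast, mul_pow]
  have e2 : (fun m : ℕ => ‖coeff (Bs H s) m‖ ^ 2 * t ^ m)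
      = fun m : ℕ => ‖((0 : ℂ) * m + 1) * coeff (Bs H s) m‖ ^ 2 * √t ^ (2 * m) := by
    funext m
    rw [zero_mul, zero_add, one_mul, pow_mul, Real.sq_sqrt ht0]
  have e3 : (fun m : ℕ => ‖coeff (gs H s) m‖ ^ 2 * t ^ m)
      = fun m : ℕ => ‖((0 : ℂ) * m + 1) * coeff (gs H s) m‖ ^ 2 * √t ^ (2 * m) := by
    funext m
    rw [zero_mul, zero_add, one_mul, pow_mul, Real.sq_sqrt ht0]
  rw [e1, e2, e3, p1.tsum_eq, p2.tsum_eq, p3.tsum_eq]
  simp only [one_mul, zero_mul, add_zero, zero_add]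
  have hz : ∀ θ : ℝ, ((√t : ℝ) : ℂ) * Complex.exp ((θ : ℂ) * Complex.I) ∈ ball (0 : ℂ) 1 := by
    intro θ
    rw [mem_ball_zero_iff, norm_mul, Complex.norm_exp_ofReal_mul_I, mul_one, Complex.norm_real,
      Real.norm_of_nonneg h0]
    exact h1
  have c1 := circle_cont (F := fun z => z * deriv (gs H s) z)
    (continuousOn_id.mul (hg.deriv isOpen_ball).continuousOn) h0 h1
  have c2 := circle_cont hB.continuousOn h0 h1
  have c3 := circle_cont hg.continuousOn h0 h1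
  have m1 : ∫ θ in (-π)..π, ‖((√t : ℝ) : ℂ) * Complex.exp ((θ : ℂ) * Complex.I)
        * deriv (gs H s) (((√t : ℝ) : ℂ) * Complex.exp ((θ : ℂ) * Complex.I))‖ ^ 2
      ≤ ∫ θ in (-π)..π, ‖s‖ ^ 2 / 2 *
        (l * ‖Bs H s (((√t : ℝ) : ℂ) * Complex.exp ((θ : ℂ) * Complex.I))‖ ^ 2
        + l⁻¹ * ‖gs H s (((√t : ℝ) : ℂ) * Complex.exp ((θ : ℂ) * Complex.I))‖ ^ 2) := by
    apply intervalIntegral.integral_mono (by linarith [Real.pi_pos])
    · exact c1.intervalIntegrable _ _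
    · exact ((c2.const_mul l |>.add (c3.const_mul l⁻¹)).const_mul _).intervalIntegrable _ _
    · intro θ
      exact gs_point hH s (hz θ) hl
  rw [intervalIntegral.integral_const_mul, intervalIntegral.integral_add
    ((c2.const_mul l).intervalIntegrable _ _) ((c3.const_mul l⁻¹).intervalIntegrable _ _),
    intervalIntegral.integral_const_mul, intervalIntegral.integral_const_mul] at m1
  have hpi : 0 ≤ 1 / (2 * π) := by positivity
  have m2 := mul_le_mul_of_nonneg_left m1 hpi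
  refine m2.trans (le_of_eq ?_)
  ring

theorem rpow_int {a : ℝ} (ha : 0 < a) :
    IntervalIntegrable (fun x : ℝ => (1 - x) ^ (a - 1)) volume 0 1 := by
  have h := intervalIntegral.intervalIntegrable_rpow' (a := 0) (b := 1) (r := a - 1) (by linarith)
  have h2 := h.comp_sub_left 1
  simpa using h2.symm

theorem beta_ii {a : ℝ} (ha : 0 < a) (m : ℕ) :
    IntervalIntegrable (fun x : ℝ => x ^ m * (1 - x) ^ (a - 1)) volume 0 1 :=
  (rpow_int ha).continuousOn_mul (by fun_prop)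

theorem beta_int (m : ℕ) : ∀ {a : ℝ}, 0 < a →
    ∫ x in (0 : ℝ)..1, x ^ m * (1 - x) ^ (a - 1) = 1 / (a * pq (a + 1) m) := by
  induction m with
  | zero =>
    intro a ha
    simp only [pow_zero, one_mul, pq_zero, mul_one]
    have h := intervalIntegral.integral_comp_sub_left (fun y : ℝ => y ^ (a - 1)) (1 : ℝ)
      (a := 0) (b := 1)
    rw [h]
    simp only [sub_self, sub_zero]
    rw [integral_rpow (Or.inl (by linarith))]
    rw [Real.one_rpow, Real.zero_rpow (by linarith), sub_zero]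
    congr 1
    ring
  | succ m ih =>
    intro a ha
    have e1 : ∫ x in (0 : ℝ)..1, x ^ (m + 1) * (1 - x) ^ (a - 1)
        = (∫ x in (0 : ℝ)..1, x ^ m * (1 - x) ^ (a - 1))
          - ∫ x in (0 : ℝ)..1, x ^ m * (1 - x) ^ ((a + 1) - 1) := by
      rw [← intervalIntegral.integral_sub (beta_ii ha m) (beta_ii (by linarith) m)]
      apply intervalIntegral.integral_congr
      intro x hx
      rw [uIcc_of_le zero_le_one] at hx
      have h1 : 0 ≤ 1 - x := by linarith [hx.2]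
      have h2 : (1 - x) ^ ((a + 1) - 1) = (1 - x) ^ (a - 1) * (1 - x) := by
        have h3 := Real.rpow_add_one' h1 (y := a - 1) (by linarith)
        rw [← h3]
        congr 1
        ring
      simp only
      rw [h2]
      ring
    rw [e1, ih ha, ih (by linarith : 0 < a + 1)]
    have hP := pq_pos (by linarith : 0 < a + 1) m
    have h4 := pq_add_one (a + 1) m
    have h5 := pq_succ (a + 1) m
    have hm : (0 : ℝ) ≤ m := Nat.cast_nonneg m
    rw [h4, h5]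
    generalize pq (a + 1) m = P at *
    have h6 : 0 < a + 1 + m := by linarith
    have h7 : (0 : ℝ) < m + 1 := by linarith
    field_simp
    ring

theorem pq_ge_one {a : ℝ} (ha : 0 ≤ a) (m : ℕ) : 1 ≤ pq (a + 1) m := by
  induction m with
  | zero => simp [pq]
  | succ m ih =>
    rw [pq_succ]
    have hm : (0 : ℝ) ≤ m := Nat.cast_nonneg m
    have h1 : 1 ≤ (a + 1 + m) / ((m : ℝ) + 1) := by
      rw [one_le_div (by linarith)]
      linarith
    nlinarith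

theorem wsummable {c : ℕ → ℝ} (hc0 : ∀ m, 0 ≤ c m) (hc : Summable c) {a : ℝ} (ha : 0 < a) :
    Summable fun m => c m / (a * pq (a + 1) m) := by
  refine Summable.of_nonneg_of_le ?_ ?_ (hc.mul_right (1 / a))
  · intro m
    have := pq_ge_one ha.le m
    have := hc0 m
    positivity
  · intro m
    have h1 := pq_ge_one ha.le m
    have h2 := hc0 m
    rw [mul_one_div]
    apply div_le_div_of_nonneg_left h2 ha
    nlinarith

theorem series_bound {c : ℕ → ℝ} (hc0 : ∀ m, 0 ≤ c m) {x : ℝ} (hx0 : 0 ≤ x) (hx1 : x ≤ 1)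
    (m : ℕ) : ‖c m * x ^ m‖ ≤ c m := by
  rw [Real.norm_of_nonneg (mul_nonneg (hc0 m) (pow_nonneg hx0 m))]
  exact mul_le_of_le_one_right (hc0 m) (pow_le_one₀ hx0 hx1)

theorem series_summable {c : ℕ → ℝ} (hc0 : ∀ m, 0 ≤ c m) (hc : Summable c) {x : ℝ}
    (hx0 : 0 ≤ x) (hx1 : x ≤ 1) : Summable fun m => c m * x ^ m :=
  Summable.of_norm_bounded hc (series_bound hc0 hx0 hx1)

theorem series_cont {c : ℕ → ℝ} (hc0 : ∀ m, 0 ≤ c m) (hc : Summable c) :
    ContinuousOn (fun x : ℝ => ∑' m, c m * x ^ m) (uIcc 0 1) := by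
  rw [uIcc_of_le zero_le_one]
  apply continuousOn_tsum (u := c)
  · intro m
    fun_prop
  · exact hc
  · intro m x hx
    exact series_bound hc0 hx.1 hx.2 m

theorem series_ii {c : ℕ → ℝ} (hc0 : ∀ m, 0 ≤ c m) (hc : Summable c) {a : ℝ} (ha : 0 < a) :
    IntervalIntegrable (fun x : ℝ => (∑' m, c m * x ^ m) * (1 - x) ^ (a - 1)) volume 0 1 :=
  (rpow_int ha).continuousOn_mul (series_cont hc0 hc)

theorem series_int {c : ℕ → ℝ} (hc0 : ∀ m, 0 ≤ c m) (hc : Summable c) {a : ℝ} (ha : 0 < a) :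
    HasSum (fun m => c m / (a * pq (a + 1) m))
      (∫ x in (0 : ℝ)..1, (∑' m, c m * x ^ m) * (1 - x) ^ (a - 1)) := by
  have h := intervalIntegral.hasSum_integral_of_dominated_convergence (μ := volume) (a := (0 : ℝ))
    (b := 1) (F := fun (m : ℕ) (x : ℝ) => c m * (x ^ m * (1 - x) ^ (a - 1)))
    (f := fun x : ℝ => (∑' m, c m * x ^ m) * (1 - x) ^ (a - 1))
    (fun (m : ℕ) (x : ℝ) => c m * (1 - x) ^ (a - 1)) ?_ ?_ ?_ ?_ ?_
  · have e : (fun m => c m / (a * pq (a + 1) m))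
        = fun m : ℕ => ∫ x in (0 : ℝ)..1, c m * (x ^ m * (1 - x) ^ (a - 1)) := by
      funext m
      rw [intervalIntegral.integral_const_mul, beta_int m ha]
      ring
    rw [e]
    exact h
  · intro m
    have := ((beta_ii ha m).const_mul (c m)).aestronglyMeasurable
    rw [uIoc_of_le zero_le_one]
    exact this
  · intro m
    refine Filter.Eventually.of_forall ?_
    intro x hx
    rw [uIoc_of_le zero_le_one] at hx
    have h1 : 0 ≤ (1 - x) ^ (a - 1) := Real.rpow_nonneg (by linarith [hx.2]) _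
    rw [← mul_assoc, norm_mul, Real.norm_of_nonneg h1]
    exact mul_le_mul_of_nonneg_right (series_bound hc0 hx.1.le hx.2 m) h1
  · refine Filter.Eventually.of_forall ?_
    intro x _
    exact hc.mul_right _
  · have e : (fun x : ℝ => ∑' m, c m * (1 - x) ^ (a - 1))
        = fun x : ℝ => (∑' m, c m) * (1 - x) ^ (a - 1) := by
      funext x
      rw [tsum_mul_right]
    rw [e]
    exact (rpow_int ha).const_mul _
  · refine Filter.Eventually.of_forall ?_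
    intro x hx
    rw [uIoc_of_le zero_le_one] at hx
    have h1 := (series_summable hc0 hc hx.1.le hx.2).hasSum.mul_right ((1 - x) ^ (a - 1))
    simpa only [mul_assoc] using h1

/-- the weighted Cauchy-Schwarz inequality -/
theorem bergman_cs {H : ℂ → ℂ} (hH : DifferentiableOn ℂ H (Metric.ball 0 1)) (s : ℂ) {b μ t : ℝ}
    (hb : 0 < b) (hμ : 0 < μ) (ht0 : 0 ≤ t) (ht1 : t < 1) :
    (Summable fun m : ℕ => ‖coeff (Bs H s) m‖ ^ 2 * t ^ m / ((b + 4) * pq (b + 5) m)) ∧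
    (Summable fun m : ℕ => ‖coeff (gs H s) m‖ ^ 2 * t ^ m / (b * pq (b + 1) m)) ∧
    (Summable fun m : ℕ => (m : ℝ) ^ 2 * ‖coeff (gs H s) m‖ ^ 2 * t ^ m / ((b + 2) * pq (b + 3) m)) ∧
    ∑' m : ℕ, (m : ℝ) ^ 2 * ‖coeff (gs H s) m‖ ^ 2 * t ^ m / ((b + 2) * pq (b + 3) m)
      ≤ ‖s‖ ^ 2 / 2 * (μ * (∑' m : ℕ, ‖coeff (Bs H s) m‖ ^ 2 * t ^ m / ((b + 4) * pq (b + 5) m))
        + μ⁻¹ * ∑' m : ℕ, ‖coeff (gs H s) m‖ ^ 2 * t ^ m / (b * pq (b + 1) m)) := by
  have hg := gs_diff hH s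
  have hB := Bs_diff hH s
  have a4 : (0 : ℝ) < b + 4 := by linarith
  have a2 : (0 : ℝ) < b + 2 := by linarith
  have s1 := sq_summable hB ht0 ht1
  have s2 := sq_summable hg ht0 ht1
  have s3 := sq_summable2 hg ht0 ht1
  have n1 : ∀ m : ℕ, 0 ≤ ‖coeff (Bs H s) m‖ ^ 2 * t ^ m := fun m => by positivity
  have n2 : ∀ m : ℕ, 0 ≤ ‖coeff (gs H s) m‖ ^ 2 * t ^ m := fun m => by positivity
  have n3 : ∀ m : ℕ, 0 ≤ (m : ℝ) ^ 2 * ‖coeff (gs H s) m‖ ^ 2 * t ^ m := fun m => by positivity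
  have i1 := series_int n1 s1 a4
  have i2 := series_int n2 s2 hb
  have i3 := series_int n3 s3 a2
  have j1 := series_ii n1 s1 a4
  have j2 := series_ii n2 s2 hb
  have j3 := series_ii n3 s3 a2
  have E4 : b + 4 + 1 = b + 5 := by ring
  have E2 : b + 2 + 1 = b + 3 := by ring
  rw [E4] at i1
  rw [E2] at i3
  refine ⟨i1.summable, i2.summable, i3.summable, ?_⟩
  rw [i1.tsum_eq, i2.tsum_eq, i3.tsum_eq]
  rw [← intervalIntegral.integral_const_mul, ← intervalIntegral.integral_const_mul,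
    ← intervalIntegral.integral_add (j1.const_mul μ) (j2.const_mul μ⁻¹),
    ← intervalIntegral.integral_const_mul]
  apply intervalIntegral.integral_mono_on_of_le_Ioo zero_le_one j3
    (((j1.const_mul μ).add (j2.const_mul μ⁻¹)).const_mul _)
  intro x hx
  have hx0 : 0 < 1 - x := by linarith [hx.2]
  have hl : 0 < μ * (1 - x) ^ 2 := by positivity
  have htx0 : 0 ≤ t * x := mul_nonneg ht0 hx.1.le
  have htx1 : t * x < 1 := by nlinarith [hx.1, hx.2]
  have hc := circle_ineq hH s hl htx0 htx1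
  have r1 : (fun m : ℕ => (m : ℝ) ^ 2 * ‖coeff (gs H s) m‖ ^ 2 * t ^ m * x ^ m)
      = fun m : ℕ => (m : ℝ) ^ 2 * ‖coeff (gs H s) m‖ ^ 2 * (t * x) ^ m := by
    funext m; rw [mul_pow]; ring
  have r2 : (fun m : ℕ => ‖coeff (gs H s) m‖ ^ 2 * t ^ m * x ^ m)
      = fun m : ℕ => ‖coeff (gs H s) m‖ ^ 2 * (t * x) ^ m := by
    funext m; rw [mul_pow]; ring
  have r3 : (fun m : ℕ => ‖coeff (Bs H s) m‖ ^ 2 * t ^ m * x ^ m)
      = fun m : ℕ => ‖coeff (Bs H s) m‖ ^ 2 * (t * x) ^ m := by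
    funext m; rw [mul_pow]; ring
  simp only [r1, r2, r3]
  have hw : 0 ≤ (1 - x) ^ (b + 2 - 1) := Real.rpow_nonneg hx0.le _
  have w1 : (1 - x) ^ (b + 4 - 1) = (1 - x) ^ (b + 2 - 1) * (1 - x) ^ 2 := by
    rw [← Real.rpow_natCast, ← Real.rpow_add hx0]
    congr 1
    push_cast
    ring
  have w2 : (1 - x) ^ (b - 1) = (1 - x) ^ (b + 2 - 1) * ((1 - x) ^ 2)⁻¹ := by
    rw [← Real.rpow_natCast, ← Real.rpow_neg hx0.le, ← Real.rpow_add hx0]
    congr 1
    push_cast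
    ring
  rw [w1, w2]
  have h2 := mul_le_mul_of_nonneg_right hc hw
  refine h2.trans (le_of_eq ?_)
  rw [mul_inv]
  ring

end Pool.Agent.Helper39.HR
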