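import Mathlib
import Pool.Agent.Helper63.PolyBox.Basic

/-!
MP_16b0ee, project HR: polynomial inequalities on the region `r² ≤ ρ ≤ 1/4`.
-/

set_option autoImplicit false

namespace Pool.Agent.Helper39.HR

open Pool.Agent.Helper63.PolyBox

/-- the polynomial `r² - ρ` -/
def OUT : List (List ℤ) := [[262144, -1024], [-1024], [1]]

theorem OUT_val (r ρ : ℝ) : Rep.val [1024 * r + 512, 1024 * ρ] OUT = 1048576 * (r ^ 2 - ρ) := by
  simp only [OUT, Rep.val, lval]
  push_cast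
  ring

theorem pos_of_run {M : List (List ℤ)} {fuel code : ℕ}
    (h : run [[OUT], [M]] fuel code [[(0, 1024), (0, 256)]] = true) {r ρ : ℝ}
    (h1 : r ^ 2 ≤ ρ) (h2 : ρ ≤ 1 / 4) : 0 < Rep.val [1024 * r + 512, 1024 * ρ] M := by
  have hr : |r| ≤ 1 / 2 := by
    have : r ^ 2 ≤ (1 / 2) ^ 2 := by linarith
    exact abs_le_of_sq_le_sq this (by norm_num)
  have hr' := abs_le.mp hr
  have hρ : 0 ≤ ρ := (sq_nonneg r).trans h1
  have hbox : InBox [(0, 1024), (0, 256)] [1024 * r + 512, 1024 * ρ] := by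
    unfold InBox
    refine List.Forall₂.cons ⟨?_, ?_⟩ (List.Forall₂.cons ⟨?_, ?_⟩ List.Forall₂.nil) <;>
      push_cast <;> linarith [hr'.1, hr'.2]
  obtain ⟨ps, hps, hpos⟩ := run_sound _ _ _ _ h _ (by simp) _ hbox
  simp only [List.mem_cons, List.not_mem_nil, or_false] at hps
  rcases hps with rfl | rfl
  · have e0 := hpos OUT (by simp)
    rw [OUT_val] at e0
    exfalso
    linarith
  · exact hpos M (by simp)

theorem pos_of_run_box {M : List (List ℤ)} {fuel code : ℕ} {cx hx cy hy : ℤ}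
    (h : run [[OUT], [M]] fuel code [[(cx, hx), (cy, hy)]] = true) {r ρ : ℝ}
    (h1 : r ^ 2 ≤ ρ) (hx1 : (cx : ℝ) ≤ 1024 * r + 512) (hx2 : 1024 * r + 512 ≤ cx + hx)
    (hy1 : (cy : ℝ) ≤ 1024 * ρ) (hy2 : 1024 * ρ ≤ cy + hy) :
    0 < Rep.val [1024 * r + 512, 1024 * ρ] M := by
  have hbox : InBox [(cx, hx), (cy, hy)] [1024 * r + 512, 1024 * ρ] := by
    unfold InBox
    exact List.Forall₂.cons ⟨hx1, hx2⟩ (List.Forall₂.cons ⟨hy1, hy2⟩ List.Forall₂.nil)
  obtain ⟨ps, hps, hpos⟩ := run_sound _ _ _ _ h _ (by simp) _ hbox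
  simp only [List.mem_cons, List.not_mem_nil, or_false] at hps
  rcases hps with rfl | rfl
  · have e0 := hpos OUT (by simp)
    rw [OUT_val] at e0
    exfalso
    linarith
  · exact hpos M (by simp)

end Pool.Agent.Helper39.HR
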