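import Mathlib
import Pool.Agent.Helper22.Half.Binom

/-!
MP_16b0ee, project HR: three functionals on the antidiagonal of a palindromic sequence.
-/

set_option autoImplicit false

namespace Pool.Agent.Helper39.HR

open Pool.Agent.Helper22.Half

/-- the functional attached to a sequence `f` -/
noncomputable def Fn (s : ℂ) (d : ℕ → ℂ) (m : ℕ) (f : ℕ → ℂ) : ℂ :=
  ∑ i ∈ Finset.range m, pq (2 + s) (m - 1 - i) * f i * Vd s d m i

theorem Fn_swap (s : ℂ) (d : ℕ → ℂ) (m : ℕ) (f : ℕ → ℂ) :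
    Fn s d m f = ∑ l ∈ Finset.range (m + 1), (∑ k ∈ Finset.range (m - l),
      pq (2 + s) (m - 1 - (l + k)) * f (l + k) * pq (-s) k) * d l := by
  have h := sum_tri (fun l i => pq (2 + s) (m - 1 - i) * f i * pq (-s) (i - l) * d l) m
  unfold Fn
  have e1 : ∀ i ∈ Finset.range m, pq (2 + s) (m - 1 - i) * f i * Vd s d m i
      = ∑ l ∈ Finset.range (i + 1), pq (2 + s) (m - 1 - i) * f i * pq (-s) (i - l) * d l := by
    intro i hi
    rw [Finset.mem_range] at hi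
    unfold Vd
    have e : min i m = i := by omega
    rw [e, Finset.mul_sum]
    apply Finset.sum_congr rfl
    intro l _
    ring
  rw [Finset.sum_congr rfl e1, ← h]
  apply Finset.sum_congr rfl
  intro l _
  rw [Finset.sum_mul]
  apply Finset.sum_congr rfl
  intro k _
  have e2 : l + k - l = k := by omega
  rw [e2]

theorem Fn_add (s : ℂ) (d : ℕ → ℂ) (m : ℕ) (f g : ℕ → ℂ) :
    Fn s d m (fun i => f i + g i) = Fn s d m f + Fn s d m g := by
  unfold Fn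
  rw [← Finset.sum_add_distrib]
  apply Finset.sum_congr rfl
  intro i _
  ring

theorem Fn_smul (s : ℂ) (d : ℕ → ℂ) (m : ℕ) (c : ℂ) (f : ℕ → ℂ) :
    Fn s d m (fun i => c * f i) = c * Fn s d m f := by
  unfold Fn
  rw [Finset.mul_sum]
  apply Finset.sum_congr rfl
  intro i _
  ring

theorem Fn_congr {s : ℂ} {d : ℕ → ℂ} {m : ℕ} {f g : ℕ → ℂ} (h : ∀ i < m, f i = g i) :
    Fn s d m f = Fn s d m g := by
  unfold Fn
  apply Finset.sum_congr rfl
  intro i hi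
  rw [Finset.mem_range] at hi
  rw [h i hi]

theorem pq3 (n : ℕ) : pq (3 : ℂ) n = ((n : ℂ) + 1) * (n + 2) / 2 := by
  have h := pq_add_one (2 : ℂ) n
  rw [pq_two] at h
  have e : (2 : ℂ) + 1 = 3 := by norm_num
  rw [e] at h
  linear_combination h / 2

theorem pq4 (n : ℕ) : pq (4 : ℂ) n = ((n : ℂ) + 1) * (n + 2) * (n + 3) / 6 := by
  have h := pq_add_one (3 : ℂ) n
  rw [pq3] at h
  have e : (3 : ℂ) + 1 = 4 := by norm_num
  rw [e] at h
  linear_combination h / 3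

theorem inner_sum (z w t : ℂ) (hz : z + w = t) (M : ℕ) :
    ∑ k ∈ Finset.range M, pq z (M - 1 - k) * pq w k = if M = 0 then 0 else pq t (M - 1) := by
  cases M with
  | zero => simp
  | succ M =>
    rw [if_neg (Nat.succ_ne_zero M), Nat.add_sub_cancel, ← hz, add_comm z w, ← vander w z M]
    apply Finset.sum_congr rfl
    intro k _
    ring

theorem inner2 (s : ℂ) (M : ℕ) :
    ∑ k ∈ Finset.range M, pq (2 + s) (M - 1 - k) * pq (-s) k = M := by
  rw [inner_sum (2 + s) (-s) 2 (by ring)]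
  cases M with
  | zero => simp
  | succ M =>
    rw [if_neg (Nat.succ_ne_zero M), Nat.add_sub_cancel, pq_two]
    push_cast
    ring

theorem inner3 (s : ℂ) (M : ℕ) :
    ∑ k ∈ Finset.range M, pq (3 + s) (M - 1 - k) * pq (-s) k = M * (M + 1) / 2 := by
  rw [inner_sum (3 + s) (-s) 3 (by ring)]
  cases M with
  | zero => simp
  | succ M =>
    rw [if_neg (Nat.succ_ne_zero M), Nat.add_sub_cancel, pq3]
    push_cast
    ring

theorem inner4 (s : ℂ) (M : ℕ) :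
    ∑ k ∈ Finset.range M, pq (4 + s) (M - 1 - k) * pq (-s) k = M * (M + 1) * (M + 2) / 6 := by
  rw [inner_sum (4 + s) (-s) 4 (by ring)]
  cases M with
  | zero => simp
  | succ M =>
    rw [if_neg (Nat.succ_ne_zero M), Nat.add_sub_cancel, pq4]
    push_cast
    ring

/-- the moments of a palindromic sequence -/
noncomputable def Sk (d : ℕ → ℂ) (m k : ℕ) : ℂ := ∑ l ∈ Finset.range (m + 1), (l : ℂ) ^ k * d l

theorem Sk_reflect (d : ℕ → ℂ) (m k : ℕ) (hd : ∀ l ≤ m, d l = d (m - l)) :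
    ∑ l ∈ Finset.range (m + 1), ((m - l : ℕ) : ℂ) ^ k * d l = Sk d m k := by
  unfold Sk
  rw [← Finset.sum_range_reflect]
  apply Finset.sum_congr rfl
  intro l hl
  rw [Finset.mem_range] at hl
  have e1 : m + 1 - 1 - l = m - l := by omega
  have e2 : m - (m - l) = l := by omega
  rw [e1, e2, ← hd l (by omega)]

theorem Sk_one (d : ℕ → ℂ) (m : ℕ) (hd : ∀ l ≤ m, d l = d (m - l)) :
    Sk d m 1 = m * Sk d m 0 / 2 := by
  have h := Sk_reflect d m 1 hd
  have h2 : ∑ l ∈ Finset.range (m + 1), ((m - l : ℕ) : ℂ) ^ 1 * d l = m * Sk d m 0 - Sk d m 1 := by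
    unfold Sk
    rw [Finset.mul_sum, ← Finset.sum_sub_distrib]
    apply Finset.sum_congr rfl
    intro l hl
    rw [Finset.mem_range] at hl
    rw [Nat.cast_sub (by omega)]
    ring
  rw [h2] at h
  linear_combination -h / 2

theorem Sk_three (d : ℕ → ℂ) (m : ℕ) (hd : ∀ l ≤ m, d l = d (m - l)) :
    Sk d m 3 = (3 * m * Sk d m 2 - m ^ 3 * Sk d m 0 / 2) / 2 := by
  have h := Sk_reflect d m 3 hd
  have h1 := Sk_one d m hd
  have h2 : ∑ l ∈ Finset.range (m + 1), ((m - l : ℕ) : ℂ) ^ 3 * d l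
      = m ^ 3 * Sk d m 0 - 3 * m ^ 2 * Sk d m 1 + 3 * m * Sk d m 2 - Sk d m 3 := by
    unfold Sk
    rw [Finset.mul_sum, Finset.mul_sum, Finset.mul_sum, ← Finset.sum_sub_distrib,
      ← Finset.sum_add_distrib, ← Finset.sum_sub_distrib]
    apply Finset.sum_congr rfl
    intro l hl
    rw [Finset.mem_range] at hl
    rw [Nat.cast_sub (by omega)]
    ring
  rw [h2] at h
  linear_combination -h / 2 - (3 / 2) * m ^ 2 * h1

theorem Fn_one (s : ℂ) (d : ℕ → ℂ) (m : ℕ) (hd : ∀ l ≤ m, d l = d (m - l)) :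
    Fn s d m (fun _ => 1) = m * Sk d m 0 / 2 := by
  rw [← Sk_one d m hd, ← Sk_reflect d m 1 hd, Fn_swap]
  apply Finset.sum_congr rfl
  intro l hl
  rw [Finset.mem_range] at hl
  rw [pow_one, ← inner2 s (m - l)]
  congr 1
  apply Finset.sum_congr rfl
  intro k hk
  rw [Finset.mem_range] at hk
  have e : m - 1 - (l + k) = m - l - 1 - k := by omega
  rw [e]
  ring

theorem Fn_two (s : ℂ) (d : ℕ → ℂ) (m : ℕ) (hd : ∀ l ≤ m, d l = d (m - l)) :
    Fn s d m (fun i => ((m - i : ℕ) : ℂ) + 1 + s) = (2 + s) * (Sk d m 2 + Sk d m 1) / 2 := by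
  rw [← Sk_reflect d m 1 hd, ← Sk_reflect d m 2 hd, ← Finset.sum_add_distrib, mul_div_assoc,
    Finset.sum_div, Finset.mul_sum, Fn_swap]
  apply Finset.sum_congr rfl
  intro l hl
  rw [Finset.mem_range] at hl
  have h := inner3 s (m - l)
  have e0 : (2 + s) * ((((m - l : ℕ) : ℂ) ^ 2 * d l + ((m - l : ℕ) : ℂ) ^ 1 * d l) / 2)
      = ((2 + s) * (((m - l : ℕ) : ℂ) * (((m - l : ℕ) : ℂ) + 1) / 2)) * d l := by ring
  rw [e0, ← h, Finset.mul_sum]
  congr 1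
  apply Finset.sum_congr rfl
  intro k hk
  rw [Finset.mem_range] at hk
  have e : m - 1 - (l + k) = m - l - 1 - k := by omega
  have e2 : ((m - (l + k) : ℕ) : ℂ) = ((m - l - 1 - k : ℕ) : ℂ) + 1 := by
    have : m - (l + k) = (m - l - 1 - k) + 1 := by omega
    rw [this]
    push_cast
    ring
  rw [e, e2]
  have h2 := pq_add_one (2 + s) (m - l - 1 - k)
  have e3 : (2 + s + 1 : ℂ) = 3 + s := by ring
  rw [e3] at h2
  linear_combination (-pq (-s) k) * h2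

theorem Fn_three (s : ℂ) (d : ℕ → ℂ) (m : ℕ) (hd : ∀ l ≤ m, d l = d (m - l)) :
    Fn s d m (fun i => (((m - i : ℕ) : ℂ) + 1 + s) * (((m - i : ℕ) : ℂ) + 2 + s))
      = (2 + s) * (3 + s) * (Sk d m 3 + 3 * Sk d m 2 + 2 * Sk d m 1) / 6 := by
  rw [← Sk_reflect d m 1 hd, ← Sk_reflect d m 2 hd, ← Sk_reflect d m 3 hd, Finset.mul_sum,
    Finset.mul_sum, ← Finset.sum_add_distrib, ← Finset.sum_add_distrib, mul_div_assoc,
    Finset.sum_div, Finset.mul_sum, Fn_swap]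
  apply Finset.sum_congr rfl
  intro l hl
  rw [Finset.mem_range] at hl
  have h := inner4 s (m - l)
  have e0 : (2 + s) * (3 + s) * ((((m - l : ℕ) : ℂ) ^ 3 * d l + 3 * (((m - l : ℕ) : ℂ) ^ 2 * d l)
      + 2 * (((m - l : ℕ) : ℂ) ^ 1 * d l)) / 6)
      = ((2 + s) * (3 + s) * (((m - l : ℕ) : ℂ) * (((m - l : ℕ) : ℂ) + 1)
        * (((m - l : ℕ) : ℂ) + 2) / 6)) * d l := by ring
  rw [e0, ← h, Finset.mul_sum]
  congr 1
  apply Finset.sum_congr rfl
  intro k hk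
  rw [Finset.mem_range] at hk
  have e : m - 1 - (l + k) = m - l - 1 - k := by omega
  have e2 : ((m - (l + k) : ℕ) : ℂ) = ((m - l - 1 - k : ℕ) : ℂ) + 1 := by
    have : m - (l + k) = (m - l - 1 - k) + 1 := by omega
    rw [this]
    push_cast
    ring
  rw [e, e2]
  have h2 := pq_add_one (2 + s) (m - l - 1 - k)
  have h3 := pq_add_one (3 + s) (m - l - 1 - k)
  have e3 : (2 + s + 1 : ℂ) = 3 + s := by ring
  have e4 : (3 + s + 1 : ℂ) = 4 + s := by ring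
  rw [e3] at h2
  rw [e4] at h3
  linear_combination (-pq (-s) k * (3 + s + ((m - l - 1 - k : ℕ) : ℂ))) * h2
    - (2 + s) * pq (-s) k * h3

/-- the second functional -/
noncomputable def Ls (d : ℕ → ℂ) (m : ℕ) : ℂ := 6 * Sk d m 2 - 2 * m ^ 2 * Sk d m 0

/-- the sequence `m² z̃` -/
noncomputable def zt (s : ℂ) (m i : ℕ) : ℂ :=
  (2 + s) * (3 + s) * ((m + 1) * (m + 2)) - 6 * (3 + s) * (m + 2) * (((m - i : ℕ) : ℂ) + 1 + s)
    + 12 * ((((m - i : ℕ) : ℂ) + 1 + s) * (((m - i : ℕ) : ℂ) + 2 + s))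

/-- the sequence `m² q̃` -/
noncomputable def qt (s : ℂ) (m i : ℕ) : ℂ :=
  (2 + s) * (3 + s) * (m ^ 2 + 6 * m + 6) - 12 * (3 + s) * (m + 3) * (((m - i : ℕ) : ℂ) + 1 + s)
    + 36 * ((((m - i : ℕ) : ℂ) + 1 + s) * (((m - i : ℕ) : ℂ) + 2 + s))

theorem Fn_comb (s : ℂ) (d : ℕ → ℂ) (m : ℕ) (hd : ∀ l ≤ m, d l = d (m - l)) (a b c : ℂ) :
    Fn s d m (fun i => a + b * (((m - i : ℕ) : ℂ) + 1 + s)
      + c * ((((m - i : ℕ) : ℂ) + 1 + s) * (((m - i : ℕ) : ℂ) + 2 + s)))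
    = a * (m * Sk d m 0 / 2) + b * ((2 + s) * (Sk d m 2 + Sk d m 1) / 2)
      + c * ((2 + s) * (3 + s) * (Sk d m 3 + 3 * Sk d m 2 + 2 * Sk d m 1) / 6) := by
  rw [Fn_add, Fn_add, Fn_smul, Fn_smul, Fn_two s d m hd, Fn_three s d m hd, ← Fn_one s d m hd,
    ← Fn_smul]
  simp only [mul_one]

theorem Fn_zt (s : ℂ) (d : ℕ → ℂ) (m : ℕ) (hd : ∀ l ≤ m, d l = d (m - l)) :
    Fn s d m (zt s m) = 0 := by
  have h := Fn_comb s d m hd ((2 + s) * (3 + s) * ((m + 1) * (m + 2)))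
    (-(6 * (3 + s) * (m + 2))) 12
  have e : Fn s d m (zt s m) = Fn s d m (fun i => (2 + s) * (3 + s) * ((m + 1) * (m + 2))
      + -(6 * (3 + s) * (m + 2)) * (((m - i : ℕ) : ℂ) + 1 + s)
      + 12 * ((((m - i : ℕ) : ℂ) + 1 + s) * (((m - i : ℕ) : ℂ) + 2 + s))) := by
    apply Fn_congr
    intro i _
    unfold zt
    ring
  rw [e, h, Sk_three d m hd, Sk_one d m hd]
  ring

theorem Fn_qt (s : ℂ) (d : ℕ → ℂ) (m : ℕ) (hd : ∀ l ≤ m, d l = d (m - l)) :
    Fn s d m (qt s m) = (2 + s) * (3 + s) * (m * Ls d m / 2) := by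
  have h := Fn_comb s d m hd ((2 + s) * (3 + s) * (m ^ 2 + 6 * m + 6))
    (-(12 * (3 + s) * (m + 3))) 36
  have e : Fn s d m (qt s m) = Fn s d m (fun i => (2 + s) * (3 + s) * (m ^ 2 + 6 * m + 6)
      + -(12 * (3 + s) * (m + 3)) * (((m - i : ℕ) : ℂ) + 1 + s)
      + 36 * ((((m - i : ℕ) : ℂ) + 1 + s) * (((m - i : ℕ) : ℂ) + 2 + s))) := by
    apply Fn_congr
    intro i _
    unfold qt
    ring
  rw [e, h, Sk_three d m hd, Sk_one d m hd]
  unfold Ls
  ring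

end Pool.Agent.Helper39.HR
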