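import Mathlib
import Pool.Agent.Helper22.Half.Core
import Pool.Agent.Helper39.HR.FunId

/-!
MP_16b0ee, project HR: the lower bound of `Pf` by two functionals.
-/

set_option autoImplicit false

namespace Pool.Agent.Helper39.HR

open Pool.Agent.Helper22.Half

/-- Cauchy-Schwarz for the functional `Fn` -/
theorem Fn_cs {s : ℂ} (hs : ‖s‖ < 1 / 2) {b : ℝ} (hb : 0 < b) {K : ℝ}
    (hK : ∀ n, kap s.re (‖s‖ ^ 2) n ≤ K) (d : ℕ → ℂ) (m : ℕ) (f : ℕ → ℂ) :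
    ‖Fn s d m f‖ ^ 2 ≤ K * (∑ i ∈ Finset.range m, Wt b s.re m i * ‖f i‖ ^ 2) * Pf s b d m := by
  have hre := Complex.abs_re_le_norm s
  have hre2 := abs_lt.mp (hre.trans_lt hs)
  have hσ : 0 < b + 1 - 2 * s.re := by linarith
  have h1s0 : (1 + s) ≠ 0 := by
    intro h
    have h2 : s = -1 := by linear_combination h
    rw [h2] at hs
    simp at hs
    norm_num at hs
  have h1s : 0 < ‖1 + s‖ ^ 2 := by
    have := norm_pos_iff.mpr h1s0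
    positivity
  have hcs := cs_aux m (fun i => pq (b + 1 - 2 * s.re) i) (fun i => pq_pos hσ i)
    (fun i => pq (1 + s) (m - i)) (fun i => Vd s d m i) f
  have e1 : ∑ i ∈ Finset.range m, ((m - i : ℕ) : ℂ) * pq (1 + s) (m - i) * Vd s d m i * f i
      = (1 + s) * Fn s d m f := by
    unfold Fn
    rw [Finset.mul_sum]
    apply Finset.sum_congr rfl
    intro i hi
    rw [Finset.mem_range] at hi
    have h := pq_shift (1 + s) (m - 1 - i)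
    have e : m - 1 - i + 1 = m - i := by omega
    have e2 : ((m - 1 - i : ℕ) : ℂ) + 1 = ((m - i : ℕ) : ℂ) := by
      rw [← e]
      push_cast
      ring
    have e3 : (1 + s + 1 : ℂ) = 2 + s := by ring
    rw [e2, e, e3] at h
    linear_combination (Vd s d m i * f i) * h
  rw [e1, norm_mul, mul_pow] at hcs
  have hsum : ∑ i ∈ Finset.range m, ((m - i : ℕ) : ℝ) * ‖pq (1 + s) (m - i)‖ ^ 2
      * pq (b + 1 - 2 * s.re) i * ‖f i‖ ^ 2
      ≤ ‖1 + s‖ ^ 2 * (K * ∑ i ∈ Finset.range m, Wt b s.re m i * ‖f i‖ ^ 2) := by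
    rw [Finset.mul_sum, Finset.mul_sum]
    apply Finset.sum_le_sum
    intro i hi
    rw [Finset.mem_range] at hi
    have h1 := norm_Q s (by linarith : -1 < s.re) (m - 1 - i)
    have e1 : m - 1 - i + 1 = m - i := by omega
    have e2 : ((m - 1 - i : ℕ) : ℝ) + 1 = ((m - i : ℕ) : ℝ) := by exact_mod_cast e1
    rw [e1, e2] at h1
    rw [h1]
    unfold Wt
    have p1 := pq_pos (by linarith : 0 < 2 + 2 * s.re) (m - 1 - i)
    have p2 := pq_pos hσ i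
    calc ‖1 + s‖ ^ 2 * kap s.re (‖s‖ ^ 2) (m - 1 - i) * pq (2 + 2 * s.re) (m - 1 - i)
          * pq (b + 1 - 2 * s.re) i * ‖f i‖ ^ 2
        ≤ ‖1 + s‖ ^ 2 * K * pq (2 + 2 * s.re) (m - 1 - i)
          * pq (b + 1 - 2 * s.re) i * ‖f i‖ ^ 2 := by
          have := hK (m - 1 - i)
          gcongr
      _ = _ := by ring
  have hP := Pf_nonneg hσ d m
  have h4 := hcs.trans (mul_le_mul_of_nonneg_right hsum hP)
  rw [mul_assoc (‖1 + s‖ ^ 2)] at h4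
  exact le_of_mul_le_mul_left h4 h1s

/-- duality for two functionals -/
theorem gram_two {v1 v2 : ℂ} {A1 A2 M : ℝ} (hA1 : 0 < A1) (hA2 : 0 < A2)
    (h : ∀ α β : ℂ, ‖α * v1 + β * v2‖ ^ 2 ≤ M * (A1 * ‖α‖ ^ 2 + A2 * ‖β‖ ^ 2)) :
    ‖v1‖ ^ 2 / A1 + ‖v2‖ ^ 2 / A2 ≤ M := by
  obtain ⟨T, hT⟩ : ∃ T, T = ‖v1‖ ^ 2 / A1 + ‖v2‖ ^ 2 / A2 := ⟨_, rfl⟩
  have hT0 : 0 ≤ T := by rw [hT]; positivity
  have h1 := h ((starRingEnd ℂ) v1 / A1) ((starRingEnd ℂ) v2 / A2)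
  have e1 : (starRingEnd ℂ) v1 / A1 * v1 + (starRingEnd ℂ) v2 / A2 * v2 = ((T : ℝ) : ℂ) := by
    have c1 : (starRingEnd ℂ) v1 * v1 = ((‖v1‖ ^ 2 : ℝ) : ℂ) := by
      rw [← Complex.normSq_eq_norm_sq, mul_comm, Complex.mul_conj]
    have c2 : (starRingEnd ℂ) v2 * v2 = ((‖v2‖ ^ 2 : ℝ) : ℂ) := by
      rw [← Complex.normSq_eq_norm_sq, mul_comm, Complex.mul_conj]
    have c3 : (starRingEnd ℂ) v1 / A1 * v1 + (starRingEnd ℂ) v2 / A2 * v2
        = ((starRingEnd ℂ) v1 * v1) / A1 + ((starRingEnd ℂ) v2 * v2) / A2 := by ring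
    rw [c3, c1, c2, hT]
    push_cast
    ring
  have e2 : A1 * ‖(starRingEnd ℂ) v1 / (A1 : ℂ)‖ ^ 2 + A2 * ‖(starRingEnd ℂ) v2 / (A2 : ℂ)‖ ^ 2
      = T := by
    rw [norm_div, norm_div, RCLike.norm_conj, RCLike.norm_conj, Complex.norm_real,
      Complex.norm_real, Real.norm_of_nonneg hA1.le, Real.norm_of_nonneg hA2.le, hT]
    field_simp
  rw [e1, e2, Complex.norm_real, Real.norm_of_nonneg hT0] at h1
  rw [← hT]
  rcases hT0.eq_or_lt with h0 | h0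
  · have h2 := h 1 0
    have h3 := h 0 1
    simp only [one_mul, zero_mul, add_zero, norm_one, norm_zero, one_pow] at h2
    have h4 : 0 ≤ M * A1 := by
      refine le_trans (sq_nonneg ‖v1‖) (h2.trans (le_of_eq ?_))
      ring
    rw [← h0]
    by_contra hM
    push Not at hM
    have := mul_neg_of_neg_of_pos hM hA1
    linarith
  · have : T * T ≤ M * T := by rw [← sq]; exact h1
    exact le_of_mul_le_mul_right this h0

/-- the iterated shift of the weights -/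
theorem rise1 (z : ℝ) (n : ℕ) : pq z n * (z + n) = z * pq (z + 1) n := (pq_add_one z n).symm

theorem sum_rise1 {b r : ℝ} {m : ℕ} (hm : 1 ≤ m) :
    (b + 3) * ∑ i ∈ Finset.range m, Wt b r m i * (2 + 2 * r + (m - 1 - i : ℕ))
      = (2 + 2 * r) * (b + 3 + (m - 1 : ℕ)) * pq (b + 3) (m - 1) := by
  have h1 : ∑ i ∈ Finset.range m, Wt b r m i * (2 + 2 * r + (m - 1 - i : ℕ))
      = (2 + 2 * r) * pq (b + 4) (m - 1) := by
    have h2 := sum_shift (2 + 2 * r + 1) (b + 1 - 2 * r) hm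
    have e : 2 + 2 * r + 1 + (b + 1 - 2 * r) = b + 4 := by ring
    rw [e] at h2
    rw [← h2, Finset.mul_sum]
    apply Finset.sum_congr rfl
    intro i _
    unfold Wt
    linear_combination (pq (b + 1 - 2 * r) i) * rise1 (2 + 2 * r) (m - 1 - i)
  have h3 := rise1 (b + 3) (m - 1)
  have e : b + 3 + 1 = b + 4 := by ring
  rw [e] at h3
  rw [h1]
  linear_combination -(2 + 2 * r) * h3

theorem sum_rise2 {b r : ℝ} {m : ℕ} (hm : 1 ≤ m) :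
    (b + 3) * (b + 4) * ∑ i ∈ Finset.range m, Wt b r m i *
      ((2 + 2 * r + (m - 1 - i : ℕ)) * (3 + 2 * r + (m - 1 - i : ℕ)))
      = (2 + 2 * r) * (3 + 2 * r) * ((b + 3 + (m - 1 : ℕ)) * (b + 4 + (m - 1 : ℕ)))
        * pq (b + 3) (m - 1) := by
  have h1 : ∑ i ∈ Finset.range m, Wt b r m i *
      ((2 + 2 * r + (m - 1 - i : ℕ)) * (3 + 2 * r + (m - 1 - i : ℕ)))
      = (2 + 2 * r) * (3 + 2 * r) * pq (b + 5) (m - 1) := by
    have h2 := sum_shift (2 + 2 * r + 1 + 1) (b + 1 - 2 * r) hm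
    have e : 2 + 2 * r + 1 + 1 + (b + 1 - 2 * r) = b + 5 := by ring
    rw [e] at h2
    rw [← h2, Finset.mul_sum]
    apply Finset.sum_congr rfl
    intro i _
    unfold Wt
    have g1 := rise1 (2 + 2 * r) (m - 1 - i)
    have g2 := rise1 (2 + 2 * r + 1) (m - 1 - i)
    linear_combination (pq (b + 1 - 2 * r) i * (3 + 2 * r + ((m - 1 - i : ℕ) : ℝ))) * g1
      + (pq (b + 1 - 2 * r) i * (2 + 2 * r)) * g2
  have h3 := rise1 (b + 3) (m - 1)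
  have h4 := rise1 (b + 4) (m - 1)
  have e : b + 3 + 1 = b + 4 := by ring
  have e' : b + 4 + 1 = b + 5 := by ring
  rw [e] at h3
  rw [e'] at h4
  rw [h1]
  linear_combination -(2 + 2 * r) * (3 + 2 * r) * (b + 4 + ((m - 1 : ℕ) : ℝ)) * h3
    - (2 + 2 * r) * (3 + 2 * r) * (b + 3) * h4

theorem sum_rise3 {b r : ℝ} {m : ℕ} (hm : 1 ≤ m) :
    (b + 3) * (b + 4) * (b + 5) * ∑ i ∈ Finset.range m, Wt b r m i *
      ((2 + 2 * r + (m - 1 - i : ℕ)) * (3 + 2 * r + (m - 1 - i : ℕ))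
        * (4 + 2 * r + (m - 1 - i : ℕ)))
      = (2 + 2 * r) * (3 + 2 * r) * (4 + 2 * r) * ((b + 3 + (m - 1 : ℕ)) * (b + 4 + (m - 1 : ℕ))
        * (b + 5 + (m - 1 : ℕ))) * pq (b + 3) (m - 1) := by
  have h1 : ∑ i ∈ Finset.range m, Wt b r m i *
      ((2 + 2 * r + (m - 1 - i : ℕ)) * (3 + 2 * r + (m - 1 - i : ℕ))
        * (4 + 2 * r + (m - 1 - i : ℕ)))
      = (2 + 2 * r) * (3 + 2 * r) * (4 + 2 * r) * pq (b + 6) (m - 1) := by
    have h2 := sum_shift (2 + 2 * r + 1 + 1 + 1) (b + 1 - 2 * r) hm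
    have e : 2 + 2 * r + 1 + 1 + 1 + (b + 1 - 2 * r) = b + 6 := by ring
    rw [e] at h2
    rw [← h2, Finset.mul_sum]
    apply Finset.sum_congr rfl
    intro i _
    unfold Wt
    have g1 := rise1 (2 + 2 * r) (m - 1 - i)
    have g2 := rise1 (2 + 2 * r + 1) (m - 1 - i)
    have g3 := rise1 (2 + 2 * r + 1 + 1) (m - 1 - i)
    linear_combination (pq (b + 1 - 2 * r) i * (3 + 2 * r + ((m - 1 - i : ℕ) : ℝ))
        * (4 + 2 * r + ((m - 1 - i : ℕ) : ℝ))) * g1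
      + (pq (b + 1 - 2 * r) i * (2 + 2 * r) * (4 + 2 * r + ((m - 1 - i : ℕ) : ℝ))) * g2
      + (pq (b + 1 - 2 * r) i * (2 + 2 * r) * (3 + 2 * r)) * g3
  have h3 := rise1 (b + 3) (m - 1)
  have h4 := rise1 (b + 4) (m - 1)
  have h5 := rise1 (b + 5) (m - 1)
  have e : b + 3 + 1 = b + 4 := by ring
  have e' : b + 4 + 1 = b + 5 := by ring
  have e'' : b + 5 + 1 = b + 6 := by ring
  rw [e] at h3
  rw [e'] at h4
  rw [e''] at h5
  rw [h1]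
  linear_combination -(2 + 2 * r) * (3 + 2 * r) * (4 + 2 * r) * (b + 4 + ((m - 1 : ℕ) : ℝ))
      * (b + 5 + ((m - 1 : ℕ) : ℝ)) * h3
    - (2 + 2 * r) * (3 + 2 * r) * (4 + 2 * r) * (b + 3) * (b + 5 + ((m - 1 : ℕ) : ℝ)) * h4
    - (2 + 2 * r) * (3 + 2 * r) * (4 + 2 * r) * (b + 3) * (b + 4) * h5

theorem sum_rise4 {b r : ℝ} {m : ℕ} (hm : 1 ≤ m) :
    (b + 3) * (b + 4) * (b + 5) * (b + 6) * ∑ i ∈ Finset.range m, Wt b r m i *
      ((2 + 2 * r + (m - 1 - i : ℕ)) * (3 + 2 * r + (m - 1 - i : ℕ))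
        * (4 + 2 * r + (m - 1 - i : ℕ)) * (5 + 2 * r + (m - 1 - i : ℕ)))
      = (2 + 2 * r) * (3 + 2 * r) * (4 + 2 * r) * (5 + 2 * r) * ((b + 3 + (m - 1 : ℕ))
        * (b + 4 + (m - 1 : ℕ)) * (b + 5 + (m - 1 : ℕ)) * (b + 6 + (m - 1 : ℕ)))
        * pq (b + 3) (m - 1) := by
  have h1 : ∑ i ∈ Finset.range m, Wt b r m i *
      ((2 + 2 * r + (m - 1 - i : ℕ)) * (3 + 2 * r + (m - 1 - i : ℕ))
        * (4 + 2 * r + (m - 1 - i : ℕ)) * (5 + 2 * r + (m - 1 - i : ℕ)))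
      = (2 + 2 * r) * (3 + 2 * r) * (4 + 2 * r) * (5 + 2 * r) * pq (b + 7) (m - 1) := by
    have h2 := sum_shift (2 + 2 * r + 1 + 1 + 1 + 1) (b + 1 - 2 * r) hm
    have e : 2 + 2 * r + 1 + 1 + 1 + 1 + (b + 1 - 2 * r) = b + 7 := by ring
    rw [e] at h2
    rw [← h2, Finset.mul_sum]
    apply Finset.sum_congr rfl
    intro i _
    unfold Wt
    have g1 := rise1 (2 + 2 * r) (m - 1 - i)
    have g2 := rise1 (2 + 2 * r + 1) (m - 1 - i)
    have g3 := rise1 (2 + 2 * r + 1 + 1) (m - 1 - i)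
    have g4 := rise1 (2 + 2 * r + 1 + 1 + 1) (m - 1 - i)
    linear_combination (pq (b + 1 - 2 * r) i * (3 + 2 * r + ((m - 1 - i : ℕ) : ℝ))
        * (4 + 2 * r + ((m - 1 - i : ℕ) : ℝ)) * (5 + 2 * r + ((m - 1 - i : ℕ) : ℝ))) * g1
      + (pq (b + 1 - 2 * r) i * (2 + 2 * r) * (4 + 2 * r + ((m - 1 - i : ℕ) : ℝ))
        * (5 + 2 * r + ((m - 1 - i : ℕ) : ℝ))) * g2
      + (pq (b + 1 - 2 * r) i * (2 + 2 * r) * (3 + 2 * r)
        * (5 + 2 * r + ((m - 1 - i : ℕ) : ℝ))) * g3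
      + (pq (b + 1 - 2 * r) i * (2 + 2 * r) * (3 + 2 * r) * (4 + 2 * r)) * g4
  have h3 := rise1 (b + 3) (m - 1)
  have h4 := rise1 (b + 4) (m - 1)
  have h5 := rise1 (b + 5) (m - 1)
  have h6 := rise1 (b + 6) (m - 1)
  have e : b + 3 + 1 = b + 4 := by ring
  have e' : b + 4 + 1 = b + 5 := by ring
  have e'' : b + 5 + 1 = b + 6 := by ring
  have e''' : b + 6 + 1 = b + 7 := by ring
  rw [e] at h3
  rw [e'] at h4
  rw [e''] at h5
  rw [e'''] at h6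
  rw [h1]
  linear_combination -(2 + 2 * r) * (3 + 2 * r) * (4 + 2 * r) * (5 + 2 * r)
      * (b + 4 + ((m - 1 : ℕ) : ℝ)) * (b + 5 + ((m - 1 : ℕ) : ℝ)) * (b + 6 + ((m - 1 : ℕ) : ℝ)) * h3
    - (2 + 2 * r) * (3 + 2 * r) * (4 + 2 * r) * (5 + 2 * r) * (b + 3)
      * (b + 5 + ((m - 1 : ℕ) : ℝ)) * (b + 6 + ((m - 1 : ℕ) : ℝ)) * h4
    - (2 + 2 * r) * (3 + 2 * r) * (4 + 2 * r) * (5 + 2 * r) * (b + 3) * (b + 4)
      * (b + 6 + ((m - 1 : ℕ) : ℝ)) * h5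
    - (2 + 2 * r) * (3 + 2 * r) * (4 + 2 * r) * (5 + 2 * r) * (b + 3) * (b + 4) * (b + 5) * h6

end Pool.Agent.Helper39.HR
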