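import Mathlib
import Pool.Agent.Helper39.HR.Gram

/-!
MP_16b0ee, project HR: the moments of the weights `Wt`.
-/

set_option autoImplicit false

namespace Pool.Agent.Helper39.HR

open Pool.Agent.Helper22.Half

/-- the mean of a function of `(m - i) / m` with the weights `Wt` -/
noncomputable def Em (b r : ℝ) (m : ℕ) (g : ℝ → ℝ) : ℝ :=
  (∑ i ∈ Finset.range m, Wt b r m i * g (((m - i : ℕ) : ℝ) / m)) / pq (b + 3) (m - 1)

noncomputable def mo1 (b r : ℝ) : ℝ := (2 + 2 * r) / (b + 3)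
noncomputable def mo2 (b r : ℝ) : ℝ := (2 + 2 * r) * (3 + 2 * r) / ((b + 3) * (b + 4))
noncomputable def mo3 (b r : ℝ) : ℝ :=
  (2 + 2 * r) * (3 + 2 * r) * (4 + 2 * r) / ((b + 3) * (b + 4) * (b + 5))
noncomputable def mo4 (b r : ℝ) : ℝ :=
  (2 + 2 * r) * (3 + 2 * r) * (4 + 2 * r) * (5 + 2 * r) / ((b + 3) * (b + 4) * (b + 5) * (b + 6))

section
variable {b r : ℝ}

theorem Em_add (m : ℕ) (f g : ℝ → ℝ) :
    Em b r m (fun x => f x + g x) = Em b r m f + Em b r m g := by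
  unfold Em
  rw [← add_div, ← Finset.sum_add_distrib]
  congr 1
  apply Finset.sum_congr rfl
  intro i _
  ring

theorem Em_smul (m : ℕ) (c : ℝ) (f : ℝ → ℝ) :
    Em b r m (fun x => c * f x) = c * Em b r m f := by
  unfold Em
  rw [mul_div_assoc', Finset.mul_sum]
  congr 1
  apply Finset.sum_congr rfl
  intro i _
  ring

theorem Em_const (hb : 0 < b) {m : ℕ} (hm : 1 ≤ m) (c : ℝ) : Em b r m (fun _ => c) = c := by
  unfold Em
  rw [← Finset.sum_mul, sum_Wt hm]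
  have := (pq_pos (by linarith : 0 < b + 3) (m - 1)).ne'
  field_simp

theorem Em_mono (hb : 0 < b) (hr : -1 < r) (hσ : 0 < b + 1 - 2 * r) {m : ℕ} {f g : ℝ → ℝ}
    (h : ∀ x : ℝ, 0 ≤ x → x ≤ 1 → f x ≤ g x) : Em b r m f ≤ Em b r m g := by
  unfold Em
  have hp := pq_pos (by linarith : 0 < b + 3) (m - 1)
  apply div_le_div_of_nonneg_right _ hp.le
  apply Finset.sum_le_sum
  intro i hi
  rw [Finset.mem_range] at hi
  have hW := Wt_pos hr hσ m i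
  have hm : (0 : ℝ) < m := by exact_mod_cast (by omega : 0 < m)
  apply mul_le_mul_of_nonneg_left _ hW.le
  apply h
  · positivity
  · rw [div_le_one hm]
    exact_mod_cast (by omega : m - i ≤ m)

theorem Em_congr {m : ℕ} {f g : ℝ → ℝ} (h : ∀ i < m, f (((m - i : ℕ) : ℝ) / m)
    = g (((m - i : ℕ) : ℝ) / m)) : Em b r m f = Em b r m g := by
  unfold Em
  congr 1
  apply Finset.sum_congr rfl
  intro i hi
  rw [Finset.mem_range] at hi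
  rw [h i hi]

/-- the mean of a sequence -/
theorem Em_seq (hb : 0 < b) {m : ℕ} (hm : 1 ≤ m) {g : ℝ → ℝ} {f : ℕ → ℝ} {S : ℝ}
    (h : ∀ i < m, g (((m - i : ℕ) : ℝ) / m) = f i)
    (hS : ∑ i ∈ Finset.range m, Wt b r m i * f i = S * pq (b + 3) (m - 1)) :
    Em b r m g = S := by
  unfold Em
  have hp := (pq_pos (by linarith : 0 < b + 3) (m - 1)).ne'
  rw [div_eq_iff hp, ← hS]
  apply Finset.sum_congr rfl
  intro i hi
  rw [Finset.mem_range] at hi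
  rw [h i hi]

theorem cast_aux {m i : ℕ} (hi : i < m) : ((m - i : ℕ) : ℝ) = ((m - 1 - i : ℕ) : ℝ) + 1 := by
  have : m - i = (m - 1 - i) + 1 := by omega
  rw [this]
  push_cast
  ring

theorem cast_aux2 {m : ℕ} (hm : 1 ≤ m) : ((m - 1 : ℕ) : ℝ) = (m : ℝ) - 1 := by
  rw [Nat.cast_sub hm]
  push_cast
  ring

theorem Em_rise1 (hb : 0 < b) {m : ℕ} (hm : 1 ≤ m) :
    Em b r m (fun x => x + (1 + 2 * r) * (1 / m)) = mo1 b r * (1 + (b + 2) * (1 / m)) := by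
  have hm0 : (0 : ℝ) < m := by exact_mod_cast (by omega : 0 < m)
  apply Em_seq hb hm (f := fun i => (1 / m) * (2 + 2 * r + ((m - 1 - i : ℕ) : ℝ)))
  · intro i hi
    rw [cast_aux hi]
    field_simp
    ring
  · have h := sum_rise1 (b := b) (r := r) hm
    rw [cast_aux2 hm] at h
    have e : ∑ i ∈ Finset.range m, Wt b r m i * ((1 / m) * (2 + 2 * r + ((m - 1 - i : ℕ) : ℝ)))
        = (1 / m) * ∑ i ∈ Finset.range m, Wt b r m i * (2 + 2 * r + ((m - 1 - i : ℕ) : ℝ)) := by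
      rw [Finset.mul_sum]
      apply Finset.sum_congr rfl
      intro i _
      ring
    have hb3 : b + 3 ≠ 0 := by positivity
    rw [e]
    unfold mo1
    generalize ∑ i ∈ Finset.range m, Wt b r m i * (2 + 2 * r + ((m - 1 - i : ℕ) : ℝ)) = S at *
    field_simp
    linear_combination h

theorem Em_rise2 (hb : 0 < b) {m : ℕ} (hm : 1 ≤ m) :
    Em b r m (fun x => (x + (1 + 2 * r) * (1 / m)) * (x + (2 + 2 * r) * (1 / m)))
      = mo2 b r * ((1 + (b + 2) * (1 / m)) * (1 + (b + 3) * (1 / m))) := by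
  have hm0 : (0 : ℝ) < m := by exact_mod_cast (by omega : 0 < m)
  apply Em_seq hb hm (f := fun i => (1 / m) ^ 2 * ((2 + 2 * r + ((m - 1 - i : ℕ) : ℝ))
    * (3 + 2 * r + ((m - 1 - i : ℕ) : ℝ))))
  · intro i hi
    rw [cast_aux hi]
    field_simp
    ring
  · have h := sum_rise2 (b := b) (r := r) hm
    rw [cast_aux2 hm] at h
    have e : ∑ i ∈ Finset.range m, Wt b r m i * ((1 / m) ^ 2 * ((2 + 2 * r + ((m - 1 - i : ℕ) : ℝ))
        * (3 + 2 * r + ((m - 1 - i : ℕ) : ℝ))))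
        = (1 / m) ^ 2 * ∑ i ∈ Finset.range m, Wt b r m i * ((2 + 2 * r + ((m - 1 - i : ℕ) : ℝ))
          * (3 + 2 * r + ((m - 1 - i : ℕ) : ℝ))) := by
      rw [Finset.mul_sum]
      apply Finset.sum_congr rfl
      intro i _
      ring
    have hb3 : b + 3 ≠ 0 := by positivity
    have hb4 : b + 4 ≠ 0 := by positivity
    rw [e]
    unfold mo2
    generalize ∑ i ∈ Finset.range m, Wt b r m i * ((2 + 2 * r + ((m - 1 - i : ℕ) : ℝ))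
          * (3 + 2 * r + ((m - 1 - i : ℕ) : ℝ))) = S at *
    field_simp
    linear_combination h

theorem Em_rise3 (hb : 0 < b) {m : ℕ} (hm : 1 ≤ m) :
    Em b r m (fun x => (x + (1 + 2 * r) * (1 / m)) * (x + (2 + 2 * r) * (1 / m))
        * (x + (3 + 2 * r) * (1 / m)))
      = mo3 b r * ((1 + (b + 2) * (1 / m)) * (1 + (b + 3) * (1 / m))
        * (1 + (b + 4) * (1 / m))) := by
  have hm0 : (0 : ℝ) < m := by exact_mod_cast (by omega : 0 < m)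
  apply Em_seq hb hm (f := fun i => (1 / m) ^ 3 * ((2 + 2 * r + ((m - 1 - i : ℕ) : ℝ))
    * (3 + 2 * r + ((m - 1 - i : ℕ) : ℝ)) * (4 + 2 * r + ((m - 1 - i : ℕ) : ℝ))))
  · intro i hi
    rw [cast_aux hi]
    field_simp
    ring
  · have h := sum_rise3 (b := b) (r := r) hm
    rw [cast_aux2 hm] at h
    have e : ∑ i ∈ Finset.range m, Wt b r m i * ((1 / m) ^ 3 * ((2 + 2 * r + ((m - 1 - i : ℕ) : ℝ))
        * (3 + 2 * r + ((m - 1 - i : ℕ) : ℝ)) * (4 + 2 * r + ((m - 1 - i : ℕ) : ℝ))))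
        = (1 / m) ^ 3 * ∑ i ∈ Finset.range m, Wt b r m i * ((2 + 2 * r + ((m - 1 - i : ℕ) : ℝ))
          * (3 + 2 * r + ((m - 1 - i : ℕ) : ℝ)) * (4 + 2 * r + ((m - 1 - i : ℕ) : ℝ))) := by
      rw [Finset.mul_sum]
      apply Finset.sum_congr rfl
      intro i _
      ring
    have hb3 : b + 3 ≠ 0 := by positivity
    have hb4 : b + 4 ≠ 0 := by positivity
    have hb5 : b + 5 ≠ 0 := by positivity
    rw [e]
    unfold mo3
    generalize ∑ i ∈ Finset.range m, Wt b r m i * ((2 + 2 * r + ((m - 1 - i : ℕ) : ℝ))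
          * (3 + 2 * r + ((m - 1 - i : ℕ) : ℝ)) * (4 + 2 * r + ((m - 1 - i : ℕ) : ℝ))) = S at *
    field_simp
    linear_combination h

theorem Em_rise4 (hb : 0 < b) {m : ℕ} (hm : 1 ≤ m) :
    Em b r m (fun x => (x + (1 + 2 * r) * (1 / m)) * (x + (2 + 2 * r) * (1 / m))
        * (x + (3 + 2 * r) * (1 / m)) * (x + (4 + 2 * r) * (1 / m)))
      = mo4 b r * ((1 + (b + 2) * (1 / m)) * (1 + (b + 3) * (1 / m))
        * (1 + (b + 4) * (1 / m)) * (1 + (b + 5) * (1 / m))) := by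
  have hm0 : (0 : ℝ) < m := by exact_mod_cast (by omega : 0 < m)
  apply Em_seq hb hm (f := fun i => (1 / m) ^ 4 * ((2 + 2 * r + ((m - 1 - i : ℕ) : ℝ))
    * (3 + 2 * r + ((m - 1 - i : ℕ) : ℝ)) * (4 + 2 * r + ((m - 1 - i : ℕ) : ℝ))
    * (5 + 2 * r + ((m - 1 - i : ℕ) : ℝ))))
  · intro i hi
    rw [cast_aux hi]
    field_simp
    ring
  · have h := sum_rise4 (b := b) (r := r) hm
    rw [cast_aux2 hm] at h
    have e : ∑ i ∈ Finset.range m, Wt b r m i * ((1 / m) ^ 4 * ((2 + 2 * r + ((m - 1 - i : ℕ) : ℝ))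
        * (3 + 2 * r + ((m - 1 - i : ℕ) : ℝ)) * (4 + 2 * r + ((m - 1 - i : ℕ) : ℝ))
        * (5 + 2 * r + ((m - 1 - i : ℕ) : ℝ))))
        = (1 / m) ^ 4 * ∑ i ∈ Finset.range m, Wt b r m i * ((2 + 2 * r + ((m - 1 - i : ℕ) : ℝ))
          * (3 + 2 * r + ((m - 1 - i : ℕ) : ℝ)) * (4 + 2 * r + ((m - 1 - i : ℕ) : ℝ))
          * (5 + 2 * r + ((m - 1 - i : ℕ) : ℝ))) := by
      rw [Finset.mul_sum]
      apply Finset.sum_congr rfl
      intro i _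
      ring
    have hb3 : b + 3 ≠ 0 := by positivity
    have hb4 : b + 4 ≠ 0 := by positivity
    have hb5 : b + 5 ≠ 0 := by positivity
    have hb6 : b + 6 ≠ 0 := by positivity
    rw [e]
    unfold mo4
    generalize ∑ i ∈ Finset.range m, Wt b r m i * ((2 + 2 * r + ((m - 1 - i : ℕ) : ℝ))
          * (3 + 2 * r + ((m - 1 - i : ℕ) : ℝ)) * (4 + 2 * r + ((m - 1 - i : ℕ) : ℝ))
          * (5 + 2 * r + ((m - 1 - i : ℕ) : ℝ))) = S at *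
    field_simp
    linear_combination h

/-- the power moments -/
noncomputable def Mk (b r : ℝ) (m k : ℕ) : ℝ := Em b r m (fun x => x ^ k)

theorem Mk_nonneg (hb : 0 < b) (hr : -1 < r) (hσ : 0 < b + 1 - 2 * r) {m : ℕ} (hm : 1 ≤ m)
    (k : ℕ) : 0 ≤ Mk b r m k := by
  have h := Em_mono hb hr hσ (m := m) (f := fun _ => (0 : ℝ)) (g := fun x => x ^ k)
    (fun x h0 _ => pow_nonneg h0 k)
  rwa [Em_const hb hm] at h

theorem Mk_le_one (hb : 0 < b) (hr : -1 < r) (hσ : 0 < b + 1 - 2 * r) {m : ℕ} (hm : 1 ≤ m)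
    (k : ℕ) : Mk b r m k ≤ 1 := by
  have h := Em_mono hb hr hσ (m := m) (f := fun x => x ^ k) (g := fun _ => (1 : ℝ))
    (fun x h0 h1 => pow_le_one₀ h0 h1)
  rwa [Em_const hb hm] at h

theorem Em_poly (hb : 0 < b) {m : ℕ} (hm : 1 ≤ m) (c0 c1 c2 c3 c4 : ℝ) :
    Em b r m (fun x => c0 + c1 * x + c2 * x ^ 2 + c3 * x ^ 3 + c4 * x ^ 4)
      = c0 + c1 * Mk b r m 1 + c2 * Mk b r m 2 + c3 * Mk b r m 3 + c4 * Mk b r m 4 := by
  rw [Em_add, Em_add, Em_add, Em_add, Em_const hb hm, Em_smul, Em_smul, Em_smul, Em_smul]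
  unfold Mk
  simp only [pow_one]

theorem mo_bounds (hb : 0 < b) (hr : -(1 / 2) ≤ r) (hr1 : r ≤ 1 / 2) :
    (0 ≤ mo1 b r ∧ mo1 b r ≤ 1) ∧ (0 ≤ mo2 b r ∧ mo2 b r ≤ 1) ∧ (0 ≤ mo3 b r ∧ mo3 b r ≤ 1) ∧
    (0 ≤ mo4 b r ∧ mo4 b r ≤ 1) := by
  have a2 : 0 ≤ 2 + 2 * r := by linarith
  have a3 : 0 ≤ 3 + 2 * r := by linarith
  have a4 : 0 ≤ 4 + 2 * r := by linarith
  have a5 : 0 ≤ 5 + 2 * r := by linarith
  have c2 : 2 + 2 * r ≤ b + 3 := by linarith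
  have c3 : 3 + 2 * r ≤ b + 4 := by linarith
  have c4 : 4 + 2 * r ≤ b + 5 := by linarith
  have c5 : 5 + 2 * r ≤ b + 6 := by linarith
  refine ⟨⟨?_, ?_⟩, ⟨?_, ?_⟩, ⟨?_, ?_⟩, ⟨?_, ?_⟩⟩
  · unfold mo1; positivity
  · unfold mo1
    rw [div_le_one (by positivity)]
    exact c2
  · unfold mo2; positivity
  · unfold mo2
    rw [div_le_one (by positivity)]
    gcongr
  · unfold mo3; positivity
  · unfold mo3
    rw [div_le_one (by positivity)]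
    gcongr
  · unfold mo4; positivity
  · unfold mo4
    rw [div_le_one (by positivity)]
    gcongr

theorem grow_bounds {b u : ℝ} (hb : 0 < b) (hb1 : b ≤ 1 / 2) (hu0 : 0 ≤ u) (hu1 : u ≤ 1) :
    (1 ≤ 1 + (b + 2) * u ∧ 1 + (b + 2) * u ≤ 1 + 3 * u) ∧
    (1 ≤ (1 + (b + 2) * u) * (1 + (b + 3) * u) ∧
      (1 + (b + 2) * u) * (1 + (b + 3) * u) ≤ 1 + 19 * u) ∧
    (1 ≤ (1 + (b + 2) * u) * (1 + (b + 3) * u) * (1 + (b + 4) * u) ∧
      (1 + (b + 2) * u) * (1 + (b + 3) * u) * (1 + (b + 4) * u) ≤ 1 + 119 * u) ∧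
    (1 ≤ (1 + (b + 2) * u) * (1 + (b + 3) * u) * (1 + (b + 4) * u) * (1 + (b + 5) * u) ∧
      (1 + (b + 2) * u) * (1 + (b + 3) * u) * (1 + (b + 4) * u) * (1 + (b + 5) * u)
        ≤ 1 + 839 * u) := by
  have hu2 : u ^ 2 ≤ u := by nlinarith
  have w1 : 1 + (b + 2) * u ≤ 1 + 3 * u := by nlinarith
  have w1' : 1 ≤ 1 + (b + 2) * u := by
    have : 0 ≤ (b + 2) * u := by positivity
    linarith
  have w2 : 1 + (b + 3) * u ≤ 1 + 4 * u := by nlinarith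
  have w2' : 1 ≤ 1 + (b + 3) * u := by
    have : 0 ≤ (b + 3) * u := by positivity
    linarith
  have w3 : 1 + (b + 4) * u ≤ 1 + 5 * u := by nlinarith
  have w3' : 1 ≤ 1 + (b + 4) * u := by
    have : 0 ≤ (b + 4) * u := by positivity
    linarith
  have w4 : 1 + (b + 5) * u ≤ 1 + 6 * u := by nlinarith
  have w4' : 1 ≤ 1 + (b + 5) * u := by
    have : 0 ≤ (b + 5) * u := by positivity
    linarith
  have W2 : (1 + (b + 2) * u) * (1 + (b + 3) * u) ≤ 1 + 19 * u := by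
    calc (1 + (b + 2) * u) * (1 + (b + 3) * u) ≤ (1 + 3 * u) * (1 + 4 * u) := by gcongr
      _ = 1 + 7 * u + 12 * u ^ 2 := by ring
      _ ≤ _ := by linarith
  have W2' : 1 ≤ (1 + (b + 2) * u) * (1 + (b + 3) * u) := one_le_mul_of_one_le_of_one_le w1' w2'
  have W3 : (1 + (b + 2) * u) * (1 + (b + 3) * u) * (1 + (b + 4) * u) ≤ 1 + 119 * u := by
    calc (1 + (b + 2) * u) * (1 + (b + 3) * u) * (1 + (b + 4) * u)
        ≤ (1 + 19 * u) * (1 + 5 * u) := by gcongr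
      _ = 1 + 24 * u + 95 * u ^ 2 := by ring
      _ ≤ _ := by linarith
  have W3' : 1 ≤ (1 + (b + 2) * u) * (1 + (b + 3) * u) * (1 + (b + 4) * u) :=
    one_le_mul_of_one_le_of_one_le W2' w3'
  have W4 : (1 + (b + 2) * u) * (1 + (b + 3) * u) * (1 + (b + 4) * u) * (1 + (b + 5) * u)
      ≤ 1 + 839 * u := by
    calc (1 + (b + 2) * u) * (1 + (b + 3) * u) * (1 + (b + 4) * u) * (1 + (b + 5) * u)
        ≤ (1 + 119 * u) * (1 + 6 * u) := by gcongr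
      _ = 1 + 125 * u + 714 * u ^ 2 := by ring
      _ ≤ _ := by linarith
  have W4' : 1 ≤ (1 + (b + 2) * u) * (1 + (b + 3) * u) * (1 + (b + 4) * u) * (1 + (b + 5) * u) :=
    one_le_mul_of_one_le_of_one_le W3' w4'
  exact ⟨⟨w1', w1⟩, ⟨W2', W2⟩, ⟨W3', W3⟩, ⟨W4', W4⟩⟩

theorem mo_grow {o w u B : ℝ} (ho : 0 ≤ o) (ho1 : o ≤ 1) (hw : 1 ≤ w) (hw1 : w ≤ 1 + B * u) :
    0 ≤ o * w - o ∧ o * w - o ≤ B * u := by
  have h1 : o * w - o = o * (w - 1) := by ring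
  rw [h1]
  constructor
  · exact mul_nonneg ho (by linarith)
  · have h2 : 0 ≤ w - 1 := by linarith
    calc o * (w - 1) ≤ 1 * (w - 1) := by gcongr
      _ ≤ B * u := by linarith

theorem bnd_aux {u : ℝ} (c x y : ℝ) (B : ℝ) (hc : 0 ≤ c) (hcB : c ≤ B) (hx : 0 ≤ x) (hxu : x ≤ u)
    (hy : 0 ≤ y) (hy1 : y ≤ 1) : 0 ≤ c * x * y ∧ c * x * y ≤ B * u := by
  constructor
  · positivity
  · calc c * x * y ≤ c * x * 1 := by gcongr
      _ = c * x := mul_one _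
      _ ≤ B * u := mul_le_mul hcB hxu hx (hc.trans hcB)

theorem sym_bounds {r : ℝ} (hr : -(1 / 2) ≤ r) (hr1 : r ≤ 1 / 2) :
    (0 ≤ (1 + 2 * r) * (2 + 2 * r) ∧ (1 + 2 * r) * (2 + 2 * r) ≤ 6) ∧
    (0 ≤ (1 + 2 * r) * (2 + 2 * r) + (1 + 2 * r) * (3 + 2 * r) + (2 + 2 * r) * (3 + 2 * r) ∧
      (1 + 2 * r) * (2 + 2 * r) + (1 + 2 * r) * (3 + 2 * r) + (2 + 2 * r) * (3 + 2 * r) ≤ 26) ∧
    (0 ≤ (1 + 2 * r) * (2 + 2 * r) * (3 + 2 * r) ∧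
      (1 + 2 * r) * (2 + 2 * r) * (3 + 2 * r) ≤ 24) ∧
    (0 ≤ (1 + 2 * r) * (2 + 2 * r) + (1 + 2 * r) * (3 + 2 * r)
      + (1 + 2 * r) * (4 + 2 * r) + (2 + 2 * r) * (3 + 2 * r) + (2 + 2 * r) * (4 + 2 * r)
      + (3 + 2 * r) * (4 + 2 * r) ∧ (1 + 2 * r) * (2 + 2 * r) + (1 + 2 * r) * (3 + 2 * r)
      + (1 + 2 * r) * (4 + 2 * r) + (2 + 2 * r) * (3 + 2 * r) + (2 + 2 * r) * (4 + 2 * r)
      + (3 + 2 * r) * (4 + 2 * r) ≤ 71) ∧
    (0 ≤ (1 + 2 * r) * (2 + 2 * r) * (3 + 2 * r)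
      + (1 + 2 * r) * (2 + 2 * r) * (4 + 2 * r) + (1 + 2 * r) * (3 + 2 * r) * (4 + 2 * r)
      + (2 + 2 * r) * (3 + 2 * r) * (4 + 2 * r) ∧ (1 + 2 * r) * (2 + 2 * r) * (3 + 2 * r)
      + (1 + 2 * r) * (2 + 2 * r) * (4 + 2 * r) + (1 + 2 * r) * (3 + 2 * r) * (4 + 2 * r)
      + (2 + 2 * r) * (3 + 2 * r) * (4 + 2 * r) ≤ 154) ∧
    (0 ≤ (1 + 2 * r) * (2 + 2 * r) * (3 + 2 * r) * (4 + 2 * r) ∧
      (1 + 2 * r) * (2 + 2 * r) * (3 + 2 * r) * (4 + 2 * r) ≤ 120) := by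
  have f1 : 0 ≤ 1 + 2 * r ∧ 1 + 2 * r ≤ 2 := ⟨by linarith, by linarith⟩
  have f2 : 0 ≤ 2 + 2 * r ∧ 2 + 2 * r ≤ 3 := ⟨by linarith, by linarith⟩
  have f3 : 0 ≤ 3 + 2 * r ∧ 3 + 2 * r ≤ 4 := ⟨by linarith, by linarith⟩
  have f4 : 0 ≤ 4 + 2 * r ∧ 4 + 2 * r ≤ 5 := ⟨by linarith, by linarith⟩
  generalize 1 + 2 * r = a at *
  generalize 2 + 2 * r = b at *
  generalize 3 + 2 * r = c at *
  generalize 4 + 2 * r = d at *
  have g12 : 0 ≤ a * b ∧ a * b ≤ 2 * 3 :=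
    ⟨mul_nonneg f1.1 f2.1, mul_le_mul f1.2 f2.2 f2.1 (by norm_num)⟩
  have g13 : 0 ≤ a * c ∧ a * c ≤ 2 * 4 :=
    ⟨mul_nonneg f1.1 f3.1, mul_le_mul f1.2 f3.2 f3.1 (by norm_num)⟩
  have g14 : 0 ≤ a * d ∧ a * d ≤ 2 * 5 :=
    ⟨mul_nonneg f1.1 f4.1, mul_le_mul f1.2 f4.2 f4.1 (by norm_num)⟩
  have g23 : 0 ≤ b * c ∧ b * c ≤ 3 * 4 :=
    ⟨mul_nonneg f2.1 f3.1, mul_le_mul f2.2 f3.2 f3.1 (by norm_num)⟩
  have g24 : 0 ≤ b * d ∧ b * d ≤ 3 * 5 :=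
    ⟨mul_nonneg f2.1 f4.1, mul_le_mul f2.2 f4.2 f4.1 (by norm_num)⟩
  have g34 : 0 ≤ c * d ∧ c * d ≤ 4 * 5 :=
    ⟨mul_nonneg f3.1 f4.1, mul_le_mul f3.2 f4.2 f4.1 (by norm_num)⟩
  have g123 : 0 ≤ a * b * c ∧ a * b * c ≤ 2 * 3 * 4 :=
    ⟨mul_nonneg g12.1 f3.1, mul_le_mul g12.2 f3.2 f3.1 (by norm_num)⟩
  have g124 : 0 ≤ a * b * d ∧ a * b * d ≤ 2 * 3 * 5 :=
    ⟨mul_nonneg g12.1 f4.1, mul_le_mul g12.2 f4.2 f4.1 (by norm_num)⟩
  have g134 : 0 ≤ a * c * d ∧ a * c * d ≤ 2 * 4 * 5 :=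
    ⟨mul_nonneg g13.1 f4.1, mul_le_mul g13.2 f4.2 f4.1 (by norm_num)⟩
  have g234 : 0 ≤ b * c * d ∧ b * c * d ≤ 3 * 4 * 5 :=
    ⟨mul_nonneg g23.1 f4.1, mul_le_mul g23.2 f4.2 f4.1 (by norm_num)⟩
  have g1234 : 0 ≤ a * b * c * d ∧ a * b * c * d ≤ 2 * 3 * 4 * 5 :=
    ⟨mul_nonneg g123.1 f4.1, mul_le_mul g123.2 f4.2 f4.1 (by norm_num)⟩
  clear f1 f2 f3 f4 hr hr1
  refine ⟨⟨g12.1, by linarith only [g12.2]⟩, ⟨?_, ?_⟩, ⟨g123.1, by linarith only [g123.2]⟩,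
    ⟨?_, ?_⟩, ⟨?_, ?_⟩, ⟨g1234.1, by linarith only [g1234.2]⟩⟩
  · linarith only [g12.1, g13.1, g23.1]
  · linarith only [g12.2, g13.2, g23.2]
  · linarith only [g12.1, g13.1, g14.1, g23.1, g24.1, g34.1]
  · linarith only [g12.2, g13.2, g14.2, g23.2, g24.2, g34.2]
  · linarith only [g123.1, g124.1, g134.1, g234.1]
  · linarith only [g123.2, g124.2, g134.2, g234.2]

/-- the moments converge -/
theorem Mk_close (hb : 0 < b) (hb1 : b ≤ 1 / 2) (hr : -(1 / 2) ≤ r) (hr1 : r ≤ 1 / 2)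
    (hσ : 0 < b + 1 - 2 * r) {m : ℕ} (hm : 1 ≤ m) :
    |Mk b r m 1 - mo1 b r| ≤ 10000 * (1 / m) ∧ |Mk b r m 2 - mo2 b r| ≤ 10000 * (1 / m) ∧
    |Mk b r m 3 - mo3 b r| ≤ 10000 * (1 / m) ∧ |Mk b r m 4 - mo4 b r| ≤ 10000 * (1 / m) := by
  have hm0 : (0 : ℝ) < m := by exact_mod_cast (by omega : 0 < m)
  have hm1 : (1 : ℝ) ≤ m := by exact_mod_cast hm
  have hr' : -1 < r := by linarith
  have h1 := Em_rise1 (r := r) hb hm
  have h2 := Em_rise2 (r := r) hb hm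
  have h3 := Em_rise3 (r := r) hb hm
  have h4 := Em_rise4 (r := r) hb hm
  have p1 := Mk_nonneg hb hr' hσ hm 1
  have p2 := Mk_nonneg hb hr' hσ hm 2
  have p3 := Mk_nonneg hb hr' hσ hm 3
  have q1 := Mk_le_one hb hr' hσ hm 1
  have q2 := Mk_le_one hb hr' hσ hm 2
  have q3 := Mk_le_one hb hr' hσ hm 3
  obtain ⟨⟨s1, t1⟩, ⟨s2, t2⟩, ⟨s3, t3⟩, ⟨s4, t4⟩⟩ := mo_bounds hb hr hr1
  obtain ⟨u, hu⟩ : ∃ u : ℝ, u = 1 / m := ⟨_, rfl⟩
  rw [← hu] at h1 h2 h3 h4 ⊢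
  have hu0 : 0 ≤ u := by rw [hu]; positivity
  have hu1 : u ≤ 1 := by
    rw [hu, div_le_one hm0]
    exact hm1
  have hu2 : u ^ 2 ≤ u := pow_le_of_le_one hu0 hu1 (n := 2) (by norm_num)
  have hu3 : u ^ 3 ≤ u := by
    have := pow_le_of_le_one hu0 hu1 (n := 3) (by norm_num)
    exact this
  have hu4 : u ^ 4 ≤ u := by
    have := pow_le_of_le_one hu0 hu1 (n := 4) (by norm_num)
    exact this
  have hu2' : 0 ≤ u ^ 2 := by positivity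
  have hu3' : 0 ≤ u ^ 3 := by positivity
  have hu4' : 0 ≤ u ^ 4 := by positivity
  have e1 : Em b r m (fun x => x + (1 + 2 * r) * u) = (1 + 2 * r) * u + Mk b r m 1 := by
    have := Em_poly (r := r) hb hm ((1 + 2 * r) * u) 1 0 0 0
    rw [← sub_eq_zero]
    rw [← sub_eq_zero] at this
    rw [← this]
    have e : (fun x : ℝ => x + (1 + 2 * r) * u)
        = fun x => (1 + 2 * r) * u + 1 * x + 0 * x ^ 2 + 0 * x ^ 3 + 0 * x ^ 4 := by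
      funext x
      ring
    rw [e]
    ring
  have e2 : Em b r m (fun x => (x + (1 + 2 * r) * u) * (x + (2 + 2 * r) * u))
      = (1 + 2 * r) * (2 + 2 * r) * u ^ 2 + (3 + 4 * r) * u * Mk b r m 1 + Mk b r m 2 := by
    have := Em_poly (r := r) hb hm ((1 + 2 * r) * (2 + 2 * r) * u ^ 2) ((3 + 4 * r) * u) 1 0 0
    have e : (fun x : ℝ => (x + (1 + 2 * r) * u) * (x + (2 + 2 * r) * u))
        = fun x => (1 + 2 * r) * (2 + 2 * r) * u ^ 2 + (3 + 4 * r) * u * x + 1 * x ^ 2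
          + 0 * x ^ 3 + 0 * x ^ 4 := by
      funext x
      ring
    rw [e, this]
    ring
  have e3 : Em b r m (fun x => (x + (1 + 2 * r) * u) * (x + (2 + 2 * r) * u)
        * (x + (3 + 2 * r) * u))
      = (1 + 2 * r) * (2 + 2 * r) * (3 + 2 * r) * u ^ 3
        + ((1 + 2 * r) * (2 + 2 * r) + (1 + 2 * r) * (3 + 2 * r) + (2 + 2 * r) * (3 + 2 * r))
          * u ^ 2 * Mk b r m 1
        + (6 + 6 * r) * u * Mk b r m 2 + Mk b r m 3 := by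
    have := Em_poly (r := r) hb hm ((1 + 2 * r) * (2 + 2 * r) * (3 + 2 * r) * u ^ 3)
      (((1 + 2 * r) * (2 + 2 * r) + (1 + 2 * r) * (3 + 2 * r) + (2 + 2 * r) * (3 + 2 * r)) * u ^ 2)
      ((6 + 6 * r) * u) 1 0
    have e : (fun x : ℝ => (x + (1 + 2 * r) * u) * (x + (2 + 2 * r) * u) * (x + (3 + 2 * r) * u))
        = fun x => (1 + 2 * r) * (2 + 2 * r) * (3 + 2 * r) * u ^ 3
          + ((1 + 2 * r) * (2 + 2 * r) + (1 + 2 * r) * (3 + 2 * r) + (2 + 2 * r) * (3 + 2 * r))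
            * u ^ 2 * x + (6 + 6 * r) * u * x ^ 2 + 1 * x ^ 3 + 0 * x ^ 4 := by
      funext x
      ring
    rw [e, this]
    ring
  obtain ⟨E1, hE1⟩ : ∃ E1, E1 = (1 + 2 * r) + (2 + 2 * r) + (3 + 2 * r) + (4 + 2 * r) := ⟨_, rfl⟩
  obtain ⟨E2, hE2⟩ : ∃ E2, E2 = (1 + 2 * r) * (2 + 2 * r) + (1 + 2 * r) * (3 + 2 * r)
    + (1 + 2 * r) * (4 + 2 * r) + (2 + 2 * r) * (3 + 2 * r) + (2 + 2 * r) * (4 + 2 * r)
    + (3 + 2 * r) * (4 + 2 * r) := ⟨_, rfl⟩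
  obtain ⟨E3, hE3⟩ : ∃ E3, E3 = (1 + 2 * r) * (2 + 2 * r) * (3 + 2 * r)
    + (1 + 2 * r) * (2 + 2 * r) * (4 + 2 * r) + (1 + 2 * r) * (3 + 2 * r) * (4 + 2 * r)
    + (2 + 2 * r) * (3 + 2 * r) * (4 + 2 * r) := ⟨_, rfl⟩
  obtain ⟨E4, hE4⟩ : ∃ E4, E4 = (1 + 2 * r) * (2 + 2 * r) * (3 + 2 * r) * (4 + 2 * r) := ⟨_, rfl⟩
  have e4 : Em b r m (fun x => (x + (1 + 2 * r) * u) * (x + (2 + 2 * r) * u)
        * (x + (3 + 2 * r) * u) * (x + (4 + 2 * r) * u))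
      = E4 * u ^ 4 + E3 * u ^ 3 * Mk b r m 1 + E2 * u ^ 2 * Mk b r m 2 + E1 * u * Mk b r m 3
        + Mk b r m 4 := by
    have := Em_poly (r := r) hb hm (E4 * u ^ 4) (E3 * u ^ 3) (E2 * u ^ 2) (E1 * u) 1
    have e : (fun x : ℝ => (x + (1 + 2 * r) * u) * (x + (2 + 2 * r) * u) * (x + (3 + 2 * r) * u)
        * (x + (4 + 2 * r) * u))
        = fun x => E4 * u ^ 4 + E3 * u ^ 3 * x + E2 * u ^ 2 * x ^ 2 + E1 * u * x ^ 3
          + 1 * x ^ 4 := by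
      funext x
      rw [hE1, hE2, hE3, hE4]
      ring
    rw [e, this]
    ring
  rw [h1] at e1
  rw [h2] at e2
  rw [h3] at e3
  rw [h4] at e4
  obtain ⟨sb12, sb26, sb123, sb71, sb154, sb120⟩ := sym_bounds hr hr1
  obtain ⟨⟨w1', w1⟩, ⟨W2', W2⟩, ⟨W3', W3⟩, ⟨W4', W4⟩⟩ := grow_bounds hb hb1 hu0 hu1
  have z1 := mo_grow s1 t1 w1' w1
  have z2 := mo_grow s2 t2 W2' W2
  have z3 := mo_grow s3 t3 W3' W3
  have z4 := mo_grow s4 t4 W4' W4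
  rw [← hE2] at sb71
  rw [← hE3] at sb154
  rw [← hE4] at sb120
  have E1b : 0 ≤ E1 ∧ E1 ≤ 14 := ⟨by rw [hE1]; linarith only [hr], by rw [hE1]; linarith only [hr1]⟩
  have y11 := bnd_aux (1 + 2 * r) u 1 2 (by linarith only [hr]) (by linarith only [hr1]) hu0 le_rfl
    zero_le_one le_rfl
  have y21 := bnd_aux ((1 + 2 * r) * (2 + 2 * r)) (u ^ 2) 1 6 sb12.1 sb12.2 hu2' hu2
    zero_le_one le_rfl
  have y22 := bnd_aux (3 + 4 * r) u (Mk b r m 1) 5 (by linarith only [hr]) (by linarith only [hr1])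
    hu0 le_rfl p1 q1
  have y31 := bnd_aux ((1 + 2 * r) * (2 + 2 * r) * (3 + 2 * r)) (u ^ 3) 1 24 sb123.1 sb123.2
    hu3' hu3 zero_le_one le_rfl
  have y32 := bnd_aux ((1 + 2 * r) * (2 + 2 * r) + (1 + 2 * r) * (3 + 2 * r)
    + (2 + 2 * r) * (3 + 2 * r)) (u ^ 2) (Mk b r m 1) 26 sb26.1 sb26.2 hu2' hu2 p1 q1
  have y33 := bnd_aux (6 + 6 * r) u (Mk b r m 2) 9 (by linarith only [hr])
    (by linarith only [hr1]) hu0 le_rfl p2 q2
  have y41 := bnd_aux E4 (u ^ 4) 1 120 sb120.1 sb120.2 hu4' hu4 zero_le_one le_rfl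
  have y42 := bnd_aux E3 (u ^ 3) (Mk b r m 1) 154 sb154.1 sb154.2 hu3' hu3 p1 q1
  have y43 := bnd_aux E2 (u ^ 2) (Mk b r m 2) 71 sb71.1 sb71.2 hu2' hu2 p2 q2
  have y44 := bnd_aux E1 u (Mk b r m 3) 14 E1b.1 E1b.2 hu0 le_rfl p3 q3
  refine ⟨?_, ?_, ?_, ?_⟩
  · rw [abs_le]
    constructor
    · linarith only [z1.1, z1.2, y11.1, y11.2, e1, hu0]
    · linarith only [z1.1, z1.2, y11.1, y11.2, e1, hu0]
  · rw [abs_le]
    constructor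
    · linarith only [z2.1, z2.2, y21.1, y21.2, y22.1, y22.2, e2, hu0]
    · linarith only [z2.1, z2.2, y21.1, y21.2, y22.1, y22.2, e2, hu0]
  · rw [abs_le]
    constructor
    · linarith only [z3.1, z3.2, y31.1, y31.2, y32.1, y32.2, y33.1, y33.2, e3, hu0]
    · linarith only [z3.1, z3.2, y31.1, y31.2, y32.1, y32.2, y33.1, y33.2, e3, hu0]
  · rw [abs_le]
    constructor
    · linarith only [z4.1, z4.2, y41.1, y41.2, y42.1, y42.2, y43.1, y43.2, y44.1, y44.2, e4, hu0]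
    · linarith only [z4.1, z4.2, y41.1, y41.2, y42.1, y42.2, y43.1, y43.2, y44.1, y44.2, e4, hu0]

end

end Pool.Agent.Helper39.HR
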