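import Mathlib
import Pool.Agent.Helper39.HR.Moments

/-!
MP_16b0ee, project HR: the lower bound of `Pf` by two functionals, with the limiting Gram matrix.
-/

set_option autoImplicit false

open scoped ComplexConjugate

namespace Pool.Agent.Helper39.HR

open Pool.Agent.Helper22.Half

/-- the limiting quadratic form -/
noncomputable def Qf (b r : ℝ) (w0 w1 w2 : ℂ) : ℝ :=
  ‖w0‖ ^ 2 + 2 * (w0 * conj w1).re * mo1 b r + (‖w1‖ ^ 2 + 2 * (w0 * conj w2).re) * mo2 b r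
    + 2 * (w1 * conj w2).re * mo3 b r + ‖w2‖ ^ 2 * mo4 b r

theorem normsq_poly (w0 w1 w2 : ℂ) (x : ℝ) : ‖w0 + w1 * x + w2 * x ^ 2‖ ^ 2
    = ‖w0‖ ^ 2 + 2 * (w0 * conj w1).re * x + (‖w1‖ ^ 2 + 2 * (w0 * conj w2).re) * x ^ 2
      + 2 * (w1 * conj w2).re * x ^ 3 + ‖w2‖ ^ 2 * x ^ 4 := by
  rw [← Complex.normSq_eq_norm_sq, ← Complex.normSq_eq_norm_sq, ← Complex.normSq_eq_norm_sq,
    ← Complex.normSq_eq_norm_sq]
  have e : w0 + w1 * x + w2 * x ^ 2 = w0 + (x : ℂ) * w1 + ((x ^ 2 : ℝ) : ℂ) * w2 := by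
    push_cast
    ring
  rw [e]
  simp only [Complex.normSq_apply, Complex.add_re, Complex.add_im, Complex.mul_im,
    Complex.mul_re, Complex.conj_re, Complex.conj_im, Complex.ofReal_re, Complex.ofReal_im]
  ring

theorem Em_normsq {b r : ℝ} (hb : 0 < b) (hb1 : b ≤ 1 / 2) (hr : -(1 / 2) ≤ r) (hr1 : r ≤ 1 / 2)
    (hσ : 0 < b + 1 - 2 * r) {m : ℕ} (hm : 1 ≤ m) (w0 w1 w2 : ℂ) {W : ℝ} (h0 : ‖w0‖ ≤ W)
    (h1 : ‖w1‖ ≤ W) (h2 : ‖w2‖ ≤ W) :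
    Em b r m (fun x => ‖w0 + w1 * x + w2 * x ^ 2‖ ^ 2)
      ≤ Qf b r w0 w1 w2 + 80000 * W ^ 2 * (1 / m) := by
  have hm0 : (0 : ℝ) < m := by exact_mod_cast (by omega : 0 < m)
  obtain ⟨c1, c2, c3, c4⟩ := Mk_close hb hb1 hr hr1 hσ hm
  have e1 : (fun x : ℝ => ‖w0 + w1 * x + w2 * x ^ 2‖ ^ 2)
      = fun x => ‖w0‖ ^ 2 + 2 * (w0 * conj w1).re * x + (‖w1‖ ^ 2 + 2 * (w0 * conj w2).re) * x ^ 2
      + 2 * (w1 * conj w2).re * x ^ 3 + ‖w2‖ ^ 2 * x ^ 4 := by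
    funext x
    exact normsq_poly w0 w1 w2 x
  rw [e1, Em_poly hb hm]
  have hW : 0 ≤ W := (norm_nonneg w0).trans h0
  have re_le : ∀ z w : ℂ, ‖z‖ ≤ W → ‖w‖ ≤ W → |(z * conj w).re| ≤ W ^ 2 := by
    intro z w hz hw
    refine (Complex.abs_re_le_norm _).trans ?_
    rw [norm_mul, RCLike.norm_conj, sq]
    exact mul_le_mul hz hw (norm_nonneg _) hW
  have k1 := re_le w0 w1 h0 h1
  have k2 := re_le w0 w2 h0 h2
  have k3 := re_le w1 w2 h1 h2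
  have n1 : |‖w1‖ ^ 2| ≤ W ^ 2 := by
    rw [abs_of_nonneg (by positivity)]
    exact pow_le_pow_left₀ (norm_nonneg _) h1 2
  have n2 : |‖w2‖ ^ 2| ≤ W ^ 2 := by
    rw [abs_of_nonneg (by positivity)]
    exact pow_le_pow_left₀ (norm_nonneg _) h2 2
  have hu : 0 ≤ 10000 * (1 / (m : ℝ)) := by positivity
  have prod : ∀ c B x : ℝ, |c| ≤ B → |x| ≤ 10000 * (1 / (m : ℝ)) →
      c * x ≤ B * (10000 * (1 / (m : ℝ))) := by
    intro c B x hc hx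
    refine (le_abs_self _).trans ?_
    rw [abs_mul]
    exact mul_le_mul hc hx (abs_nonneg _) ((abs_nonneg _).trans hc)
  have g1 := prod (2 * (w0 * conj w1).re) (2 * W ^ 2) _ (by
    rw [abs_mul, abs_of_pos (by norm_num : (0 : ℝ) < 2)]
    linarith) c1
  have g2 := prod (‖w1‖ ^ 2 + 2 * (w0 * conj w2).re) (3 * W ^ 2) _ (by
    refine (abs_add_le _ _).trans ?_
    rw [abs_mul, abs_of_pos (by norm_num : (0 : ℝ) < 2)]
    linarith) c2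
  have g3 := prod (2 * (w1 * conj w2).re) (2 * W ^ 2) _ (by
    rw [abs_mul, abs_of_pos (by norm_num : (0 : ℝ) < 2)]
    linarith) c3
  have g4 := prod (‖w2‖ ^ 2) (W ^ 2) _ n2 c4
  unfold Qf
  linarith

/-- the values of the limiting polynomials, first -/
noncomputable def a0 (s ct : ℂ) : ℂ := 1 + ct * ((2 + s) * (3 + s))
noncomputable def a1 (s ct : ℂ) : ℂ := -(6 * ct * (3 + s))
noncomputable def a2 (ct : ℂ) : ℂ := 12 * ct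
/-- second -/
noncomputable def b0 (s cp : ℂ) : ℂ := (1 + cp) * ((2 + s) * (3 + s))
noncomputable def b1 (s cp : ℂ) : ℂ := -(6 * (3 + s) * (2 + cp))
noncomputable def b2 (cp : ℂ) : ℂ := 12 * (3 + cp)

section

variable {s : ℂ}

theorem norm_add_le_of {a : ℂ} {A : ℝ} {c : ℂ} {C : ℝ} (ha : ‖a‖ ≤ A) (hc : ‖c‖ ≤ C) :
    ‖a + c‖ ≤ A + C := (norm_add_le a c).trans (add_le_add ha hc)

theorem norm_sub_le_of {a : ℂ} {A : ℝ} {c : ℂ} {C : ℝ} (ha : ‖a‖ ≤ A) (hc : ‖c‖ ≤ C) :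
    ‖a - c‖ ≤ A + C := (norm_sub_le a c).trans (add_le_add ha hc)

theorem norm_mul_le_of {a : ℂ} {A : ℝ} {c : ℂ} {C : ℝ} (ha : ‖a‖ ≤ A) (hc : ‖c‖ ≤ C) :
    ‖a * c‖ ≤ A * C := by
  rw [norm_mul]
  exact mul_le_mul ha hc (norm_nonneg _) ((norm_nonneg _).trans ha)

theorem shift_norm (hs : ‖s‖ ≤ 1 / 2) (k : ℕ) : ‖(k : ℂ) + s‖ ≤ (k : ℝ) + 1 / 2 :=
  norm_add_le_of (by rw [Complex.norm_natCast]) hs

theorem n1s (hs : ‖s‖ ≤ 1 / 2) : ‖1 + s‖ ≤ 3 / 2 := by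
  have h := shift_norm hs 1
  push_cast at h
  exact h.trans (by norm_num)

theorem n2s (hs : ‖s‖ ≤ 1 / 2) : ‖2 + s‖ ≤ 5 / 2 := by
  have h := shift_norm hs 2
  push_cast at h
  exact h.trans (by norm_num)

theorem n3s (hs : ‖s‖ ≤ 1 / 2) : ‖3 + s‖ ≤ 7 / 2 := by
  have h := shift_norm hs 3
  push_cast at h
  exact h.trans (by norm_num)

theorem n6 : ‖(6 : ℂ)‖ ≤ 6 := by
  have : (6 : ℂ) = ((6 : ℝ) : ℂ) := by push_cast; rfl
  rw [this, Complex.norm_real]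
  norm_num

theorem n12 : ‖(12 : ℂ)‖ ≤ 12 := by
  have : (12 : ℂ) = ((12 : ℝ) : ℂ) := by push_cast; rfl
  rw [this, Complex.norm_real]
  norm_num

theorem n36 : ‖(36 : ℂ)‖ ≤ 36 := by
  have : (36 : ℂ) = ((36 : ℝ) : ℂ) := by push_cast; rfl
  rw [this, Complex.norm_real]
  norm_num

theorem nreal {x B : ℝ} (hx : 0 ≤ x) (hB : x ≤ B) : ‖(x : ℂ)‖ ≤ B := by
  rw [Complex.norm_real, Real.norm_of_nonneg hx]
  exact hB

/-- the first correction -/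
noncomputable def dz (s : ℂ) (x u : ℝ) : ℂ :=
  ((2 + s) * (3 + s)) * ((3 + 2 * u : ℝ) : ℂ)
    - (6 * (3 + s)) * (((2 * x : ℝ) : ℂ) + (1 + s) + ((2 * u : ℝ) : ℂ) * (1 + s))
    + 12 * ((x : ℂ) * ((1 + s) + (2 + s)) + ((1 + s) * (2 + s)) * (u : ℂ))

noncomputable def dq (s : ℂ) (x u : ℝ) : ℂ :=
  ((2 + s) * (3 + s)) * ((6 + 6 * u : ℝ) : ℂ)
    - (12 * (3 + s)) * (((3 * x : ℝ) : ℂ) + (1 + s) + ((3 * u : ℝ) : ℂ) * (1 + s))
    + 36 * ((x : ℂ) * ((1 + s) + (2 + s)) + ((1 + s) * (2 + s)) * (u : ℂ))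

theorem dz_le (hs : ‖s‖ ≤ 1 / 2) {x u : ℝ} (hx : 0 ≤ x) (hx1 : x ≤ 1) (hu : 0 ≤ u) (hu1 : u ≤ 1) :
    ‖dz s x u‖ ≤ 300 := by
  have h := norm_add_le_of (norm_sub_le_of
    (norm_mul_le_of (norm_mul_le_of (n2s hs) (n3s hs))
      (nreal (x := 3 + 2 * u) (B := 5) (by linarith) (by linarith)))
    (norm_mul_le_of (norm_mul_le_of n6 (n3s hs)) (norm_add_le_of (norm_add_le_of
      (nreal (x := 2 * x) (B := 2) (by linarith) (by linarith)) (n1s hs))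
      (norm_mul_le_of (nreal (x := 2 * u) (B := 2) (by linarith) (by linarith)) (n1s hs)))))
    (norm_mul_le_of n12 (norm_add_le_of
      (norm_mul_le_of (nreal hx hx1) (norm_add_le_of (n1s hs) (n2s hs)))
      (norm_mul_le_of (norm_mul_le_of (n1s hs) (n2s hs)) (nreal hu hu1))))
  unfold dz
  refine h.trans ?_
  norm_num

theorem dq_le (hs : ‖s‖ ≤ 1 / 2) {x u : ℝ} (hx : 0 ≤ x) (hx1 : x ≤ 1) (hu : 0 ≤ u) (hu1 : u ≤ 1) :
    ‖dq s x u‖ ≤ 800 := by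
  have h := norm_add_le_of (norm_sub_le_of
    (norm_mul_le_of (norm_mul_le_of (n2s hs) (n3s hs))
      (nreal (x := 6 + 6 * u) (B := 12) (by linarith) (by linarith)))
    (norm_mul_le_of (norm_mul_le_of n12 (n3s hs)) (norm_add_le_of (norm_add_le_of
      (nreal (x := 3 * x) (B := 3) (by linarith) (by linarith)) (n1s hs))
      (norm_mul_le_of (nreal (x := 3 * u) (B := 3) (by linarith) (by linarith)) (n1s hs)))))
    (norm_mul_le_of n36 (norm_add_le_of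
      (norm_mul_le_of (nreal hx hx1) (norm_add_le_of (n1s hs) (n2s hs)))
      (norm_mul_le_of (norm_mul_le_of (n1s hs) (n2s hs)) (nreal hu hu1))))
  unfold dq
  refine h.trans ?_
  norm_num

theorem zt_eq (s : ℂ) {m : ℕ} (hm : 1 ≤ m) (i : ℕ) :
    zt s m i = (m : ℂ) ^ 2 * (((2 + s) * (3 + s) - 6 * (3 + s) * ((((m - i : ℕ) : ℝ) / m : ℝ) : ℂ)
      + 12 * ((((m - i : ℕ) : ℝ) / m : ℝ) : ℂ) ^ 2)
      + ((1 / m : ℝ) : ℂ) * dz s (((m - i : ℕ) : ℝ) / m) (1 / m)) := by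
  have hm0 : (m : ℂ) ≠ 0 := by
    have : m ≠ 0 := by omega
    exact_mod_cast this
  unfold zt dz
  push_cast
  field_simp
  ring

theorem qt_eq (s : ℂ) {m : ℕ} (hm : 1 ≤ m) (i : ℕ) :
    qt s m i = (m : ℂ) ^ 2 * (((2 + s) * (3 + s) - 12 * (3 + s) * ((((m - i : ℕ) : ℝ) / m : ℝ) : ℂ)
      + 36 * ((((m - i : ℕ) : ℝ) / m : ℝ) : ℂ) ^ 2)
      + ((1 / m : ℝ) : ℂ) * dq s (((m - i : ℕ) : ℝ) / m) (1 / m)) := by
  have hm0 : (m : ℂ) ≠ 0 := by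
    have : m ≠ 0 := by omega
    exact_mod_cast this
  unfold qt dq
  push_cast
  field_simp
  ring

/-- the sequence used against `Fn` -/
noncomputable def tf (s ct cp α β : ℂ) (m i : ℕ) : ℂ :=
  α * ((m : ℂ) ^ 2 + ct * zt s m i) + β * (qt s m i + cp * zt s m i)

theorem Fn_tf (s ct cp α β : ℂ) (d : ℕ → ℂ) (m : ℕ) (hd : ∀ l ≤ m, d l = d (m - l)) :
    Fn s d m (tf s ct cp α β m) = (m : ℂ) ^ 2 * (α * (m * Sk d m 0 / 2))
      + β * ((2 + s) * (3 + s) * (m * Ls d m / 2)) := by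
  have e : Fn s d m (tf s ct cp α β m) = Fn s d m (fun i => ((m : ℂ) ^ 2 * α) * 1
      + (β * qt s m i + (α * ct + β * cp) * zt s m i)) := by
    apply Fn_congr
    intro i _
    unfold tf
    ring
  have h1 : Fn s d m (fun i => ((m : ℂ) ^ 2 * α) * 1) = ((m : ℂ) ^ 2 * α) * (m * Sk d m 0 / 2) := by
    rw [Fn_smul s d m ((m : ℂ) ^ 2 * α) (fun _ => 1), Fn_one s d m hd]
  have h2 : Fn s d m (fun i => β * qt s m i + (α * ct + β * cp) * zt s m i)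
      = β * ((2 + s) * (3 + s) * (m * Ls d m / 2)) := by
    rw [Fn_add s d m (fun i => β * qt s m i) (fun i => (α * ct + β * cp) * zt s m i),
      Fn_smul s d m β (qt s m), Fn_smul s d m (α * ct + β * cp) (zt s m), Fn_qt s d m hd,
      Fn_zt s d m hd]
    ring
  rw [e, Fn_add s d m (fun _ => ((m : ℂ) ^ 2 * α) * 1)
    (fun i => β * qt s m i + (α * ct + β * cp) * zt s m i), h1, h2]
  ring

theorem tf_eq (s ct cp α β : ℂ) {m : ℕ} (hm : 1 ≤ m) (i : ℕ) :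
    tf s ct cp α β m i = (m : ℂ) ^ 2 * (((α * a0 s ct + β * b0 s cp)
      + (α * a1 s ct + β * b1 s cp) * ((((m - i : ℕ) : ℝ) / m : ℝ) : ℂ)
      + (α * a2 ct + β * b2 cp) * ((((m - i : ℕ) : ℝ) / m : ℝ) : ℂ) ^ 2)
      + ((1 / m : ℝ) : ℂ) * ((α * ct + β * cp) * dz s (((m - i : ℕ) : ℝ) / m) (1 / m)
        + β * dq s (((m - i : ℕ) : ℝ) / m) (1 / m))) := by
  unfold tf
  rw [zt_eq s hm, qt_eq s hm]
  unfold a0 a1 a2 b0 b1 b2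
  ring

theorem a0_le (hs : ‖s‖ ≤ 1 / 2) {ct : ℂ} (hct : ‖ct‖ ≤ 1) : ‖a0 s ct‖ ≤ 130 := by
  have h := norm_add_le_of (norm_one.le : ‖(1 : ℂ)‖ ≤ 1)
    (norm_mul_le_of hct (norm_mul_le_of (n2s hs) (n3s hs)))
  unfold a0
  exact h.trans (by norm_num)

theorem a1_le (hs : ‖s‖ ≤ 1 / 2) {ct : ℂ} (hct : ‖ct‖ ≤ 1) : ‖a1 s ct‖ ≤ 130 := by
  have h := norm_mul_le_of (norm_mul_le_of n6 hct) (n3s hs)
  unfold a1
  rw [norm_neg]
  exact h.trans (by norm_num)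

theorem a2_le {ct : ℂ} (hct : ‖ct‖ ≤ 1) : ‖a2 ct‖ ≤ 130 := by
  have h := norm_mul_le_of n12 hct
  unfold a2
  exact h.trans (by norm_num)

theorem b0_le (hs : ‖s‖ ≤ 1 / 2) {cp : ℂ} (hcp : ‖cp‖ ≤ 4) : ‖b0 s cp‖ ≤ 130 := by
  have h := norm_mul_le_of (norm_add_le_of (norm_one.le : ‖(1 : ℂ)‖ ≤ 1) hcp)
    (norm_mul_le_of (n2s hs) (n3s hs))
  unfold b0
  exact h.trans (by norm_num)

theorem b1_le (hs : ‖s‖ ≤ 1 / 2) {cp : ℂ} (hcp : ‖cp‖ ≤ 4) : ‖b1 s cp‖ ≤ 130 := by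
  have h := norm_mul_le_of (norm_mul_le_of n6 (n3s hs))
    (norm_add_le_of (Complex.norm_two.le : ‖(2 : ℂ)‖ ≤ 2) hcp)
  unfold b1
  rw [norm_neg]
  exact h.trans (by norm_num)

theorem b2_le {cp : ℂ} (hcp : ‖cp‖ ≤ 4) : ‖b2 cp‖ ≤ 130 := by
  have h3 : ‖(3 : ℂ)‖ ≤ 3 := by
    have : (3 : ℂ) = ((3 : ℝ) : ℂ) := by push_cast; rfl
    rw [this, Complex.norm_real]
    norm_num
  have h := norm_mul_le_of n12 (norm_add_le_of h3 hcp)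
  unfold b2
  exact h.trans (by norm_num)

theorem comb_le {α β z w : ℂ} (hz : ‖z‖ ≤ 130) (hw : ‖w‖ ≤ 130) :
    ‖α * z + β * w‖ ≤ 130 * (‖α‖ + ‖β‖) := by
  have h := norm_add_le_of (norm_mul_le_of (le_refl ‖α‖) hz) (norm_mul_le_of (le_refl ‖β‖) hw)
  exact h.trans (le_of_eq (by ring))

/-- the norm of the test sequence -/
theorem tf_norm (hs : ‖s‖ < 1 / 2) {b : ℝ} (hb : 0 < b) (hb1 : b ≤ 1 / 2) {ct cp : ℂ}
    (hct : ‖ct‖ ≤ 1) (hcp : ‖cp‖ ≤ 4) (α β : ℂ) {m : ℕ} (hm : 1 ≤ m) :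
    ∑ i ∈ Finset.range m, Wt b s.re m i * ‖tf s ct cp α β m i‖ ^ 2
      ≤ (m : ℝ) ^ 4 * pq (b + 3) (m - 1) * (Qf b s.re (α * a0 s ct + β * b0 s cp)
        (α * a1 s ct + β * b1 s cp) (α * a2 ct + β * b2 cp)
        + 10 ^ 10 * (1 / m) * (‖α‖ ^ 2 + ‖β‖ ^ 2)) := by
  have hre := Complex.abs_re_le_norm s
  have hre2 := abs_lt.mp (hre.trans_lt hs)
  have hr : -(1 / 2) ≤ s.re := by linarith
  have hr1 : s.re ≤ 1 / 2 := by linarith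
  have hσ : 0 < b + 1 - 2 * s.re := by linarith
  have hm0 : (0 : ℝ) < m := by exact_mod_cast (by omega : 0 < m)
  have hm1 : (1 : ℝ) ≤ m := by exact_mod_cast hm
  obtain ⟨w0, hw0⟩ : ∃ w, w = α * a0 s ct + β * b0 s cp := ⟨_, rfl⟩
  obtain ⟨w1, hw1⟩ : ∃ w, w = α * a1 s ct + β * b1 s cp := ⟨_, rfl⟩
  obtain ⟨w2, hw2⟩ : ∃ w, w = α * a2 ct + β * b2 cp := ⟨_, rfl⟩
  have k0 : ‖w0‖ ≤ 130 * (‖α‖ + ‖β‖) := by
    rw [hw0]; exact comb_le (a0_le hs.le hct) (b0_le hs.le hcp)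
  have k1 : ‖w1‖ ≤ 130 * (‖α‖ + ‖β‖) := by
    rw [hw1]; exact comb_le (a1_le hs.le hct) (b1_le hs.le hcp)
  have k2 : ‖w2‖ ≤ 130 * (‖α‖ + ‖β‖) := by
    rw [hw2]; exact comb_le (a2_le hct) (b2_le hcp)
  have hE := Em_normsq hb hb1 hr hr1 hσ hm w0 w1 w2 k0 k1 k2
  obtain ⟨T, hT⟩ : ∃ T, T = ‖α‖ + ‖β‖ := ⟨_, rfl⟩
  have hT0 : 0 ≤ T := by rw [hT]; positivity
  have hT2 : T ^ 2 ≤ 2 * (‖α‖ ^ 2 + ‖β‖ ^ 2) := by
    rw [hT]
    nlinarith [sq_nonneg (‖α‖ - ‖β‖)]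
  rw [← hT] at hE k0 k1 k2
  have hu0 : 0 ≤ 1 / (m : ℝ) := by positivity
  have hu1 : 1 / (m : ℝ) ≤ 1 := by
    rw [div_le_one hm0]; exact hm1
  -- pointwise
  have hpt : ∀ i ∈ Finset.range m, Wt b s.re m i * ‖tf s ct cp α β m i‖ ^ 2
      ≤ (m : ℝ) ^ 4 * (Wt b s.re m i * (‖w0 + w1 * ((((m - i : ℕ) : ℝ) / m : ℝ) : ℂ)
        + w2 * ((((m - i : ℕ) : ℝ) / m : ℝ) : ℂ) ^ 2‖ ^ 2
          + (2 * (390 * T) * (3000 * T) + (3000 * T) ^ 2) * (1 / m))) := by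
    intro i hi
    rw [Finset.mem_range] at hi
    have hx0 : 0 ≤ ((m - i : ℕ) : ℝ) / m := by positivity
    have hx1 : ((m - i : ℕ) : ℝ) / m ≤ 1 := by
      rw [div_le_one hm0]
      exact_mod_cast (by omega : m - i ≤ m)
    rw [tf_eq s ct cp α β hm i, ← hw0, ← hw1, ← hw2]
    generalize hxd : ((m - i : ℕ) : ℝ) / m = x at *
    have hW := Wt_pos (b := b) (r := s.re) (by linarith) hσ m i
    have hz := dz_le hs.le hx0 hx1 hu0 hu1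
    have hq := dq_le hs.le hx0 hx1 hu0 hu1
    have he : ‖(α * ct + β * cp) * dz s x (1 / m) + β * dq s x (1 / m)‖ ≤ 3000 * T := by
      have h1 := norm_add_le_of (norm_mul_le_of (norm_add_le_of
        (norm_mul_le_of (le_refl ‖α‖) hct) (norm_mul_le_of (le_refl ‖β‖) hcp)) hz)
        (norm_mul_le_of (le_refl ‖β‖) hq)
      refine h1.trans ?_
      rw [hT]
      have := norm_nonneg α
      have := norm_nonneg β
      linarith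
    have hw : ‖w0 + w1 * (x : ℂ) + w2 * (x : ℂ) ^ 2‖ ≤ 390 * T := by
      have hxn : ‖(x : ℂ)‖ ≤ 1 := nreal hx0 hx1
      have hxn2 : ‖(x : ℂ) ^ 2‖ ≤ 1 := by
        rw [norm_pow]
        exact pow_le_one₀ (norm_nonneg _) hxn
      have h1 := norm_add_le_of (norm_add_le_of k0 (norm_mul_le_of k1 hxn))
        (norm_mul_le_of k2 hxn2)
      exact h1.trans (le_of_eq (by ring))
    rw [norm_mul, mul_pow, norm_pow, Complex.norm_natCast]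
    have hsum : ‖(w0 + w1 * (x : ℂ) + w2 * (x : ℂ) ^ 2) + ((1 / m : ℝ) : ℂ)
        * ((α * ct + β * cp) * dz s x (1 / m) + β * dq s x (1 / m))‖ ^ 2
        ≤ ‖w0 + w1 * (x : ℂ) + w2 * (x : ℂ) ^ 2‖ ^ 2
          + (2 * (390 * T) * (3000 * T) + (3000 * T) ^ 2) * (1 / m) := by
      have h2 : ‖(w0 + w1 * (x : ℂ) + w2 * (x : ℂ) ^ 2) + ((1 / m : ℝ) : ℂ)
        * ((α * ct + β * cp) * dz s x (1 / m) + β * dq s x (1 / m))‖
        ≤ ‖w0 + w1 * (x : ℂ) + w2 * (x : ℂ) ^ 2‖ + (1 / m) * (3000 * T) := by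
        apply norm_add_le_of le_rfl
        apply norm_mul_le_of _ he
        exact nreal hu0 le_rfl
      refine (pow_le_pow_left₀ (norm_nonneg _) h2 2).trans ?_
      have hn := norm_nonneg (w0 + w1 * (x : ℂ) + w2 * (x : ℂ) ^ 2)
      generalize ‖w0 + w1 * (x : ℂ) + w2 * (x : ℂ) ^ 2‖ = N at *
      generalize 1 / (m : ℝ) = u at *
      have h3 : u ^ 2 ≤ u := by nlinarith
      calc (N + u * (3000 * T)) ^ 2 = N ^ 2 + 2 * N * (3000 * T) * u + (3000 * T) ^ 2 * u ^ 2 := by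
            ring
        _ ≤ N ^ 2 + 2 * (390 * T) * (3000 * T) * u + (3000 * T) ^ 2 * u := by gcongr
        _ = _ := by ring
    calc Wt b s.re m i * (((m : ℝ) ^ 2) ^ 2 * ‖(w0 + w1 * (x : ℂ) + w2 * (x : ℂ) ^ 2)
          + ((1 / m : ℝ) : ℂ)
          * ((α * ct + β * cp) * dz s x (1 / m) + β * dq s x (1 / m))‖ ^ 2)
        ≤ Wt b s.re m i * (((m : ℝ) ^ 2) ^ 2 * (‖w0 + w1 * (x : ℂ) + w2 * (x : ℂ) ^ 2‖ ^ 2
          + (2 * (390 * T) * (3000 * T) + (3000 * T) ^ 2) * (1 / m))) := by gcongr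
      _ = _ := by ring
  refine (Finset.sum_le_sum hpt).trans ?_
  rw [← Finset.mul_sum, mul_assoc ((m : ℝ) ^ 4)]
  apply mul_le_mul_of_nonneg_left _ (by positivity)
  have hp := pq_pos (by linarith : 0 < b + 3) (m - 1)
  have hsplit : ∑ i ∈ Finset.range m, Wt b s.re m i *
      (‖w0 + w1 * ((((m - i : ℕ) : ℝ) / m : ℝ) : ℂ)
        + w2 * ((((m - i : ℕ) : ℝ) / m : ℝ) : ℂ) ^ 2‖ ^ 2
          + (2 * (390 * T) * (3000 * T) + (3000 * T) ^ 2) * (1 / m))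
      = pq (b + 3) (m - 1) * (Em b s.re m (fun x => ‖w0 + w1 * x + w2 * x ^ 2‖ ^ 2)
        + (2 * (390 * T) * (3000 * T) + (3000 * T) ^ 2) * (1 / m)) := by
    unfold Em
    rw [mul_add, mul_div_cancel₀ _ hp.ne', ← sum_Wt (b := b) (r := s.re) hm, Finset.sum_mul,
      ← Finset.sum_add_distrib]
    apply Finset.sum_congr rfl
    intro i _
    ring
  rw [hsplit]
  apply mul_le_mul_of_nonneg_left _ hp.le
  rw [← hw0, ← hw1, ← hw2]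
  have h5 : 80000 * (130 * T) ^ 2 * (1 / (m : ℝ)) + (2 * (390 * T) * (3000 * T)
      + (3000 * T) ^ 2) * (1 / m) ≤ 10 ^ 10 * (1 / m) * (‖α‖ ^ 2 + ‖β‖ ^ 2) := by
    have e : 80000 * (130 * T) ^ 2 * (1 / (m : ℝ)) + (2 * (390 * T) * (3000 * T)
      + (3000 * T) ^ 2) * (1 / m) = (1363340000 * T ^ 2) * (1 / m) := by ring
    rw [e]
    have h6 : 1363340000 * T ^ 2 ≤ 10 ^ 10 * (‖α‖ ^ 2 + ‖β‖ ^ 2) := by
      have h7 := mul_le_mul_of_nonneg_left hT2 (by norm_num : (0 : ℝ) ≤ 1363340000)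
      have h8 : 0 ≤ ‖α‖ ^ 2 + ‖β‖ ^ 2 := by positivity
      linarith
    calc (1363340000 * T ^ 2) * (1 / m) ≤ (10 ^ 10 * (‖α‖ ^ 2 + ‖β‖ ^ 2)) * (1 / m) := by gcongr
      _ = _ := by ring
  linarith

/-- the lower bound of `Pf` by the two functionals -/
theorem Pf_lower (hs : ‖s‖ < 1 / 2) {b : ℝ} (hb : 0 < b) (hb1 : b ≤ 1 / 2) {K : ℝ}
    (hK0 : 0 < K) (hK : ∀ n, kap s.re (‖s‖ ^ 2) n ≤ K) {ct cp : ℂ}
    (hct : ‖ct‖ ≤ 1) (hcp : ‖cp‖ ≤ 4) {A1 A2 : ℝ} (hA1 : 0 < A1) (hA2 : 0 < A2)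
    (hQ : ∀ α β : ℂ, Qf b s.re (α * a0 s ct + β * b0 s cp) (α * a1 s ct + β * b1 s cp)
      (α * a2 ct + β * b2 cp) ≤ A1 * ‖α‖ ^ 2 + A2 * ‖β‖ ^ 2)
    {d : ℕ → ℂ} {m : ℕ} (hm : 1 ≤ m) (hd : ∀ l ≤ m, d l = d (m - l)) :
    ‖(m : ℂ) * Sk d m 0 / 2‖ ^ 2 / (A1 + 10 ^ 10 * (1 / m))
      + ‖(2 + s) * (3 + s) * (Ls d m / (2 * m))‖ ^ 2 / (A2 + 10 ^ 10 * (1 / m))
      ≤ K * pq (b + 3) (m - 1) * Pf s b d m := by
  have hm0 : (0 : ℝ) < m := by exact_mod_cast (by omega : 0 < m)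
  have hmc : (m : ℂ) ≠ 0 := by exact_mod_cast hm0.ne'
  have hre := Complex.abs_re_le_norm s
  have hre2 := abs_lt.mp (hre.trans_lt hs)
  have hσ : 0 < b + 1 - 2 * s.re := by linarith
  have hP := Pf_nonneg hσ d m
  have hu0 : 0 < 10 ^ 10 * (1 / (m : ℝ)) := by positivity
  apply gram_two (by positivity) (by positivity)
  intro α β
  have h1 := Fn_cs hs hb hK d m (tf s ct cp α β m)
  have h2 := tf_norm hs hb hb1 hct hcp α β hm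
  have h3 := hQ α β
  have hp := pq_pos (by linarith : 0 < b + 3) (m - 1)
  rw [Fn_tf s ct cp α β d m hd] at h1
  have e1 : (m : ℂ) ^ 2 * (α * (m * Sk d m 0 / 2)) + β * ((2 + s) * (3 + s) * (m * Ls d m / 2))
      = (m : ℂ) ^ 2 * (α * (m * Sk d m 0 / 2)
        + β * ((2 + s) * (3 + s) * (Ls d m / (2 * m)))) := by
    field_simp
  rw [e1, norm_mul, mul_pow, norm_pow, Complex.norm_natCast] at h1
  have h4 : ((m : ℝ) ^ 2) ^ 2 * ‖α * (m * Sk d m 0 / 2)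
        + β * ((2 + s) * (3 + s) * (Ls d m / (2 * m)))‖ ^ 2
      ≤ ((m : ℝ) ^ 2) ^ 2 * (K * pq (b + 3) (m - 1) * Pf s b d m *
        ((A1 + 10 ^ 10 * (1 / m)) * ‖α‖ ^ 2 + (A2 + 10 ^ 10 * (1 / m)) * ‖β‖ ^ 2)) := by
    refine h1.trans ?_
    calc K * (∑ i ∈ Finset.range m, Wt b s.re m i * ‖tf s ct cp α β m i‖ ^ 2) * Pf s b d m
        ≤ K * ((m : ℝ) ^ 4 * pq (b + 3) (m - 1) * ((A1 * ‖α‖ ^ 2 + A2 * ‖β‖ ^ 2)
          + 10 ^ 10 * (1 / m) * (‖α‖ ^ 2 + ‖β‖ ^ 2))) * Pf s b d m := by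
          have h5 := h2.trans (mul_le_mul_of_nonneg_left
            (add_le_add_left h3 (10 ^ 10 * (1 / m) * (‖α‖ ^ 2 + ‖β‖ ^ 2)))
            (by positivity : 0 ≤ (m : ℝ) ^ 4 * pq (b + 3) (m - 1)))
          gcongr
      _ = _ := by ring
  exact le_of_mul_le_mul_left h4 (by positivity)

end

end Pool.Agent.Helper39.HR
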