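import Mathlib
import Pool.Agent.Helper39.HR.Lower

/-!
MP_16b0ee, project HR: the sesquilinear form on real combinations of `1` and `s`.
-/

set_option autoImplicit false

open scoped ComplexConjugate

namespace Pool.Agent.Helper39.HR

open Pool.Agent.Helper22.Half

/-- `A + B s` -/
noncomputable def pr (s : ℂ) (A B : ℝ) : ℂ := (A : ℂ) + (B : ℂ) * s

theorem pr_re (s : ℂ) (A B C D : ℝ) : (pr s A B * conj (pr s C D)).re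
    = A * C + (A * D + B * C) * s.re + B * D * ‖s‖ ^ 2 := by
  rw [← Complex.normSq_eq_norm_sq, Complex.normSq_apply]
  unfold pr
  simp only [Complex.mul_re, Complex.add_re, Complex.add_im, Complex.conj_re, Complex.conj_im,
    Complex.ofReal_re, Complex.ofReal_im, Complex.mul_im]
  ring

theorem pr_im (s : ℂ) (A B C D : ℝ) : (pr s A B * conj (pr s C D)).im
    = (B * C - A * D) * s.im := by
  unfold pr
  simp only [Complex.mul_im, Complex.add_re, Complex.add_im, Complex.conj_re, Complex.conj_im,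
    Complex.ofReal_re, Complex.ofReal_im, Complex.mul_re]
  ring

theorem pr_normsq (s : ℂ) (A B : ℝ) : ‖pr s A B‖ ^ 2
    = A * A + (A * B + B * A) * s.re + B * B * ‖s‖ ^ 2 := by
  rw [← pr_re, ← Complex.normSq_eq_norm_sq, Complex.mul_conj, Complex.ofReal_re]

theorem s_sq (s : ℂ) : s * s = 2 * (s.re : ℂ) * s - ((‖s‖ ^ 2 : ℝ) : ℂ) := by
  rw [← Complex.normSq_eq_norm_sq, Complex.normSq_apply]
  apply Complex.ext
  · simp only [Complex.mul_re, Complex.sub_re, Complex.ofReal_re, Complex.ofReal_im,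
      Complex.mul_im, Complex.re_ofNat, Complex.im_ofNat]
    ring
  · simp only [Complex.mul_re, Complex.sub_im, Complex.ofReal_re, Complex.ofReal_im,
      Complex.mul_im, Complex.re_ofNat, Complex.im_ofNat]
    ring

/-- the sesquilinear form -/
noncomputable def Bf (b r : ℝ) (w0 w1 w2 z0 z1 z2 : ℂ) : ℂ :=
  w0 * conj z0 + (w0 * conj z1 + w1 * conj z0) * (mo1 b r : ℂ)
    + (w0 * conj z2 + w1 * conj z1 + w2 * conj z0) * (mo2 b r : ℂ)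
    + (w1 * conj z2 + w2 * conj z1) * (mo3 b r : ℂ) + w2 * conj z2 * (mo4 b r : ℂ)

theorem Qf_comb (b r : ℝ) (α β w0 w1 w2 z0 z1 z2 : ℂ) :
    Qf b r (α * w0 + β * z0) (α * w1 + β * z1) (α * w2 + β * z2)
      = Qf b r w0 w1 w2 * ‖α‖ ^ 2 + Qf b r z0 z1 z2 * ‖β‖ ^ 2
        + 2 * (α * conj β * Bf b r w0 w1 w2 z0 z1 z2).re := by
  unfold Qf Bf
  simp only [← Complex.normSq_eq_norm_sq, Complex.normSq_apply, Complex.mul_re, Complex.mul_im,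
    Complex.add_re, Complex.add_im, Complex.conj_re, Complex.conj_im, Complex.ofReal_re,
    Complex.ofReal_im]
  ring

theorem young_aux {α β B : ℂ} {p : ℝ} (hp : 0 < p) :
    2 * (α * conj β * B).re ≤ p * ‖α‖ ^ 2 + ‖B‖ ^ 2 / p * ‖β‖ ^ 2 := by
  have h1 : (α * conj β * B).re ≤ ‖α‖ * ‖β‖ * ‖B‖ := by
    refine (Complex.re_le_norm _).trans (le_of_eq ?_)
    rw [norm_mul, norm_mul, RCLike.norm_conj]
  have h2 : 2 * (‖α‖ * ‖β‖ * ‖B‖) ≤ p * ‖α‖ ^ 2 + ‖B‖ ^ 2 / p * ‖β‖ ^ 2 := by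
    have h3 : p * ‖α‖ ^ 2 + ‖B‖ ^ 2 / p * ‖β‖ ^ 2 - 2 * (‖α‖ * ‖β‖ * ‖B‖)
        = p * (‖α‖ - ‖B‖ / p * ‖β‖) ^ 2 := by
      field_simp
      ring
    have h4 : 0 ≤ p * (‖α‖ - ‖B‖ / p * ‖β‖) ^ 2 := by positivity
    linarith
  linarith

theorem hQ_of {b r p A1 A2 : ℝ} (hp : 0 < p) {w0 w1 w2 z0 z1 z2 : ℂ}
    (h1 : Qf b r w0 w1 w2 + p ≤ A1)
    (h2 : Qf b r z0 z1 z2 + ‖Bf b r w0 w1 w2 z0 z1 z2‖ ^ 2 / p ≤ A2) (α β : ℂ) :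
    Qf b r (α * w0 + β * z0) (α * w1 + β * z1) (α * w2 + β * z2)
      ≤ A1 * ‖α‖ ^ 2 + A2 * ‖β‖ ^ 2 := by
  rw [Qf_comb]
  have h3 := young_aux (α := α) (β := β) (B := Bf b r w0 w1 w2 z0 z1 z2) hp
  have h4 := mul_le_mul_of_nonneg_right h1 (sq_nonneg ‖α‖)
  have h5 := mul_le_mul_of_nonneg_right h2 (sq_nonneg ‖β‖)
  rw [add_mul] at h4 h5
  linarith

/-- the real part of a product -/
def R2 (r ρ A B C D : ℝ) : ℝ := A * C + (A * D + B * C) * r + B * D * ρ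

/-- denominators -/
noncomputable def D4 (b : ℝ) : ℝ := (b + 3) * (b + 4) * (b + 5) * (b + 6)

/-- the real form times the denominator -/
def FR (r ρ b A0 B0 A1 B1 A2 B2 C0 D0 C1 D1 C2 D2 : ℝ) : ℝ :=
  R2 r ρ A0 B0 C0 D0 * ((b + 3) * (b + 4) * (b + 5) * (b + 6))
    + (R2 r ρ A0 B0 C1 D1 + R2 r ρ A1 B1 C0 D0) * ((2 + 2 * r) * ((b + 4) * (b + 5) * (b + 6)))
    + (R2 r ρ A0 B0 C2 D2 + R2 r ρ A1 B1 C1 D1 + R2 r ρ A2 B2 C0 D0)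
      * ((2 + 2 * r) * (3 + 2 * r) * ((b + 5) * (b + 6)))
    + (R2 r ρ A1 B1 C2 D2 + R2 r ρ A2 B2 C1 D1)
      * ((2 + 2 * r) * (3 + 2 * r) * (4 + 2 * r) * (b + 6))
    + R2 r ρ A2 B2 C2 D2 * ((2 + 2 * r) * (3 + 2 * r) * (4 + 2 * r) * (5 + 2 * r))

/-- the imaginary form times the denominator -/
def FI (r b A0 B0 A1 B1 A2 B2 C0 D0 C1 D1 C2 D2 : ℝ) : ℝ :=
  (B0 * C0 - A0 * D0) * ((b + 3) * (b + 4) * (b + 5) * (b + 6))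
    + ((B0 * C1 - A0 * D1) + (B1 * C0 - A1 * D0)) * ((2 + 2 * r) * ((b + 4) * (b + 5) * (b + 6)))
    + ((B0 * C2 - A0 * D2) + (B1 * C1 - A1 * D1) + (B2 * C0 - A2 * D0))
      * ((2 + 2 * r) * (3 + 2 * r) * ((b + 5) * (b + 6)))
    + ((B1 * C2 - A1 * D2) + (B2 * C1 - A2 * D1))
      * ((2 + 2 * r) * (3 + 2 * r) * (4 + 2 * r) * (b + 6))
    + (B2 * C2 - A2 * D2) * ((2 + 2 * r) * (3 + 2 * r) * (4 + 2 * r) * (5 + 2 * r))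

section
variable {s : ℂ} {b : ℝ} {A0 B0 A1 B1 A2 B2 C0 D0 C1 D1 C2 D2 : ℝ}

theorem mo_D4 (hb : 0 < b) (r : ℝ) : mo1 b r * D4 b = (2 + 2 * r) * ((b + 4) * (b + 5) * (b + 6)) ∧
    mo2 b r * D4 b = (2 + 2 * r) * (3 + 2 * r) * ((b + 5) * (b + 6)) ∧
    mo3 b r * D4 b = (2 + 2 * r) * (3 + 2 * r) * (4 + 2 * r) * (b + 6) ∧
    mo4 b r * D4 b = (2 + 2 * r) * (3 + 2 * r) * (4 + 2 * r) * (5 + 2 * r) := by
  unfold mo1 mo2 mo3 mo4 D4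
  refine ⟨?_, ?_, ?_, ?_⟩ <;> field_simp

theorem D4_pos (hb : 0 < b) : 0 < D4 b := by unfold D4; positivity

theorem Bf_re (hb : 0 < b) : (Bf b s.re (pr s A0 B0) (pr s A1 B1) (pr s A2 B2) (pr s C0 D0)
    (pr s C1 D1) (pr s C2 D2)).re * D4 b
    = FR s.re (‖s‖ ^ 2) b A0 B0 A1 B1 A2 B2 C0 D0 C1 D1 C2 D2 := by
  obtain ⟨h1, h2, h3, h4⟩ := mo_D4 hb s.re
  unfold Bf FR R2
  simp only [Complex.add_re, Complex.re_mul_ofReal, pr_re]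
  rw [← h1, ← h2, ← h3, ← h4]
  unfold D4
  ring

theorem Bf_im (hb : 0 < b) : (Bf b s.re (pr s A0 B0) (pr s A1 B1) (pr s A2 B2) (pr s C0 D0)
    (pr s C1 D1) (pr s C2 D2)).im * D4 b
    = s.im * FI s.re b A0 B0 A1 B1 A2 B2 C0 D0 C1 D1 C2 D2 := by
  obtain ⟨h1, h2, h3, h4⟩ := mo_D4 hb s.re
  unfold Bf FI
  simp only [Complex.add_im, Complex.im_mul_ofReal, pr_im]
  rw [← h1, ← h2, ← h3, ← h4]
  unfold D4
  ring

theorem Qf_eq (hb : 0 < b) : Qf b s.re (pr s A0 B0) (pr s A1 B1) (pr s A2 B2) * D4 b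
    = FR s.re (‖s‖ ^ 2) b A0 B0 A1 B1 A2 B2 A0 B0 A1 B1 A2 B2 := by
  obtain ⟨h1, h2, h3, h4⟩ := mo_D4 hb s.re
  unfold Qf FR R2
  simp only [pr_normsq, pr_re]
  rw [← h1, ← h2, ← h3, ← h4]
  unfold D4
  ring

theorem im_sq (s : ℂ) : s.im ^ 2 = ‖s‖ ^ 2 - s.re ^ 2 := by
  rw [← Complex.normSq_eq_norm_sq, Complex.normSq_apply]
  ring

theorem Bf_normsq (hb : 0 < b) : ‖Bf b s.re (pr s A0 B0) (pr s A1 B1) (pr s A2 B2) (pr s C0 D0)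
    (pr s C1 D1) (pr s C2 D2)‖ ^ 2 * D4 b ^ 2
    = FR s.re (‖s‖ ^ 2) b A0 B0 A1 B1 A2 B2 C0 D0 C1 D1 C2 D2 ^ 2
      + (‖s‖ ^ 2 - s.re ^ 2) * FI s.re b A0 B0 A1 B1 A2 B2 C0 D0 C1 D1 C2 D2 ^ 2 := by
  have h1 := Bf_re (s := s) (A0 := A0) (B0 := B0) (A1 := A1) (B1 := B1) (A2 := A2) (B2 := B2)
    (C0 := C0) (D0 := D0) (C1 := C1) (D1 := D1) (C2 := C2) (D2 := D2) hb
  have h2 := Bf_im (s := s) (A0 := A0) (B0 := B0) (A1 := A1) (B1 := B1) (A2 := A2) (B2 := B2)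
    (C0 := C0) (D0 := D0) (C1 := C1) (D1 := D1) (C2 := C2) (D2 := D2) hb
  rw [← h1, ← im_sq s, ← Complex.normSq_eq_norm_sq, Complex.normSq_apply]
  have h3 : s.im ^ 2 * FI s.re b A0 B0 A1 B1 A2 B2 C0 D0 C1 D1 C2 D2 ^ 2
      = (s.im * FI s.re b A0 B0 A1 B1 A2 B2 C0 D0 C1 D1 C2 D2) ^ 2 := by ring
  rw [h3, ← h2]
  ring

end

end Pool.Agent.Helper39.HR
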