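import Mathlib
import Pool.Agent.Helper39.HR.Pair

/-!
MP_16b0ee, project HR: the explicit test vectors.
-/

set_option autoImplicit false

open scoped ComplexConjugate

namespace Pool.Agent.Helper39.HR

open Pool.Agent.Helper22.Half

noncomputable def ctv (s : ℂ) : ℂ := (((5 / 8 : ℝ)) : ℂ) * s
noncomputable def cpv (s : ℂ) : ℂ := ((11 / 2 * s.re : ℝ) : ℂ) - (((12 / 5 : ℝ)) : ℂ) * s

noncomputable def eA0 (r ρ : ℝ) : ℝ := 1 - 25 / 8 * ρ - 5 / 4 * r * ρ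
noncomputable def eB0 (r ρ : ℝ) : ℝ := 15 / 4 + 25 / 4 * r + 5 / 2 * r ^ 2 - 5 / 8 * ρ
noncomputable def eA1 (ρ : ℝ) : ℝ := 15 / 4 * ρ
noncomputable def eB1 (r : ℝ) : ℝ := -(45 / 4) - 15 / 2 * r
noncomputable def fA0 (r ρ : ℝ) : ℝ := 6 + 11 * ρ + 33 * r - 7 / 10 * r * ρ
noncomputable def fB0 (r ρ : ℝ) : ℝ := -(47 / 5) + 12 / 5 * ρ + 11 / 2 * r + 7 / 5 * r ^ 2
noncomputable def fA1 (r ρ : ℝ) : ℝ := -36 - 72 / 5 * ρ - 99 * r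
noncomputable def fB1 (r : ℝ) : ℝ := 156 / 5 - 21 / 5 * r
noncomputable def fA2 (r : ℝ) : ℝ := 36 + 66 * r

theorem ctv_norm {s : ℂ} (hs : ‖s‖ < 1 / 2) : ‖ctv s‖ ≤ 1 := by
  unfold ctv
  rw [norm_mul, Complex.norm_real, Real.norm_of_nonneg (by norm_num)]
  linarith

theorem cpv_norm {s : ℂ} (hs : ‖s‖ < 1 / 2) : ‖cpv s‖ ≤ 4 := by
  unfold cpv
  have h1 := norm_sub_le ((11 / 2 * s.re : ℝ) : ℂ) ((((12 / 5 : ℝ)) : ℂ) * s)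
  rw [norm_mul, Complex.norm_real, Complex.norm_real, Real.norm_of_nonneg (by norm_num : (0:ℝ) ≤ 12 / 5),
    Real.norm_eq_abs, abs_mul, abs_of_nonneg (by norm_num : (0:ℝ) ≤ 11 / 2)] at h1
  have h2 := Complex.abs_re_le_norm s
  linarith

/-- reduction modulo the quadratic equation of `s` -/
theorem red (s : ℂ) : s ^ 2 = 2 * (s.re : ℂ) * s - ((‖s‖ ^ 2 : ℝ) : ℂ) := by
  rw [pow_two, s_sq]

theorem a0_eq (s : ℂ) : a0 s (ctv s) = pr s (eA0 s.re (‖s‖ ^ 2)) (eB0 s.re (‖s‖ ^ 2)) := by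
  unfold a0 ctv pr eA0 eB0
  have h := red s
  push_cast at h ⊢
  linear_combination (25 / 8 + 5 / 8 * s + 5 / 4 * (s.re : ℂ)) * h

theorem a1_eq (s : ℂ) : a1 s (ctv s) = pr s (eA1 (‖s‖ ^ 2)) (eB1 s.re) := by
  unfold a1 ctv pr eA1 eB1
  have h := red s
  push_cast at h ⊢
  linear_combination (-(15 / 4)) * h

theorem a2_eq (s : ℂ) : a2 (ctv s) = pr s 0 (15 / 2) := by
  unfold a2 ctv pr
  push_cast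
  ring

theorem b0_eq (s : ℂ) : b0 s (cpv s) = pr s (fA0 s.re (‖s‖ ^ 2)) (fB0 s.re (‖s‖ ^ 2)) := by
  unfold b0 cpv pr fA0 fB0
  have h := red s
  push_cast at h ⊢
  linear_combination (1 + 11 / 2 * (s.re : ℂ) - 12 / 5 * s - 24 / 5 * (s.re : ℂ) - 12) * h

theorem b1_eq (s : ℂ) : b1 s (cpv s) = pr s (fA1 s.re (‖s‖ ^ 2)) (fB1 s.re) := by
  unfold b1 cpv pr fA1 fB1
  have h := red s
  push_cast at h ⊢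
  linear_combination (72 / 5) * h

theorem b2_eq (s : ℂ) : b2 (cpv s) = pr s (fA2 s.re) (-(144 / 5)) := by
  unfold b2 cpv pr fA2
  push_cast
  ring

/-- the four real polynomials -/
noncomputable def N11 (r ρ : ℝ) : ℝ := FR r ρ (16 / 9 * ρ) (eA0 r ρ) (eB0 r ρ) (eA1 ρ) (eB1 r) 0 (15 / 2)
  (eA0 r ρ) (eB0 r ρ) (eA1 ρ) (eB1 r) 0 (15 / 2)
noncomputable def N22 (r ρ : ℝ) : ℝ := FR r ρ (16 / 9 * ρ) (fA0 r ρ) (fB0 r ρ) (fA1 r ρ) (fB1 r)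
  (fA2 r) (-(144 / 5)) (fA0 r ρ) (fB0 r ρ) (fA1 r ρ) (fB1 r) (fA2 r) (-(144 / 5))
noncomputable def RBp (r ρ : ℝ) : ℝ := FR r ρ (16 / 9 * ρ) (eA0 r ρ) (eB0 r ρ) (eA1 ρ) (eB1 r) 0 (15 / 2)
  (fA0 r ρ) (fB0 r ρ) (fA1 r ρ) (fB1 r) (fA2 r) (-(144 / 5))
noncomputable def IBp (r ρ : ℝ) : ℝ := FI r (16 / 9 * ρ) (eA0 r ρ) (eB0 r ρ) (eA1 ρ) (eB1 r) 0 (15 / 2)
  (fA0 r ρ) (fB0 r ρ) (fA1 r ρ) (fB1 r) (fA2 r) (-(144 / 5))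

/-- the hypothesis of `Pf_lower` from real inequalities -/
theorem hQ_main {s : ℂ} (hs0 : s ≠ 0) {A1 A2 : ℝ}
    (h1 : N11 s.re (‖s‖ ^ 2) + D4 (16 / 9 * ‖s‖ ^ 2) / 10 ≤ A1 * D4 (16 / 9 * ‖s‖ ^ 2))
    (h2 : N22 s.re (‖s‖ ^ 2) * D4 (16 / 9 * ‖s‖ ^ 2) + 10 * (RBp s.re (‖s‖ ^ 2) ^ 2
      + (‖s‖ ^ 2 - s.re ^ 2) * IBp s.re (‖s‖ ^ 2) ^ 2) ≤ A2 * D4 (16 / 9 * ‖s‖ ^ 2) ^ 2) (α β : ℂ) :
    Qf (16 / 9 * ‖s‖ ^ 2) s.re (α * a0 s (ctv s) + β * b0 s (cpv s))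
      (α * a1 s (ctv s) + β * b1 s (cpv s)) (α * a2 (ctv s) + β * b2 (cpv s))
      ≤ A1 * ‖α‖ ^ 2 + A2 * ‖β‖ ^ 2 := by
  have hn : 0 < ‖s‖ := norm_pos_iff.mpr hs0
  obtain ⟨b, hb⟩ : ∃ b, b = 16 / 9 * ‖s‖ ^ 2 := ⟨_, rfl⟩
  have hb0 : 0 < b := by rw [hb]; positivity
  have hD := D4_pos hb0
  rw [a0_eq, a1_eq, a2_eq, b0_eq, b1_eq, b2_eq]
  rw [← hb] at h1 h2 ⊢
  apply hQ_of (p := 1 / 10) (by norm_num)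
  · have e := Qf_eq (s := s) (A0 := eA0 s.re (‖s‖ ^ 2)) (B0 := eB0 s.re (‖s‖ ^ 2))
      (A1 := eA1 (‖s‖ ^ 2)) (B1 := eB1 s.re) (A2 := 0) (B2 := 15 / 2) hb0
    have e2 : N11 s.re (‖s‖ ^ 2) = Qf b s.re (pr s (eA0 s.re (‖s‖ ^ 2)) (eB0 s.re (‖s‖ ^ 2)))
        (pr s (eA1 (‖s‖ ^ 2)) (eB1 s.re)) (pr s 0 (15 / 2)) * D4 b := by
      rw [e]; unfold N11; rw [hb]
    rw [e2] at h1
    refine le_of_mul_le_mul_right ?_ hD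
    linarith
  · have e := Qf_eq (s := s) (A0 := fA0 s.re (‖s‖ ^ 2)) (B0 := fB0 s.re (‖s‖ ^ 2))
      (A1 := fA1 s.re (‖s‖ ^ 2)) (B1 := fB1 s.re) (A2 := fA2 s.re) (B2 := -(144 / 5)) hb0
    have e2 : N22 s.re (‖s‖ ^ 2) = Qf b s.re (pr s (fA0 s.re (‖s‖ ^ 2)) (fB0 s.re (‖s‖ ^ 2)))
        (pr s (fA1 s.re (‖s‖ ^ 2)) (fB1 s.re)) (pr s (fA2 s.re) (-(144 / 5))) * D4 b := by
      rw [e]; unfold N22; rw [hb]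
    have e' := Bf_normsq (s := s) (A0 := eA0 s.re (‖s‖ ^ 2)) (B0 := eB0 s.re (‖s‖ ^ 2))
      (A1 := eA1 (‖s‖ ^ 2)) (B1 := eB1 s.re) (A2 := 0) (B2 := 15 / 2)
      (C0 := fA0 s.re (‖s‖ ^ 2)) (D0 := fB0 s.re (‖s‖ ^ 2))
      (C1 := fA1 s.re (‖s‖ ^ 2)) (D1 := fB1 s.re) (C2 := fA2 s.re) (D2 := -(144 / 5)) hb0
    have e3 : RBp s.re (‖s‖ ^ 2) ^ 2 + (‖s‖ ^ 2 - s.re ^ 2) * IBp s.re (‖s‖ ^ 2) ^ 2
        = ‖Bf b s.re (pr s (eA0 s.re (‖s‖ ^ 2)) (eB0 s.re (‖s‖ ^ 2)))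
          (pr s (eA1 (‖s‖ ^ 2)) (eB1 s.re)) (pr s 0 (15 / 2))
          (pr s (fA0 s.re (‖s‖ ^ 2)) (fB0 s.re (‖s‖ ^ 2)))
        (pr s (fA1 s.re (‖s‖ ^ 2)) (fB1 s.re)) (pr s (fA2 s.re) (-(144 / 5)))‖ ^ 2 * D4 b ^ 2 := by
      rw [e']; unfold RBp IBp; rw [hb]
    rw [e2, e3] at h2
    refine le_of_mul_le_mul_right ?_ (pow_pos hD 2)
    rw [add_mul]
    calc _ = _ := by
          have : (1 / 10 : ℝ) ≠ 0 := by norm_num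
          field_simp
      _ ≤ _ := h2

end Pool.Agent.Helper39.HR
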