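import Mathlib
import Pool.Agent.Helper39.HR.Forms
import Pool.Agent.Helper39.HR.Box

/-!
MP_16b0ee, project HR: the polynomials of the numerical certificate.
-/

set_option autoImplicit false

namespace Pool.Agent.Helper39.HR

/-- lower bound of the first weight -/
noncomputable def phi1 (r ρ : ℝ) : ℝ :=
(3694 + 3010 * ρ + 2410 * ρ ^ 2 - 2752 * ρ ^ 3 + 142 * r - 4153 * r * ρ + 3395 * r * ρ ^ 2 - 210
    * r ^ 2 - 578 * r ^ 2 * ρ - 2175 * r ^ 3) / 4096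

/-- lower bound of the second weight -/
noncomputable def phi2 (r ρ : ℝ) : ℝ :=
(1431 - 9386 * ρ + 56124 * ρ ^ 2 - 165014 * ρ ^ 3 + 183398 * ρ ^ 4 - 991 * r + 13979 * r * ρ -
    79478 * r * ρ ^ 2 + 137340 * r * ρ ^ 3 - 926 * r ^ 2 + 11495 * r ^ 2 * ρ - 19742 * r ^ 2 * ρ
    ^ 2 + 4103 * r ^ 3 - 7209 * r ^ 3 * ρ - 354 * r ^ 4) / 4096

/-- upper bound of the product -/
noncomputable def gp (r ρ : ℝ) : ℝ :=
(4119 + 1496 * ρ + 2640 * ρ ^ 2 - 761 * ρ ^ 3 + 20 * r - 8780 * r * ρ - 1808 * r * ρ ^ 2 - 407 *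
    r ^ 2 + 2322 * r ^ 2 * ρ - 694 * r ^ 3) / 4096

end Pool.Agent.Helper39.HR
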