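import Mathlib
import Pool.Agent.Helper22.Half.HSFinal
import Pool.Agent.Helper39.HR.Lower

/-!
MP_16b0ee, project HR: the sums of the upper form.
-/

set_option autoImplicit false

open scoped ComplexConjugate

namespace Pool.Agent.Helper39.HR

open Pool.Agent.Helper22.Half

section
variable {b : ℝ}

theorem sumA (hb : 0 < b) {m : ℕ} (hm : 1 ≤ m) (J : ℕ) :
    ∑ j ∈ Finset.range J, ((j : ℝ) + 1) * De b (m + 1 + j)
      ≤ m * (m + (b + 1)) * De b m / ((b + 1) * b) := by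
  have h2 := tele2_le (e := De b) (z := b + 1) (by linarith) (fun n => (De_pos hb n).le)
    (fun n hn => De_succ hb hn) hm J
  have e : b + 1 - 1 = b := by ring
  rw [e] at h2
  exact h2

theorem sumB (hb : 0 < b) {m : ℕ} (hm : 1 ≤ m) (J : ℕ) :
    ∑ j ∈ Finset.range J, De b (m + 1 + j) ≤ m * De b m / (b + 1) :=
  tele1_le (e := De b) (z := b + 1) (by linarith) (fun n => (De_pos hb n).le)
    (fun n hn => De_succ hb hn) hm J

theorem De_div_le (hb : 0 < b) {m : ℕ} (hm : 1 ≤ m) (j : ℕ) :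
    De b (m + 1 + j) / ((m : ℝ) + j) ≤ (1 + (b + 3) / m) * De1 b (m + 1 + j) := by
  have hm0 : (0 : ℝ) < m := by exact_mod_cast (by omega : 0 < m)
  have hj : (0 : ℝ) ≤ j := Nat.cast_nonneg j
  unfold De1
  have hD := De_pos hb (m + 1 + j)
  generalize De b (m + 1 + j) = D at *
  push_cast
  have h1 : (m : ℝ) + 1 + j + b + 2 ≤ (1 + (b + 3) / m) * (m + j) := by
    have h2 : (1 + (b + 3) / (m : ℝ)) * (m + j) = m + j + (b + 3) + (b + 3) / m * j := by
      field_simp
      ring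
    have h3 : 0 ≤ (b + 3) / (m : ℝ) * j := by positivity
    linarith
  rw [mul_div_assoc', div_le_div_iff₀ (by positivity) (by positivity)]
  calc D * ((m : ℝ) + 1 + j + b + 2) ≤ D * ((1 + (b + 3) / m) * (m + j)) := by gcongr
    _ = _ := by ring

theorem sumC (hb : 0 < b) {m : ℕ} (hm : 1 ≤ m) (J : ℕ) :
    ∑ j ∈ Finset.range J, De b (m + 1 + j) / ((m : ℝ) + j)
      ≤ (1 + (b + 3) / m) * (De b m / (b + 2)) := by
  have hm0 : (0 : ℝ) < m := by exact_mod_cast (by omega : 0 < m)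
  have h2 := tele1_le (e := De1 b) (z := b + 2) (by linarith) (fun n => (De1_pos hb n).le)
    (fun n hn => De1_succ hb hn) hm J
  have h3 : (m : ℝ) * De1 b m / (b + 2) ≤ De b m / (b + 2) := by
    unfold De1
    have hD := De_pos hb m
    apply div_le_div_of_nonneg_right _ (by linarith)
    rw [mul_div_assoc', div_le_iff₀ (by positivity)]
    nlinarith
  calc ∑ j ∈ Finset.range J, De b (m + 1 + j) / ((m : ℝ) + j)
      ≤ ∑ j ∈ Finset.range J, (1 + (b + 3) / m) * De1 b (m + 1 + j) :=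
        Finset.sum_le_sum (fun j _ => De_div_le hb hm j)
    _ = (1 + (b + 3) / m) * ∑ j ∈ Finset.range J, De1 b (m + 1 + j) := by rw [Finset.mul_sum]
    _ ≤ _ := by
      apply mul_le_mul_of_nonneg_left (h2.trans h3)
      positivity

theorem sumD (hb : 0 < b) {m : ℕ} (hm : 1 ≤ m) (J : ℕ) :
    ∑ j ∈ Finset.range J, ((j : ℝ) + 1) * De b (m + 1 + j) / ((m : ℝ) + j)
      ≤ (1 + (b + 3) / m) * (m * De b m / ((b + 2) * (b + 1))) := by
  have hm0 : (0 : ℝ) < m := by exact_mod_cast (by omega : 0 < m)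
  have h2 := tele2_le (e := De1 b) (z := b + 2) (by linarith) (fun n => (De1_pos hb n).le)
    (fun n hn => De1_succ hb hn) hm J
  have h3 : (m : ℝ) * (m + (b + 2)) * De1 b m / ((b + 2) * (b + 2 - 1))
      = m * De b m / ((b + 2) * (b + 1)) := by
    unfold De1
    have e : b + 2 - 1 = b + 1 := by ring
    rw [e]
    have h4 : (m : ℝ) + b + 2 ≠ 0 := by positivity
    field_simp
    ring
  rw [h3] at h2
  calc ∑ j ∈ Finset.range J, ((j : ℝ) + 1) * De b (m + 1 + j) / ((m : ℝ) + j)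
      ≤ ∑ j ∈ Finset.range J, (1 + (b + 3) / m) * (((j : ℝ) + 1) * De1 b (m + 1 + j)) := by
        apply Finset.sum_le_sum
        intro j _
        have h := De_div_le hb hm j
        have hj : (0 : ℝ) ≤ (j : ℝ) + 1 := by positivity
        calc ((j : ℝ) + 1) * De b (m + 1 + j) / ((m : ℝ) + j)
            = ((j : ℝ) + 1) * (De b (m + 1 + j) / ((m : ℝ) + j)) := by ring
          _ ≤ ((j : ℝ) + 1) * ((1 + (b + 3) / m) * De1 b (m + 1 + j)) := by gcongr
          _ = _ := by ring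
    _ = (1 + (b + 3) / m) * ∑ j ∈ Finset.range J, ((j : ℝ) + 1) * De1 b (m + 1 + j) := by
        rw [Finset.mul_sum]
    _ ≤ _ := by
      apply mul_le_mul_of_nonneg_left h2
      positivity

theorem sumE (hb : 0 < b) {m : ℕ} (hm : 1 ≤ m) (J : ℕ) {L : ℕ} (hL : 1 ≤ L) :
    ∑ j ∈ Finset.range J, De b (m + 1 + j) / ((j : ℝ) + 1)
      ≤ (1 / L + L / m) * (m * De b m) := by
  have hm0 : (0 : ℝ) < m := by exact_mod_cast (by omega : 0 < m)
  have hL0 : (0 : ℝ) < L := by exact_mod_cast (by omega : 0 < L)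
  have hD := De_pos hb m
  have h1 : ∀ j ∈ Finset.range J, De b (m + 1 + j) / ((j : ℝ) + 1)
      ≤ De b (m + 1 + j) / L + (if j < L then De b m else 0) := by
    intro j _
    have hDj := De_pos hb (m + 1 + j)
    by_cases hj : j < L
    · rw [if_pos hj]
      have h2 : De b (m + 1 + j) / ((j : ℝ) + 1) ≤ De b m := by
        rw [div_le_iff₀ (by positivity)]
        have h3 := De_anti hb hm (by omega : m ≤ m + 1 + j)
        have : (0 : ℝ) ≤ j := Nat.cast_nonneg j
        nlinarith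
      have : 0 ≤ De b (m + 1 + j) / L := by positivity
      linarith
    · rw [if_neg hj, add_zero]
      have hj2 : (L : ℝ) ≤ (j : ℝ) + 1 := by
        have : L ≤ j + 1 := by omega
        exact_mod_cast this
      exact div_le_div_of_nonneg_left hDj.le hL0 hj2
  refine (Finset.sum_le_sum h1).trans ?_
  rw [Finset.sum_add_distrib, ← Finset.sum_div]
  have h2 := sumB hb hm J
  have h3 : ∑ j ∈ Finset.range J, (if j < L then De b m else 0) ≤ L * De b m := by
    rw [← Finset.sum_filter, Finset.sum_const, nsmul_eq_mul]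
    have hcard : ((Finset.range J).filter (fun j => j < L)).card ≤ L := by
      have hsub : (Finset.range J).filter (fun j => j < L) ⊆ Finset.range L := by
        intro j hj
        rw [Finset.mem_filter] at hj
        exact Finset.mem_range.mpr hj.2
      have := Finset.card_le_card hsub
      rwa [Finset.card_range] at this
    have : (((Finset.range J).filter (fun j => j < L)).card : ℝ) ≤ L := by exact_mod_cast hcard
    gcongr
  have h4 : (m : ℝ) * De b m / (b + 1) ≤ m * De b m := by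
    rw [div_le_iff₀ (by linarith)]
    have : 0 ≤ (m : ℝ) * De b m := by positivity
    nlinarith
  have h5 : (∑ j ∈ Finset.range J, De b (m + 1 + j)) / L ≤ m * De b m / L := by
    apply div_le_div_of_nonneg_right (h2.trans h4) hL0.le
  calc (∑ j ∈ Finset.range J, De b (m + 1 + j)) / L
        + ∑ j ∈ Finset.range J, (if j < L then De b m else 0)
      ≤ m * De b m / L + L * De b m := add_le_add h5 h3
    _ = _ := by
      field_simp

end

/-- the kernel of the functional -/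
noncomputable def kf (s : ℂ) (j i : ℕ) : ℂ := 1 / (((j + 1 + i : ℕ) : ℂ) - s)

theorem V_upper {s : ℂ} (hs : ‖s‖ < 1 / 2) {d : ℕ → ℂ} {m : ℕ} (hm : 1 ≤ m)
    (hd : ∀ l ≤ m, d l = d (m - l)) (j : ℕ) :
    Vd s d m (m + 1 + j) = pq (-s) (m + 1 + j) * (Sk d m 0 + (1 + s) * Fn s d m (kf s j)) := by
  have h1s : (1 + s) ≠ 0 := by
    intro h
    have h2 : s = -1 := by linear_combination h
    rw [h2] at hs
    simp at hs
    norm_num at hs
  have hmc : (m : ℂ) ≠ 0 := by
    have : m ≠ 0 := by omega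
    exact_mod_cast this
  have hV := V_formula s d m (j + 1) hm h1s hd (fun k => by
    intro h
    have h2 : s = ((j + 1 + k : ℕ) : ℂ) := by linear_combination -h
    rw [h2, Complex.norm_natCast] at hs
    push_cast at hs
    have : (0 : ℝ) ≤ j := Nat.cast_nonneg j
    have : (0 : ℝ) ≤ k := Nat.cast_nonneg k
    linarith)
  have e : m + (j + 1) = m + 1 + j := by ring
  rw [e] at hV
  rw [hV]
  congr 1
  have h3 : Sk d m 0 = (2 / m) * Fn s d m (fun _ => 1) := by
    rw [Fn_one s d m hd]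
    field_simp
  rw [h3]
  unfold Fn kf
  rw [Finset.mul_sum, Finset.mul_sum, ← Finset.sum_add_distrib]
  apply Finset.sum_congr rfl
  intro i hi
  rw [Finset.mem_range] at hi
  have h := pq_shift (1 + s) (m - 1 - i)
  have e : m - 1 - i + 1 = m - i := by omega
  have e2 : ((m - 1 - i : ℕ) : ℂ) + 1 = ((m - i : ℕ) : ℂ) := by
    rw [← e]
    push_cast
    ring
  have e3 : (1 + s + 1 : ℂ) = 2 + s := by ring
  rw [e2, e, e3] at h
  rw [h]
  field_simp

theorem kf_den {s : ℂ} (hs : ‖s‖ < 1 / 2) (p : ℕ) : (p : ℝ) - 1 / 2 ≤ ‖(p : ℂ) - s‖ := by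
  have h4 := norm_sub_norm_le (p : ℂ) s
  rw [Complex.norm_natCast] at h4
  linarith

/-- the kernel is close to a real one -/
theorem kf_real {s : ℂ} (hs : ‖s‖ < 1 / 2) (j i : ℕ) :
    ‖kf s j i - ((1 / ((j : ℝ) + 1 + i) : ℝ) : ℂ)‖ ≤ 1 / ((j : ℝ) + 1) ^ 2 := by
  obtain ⟨p, hp⟩ : ∃ p : ℕ, p = j + 1 + i := ⟨_, rfl⟩
  have hp1 : 1 ≤ p := by omega
  have hpr : (j : ℝ) + 1 + i = p := by rw [hp]; push_cast; ring
  have hp0 : (0 : ℝ) < p := by exact_mod_cast hp1
  have hp1' : (1 : ℝ) ≤ p := by exact_mod_cast hp1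
  unfold kf
  rw [← hp, hpr]
  have hden := kf_den hs p
  have hpos : 0 < ‖(p : ℂ) - s‖ := by linarith
  have hne : (p : ℂ) - s ≠ 0 := norm_pos_iff.mp hpos
  have hpc : (p : ℂ) ≠ 0 := by exact_mod_cast hp0.ne'
  have e : 1 / ((p : ℂ) - s) - ((1 / (p : ℝ) : ℝ) : ℂ) = s / ((p : ℂ) * ((p : ℂ) - s)) := by
    push_cast
    field_simp
    ring
  rw [e, norm_div, norm_mul, Complex.norm_natCast]
  have h1 : ‖s‖ / ((p : ℝ) * ‖(p : ℂ) - s‖) ≤ 1 / (p : ℝ) ^ 2 := by
    rw [div_le_div_iff₀ (by positivity) (by positivity)]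
    have h2 : ‖s‖ * p ≤ ‖(p : ℂ) - s‖ := by nlinarith [norm_nonneg s]
    nlinarith
  refine h1.trans ?_
  apply one_div_le_one_div_of_le (by positivity)
  apply pow_le_pow_left₀ (by positivity)
  rw [← hpr]
  have : (0 : ℝ) ≤ i := Nat.cast_nonneg i
  linarith

theorem kf_sq {s : ℂ} (hs : ‖s‖ < 1 / 2) (j i : ℕ) :
    ‖kf s j i‖ ^ 2 ≤ 1 / (((j : ℝ) + 1 + i) * ((j : ℝ) + 2 + i))
      + 24 / (((j : ℝ) + 1 + i) * ((j : ℝ) + 2 + i) * ((j : ℝ) + 3 + i)) := by
  obtain ⟨p, hp⟩ : ∃ p : ℕ, p = j + 1 + i := ⟨_, rfl⟩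
  have hp1 : 1 ≤ p := by omega
  have hpr : (j : ℝ) + 1 + i = p := by rw [hp]; push_cast; ring
  have hpr2 : (j : ℝ) + 2 + i = p + 1 := by rw [← hpr]; ring
  have hpr3 : (j : ℝ) + 3 + i = p + 2 := by rw [← hpr]; ring
  have hp0 : (0 : ℝ) < p := by exact_mod_cast hp1
  have hp1' : (1 : ℝ) ≤ p := by exact_mod_cast hp1
  unfold kf
  rw [← hp, hpr, hpr2, hpr3]
  have hden := kf_den hs p
  have hpos : 0 < (p : ℝ) - 1 / 2 := by linarith
  have hTlow : ((p : ℝ) - 1 / 2) ^ 2 ≤ ‖(p : ℂ) - s‖ ^ 2 :=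
    pow_le_pow_left₀ hpos.le hden 2
  rw [norm_div, norm_one, div_pow, one_pow]
  generalize ‖(p : ℂ) - s‖ ^ 2 = T at *
  have hTpos : 0 < T := lt_of_lt_of_le (by positivity) hTlow
  have e6 : 1 / ((p : ℝ) * (p + 1)) + 24 / (p * (p + 1) * (p + 2))
      = ((p : ℝ) + 26) / (p * (p + 1) * (p + 2)) := by
    field_simp
    ring
  rw [e6, div_le_div_iff₀ hTpos (by positivity)]
  have h10 : (p : ℝ) * (p + 1) * (p + 2) ≤ (p + 26) * ((p : ℝ) - 1 / 2) ^ 2 := by
    nlinarith [sq_nonneg ((p : ℝ) - 1)]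
  have h11 : ((p : ℝ) + 26) * ((p : ℝ) - 1 / 2) ^ 2 ≤ (p + 26) * T :=
    mul_le_mul_of_nonneg_left hTlow (by linarith)
  linarith

end Pool.Agent.Helper39.HR
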