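import Mathlib
import Pool.Agent.Helper39.HR.NSums

/-!
MP_16b0ee, project HR: the bound of the upper form by the lower form and the diagonal.
-/

set_option autoImplicit false

open scoped ComplexConjugate

namespace Pool.Agent.Helper39.HR

open Pool.Agent.Helper22.Half

theorem Fn_sum (s : ℂ) (d : ℕ → ℂ) (m J : ℕ) (w : ℕ → ℂ) (f : ℕ → ℕ → ℂ) :
    ∑ j ∈ Finset.range J, w j * Fn s d m (f j)
      = Fn s d m (fun i => ∑ j ∈ Finset.range J, w j * f j i) := by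
  induction J with
  | zero =>
    simp only [Finset.range_zero, Finset.sum_empty]
    unfold Fn
    simp
  | succ J ih =>
    rw [Finset.sum_range_succ, ih, ← Fn_smul, ← Fn_add]
    apply Fn_congr
    intro i _
    rw [Finset.sum_range_succ]

theorem normsq_add_mul (G u U : ℂ) : ‖G + u * U‖ ^ 2
    = ‖G‖ ^ 2 + 2 * (conj G * u * U).re + ‖u‖ ^ 2 * ‖U‖ ^ 2 := by
  rw [← Complex.normSq_eq_norm_sq, ← Complex.normSq_eq_norm_sq, ← Complex.normSq_eq_norm_sq,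
    ← Complex.normSq_eq_norm_sq]
  simp only [Complex.normSq_apply, Complex.add_re, Complex.add_im, Complex.mul_im,
    Complex.mul_re, Complex.conj_re, Complex.conj_im]
  ring

/-- the diagonal quantity -/
noncomputable def Xm (b K : ℝ) (d : ℕ → ℂ) (m : ℕ) : ℝ :=
  (m : ℝ) ^ 2 * ‖Sk d m 0‖ ^ 2 / (4 * K * pq (b + 3) (m - 1))

/-- the half width factor -/
noncomputable def kp (b : ℝ) (m L : ℕ) : ℝ :=
  (1 + (b + 3) / m) / (2 * (b + 2)) + (1 / L + L / m)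

theorem T3_bound {s : ℂ} (hs : ‖s‖ < 1 / 2) {b : ℝ} (hb : 0 < b) {K Cw : ℝ}
    (hK0 : 0 < K) (hK : ∀ n, kap s.re (‖s‖ ^ 2) n ≤ K) {d : ℕ → ℂ} {m : ℕ}
    (hm : 1 ≤ m) (J : ℕ)
    {e4 : ℝ} (h4 : ∑ j ∈ Finset.range J, ∑ i ∈ Finset.range m,
      ((j : ℝ) + 1) * De b (m + 1 + j) * Wt b s.re m i
        / (((j : ℝ) + 1 + i) * ((j : ℝ) + 2 + i) * ((j : ℝ) + 3 + i)) ≤ e4)
    (hCw : 0 ≤ Cw) :
    ∑ j ∈ Finset.range J, (Cw * (((j : ℝ) + 1) * De b (m + 1 + j))) * ‖Fn s d m (kf s j)‖ ^ 2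
      ≤ K * Cw * ((1 + (b + 3) / m) / (b + 1 - 2 * s.re) + 24 * e4) * Pf s b d m := by
  have hre := Complex.abs_re_le_norm s
  have hre2 := abs_lt.mp (hre.trans_lt hs)
  have hσ : 0 < b + 1 - 2 * s.re := by linarith
  have hP := Pf_nonneg hσ d m
  have h3 := S3_le hb (by linarith : -(1 / 2) ≤ s.re) hσ hm J
  have hU : ∀ j ∈ Finset.range J, (Cw * (((j : ℝ) + 1) * De b (m + 1 + j)))
      * ‖Fn s d m (kf s j)‖ ^ 2 ≤ K * Cw * Pf s b d m * ∑ i ∈ Finset.range m,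
        (((j : ℝ) + 1) * De b (m + 1 + j) * Wt b s.re m i / (((j : ℝ) + 1 + i) * ((j : ℝ) + 2 + i))
        + 24 * (((j : ℝ) + 1) * De b (m + 1 + j) * Wt b s.re m i
          / (((j : ℝ) + 1 + i) * ((j : ℝ) + 2 + i) * ((j : ℝ) + 3 + i)))) := by
    intro j _
    have h1 := Fn_cs hs hb hK d m (kf s j)
    have hD := De_pos hb (m + 1 + j)
    have h2 : ∑ i ∈ Finset.range m, Wt b s.re m i * ‖kf s j i‖ ^ 2
        ≤ ∑ i ∈ Finset.range m, Wt b s.re m i * (1 / (((j : ℝ) + 1 + i) * ((j : ℝ) + 2 + i))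
      + 24 / (((j : ℝ) + 1 + i) * ((j : ℝ) + 2 + i) * ((j : ℝ) + 3 + i))) := by
      apply Finset.sum_le_sum
      intro i _
      have hW := Wt_pos (b := b) (r := s.re) (by linarith) hσ m i
      exact mul_le_mul_of_nonneg_left (kf_sq hs j i) hW.le
    calc (Cw * (((j : ℝ) + 1) * De b (m + 1 + j))) * ‖Fn s d m (kf s j)‖ ^ 2
        ≤ (Cw * (((j : ℝ) + 1) * De b (m + 1 + j))) * (K * (∑ i ∈ Finset.range m,
          Wt b s.re m i * (1 / (((j : ℝ) + 1 + i) * ((j : ℝ) + 2 + i))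
      + 24 / (((j : ℝ) + 1 + i) * ((j : ℝ) + 2 + i) * ((j : ℝ) + 3 + i)))) * Pf s b d m) := by
          have h5 : K * (∑ i ∈ Finset.range m, Wt b s.re m i * ‖kf s j i‖ ^ 2) * Pf s b d m
            ≤ K * (∑ i ∈ Finset.range m,
          Wt b s.re m i * (1 / (((j : ℝ) + 1 + i) * ((j : ℝ) + 2 + i))
      + 24 / (((j : ℝ) + 1 + i) * ((j : ℝ) + 2 + i) * ((j : ℝ) + 3 + i)))) * Pf s b d m := by
            gcongr
          exact mul_le_mul_of_nonneg_left (h1.trans h5) (by positivity)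
      _ = K * Cw * Pf s b d m * ((((j : ℝ) + 1) * De b (m + 1 + j)) * (∑ i ∈ Finset.range m,
          Wt b s.re m i * (1 / (((j : ℝ) + 1 + i) * ((j : ℝ) + 2 + i))
      + 24 / (((j : ℝ) + 1 + i) * ((j : ℝ) + 2 + i) * ((j : ℝ) + 3 + i))))) := by ring
      _ = _ := by
          rw [Finset.mul_sum]
          congr 1
          apply Finset.sum_congr rfl
          intro i _
          ring
  refine (Finset.sum_le_sum hU).trans ?_
  rw [← Finset.mul_sum]
  have e : ∑ j ∈ Finset.range J, ∑ i ∈ Finset.range m,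
        (((j : ℝ) + 1) * De b (m + 1 + j) * Wt b s.re m i / (((j : ℝ) + 1 + i) * ((j : ℝ) + 2 + i))
        + 24 * (((j : ℝ) + 1) * De b (m + 1 + j) * Wt b s.re m i
          / (((j : ℝ) + 1 + i) * ((j : ℝ) + 2 + i) * ((j : ℝ) + 3 + i))))
      = (∑ j ∈ Finset.range J, ∑ i ∈ Finset.range m,
        ((j : ℝ) + 1) * De b (m + 1 + j) * Wt b s.re m i / (((j : ℝ) + 1 + i) * ((j : ℝ) + 2 + i)))
        + 24 * ∑ j ∈ Finset.range J, ∑ i ∈ Finset.range m,
          ((j : ℝ) + 1) * De b (m + 1 + j) * Wt b s.re m i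
          / (((j : ℝ) + 1 + i) * ((j : ℝ) + 2 + i) * ((j : ℝ) + 3 + i)) := by
    simp_rw [Finset.sum_add_distrib, ← Finset.mul_sum]
  rw [e]
  calc K * Cw * Pf s b d m * ((∑ j ∈ Finset.range J, ∑ i ∈ Finset.range m,
        ((j : ℝ) + 1) * De b (m + 1 + j) * Wt b s.re m i / (((j : ℝ) + 1 + i) * ((j : ℝ) + 2 + i)))
        + 24 * ∑ j ∈ Finset.range J, ∑ i ∈ Finset.range m,
          ((j : ℝ) + 1) * De b (m + 1 + j) * Wt b s.re m i
          / (((j : ℝ) + 1 + i) * ((j : ℝ) + 2 + i) * ((j : ℝ) + 3 + i)))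
      ≤ K * Cw * Pf s b d m * ((1 + (b + 3) / m) / (b + 1 - 2 * s.re) + 24 * e4) := by
        apply mul_le_mul_of_nonneg_left _ (by positivity)
        linarith
    _ = _ := by ring

/-- the bound of the upper form -/
theorem N_bound {s : ℂ} (hs : ‖s‖ < 1 / 2) {b : ℝ} (hb : 0 < b) {K Cw : ℝ}
    (hK0 : 0 < K) (hK : ∀ n, kap s.re (‖s‖ ^ 2) n ≤ K) (hCw : 0 ≤ Cw) {d : ℕ → ℂ} {m : ℕ}
    (hm : 1 ≤ m) (hd : ∀ l ≤ m, d l = d (m - l)) (J : ℕ) {L : ℕ} (hL : 1 ≤ L)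
    (hw : ∀ j, (pq (b + 1 - 2 * s.re) (m + 1 + j))⁻¹ * ‖pq (-s) (m + 1 + j)‖ ^ 2
      ≤ Cw * De b (m + 1 + j))
    {e4 : ℝ} (h4 : ∑ j ∈ Finset.range J, ∑ i ∈ Finset.range m,
      ((j : ℝ) + 1) * De b (m + 1 + j) * Wt b s.re m i
        / (((j : ℝ) + 1 + i) * ((j : ℝ) + 2 + i) * ((j : ℝ) + 3 + i)) ≤ e4)
    {τ : ℝ} (hτ : 0 < τ) :
    ∑ j ∈ Finset.range J, ((j : ℝ) + 1) * (pq (b + 1 - 2 * s.re) (m + 1 + j))⁻¹
        * ‖Vd s d m (m + 1 + j)‖ ^ 2
      ≤ K * Cw * (‖1 + s‖ ^ 2 * ((1 + (b + 3) / m) / (b + 1 - 2 * s.re) + 24 * e4)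
          + 2 * kp b m L / τ) * Pf s b d m
        + K * Cw * (4 * (1 + (b + 1) / m) / ((b + 1) * b)
          + 2 * (1 + s.re) * (1 / (b + 1) + (1 + (b + 3) / m) / ((b + 2) * (b + 1)))
          + 2 * kp b m L * ‖1 + s‖ ^ 2 * τ) * Xm b K d m := by
  have hm0 : (0 : ℝ) < m := by exact_mod_cast (by omega : 0 < m)
  have hmc : (m : ℂ) ≠ 0 := by exact_mod_cast hm0.ne'
  have hL0 : (0 : ℝ) < L := by exact_mod_cast (by omega : 0 < L)
  have hre := Complex.abs_re_le_norm s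
  have hre2 := abs_lt.mp (hre.trans_lt hs)
  have hσ : 0 < b + 1 - 2 * s.re := by linarith
  have hP := Pf_nonneg hσ d m
  obtain ⟨G, hG⟩ : ∃ G, G = Sk d m 0 := ⟨_, rfl⟩
  obtain ⟨w, hwd⟩ : ∃ w : ℕ → ℝ, w = fun (j : ℕ) => ((j : ℝ) + 1)
    * ((pq (b + 1 - 2 * s.re) (m + 1 + j))⁻¹ * ‖pq (-s) (m + 1 + j)‖ ^ 2) := ⟨_, rfl⟩
  have hw0 : ∀ j, 0 ≤ w j := by
    intro j
    rw [hwd]
    have := pq_pos hσ (m + 1 + j)
    positivity
  have hw1 : ∀ j, w j ≤ Cw * (((j : ℝ) + 1) * De b (m + 1 + j)) := by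
    intro j
    rw [hwd]
    simp only
    calc ((j : ℝ) + 1) * ((pq (b + 1 - 2 * s.re) (m + 1 + j))⁻¹ * ‖pq (-s) (m + 1 + j)‖ ^ 2)
        ≤ ((j : ℝ) + 1) * (Cw * De b (m + 1 + j)) := by
          have := hw j
          gcongr
      _ = _ := by ring
  -- the decomposition
  have hdec : ∑ j ∈ Finset.range J, ((j : ℝ) + 1) * (pq (b + 1 - 2 * s.re) (m + 1 + j))⁻¹
        * ‖Vd s d m (m + 1 + j)‖ ^ 2
      = ‖G‖ ^ 2 * (∑ j ∈ Finset.range J, w j)
        + 2 * (conj G * (1 + s) * ∑ j ∈ Finset.range J, (w j : ℂ) * Fn s d m (kf s j)).re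
        + ‖1 + s‖ ^ 2 * ∑ j ∈ Finset.range J, w j * ‖Fn s d m (kf s j)‖ ^ 2 := by
    rw [Finset.mul_sum, Finset.mul_sum, Complex.re_sum, Finset.mul_sum, Finset.mul_sum,
      ← Finset.sum_add_distrib, ← Finset.sum_add_distrib]
    apply Finset.sum_congr rfl
    intro j _
    rw [V_upper hs hm hd j, norm_mul, mul_pow, ← hG, normsq_add_mul, hwd]
    simp only
    have e : conj G * (1 + s) * ((((j : ℝ) + 1) * ((pq (b + 1 - 2 * s.re) (m + 1 + j))⁻¹
        * ‖pq (-s) (m + 1 + j)‖ ^ 2) : ℝ) * Fn s d m (kf s j))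
        = ((((j : ℝ) + 1) * ((pq (b + 1 - 2 * s.re) (m + 1 + j))⁻¹
        * ‖pq (-s) (m + 1 + j)‖ ^ 2) : ℝ) : ℂ) * (conj G * (1 + s) * Fn s d m (kf s j)) := by ring
    rw [e, Complex.re_ofReal_mul]
    ring
  rw [hdec]
  -- basic data
  have hpq := pq_pos (by linarith : 0 < b + 3) (m - 1)
  have hDe := De_pos hb m
  have hDpq := De_mul hb m
  obtain ⟨Q, hQ⟩ : ∃ Q, Q = pq (b + 3) (m - 1) := ⟨_, rfl⟩
  obtain ⟨D, hD⟩ : ∃ D, D = De b m := ⟨_, rfl⟩
  obtain ⟨P, hPd⟩ : ∃ P, P = Pf s b d m := ⟨_, rfl⟩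
  obtain ⟨X, hX⟩ : ∃ X, X = Xm b K d m := ⟨_, rfl⟩
  have hX0 : 0 ≤ X := by rw [hX]; unfold Xm; positivity
  have hGX : ‖G‖ ^ 2 = 4 * K * Q * X / (m : ℝ) ^ 2 := by
    rw [hX, hQ, hG]
    unfold Xm
    field_simp
  -- T1
  have hT1 : ‖G‖ ^ 2 * (∑ j ∈ Finset.range J, w j)
      ≤ K * Cw * (4 * (1 + (b + 1) / m) / ((b + 1) * b)) * X := by
    have h1 : ∑ j ∈ Finset.range J, w j ≤ Cw * (m * (m + (b + 1)) * D / ((b + 1) * b)) := by
      refine (Finset.sum_le_sum (fun j _ => hw1 j)).trans ?_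
      rw [← Finset.mul_sum, hD]
      exact mul_le_mul_of_nonneg_left (sumA hb hm J) hCw
    calc ‖G‖ ^ 2 * (∑ j ∈ Finset.range J, w j)
        ≤ ‖G‖ ^ 2 * (Cw * (m * (m + (b + 1)) * D / ((b + 1) * b))) := by gcongr
      _ = K * Cw * (4 * (1 + (b + 1) / m) / ((b + 1) * b)) * X * (D * Q) := by
          rw [hGX]
          field_simp
      _ = _ := by rw [hD, hQ, hDpq, mul_one]
  -- T3
  have hT3 : ‖1 + s‖ ^ 2 * ∑ j ∈ Finset.range J, w j * ‖Fn s d m (kf s j)‖ ^ 2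
      ≤ K * Cw * (‖1 + s‖ ^ 2 * ((1 + (b + 3) / m) / (b + 1 - 2 * s.re) + 24 * e4)) * P := by
    have h1 : ∑ j ∈ Finset.range J, w j * ‖Fn s d m (kf s j)‖ ^ 2
        ≤ ∑ j ∈ Finset.range J, (Cw * (((j : ℝ) + 1) * De b (m + 1 + j)))
          * ‖Fn s d m (kf s j)‖ ^ 2 := by
      apply Finset.sum_le_sum
      intro j _
      exact mul_le_mul_of_nonneg_right (hw1 j) (sq_nonneg _)
    have h2 := h1.trans (T3_bound (d := d) hs hb hK0 hK hm J h4 hCw)
    rw [hPd]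
    calc ‖1 + s‖ ^ 2 * ∑ j ∈ Finset.range J, w j * ‖Fn s d m (kf s j)‖ ^ 2
        ≤ ‖1 + s‖ ^ 2 * (K * Cw * ((1 + (b + 3) / m) / (b + 1 - 2 * s.re) + 24 * e4)
          * Pf s b d m) := by gcongr
      _ = _ := by ring
  -- T2
  obtain ⟨ψ, hψ⟩ : ∃ ψ : ℕ → ℝ, ψ = fun (i : ℕ) => ∑ j ∈ Finset.range J, w j / ((j : ℝ) + 1 + i) :=
    ⟨_, rfl⟩
  obtain ⟨ps1, hps1⟩ : ∃ x, x = ∑ j ∈ Finset.range J, w j / ((m : ℝ) + j) := ⟨_, rfl⟩
  obtain ⟨ps0, hps0⟩ : ∃ x, x = ∑ j ∈ Finset.range J, w j / ((j : ℝ) + 1) := ⟨_, rfl⟩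
  have hψlo : ∀ i < m, ps1 ≤ ψ i := by
    intro i hi
    rw [hps1, hψ]
    apply Finset.sum_le_sum
    intro j _
    have hi2 : (i : ℝ) + 1 ≤ m := by exact_mod_cast hi
    apply div_le_div_of_nonneg_left (hw0 j) (by positivity)
    linarith
  have hψhi : ∀ i < m, ψ i ≤ ps0 := by
    intro i _
    rw [hps0, hψ]
    apply Finset.sum_le_sum
    intro j _
    have hi0 : (0 : ℝ) ≤ i := Nat.cast_nonneg i
    apply div_le_div_of_nonneg_left (hw0 j) (by positivity)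
    linarith
  obtain ⟨mid, hmid⟩ : ∃ x, x = (ps0 + ps1) / 2 := ⟨_, rfl⟩
  obtain ⟨dev, hdev⟩ : ∃ x, x = (ps0 - ps1) / 2 := ⟨_, rfl⟩
  obtain ⟨err, herr⟩ : ∃ x, x = ∑ j ∈ Finset.range J, w j * (1 / ((j : ℝ) + 1) ^ 2) := ⟨_, rfl⟩
  -- bounds of mid, dev, err
  have hps0' : ps0 ≤ Cw * (m * D / (b + 1)) := by
    rw [hps0]
    have h1 : ∀ j ∈ Finset.range J, w j / ((j : ℝ) + 1) ≤ Cw * De b (m + 1 + j) := by
      intro j _
      rw [div_le_iff₀ (by positivity)]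
      exact (hw1 j).trans (le_of_eq (by ring))
    refine (Finset.sum_le_sum h1).trans ?_
    rw [← Finset.mul_sum, hD]
    exact mul_le_mul_of_nonneg_left (sumB hb hm J) hCw
  have hps1' : ps1 ≤ Cw * ((1 + (b + 3) / m) * (m * D / ((b + 2) * (b + 1)))) := by
    rw [hps1]
    have h1 : ∀ j ∈ Finset.range J, w j / ((m : ℝ) + j)
        ≤ Cw * (((j : ℝ) + 1) * De b (m + 1 + j) / ((m : ℝ) + j)) := by
      intro j _
      calc w j / ((m : ℝ) + j) ≤ Cw * (((j : ℝ) + 1) * De b (m + 1 + j)) / ((m : ℝ) + j) := by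
            have := hw1 j
            gcongr
        _ = _ := by ring
    refine (Finset.sum_le_sum h1).trans ?_
    rw [← Finset.mul_sum, hD]
    exact mul_le_mul_of_nonneg_left (sumD hb hm J) hCw
  have hdev' : dev ≤ Cw * (m * D) * ((1 + (b + 3) / m) / (2 * (b + 2))) := by
    have h1 : ps0 - ps1 ≤ Cw * (m * ((1 + (b + 3) / m) * (D / (b + 2)))) := by
      rw [hps0, hps1, ← Finset.sum_sub_distrib]
      have h2 : ∀ j ∈ Finset.range J, w j / ((j : ℝ) + 1) - w j / ((m : ℝ) + j)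
          ≤ (Cw * m) * (De b (m + 1 + j) / ((m : ℝ) + j)) := by
        intro j _
        have hj : (0 : ℝ) < (j : ℝ) + 1 := by positivity
        have hmj : (0 : ℝ) < (m : ℝ) + j := by positivity
        have hDj := De_pos hb (m + 1 + j)
        have e : w j / ((j : ℝ) + 1) - w j / ((m : ℝ) + j)
            = w j * (((m : ℝ) - 1) / (((j : ℝ) + 1) * ((m : ℝ) + j))) := by
          field_simp
          ring
        rw [e]
        have hm1 : (1 : ℝ) ≤ m := by exact_mod_cast hm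
        calc w j * (((m : ℝ) - 1) / (((j : ℝ) + 1) * ((m : ℝ) + j)))
            ≤ (Cw * (((j : ℝ) + 1) * De b (m + 1 + j)))
              * (((m : ℝ) - 1) / (((j : ℝ) + 1) * ((m : ℝ) + j))) := by
              apply mul_le_mul_of_nonneg_right (hw1 j)
              apply div_nonneg
              · linarith
              · positivity
          _ = (Cw * ((m : ℝ) - 1)) * (De b (m + 1 + j) / ((m : ℝ) + j)) := by
              field_simp
          _ ≤ (Cw * m) * (De b (m + 1 + j) / ((m : ℝ) + j)) := by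
              apply mul_le_mul_of_nonneg_right _ (by positivity)
              apply mul_le_mul_of_nonneg_left _ hCw
              linarith
      refine (Finset.sum_le_sum h2).trans ?_
      rw [← Finset.mul_sum, mul_assoc, hD]
      apply mul_le_mul_of_nonneg_left _ hCw
      exact mul_le_mul_of_nonneg_left (sumC hb hm J) hm0.le
    rw [hdev]
    calc (ps0 - ps1) / 2 ≤ Cw * (m * ((1 + (b + 3) / m) * (D / (b + 2)))) / 2 := by linarith
      _ = _ := by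
        field_simp
  have herr' : err ≤ Cw * (m * D) * (1 / L + L / m) := by
    rw [herr]
    have h1 : ∀ j ∈ Finset.range J, w j * (1 / ((j : ℝ) + 1) ^ 2)
        ≤ Cw * (De b (m + 1 + j) / ((j : ℝ) + 1)) := by
      intro j _
      calc w j * (1 / ((j : ℝ) + 1) ^ 2)
          ≤ (Cw * (((j : ℝ) + 1) * De b (m + 1 + j))) * (1 / ((j : ℝ) + 1) ^ 2) := by
            have := hw1 j
            gcongr
        _ = _ := by
            field_simp
    refine (Finset.sum_le_sum h1).trans ?_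
    rw [← Finset.mul_sum, hD]
    calc Cw * ∑ j ∈ Finset.range J, De b (m + 1 + j) / ((j : ℝ) + 1)
        ≤ Cw * ((1 / L + L / m) * (m * De b m)) :=
          mul_le_mul_of_nonneg_left (sumE hb hm J hL) hCw
      _ = _ := by ring
  have hdev0 : 0 ≤ dev := by
    have h1 := hψlo 0 (by omega)
    have h2 := hψhi 0 (by omega)
    rw [hdev]; linarith
  have herr0 : 0 ≤ err := by
    rw [herr]
    apply Finset.sum_nonneg
    intro j _
    have := hw0 j
    positivity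
  -- the functional of the sum
  obtain ⟨φ, hφ⟩ : ∃ φ : ℕ → ℂ, φ = fun (i : ℕ) => ∑ j ∈ Finset.range J, (w j : ℂ) * kf s j i :=
    ⟨_, rfl⟩
  have hsumFn : ∑ j ∈ Finset.range J, (w j : ℂ) * Fn s d m (kf s j) = Fn s d m φ := by
    rw [Fn_sum, hφ]
  have hφψ : ∀ i, ‖φ i - (ψ i : ℂ)‖ ≤ err := by
    intro i
    rw [hφ, hψ, herr]
    simp only
    push_cast
    rw [← Finset.sum_sub_distrib]
    refine (norm_sum_le _ _).trans ?_
    apply Finset.sum_le_sum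
    intro j _
    have h1 := kf_real hs j i
    have e : (w j : ℂ) * kf s j i - (w j : ℂ) / ((j : ℂ) + 1 + i)
        = (w j : ℂ) * (kf s j i - ((1 / ((j : ℝ) + 1 + i) : ℝ) : ℂ)) := by
      push_cast
      ring
    rw [e, norm_mul, Complex.norm_real, Real.norm_of_nonneg (hw0 j)]
    exact mul_le_mul_of_nonneg_left h1 (hw0 j)
  have hφmid : ∀ i < m, ‖φ i - (mid : ℂ)‖ ≤ dev + err := by
    intro i hi
    have h1 : ‖(ψ i : ℂ) - (mid : ℂ)‖ ≤ dev := by
      rw [← Complex.ofReal_sub, Complex.norm_real, Real.norm_eq_abs, abs_le]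
      have h2 := hψlo i hi
      have h3 := hψhi i hi
      rw [hmid, hdev]
      constructor <;> linarith
    have e : φ i - (mid : ℂ) = ((ψ i : ℂ) - (mid : ℂ)) + (φ i - (ψ i : ℂ)) := by ring
    rw [e]
    exact norm_add_le_of h1 (hφψ i)
  have hsplit : Fn s d m φ = (mid : ℂ) * (m * G / 2) + Fn s d m (fun i => φ i - (mid : ℂ)) := by
    have h1 : Fn s d m φ = Fn s d m (fun i => (mid : ℂ) * 1 + (φ i - (mid : ℂ))) := by
      apply Fn_congr
      intro i _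
      ring
    rw [h1, Fn_add s d m (fun _ => (mid : ℂ) * 1) (fun i => φ i - (mid : ℂ)),
      Fn_smul s d m (mid : ℂ) (fun _ => 1), Fn_one s d m hd, hG]
  have hcs := Fn_cs hs hb hK d m (fun i => φ i - (mid : ℂ))
  have hcs2 : ‖Fn s d m (fun i => φ i - (mid : ℂ))‖ ^ 2 ≤ K * Q * P * (dev + err) ^ 2 := by
    refine hcs.trans ?_
    have h1 : ∑ i ∈ Finset.range m, Wt b s.re m i * ‖φ i - (mid : ℂ)‖ ^ 2
        ≤ Q * (dev + err) ^ 2 := by
      rw [hQ, ← sum_Wt (b := b) (r := s.re) hm, Finset.sum_mul]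
      apply Finset.sum_le_sum
      intro i hi
      rw [Finset.mem_range] at hi
      have hW := Wt_pos (b := b) (r := s.re) (by linarith) hσ m i
      apply mul_le_mul_of_nonneg_left _ hW.le
      exact pow_le_pow_left₀ (norm_nonneg _) (hφmid i hi) 2
    rw [← hPd] at hP ⊢
    calc K * (∑ i ∈ Finset.range m, Wt b s.re m i * ‖φ i - (mid : ℂ)‖ ^ 2) * P
        ≤ K * (Q * (dev + err) ^ 2) * P := by gcongr
      _ = _ := by ring
  have hde : dev + err ≤ Cw * (m * D) * kp b m L := by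
    unfold kp
    rw [mul_add]
    exact add_le_add hdev' herr'
  have hkp0 : 0 ≤ kp b m L := by unfold kp; positivity
  have hmidb : mid ≤ Cw * (m * D) / 2 * (1 / (b + 1) + (1 + (b + 3) / m) / ((b + 2) * (b + 1))) := by
    rw [hmid]
    have e : Cw * (m * D) / 2 * (1 / (b + 1) + (1 + (b + 3) / m) / ((b + 2) * (b + 1)))
        = (Cw * (m * D / (b + 1)) + Cw * ((1 + (b + 3) / m) * (m * D / ((b + 2) * (b + 1))))) / 2 := by
      field_simp
    rw [e]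
    linarith
  have hQ0 : 0 < Q := by rw [hQ]; exact hpq
  have hD0 : 0 < D := by rw [hD]; exact hDe
  have hDQ : D * Q = 1 := by rw [hD, hQ]; exact hDpq
  have hP0 : 0 ≤ P := by rw [hPd]; exact hP
  -- the cross term
  have hT2 : 2 * (conj G * (1 + s) * ∑ j ∈ Finset.range J, (w j : ℂ) * Fn s d m (kf s j)).re
      ≤ K * Cw * (2 * (1 + s.re) * (1 / (b + 1) + (1 + (b + 3) / m) / ((b + 2) * (b + 1)))) * X
        + (K * Cw * (2 * kp b m L / τ) * P + K * Cw * (2 * kp b m L * ‖1 + s‖ ^ 2 * τ) * X) := by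
    rw [hsumFn, hsplit, mul_add, Complex.add_re, mul_add]
    apply add_le_add
    · have e : conj G * (1 + s) * ((mid : ℂ) * (m * G / 2))
          = ((mid * m / 2 * ‖G‖ ^ 2 : ℝ) : ℂ) * (1 + s) := by
        have h1 : conj G * G = ((‖G‖ ^ 2 : ℝ) : ℂ) := by
          rw [← Complex.normSq_eq_norm_sq, mul_comm, Complex.mul_conj]
        have h2 : conj G * (1 + s) * ((mid : ℂ) * (m * G / 2))
            = (mid : ℂ) * m / 2 * (conj G * G) * (1 + s) := by ring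
        rw [h2, h1]
        push_cast
        ring
      rw [e, Complex.re_ofReal_mul]
      simp only [Complex.add_re, Complex.one_re]
      have h1r : 0 ≤ 1 + s.re := by linarith
      calc 2 * (mid * m / 2 * ‖G‖ ^ 2 * (1 + s.re))
          = mid * (m * ‖G‖ ^ 2 * (1 + s.re)) := by ring
        _ ≤ (Cw * (m * D) / 2 * (1 / (b + 1) + (1 + (b + 3) / m) / ((b + 2) * (b + 1))))
            * (m * ‖G‖ ^ 2 * (1 + s.re)) := by gcongr
        _ = K * Cw * (2 * (1 + s.re) * (1 / (b + 1) + (1 + (b + 3) / m) / ((b + 2) * (b + 1))))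
            * X * (D * Q) := by
            rw [hGX]
            field_simp
            ring
        _ = _ := by rw [hDQ, mul_one]
    · obtain ⟨F, hF⟩ : ∃ F, F = Fn s d m (fun i => φ i - (mid : ℂ)) := ⟨_, rfl⟩
      rw [← hF] at hcs2 ⊢
      have h1 : (conj G * (1 + s) * F).re ≤ ‖G‖ * ‖1 + s‖ * ‖F‖ := by
        refine (Complex.re_le_norm _).trans (le_of_eq ?_)
        rw [norm_mul, norm_mul, RCLike.norm_conj]
      -- Young's inequality with the weight m / (2 K Q ...)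
      have hF2 : ‖F‖ ^ 2 ≤ K * Q * P * (Cw * (m * D) * kp b m L) ^ 2 := by
        refine hcs2.trans ?_
        have : (dev + err) ^ 2 ≤ (Cw * (m * D) * kp b m L) ^ 2 :=
          pow_le_pow_left₀ (by linarith) hde 2
        gcongr
      obtain ⟨E, hE⟩ : ∃ E, E = Cw * (m * D) * kp b m L := ⟨_, rfl⟩
      rw [← hE] at hF2
      have hE0 : 0 ≤ E := by rw [hE]; positivity
      have goal_eq : K * Cw * (2 * kp b m L / τ) * P + K * Cw * (2 * kp b m L * ‖1 + s‖ ^ 2 * τ) * X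
          = E * (2 * K * Q / m) * (P / τ + ‖1 + s‖ ^ 2 * τ * X) := by
        rw [hE]
        have h2 : Cw * (m * D) * kp b m L * (2 * K * Q / m) = 2 * K * Cw * kp b m L * (D * Q) := by
          field_simp
        rw [h2, hDQ]
        ring
      rw [goal_eq]
      have hprod : (‖G‖ * ‖1 + s‖ * ‖F‖) ^ 2
          ≤ (E * (K * Q / m) * (P / τ + ‖1 + s‖ ^ 2 * τ * X)) ^ 2 := by
        have h3 : (‖G‖ * ‖1 + s‖ * ‖F‖) ^ 2 = ‖G‖ ^ 2 * ‖1 + s‖ ^ 2 * ‖F‖ ^ 2 := by ring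
        rw [h3, hGX]
        have h4 : 4 * K * Q * X / (m : ℝ) ^ 2 * ‖1 + s‖ ^ 2 * ‖F‖ ^ 2
            ≤ 4 * K * Q * X / (m : ℝ) ^ 2 * ‖1 + s‖ ^ 2 * (K * Q * P * E ^ 2) := by
          apply mul_le_mul_of_nonneg_left hF2
          positivity
        refine h4.trans ?_
        have h5 : 4 * K * Q * X / (m : ℝ) ^ 2 * ‖1 + s‖ ^ 2 * (K * Q * P * E ^ 2)
            = (E * (K * Q / m)) ^ 2 * (4 * (P / τ) * (‖1 + s‖ ^ 2 * τ * X)) := by
          field_simp
        rw [h5, mul_pow (E * (K * Q / m)) (P / τ + ‖1 + s‖ ^ 2 * τ * X) 2]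
        apply mul_le_mul_of_nonneg_left _ (sq_nonneg _)
        nlinarith only [sq_nonneg (P / τ - ‖1 + s‖ ^ 2 * τ * X)]
      have hnn : 0 ≤ E * (K * Q / m) * (P / τ + ‖1 + s‖ ^ 2 * τ * X) := by positivity
      have h6 := (pow_le_pow_iff_left₀ (by positivity) hnn two_ne_zero).mp hprod
      calc 2 * (conj G * (1 + s) * F).re ≤ 2 * (‖G‖ * ‖1 + s‖ * ‖F‖) := by linarith
        _ ≤ 2 * (E * (K * Q / m) * (P / τ + ‖1 + s‖ ^ 2 * τ * X)) := by linarith
        _ = _ := by ring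
  rw [← hPd, ← hX]
  have := add_le_add (add_le_add hT1 hT2) hT3
  refine this.trans (le_of_eq ?_)
  ring

end Pool.Agent.Helper39.HR
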