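import Mathlib
import Pool.Agent.Helper22.Half.Core

/-!
Sharper versions of the constants of `Half/Norms` and `Half/Ratio`: one more factor is kept exactly.
-/

set_option autoImplicit false

namespace Pool.Agent.Helper39.HR

open Pool.Agent.Helper22.Half

/-- the supremum of the products `kap` -/
noncomputable def Ks (r ρ : ℝ) : ℝ := ⨆ n, kap r ρ n

/-- the constant of the product bound -/
noncomputable def Bq (r ρ : ℝ) : ℝ :=
  (1 + ρ / (2 * (2 + 2 * r))) * (1 + ρ / (2 * (2 - 2 * r))) * (1 + ρ / (3 * (3 + 2 * r)))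
    * (1 + ρ / (3 * (3 - 2 * r))) * Real.exp (7 * ρ / 12)

theorem kap_prod2 {r ρ : ℝ} (hr : 4 * r ^ 2 ≤ 1) (hρ : 0 ≤ ρ) (n : ℕ) :
    kap r ρ (n + 2) * kap (-r) ρ (n + 2)
      ≤ (1 + ρ / (2 * (2 + 2 * r))) * (1 + ρ / (2 * (2 - 2 * r))) * (1 + ρ / (3 * (3 + 2 * r)))
        * (1 + ρ / (3 * (3 - 2 * r)))
        * Real.exp (ρ * (7 / 12 - 1 / ((n : ℝ) + 3) - 1 / ((n : ℝ) + 4))) := by
  have hr1 : -1 ≤ 2 * r ∧ 2 * r ≤ 1 := by
    constructor <;> nlinarith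
  induction n with
  | zero =>
    rw [kap_succ, kap_succ, kap_succ, kap_succ, kap_zero, kap_zero]
    have e : (7 / 12 - 1 / (((0 : ℕ) : ℝ) + 3) - 1 / (((0 : ℕ) : ℝ) + 4)) = 0 := by norm_num
    rw [e, mul_zero, Real.exp_zero]
    push_cast
    apply le_of_eq
    have e2 : (1 : ℝ) + 2 = 3 := by norm_num
    have e3 : (2 : ℝ) + 2 * (-r) = 2 - 2 * r := by ring
    have e4 : (3 : ℝ) + 2 * (-r) = 3 - 2 * r := by ring
    simp only [zero_add, e2, e3, e4]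
    ring
  | succ n ih =>
    have e0 : n + 1 + 2 = (n + 2) + 1 := by ring
    rw [e0, kap_succ r ρ (n + 2), kap_succ (-r) ρ (n + 2)]
    have hn0 : (0 : ℝ) ≤ n := Nat.cast_nonneg n
    have h1 := kap_step hr hρ (k := (n : ℝ) + 4) (by linarith)
    have g1 := kap_ge_one (by linarith : -1 < r) hρ (n + 2)
    have g2 := kap_ge_one (by linarith : -1 < -r) hρ (n + 2)
    push_cast
    have e3 : (n : ℝ) + 2 + 2 = n + 4 := by ring
    have e4 : (n : ℝ) + 1 + 3 = n + 4 := by ring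
    have e5 : (n : ℝ) + 1 + 4 = n + 5 := by ring
    rw [e3, e4, e5]
    have f0 : 0 ≤ (1 + ρ / (((n : ℝ) + 4) * (n + 4 + 2 * r)))
        * (1 + ρ / (((n : ℝ) + 4) * (n + 4 + 2 * (-r)))) := by
      have a1 : 0 ≤ (n : ℝ) + 4 + 2 * r := by linarith
      have a2 : 0 ≤ (n : ℝ) + 4 + 2 * (-r) := by linarith
      positivity
    have b1 : 0 ≤ 2 + 2 * r := by linarith
    have b2 : 0 ≤ 2 - 2 * r := by linarith
    have b3 : 0 ≤ 3 + 2 * r := by linarith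
    have b4 : 0 ≤ 3 - 2 * r := by linarith
    calc (kap r ρ (n + 2) * (1 + ρ / (((n : ℝ) + 4) * (n + 4 + 2 * r))))
          * (kap (-r) ρ (n + 2) * (1 + ρ / (((n : ℝ) + 4) * (n + 4 + 2 * (-r)))))
        = (kap r ρ (n + 2) * kap (-r) ρ (n + 2)) * ((1 + ρ / (((n : ℝ) + 4) * (n + 4 + 2 * r)))
          * (1 + ρ / (((n : ℝ) + 4) * (n + 4 + 2 * (-r))))) := by ring
      _ ≤ ((1 + ρ / (2 * (2 + 2 * r))) * (1 + ρ / (2 * (2 - 2 * r))) * (1 + ρ / (3 * (3 + 2 * r)))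
        * (1 + ρ / (3 * (3 - 2 * r)))
        * Real.exp (ρ * (7 / 12 - 1 / ((n : ℝ) + 3) - 1 / ((n : ℝ) + 4))))
          * Real.exp (ρ * (1 / ((n : ℝ) + 4 - 1) - 1 / ((n : ℝ) + 4 + 1))) := by
          apply mul_le_mul ih h1 f0
          positivity
      _ = _ := by
          rw [mul_assoc _ (Real.exp _) (Real.exp _), ← Real.exp_add]
          congr 2
          have q : (n : ℝ) + 4 - 1 = n + 3 := by ring
          have q' : (n : ℝ) + 4 + 1 = n + 5 := by ring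
          rw [q, q']
          ring

theorem kap_prod3 {r ρ : ℝ} (hr : 4 * r ^ 2 ≤ 1) (hρ : 0 ≤ ρ) (a b : ℕ) :
    kap r ρ a * kap (-r) ρ b ≤ Bq r ρ := by
  have hr1 : -1 ≤ 2 * r ∧ 2 * r ≤ 1 := by
    constructor <;> nlinarith
  have m1 := kap_mono (by linarith : -1 < r) hρ (a := a) (b := a + b + 2) (by omega)
  have m2 := kap_mono (by linarith : -1 < -r) hρ (a := b) (b := a + b + 2) (by omega)
  have g2 := kap_ge_one (by linarith : -1 < -r) hρ b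
  have g1 := kap_ge_one (by linarith : -1 < r) hρ (a + b + 2)
  have h := kap_prod2 hr hρ (a + b)
  calc kap r ρ a * kap (-r) ρ b ≤ kap r ρ (a + b + 2) * kap (-r) ρ (a + b + 2) := by gcongr
    _ ≤ _ := h
    _ ≤ Bq r ρ := by
      unfold Bq
      have b1 : 0 ≤ 2 + 2 * r := by linarith
      have b2 : 0 ≤ 2 - 2 * r := by linarith
      have b3 : 0 ≤ 3 + 2 * r := by linarith
      have b4 : 0 ≤ 3 - 2 * r := by linarith
      apply mul_le_mul_of_nonneg_left _ (by positivity)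
      apply Real.exp_le_exp.mpr
      have h1 : 0 ≤ 1 / (((a + b : ℕ) : ℝ) + 3) := by positivity
      have h2 : 0 ≤ 1 / (((a + b : ℕ) : ℝ) + 4) := by positivity
      nlinarith

theorem kap_le_Bq {r ρ : ℝ} (hr : 4 * r ^ 2 ≤ 1) (hρ : 0 ≤ ρ) (n : ℕ) : kap r ρ n ≤ Bq r ρ := by
  have h := kap_prod3 hr hρ n 0
  rwa [kap_zero, mul_one] at h

theorem bdd_kap {r ρ : ℝ} (hr : 4 * r ^ 2 ≤ 1) (hρ : 0 ≤ ρ) :
    BddAbove (Set.range fun n => kap r ρ n) := by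
  refine ⟨Bq r ρ, ?_⟩
  rintro _ ⟨n, rfl⟩
  exact kap_le_Bq hr hρ n

theorem kap_le_Ks {r ρ : ℝ} (hr : 4 * r ^ 2 ≤ 1) (hρ : 0 ≤ ρ) (n : ℕ) : kap r ρ n ≤ Ks r ρ :=
  le_ciSup (bdd_kap hr hρ) n

theorem one_le_Ks {r ρ : ℝ} (hr : 4 * r ^ 2 ≤ 1) (hρ : 0 ≤ ρ) : 1 ≤ Ks r ρ := by
  have h := kap_le_Ks hr hρ 0
  rwa [kap_zero] at h

theorem Ks_mul_Ks {r ρ : ℝ} (hr : 4 * r ^ 2 ≤ 1) (hρ : 0 ≤ ρ) : Ks r ρ * Ks (-r) ρ ≤ Bq r ρ := by
  have hr1 : -1 ≤ 2 * r ∧ 2 * r ≤ 1 := by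
    constructor <;> nlinarith
  have hr' : 4 * (-r) ^ 2 ≤ 1 := by nlinarith
  have k2 : 1 ≤ Ks (-r) ρ := one_le_Ks hr' hρ
  -- for every a: kap r a * Ks (-r) ≤ Bq
  have h1 : ∀ a, kap r ρ a * Ks (-r) ρ ≤ Bq r ρ := by
    intro a
    have ga := kap_ge_one (by linarith : -1 < r) hρ a
    have h2 : Ks (-r) ρ ≤ Bq r ρ / kap r ρ a := by
      apply ciSup_le
      intro b
      rw [le_div_iff₀ (by linarith)]
      have := kap_prod3 hr hρ a b
      linarith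
    rw [le_div_iff₀ (by linarith)] at h2
    linarith
  have h3 : Ks r ρ ≤ Bq r ρ / Ks (-r) ρ := by
    apply ciSup_le
    intro a
    rw [le_div_iff₀ (by linarith)]
    exact h1 a
  rw [le_div_iff₀ (by linarith)] at h3
  exact h3

/-- the constant of the ratio bound -/
noncomputable def Rb (b r : ℝ) : ℝ :=
  (1 + b / 3) * (1 - 2 * b * (1 + r) / (4 * (b + 2 - 2 * r)))
    * (1 - 2 * b * (1 + r) / (5 * (b + 3 - 2 * r))) * Real.exp (-(2 * b * (1 + r) / (qe b r + 2)))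

/-- the constant of the weights -/
noncomputable def Cw (s : ℂ) (b : ℝ) (m : ℕ) : ℝ :=
  ‖s‖ ^ 2 * (1 - 2 * s.re + ‖s‖ ^ 2) / (2 * (b + 1 - 2 * s.re)) * Ks (-s.re) (‖s‖ ^ 2)
    * Rb b s.re * ((1 + 2 / m) * Real.exp (3 / (2 * m)))

theorem pq_three (z : ℝ) : pq z 3 = z * (z + 1) * (z + 2) / 6 := by
  have h : pq z 3 = pq z (0 + 1 + 1 + 1) := rfl
  rw [h, pq_succ, pq_succ, pq_succ, pq_zero]
  push_cast
  ring

theorem pq_four (z : ℝ) : pq z 4 = z * (z + 1) * (z + 2) * (z + 3) / 24 := by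
  have h : pq z 4 = pq z (3 + 1) := rfl
  rw [h, pq_succ, pq_three]
  push_cast
  ring

/-- one step of the comparison -/
theorem step_le {b r : ℝ} (hb : 0 < b) (hb1 : b ≤ 1 / 2) (hr : -(1 / 2) ≤ r) (hr1 : r < 1 / 2)
    {x : ℝ} (hx : 0 ≤ x) :
    (1 - 2 * r + (x + 1)) * (b + 3 + (x + 1))
      ≤ (x + 4) * (b + 1 - 2 * r + x + 1) * Real.exp (-(2 * b * (1 + r)
        * (1 / (x + qe b r) - 1 / (x + 1 + qe b r)))) := by
  have hσ : 0 < b + 1 - 2 * r := by linarith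
  have hq : 1 < qe b r := by unfold qe; linarith
  have hA : 0 < (x + 4) * (b + 1 - 2 * r + x + 1) := by positivity
  have h1 : 1 - 2 * b * (1 + r) / ((x + 4) * (b + 1 - 2 * r + x + 1))
      ≤ Real.exp (-(2 * b * (1 + r) * (1 / (x + qe b r) - 1 / (x + 1 + qe b r)))) := by
    have h2 := Real.add_one_le_exp (-(2 * b * (1 + r) * (1 / (x + qe b r) - 1 / (x + 1 + qe b r))))
    refine le_trans ?_ h2
    have h3 : 1 / (x + qe b r) - 1 / (x + 1 + qe b r)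
        = 1 / ((x + qe b r) * (x + 1 + qe b r)) := by
      have q1 : x + qe b r ≠ 0 := by positivity
      have q2 : x + 1 + qe b r ≠ 0 := by positivity
      field_simp
      ring
    have h4 : 1 / ((x + qe b r) * (x + 1 + qe b r))
        ≤ 1 / ((x + 4) * (b + 1 - 2 * r + x + 1)) := by
      apply one_div_le_one_div_of_le hA
      unfold qe
      nlinarith [sq_nonneg (b - 2 * r - 39 / 20), mul_nonneg (by linarith : 0 ≤ 3 / 2 - (b - 2 * r))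
        (by linarith : 0 ≤ 12 / 5 - (b - 2 * r))]
    have h5 : 0 ≤ 2 * b * (1 + r) := by
      apply mul_nonneg <;> linarith
    rw [h3]
    have h6 : 2 * b * (1 + r) / ((x + 4) * (b + 1 - 2 * r + x + 1))
        = 2 * b * (1 + r) * (1 / ((x + 4) * (b + 1 - 2 * r + x + 1))) := by ring
    rw [h6]
    have := mul_le_mul_of_nonneg_left h4 h5
    linarith
  calc (1 - 2 * r + (x + 1)) * (b + 3 + (x + 1))
      = (x + 4) * (b + 1 - 2 * r + x + 1)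
        * (1 - 2 * b * (1 + r) / ((x + 4) * (b + 1 - 2 * r + x + 1))) := by
        field_simp
        ring
    _ ≤ _ := by gcongr

theorem F1_pos {b r : ℝ} (hb : 0 < b) (hb1 : b ≤ 1 / 2) (hr : -(1 / 2) ≤ r) (hr1 : r < 1 / 2) :
    0 < 1 - 2 * b * (1 + r) / (4 * (b + 2 - 2 * r)) := by
  rw [sub_pos, div_lt_one (by linarith)]
  nlinarith

theorem F2_pos {b r : ℝ} (hb : 0 < b) (hb1 : b ≤ 1 / 2) (hr : -(1 / 2) ≤ r) (hr1 : r < 1 / 2) :
    0 < 1 - 2 * b * (1 + r) / (5 * (b + 3 - 2 * r)) := by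
  rw [sub_pos, div_lt_one (by linarith)]
  nlinarith

theorem ratio_aux2 {b r : ℝ} (hb : 0 < b) (hb1 : b ≤ 1 / 2) (hr : -(1 / 2) ≤ r)
    (hr1 : r < 1 / 2) (n : ℕ) :
    pq (1 - 2 * r) (n + 3) * pq (b + 3) (n + 3)
      ≤ (1 - 2 * r) * ((n : ℝ) + 5) / (2 * (b + 1 - 2 * r) * (b + 1 - 2 * r + n + 3))
        * ((1 + b / 3) * (1 - 2 * b * (1 + r) / (4 * (b + 2 - 2 * r)))
          * (1 - 2 * b * (1 + r) / (5 * (b + 3 - 2 * r))))
        * Real.exp (-(2 * b * (1 + r) / (qe b r + 2)) + 2 * b * (1 + r) / (n + 2 + qe b r))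
        * (((n : ℝ) + 4) ^ 2 * pq (b + 1 - 2 * r) (n + 4)) := by
  have hc : 0 < 1 - 2 * r := by linarith
  have hσ : 0 < b + 1 - 2 * r := by linarith
  have hq : 1 < qe b r := by unfold qe; linarith
  have f1 := F1_pos hb hb1 hr hr1
  have f2 := F2_pos hb hb1 hr hr1
  induction n with
  | zero =>
    have e : -(2 * b * (1 + r) / (qe b r + 2))
        + 2 * b * (1 + r) / (((0 : ℕ) : ℝ) + 2 + qe b r) = 0 := by
      have : ((0 : ℕ) : ℝ) + 2 + qe b r = qe b r + 2 := by push_cast; ring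
      rw [this]
      ring
    rw [e, Real.exp_zero, zero_add, zero_add, pq_three, pq_three, pq_four]
    push_cast
    apply le_of_eq
    have q1 : b + 1 - 2 * r ≠ 0 := hσ.ne'
    have q2 : b + 2 - 2 * r ≠ 0 := (by linarith : 0 < b + 2 - 2 * r).ne'
    have q3 : b + 3 - 2 * r ≠ 0 := (by linarith : 0 < b + 3 - 2 * r).ne'
    have q4 : b + 1 - 2 * r + 0 + 3 ≠ 0 := (by linarith : 0 < b + 1 - 2 * r + 0 + 3).ne'
    have e5 : b + 1 - 2 * r + 1 = b + 2 - 2 * r := by ring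
    have e6 : b + 1 - 2 * r + 2 = b + 3 - 2 * r := by ring
    have e7 : b + 1 - 2 * r + 0 + 3 = b + 1 - 2 * r + 3 := by ring
    rw [e7] at q4 ⊢
    rw [e5, e6]
    have e8 : 1 - 2 * b * (1 + r) / (4 * (b + 2 - 2 * r))
        = (2 - 2 * r) * (b + 4) / (4 * (b + 2 - 2 * r)) := by
      field_simp
      ring
    have e9 : 1 - 2 * b * (1 + r) / (5 * (b + 3 - 2 * r))
        = (3 - 2 * r) * (b + 5) / (5 * (b + 3 - 2 * r)) := by
      field_simp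
      ring
    rw [e8, e9]
    generalize b + 1 - 2 * r + 3 = u3 at *
    generalize b + 1 - 2 * r = u0 at *
    generalize b + 2 - 2 * r = u1 at *
    generalize b + 3 - 2 * r = u2 at *
    field_simp
    ring
  | succ n ih =>
    have p1 := pq_pos hc (n + 3)
    have p2 := pq_pos (by linarith : 0 < b + 3) (n + 3)
    have p3 := pq_pos hσ (n + 4)
    have hn0 : (0 : ℝ) ≤ n := Nat.cast_nonneg n
    have hx := step_le hb hb1 hr hr1 (x := (n : ℝ) + 2) (by linarith)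
    have e0 : n + 1 + 3 = (n + 3) + 1 := by ring
    have e1 : pq (1 - 2 * r) (n + 3 + 1) * pq (b + 3) (n + 3 + 1)
        = (pq (1 - 2 * r) (n + 3) * pq (b + 3) (n + 3))
          * ((1 - 2 * r + ((n : ℝ) + 2 + 1)) * (b + 3 + ((n : ℝ) + 2 + 1)) / ((n : ℝ) + 4) ^ 2) := by
      rw [pq_succ _ (n + 3), pq_succ _ (n + 3)]
      push_cast
      field_simp
      ring
    have hpow : 0 < ((n : ℝ) + 4) ^ 2 := by positivity
    rw [e0, e1]
    have hf0 : 0 ≤ (1 - 2 * r + ((n : ℝ) + 2 + 1)) * (b + 3 + ((n : ℝ) + 2 + 1))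
        / ((n : ℝ) + 4) ^ 2 := by
      apply div_nonneg _ hpow.le
      apply mul_nonneg <;> linarith
    have hf1 : (1 - 2 * r + ((n : ℝ) + 2 + 1)) * (b + 3 + ((n : ℝ) + 2 + 1)) / ((n : ℝ) + 4) ^ 2
        ≤ ((n : ℝ) + 2 + 4) * (b + 1 - 2 * r + ((n : ℝ) + 2) + 1) * Real.exp (-(2 * b * (1 + r)
          * (1 / ((n : ℝ) + 2 + qe b r) - 1 / ((n : ℝ) + 2 + 1 + qe b r)))) / ((n : ℝ) + 4) ^ 2 := by
      gcongr
    refine (mul_le_mul ih hf1 hf0 (by positivity)).trans (le_of_eq ?_)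
    have e2 : Real.exp (-(2 * b * (1 + r) / (qe b r + 2))
          + 2 * b * (1 + r) / (((n + 1 : ℕ) : ℝ) + 2 + qe b r))
        = Real.exp (-(2 * b * (1 + r) / (qe b r + 2)) + 2 * b * (1 + r) / (n + 2 + qe b r))
          * Real.exp (-(2 * b * (1 + r) * (1 / ((n : ℝ) + 2 + qe b r)
            - 1 / ((n : ℝ) + 2 + 1 + qe b r)))) := by
      rw [← Real.exp_add]
      congr 1
      have e3 : ((n + 1 : ℕ) : ℝ) + 2 + qe b r = (n : ℝ) + 2 + 1 + qe b r := by push_cast; ring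
      rw [e3]
      ring
    rw [e2]
    generalize Real.exp (-(2 * b * (1 + r) / (qe b r + 2)) + 2 * b * (1 + r) / (n + 2 + qe b r)) = X1
    generalize Real.exp (-(2 * b * (1 + r) * (1 / ((n : ℝ) + 2 + qe b r)
            - 1 / ((n : ℝ) + 2 + 1 + qe b r)))) = X2
    generalize (1 + b / 3) * (1 - 2 * b * (1 + r) / (4 * (b + 2 - 2 * r)))
          * (1 - 2 * b * (1 + r) / (5 * (b + 3 - 2 * r))) = X3
    have e3 : n + 1 + 4 = (n + 4) + 1 := by ring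
    rw [e3, pq_succ _ (n + 4)]
    push_cast
    have q1 : b + 1 - 2 * r ≠ 0 := hσ.ne'
    have q2 : b + 1 - 2 * r + (n : ℝ) + 3 ≠ 0 := by positivity
    have q3 : b + 1 - 2 * r + (n : ℝ) + 4 ≠ 0 := by positivity
    have q4 : b + 1 - 2 * r + ((n : ℝ) + 4) = b + 1 - 2 * r + (n : ℝ) + 4 := by ring
    have q5 : b + 1 - 2 * r + ((n : ℝ) + 1) + 3 = b + 1 - 2 * r + (n : ℝ) + 4 := by ring
    have q6 : b + 1 - 2 * r + ((n : ℝ) + 2) + 1 = b + 1 - 2 * r + (n : ℝ) + 3 := by ring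
    rw [q4, q5, q6]
    generalize pq (b + 1 - 2 * r) (n + 4) = P
    generalize b + 1 - 2 * r + (n : ℝ) + 4 = u3 at *
    generalize b + 1 - 2 * r + (n : ℝ) + 3 = u2 at *
    field_simp
    ring

theorem Rb_nonneg {b r : ℝ} (hb : 0 < b) (hb1 : b ≤ 1 / 2) (hr : -(1 / 2) ≤ r) (hr1 : r < 1 / 2) :
    0 ≤ Rb b r := by
  have f1 := F1_pos hb hb1 hr hr1
  have f2 := F2_pos hb hb1 hr hr1
  unfold Rb
  positivity

theorem ratio_bound2 {b r : ℝ} (hb : 0 < b) (hb1 : b ≤ 1 / 2) (hr : -(1 / 2) ≤ r)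
    (hr1 : r < 1 / 2) {m : ℕ} (hm : 3 ≤ m) (j : ℕ) :
    pq (1 - 2 * r) (m + j) / (((m : ℝ) + 1 + j) ^ 2 * pq (b + 1 - 2 * r) (m + 1 + j))
      ≤ (1 - 2 * r) / (2 * (b + 1 - 2 * r)) * Rb b r * ((1 + 2 / m) * Real.exp (3 / (2 * m)))
        * De b (m + 1 + j) := by
  obtain ⟨n, hn⟩ : ∃ n, m + j = n + 3 := ⟨m + j - 3, by omega⟩
  have hn2 : m + 1 + j = n + 4 := by omega
  have hnr : (m : ℝ) + 1 + j = n + 4 := by exact_mod_cast hn2
  have hnm : (m : ℝ) ≤ n + 3 := by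
    have : m ≤ n + 3 := by omega
    exact_mod_cast this
  have hm' : (0 : ℝ) < m := by exact_mod_cast (by omega : 0 < m)
  have hc : 0 < 1 - 2 * r := by linarith
  have hσ : 0 < b + 1 - 2 * r := by linarith
  have hq : 1 < qe b r := by unfold qe; linarith
  have hn0 : (0 : ℝ) ≤ n := Nat.cast_nonneg n
  have f1 := F1_pos hb hb1 hr hr1
  have f2 := F2_pos hb hb1 hr hr1
  rw [hn, hn2, hnr]
  have p2 := pq_pos (by linarith : 0 < b + 3) (n + 3)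
  have p3 := pq_pos hσ (n + 4)
  have h := ratio_aux2 hb hb1 hr hr1 n
  have hD : De b (n + 4) = (pq (b + 3) (n + 3))⁻¹ := by
    unfold De
    rfl
  rw [hD, div_le_iff₀ (by positivity)]
  have h2 : pq (1 - 2 * r) (n + 3) ≤ ((1 - 2 * r) * ((n : ℝ) + 5)
      / (2 * (b + 1 - 2 * r) * (b + 1 - 2 * r + n + 3))
        * ((1 + b / 3) * (1 - 2 * b * (1 + r) / (4 * (b + 2 - 2 * r)))
          * (1 - 2 * b * (1 + r) / (5 * (b + 3 - 2 * r))))
        * Real.exp (-(2 * b * (1 + r) / (qe b r + 2)) + 2 * b * (1 + r) / (n + 2 + qe b r))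
        * (((n : ℝ) + 4) ^ 2 * pq (b + 1 - 2 * r) (n + 4))) * (pq (b + 3) (n + 3))⁻¹ := by
    rw [← div_eq_mul_inv, le_div_iff₀ p2]
    exact h
  refine h2.trans ?_
  have h3 : ((n : ℝ) + 5) / (b + 1 - 2 * r + n + 3) ≤ 1 + 2 / m := by
    rw [div_le_iff₀ (by positivity)]
    have : 2 ≤ 2 / (m : ℝ) * (b + 1 - 2 * r + n + 3) := by
      rw [div_mul_eq_mul_div, le_div_iff₀ hm']
      nlinarith
    nlinarith
  have h4 : Real.exp (-(2 * b * (1 + r) / (qe b r + 2)) + 2 * b * (1 + r) / (n + 2 + qe b r))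
      ≤ Real.exp (-(2 * b * (1 + r) / (qe b r + 2))) * Real.exp (3 / (2 * m)) := by
    rw [← Real.exp_add]
    apply Real.exp_le_exp.mpr
    have h5 : 2 * b * (1 + r) / (n + 2 + qe b r) ≤ 3 / (2 * m) := by
      rw [div_le_div_iff₀ (by positivity) (by positivity)]
      have h6 : 2 * b * (1 + r) ≤ 3 / 2 := by nlinarith
      nlinarith
    linarith
  have p4 : 0 < (pq (b + 3) (n + 3))⁻¹ := inv_pos.mpr p2
  calc ((1 - 2 * r) * ((n : ℝ) + 5)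
      / (2 * (b + 1 - 2 * r) * (b + 1 - 2 * r + n + 3))
        * ((1 + b / 3) * (1 - 2 * b * (1 + r) / (4 * (b + 2 - 2 * r)))
          * (1 - 2 * b * (1 + r) / (5 * (b + 3 - 2 * r))))
        * Real.exp (-(2 * b * (1 + r) / (qe b r + 2)) + 2 * b * (1 + r) / (n + 2 + qe b r))
        * (((n : ℝ) + 4) ^ 2 * pq (b + 1 - 2 * r) (n + 4))) * (pq (b + 3) (n + 3))⁻¹
      = ((1 - 2 * r) / (2 * (b + 1 - 2 * r)) * ((1 + b / 3)
          * (1 - 2 * b * (1 + r) / (4 * (b + 2 - 2 * r)))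
          * (1 - 2 * b * (1 + r) / (5 * (b + 3 - 2 * r)))) * (((n : ℝ) + 4) ^ 2
        * pq (b + 1 - 2 * r) (n + 4)) * (pq (b + 3) (n + 3))⁻¹)
        * ((((n : ℝ) + 5) / (b + 1 - 2 * r + n + 3))
          * Real.exp (-(2 * b * (1 + r) / (qe b r + 2)) + 2 * b * (1 + r) / (n + 2 + qe b r))) := by
        generalize (1 + b / 3) * (1 - 2 * b * (1 + r) / (4 * (b + 2 - 2 * r)))
          * (1 - 2 * b * (1 + r) / (5 * (b + 3 - 2 * r))) = X3
        have q1 : b + 1 - 2 * r ≠ 0 := hσ.ne'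
        have q2 : b + 1 - 2 * r + (n : ℝ) + 3 ≠ 0 := by positivity
        field_simp
    _ ≤ ((1 - 2 * r) / (2 * (b + 1 - 2 * r)) * ((1 + b / 3)
          * (1 - 2 * b * (1 + r) / (4 * (b + 2 - 2 * r)))
          * (1 - 2 * b * (1 + r) / (5 * (b + 3 - 2 * r)))) * (((n : ℝ) + 4) ^ 2
        * pq (b + 1 - 2 * r) (n + 4)) * (pq (b + 3) (n + 3))⁻¹)
        * ((1 + 2 / m) * (Real.exp (-(2 * b * (1 + r) / (qe b r + 2)))
          * Real.exp (3 / (2 * m)))) := by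
        gcongr
    _ = _ := by unfold Rb; ring

theorem Cw_nonneg (s : ℂ) (hs : ‖s‖ < 1 / 2) {b : ℝ} (hb : 0 < b) (hb1 : b ≤ 1 / 2) (m : ℕ) :
    0 ≤ Cw s b m := by
  have hre := Complex.abs_re_le_norm s
  have hre2 := abs_lt.mp (hre.trans_lt hs)
  have hr4 : 4 * (-s.re) ^ 2 ≤ 1 := by nlinarith [hre2.1, hre2.2]
  have h1 := one_le_Ks hr4 (sq_nonneg ‖s‖)
  have h2 := Rb_nonneg hb hb1 (by linarith : -(1 / 2) ≤ s.re) (by linarith : s.re < 1 / 2)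
  have h3 : 0 < 1 - 2 * s.re := by linarith
  have h4 : 0 < b + 1 - 2 * s.re := by linarith
  have h5 : 0 ≤ Ks (-s.re) (‖s‖ ^ 2) := by linarith
  unfold Cw
  positivity

/-- the weights are bounded by `Cw` times the majorant `De` -/
theorem hw_Cw (s : ℂ) (hs : ‖s‖ < 1 / 2) {b : ℝ} (hb : 0 < b) (hb1 : b ≤ 1 / 2) {m : ℕ}
    (hm : 3 ≤ m) (j : ℕ) :
    (pq (b + 1 - 2 * s.re) (m + 1 + j))⁻¹ * ‖pq (-s) (m + 1 + j)‖ ^ 2
      ≤ Cw s b m * De b (m + 1 + j) := by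
  have hre := Complex.abs_re_le_norm s
  have hre2 := abs_lt.mp (hre.trans_lt hs)
  have hr4 : 4 * (-s.re) ^ 2 ≤ 1 := by nlinarith [hre2.1, hre2.2]
  have hc : 0 < 1 - 2 * s.re := by linarith
  have hσ : 0 < b + 1 - 2 * s.re := by linarith
  obtain ⟨k, hk⟩ : ∃ k, m + j = k + 1 := ⟨m + j - 1, by omega⟩
  have hk2 : m + 1 + j = k + 2 := by omega
  have hkr : (m : ℝ) + 1 + j = k + 2 := by exact_mod_cast hk2
  have hrb := ratio_bound2 hb hb1 (by linarith : -(1 / 2) ≤ s.re) (by linarith : s.re < 1 / 2) hm j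
  have hn := norm_c s (by linarith) k
  rw [hk2] at hrb ⊢
  rw [hk, hkr] at hrb
  have p3 := pq_pos hσ (k + 2)
  have p4 := pq_pos hc (k + 1)
  have hK := kap_le_Ks hr4 (sq_nonneg ‖s‖) k
  have hK1 := kap_ge_one (by linarith : -1 < -s.re) (sq_nonneg ‖s‖) k
  have hk0 : (0 : ℝ) < (k : ℝ) + 2 := by positivity
  have hD := De_pos hb (k + 2)
  have e1 : (pq (b + 1 - 2 * s.re) (k + 2))⁻¹ * ‖pq (-s) (k + 2)‖ ^ 2
      = (‖s‖ ^ 2 * (1 - 2 * s.re + ‖s‖ ^ 2) / (1 - 2 * s.re) * kap (-s.re) (‖s‖ ^ 2) k)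
        * (pq (1 - 2 * s.re) (k + 1) / (((k : ℝ) + 2) ^ 2 * pq (b + 1 - 2 * s.re) (k + 2))) := by
    have e2 : ‖pq (-s) (k + 2)‖ ^ 2 = ‖s‖ ^ 2 * (1 - 2 * s.re + ‖s‖ ^ 2)
        * kap (-s.re) (‖s‖ ^ 2) k * pq (1 - 2 * s.re) (k + 1)
        / (((k : ℝ) + 2) ^ 2 * (1 - 2 * s.re)) := by
      rw [eq_div_iff (by positivity)]
      linarith
    rw [e2]
    field_simp
  rw [e1]
  have hX : 0 ≤ ‖s‖ ^ 2 * (1 - 2 * s.re + ‖s‖ ^ 2) / (1 - 2 * s.re) := by positivity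
  have hY : 0 ≤ pq (1 - 2 * s.re) (k + 1) / (((k : ℝ) + 2) ^ 2 * pq (b + 1 - 2 * s.re) (k + 2)) := by
    positivity
  calc (‖s‖ ^ 2 * (1 - 2 * s.re + ‖s‖ ^ 2) / (1 - 2 * s.re) * kap (-s.re) (‖s‖ ^ 2) k)
        * (pq (1 - 2 * s.re) (k + 1) / (((k : ℝ) + 2) ^ 2 * pq (b + 1 - 2 * s.re) (k + 2)))
      ≤ (‖s‖ ^ 2 * (1 - 2 * s.re + ‖s‖ ^ 2) / (1 - 2 * s.re) * Ks (-s.re) (‖s‖ ^ 2))
        * ((1 - 2 * s.re) / (2 * (b + 1 - 2 * s.re)) * Rb b s.re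
          * ((1 + 2 / m) * Real.exp (3 / (2 * m))) * De b (k + 2)) := by
        apply mul_le_mul _ hrb hY
        · apply mul_nonneg hX
          linarith
        · exact mul_le_mul_of_nonneg_left hK hX
    _ = Cw s b m * De b (k + 2) := by
        unfold Cw
        field_simp

theorem K_mul_Cw (s : ℂ) (hs : ‖s‖ < 1 / 2) {b : ℝ} (hb : 0 < b) (hb1 : b ≤ 1 / 2) (m : ℕ)
    (hm : 1 ≤ m) :
    Ks s.re (‖s‖ ^ 2) * Cw s b m
      ≤ ‖s‖ ^ 2 / 2 * ((1 - 2 * s.re + ‖s‖ ^ 2) / (b + 1 - 2 * s.re))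
        * (Bq s.re (‖s‖ ^ 2) * Rb b s.re) * ((1 + 2 / m) * Real.exp (3 / (2 * m))) := by
  have hre := Complex.abs_re_le_norm s
  have hre2 := abs_lt.mp (hre.trans_lt hs)
  have hr4 : 4 * s.re ^ 2 ≤ 1 := by nlinarith [hre2.1, hre2.2]
  have hc : 0 < 1 - 2 * s.re := by linarith
  have hσ : 0 < b + 1 - 2 * s.re := by linarith
  have h2 := Rb_nonneg hb hb1 (by linarith : -(1 / 2) ≤ s.re) (by linarith : s.re < 1 / 2)
  have h1 := Ks_mul_Ks hr4 (sq_nonneg ‖s‖)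
  have e1 : Ks s.re (‖s‖ ^ 2) * Cw s b m
      = (‖s‖ ^ 2 / 2 * ((1 - 2 * s.re + ‖s‖ ^ 2) / (b + 1 - 2 * s.re)) * Rb b s.re
        * ((1 + 2 / m) * Real.exp (3 / (2 * m))))
        * (Ks s.re (‖s‖ ^ 2) * Ks (-s.re) (‖s‖ ^ 2)) := by
    unfold Cw
    field_simp
  rw [e1]
  refine (mul_le_mul_of_nonneg_left h1 (by positivity)).trans (le_of_eq ?_)
  ring

end Pool.Agent.Helper39.HR
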