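import Mathlib
import Pool.Agent.Helper39.HR.CertDefs
import Pool.Agent.Helper39.HR.NBound
import Pool.Agent.Helper39.HR.Pref
import Pool.Agent.Helper22.Half.Growth

/-!
MP_16b0ee, project HR: the constants of the closing argument.
-/

set_option autoImplicit false

namespace Pool.Agent.Helper39.HR

open Pool.Agent.Helper22.Half

/-- the exponent -/
noncomputable def bb (s : ℂ) : ℝ := 16 / 9 * ‖s‖ ^ 2

/-- upper bound of the prefactor -/
noncomputable def Hg (s : ℂ) : ℝ :=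
  9 / 8 * ((1 - 2 * s.re + ‖s‖ ^ 2) / (bb s + 1 - 2 * s.re)) * gp s.re (‖s‖ ^ 2)

/-- coefficient of the lower form -/
noncomputable def thg (s : ℂ) : ℝ :=
  Hg s * bb s / 4 * ((1 + 2 * s.re + ‖s‖ ^ 2) / (bb s + 1 - 2 * s.re) + 1 / (bb s + 2))

/-- coefficient of the diagonal quantity -/
noncomputable def zeg (s : ℂ) : ℝ :=
  Hg s / (bb s + 1) + Hg s * bb s * (1 + s.re) * (bb s + 3) / (2 * (bb s + 1) * (bb s + 2))
    + Hg s * bb s * (1 + 2 * s.re + ‖s‖ ^ 2) / (4 * (bb s + 2))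

/-- the constant of the second functional -/
noncomputable def kc (s : ℂ) : ℝ :=
  4 / 9 * (1 - 2 * s.re + ‖s‖ ^ 2) * (bb s + 1) / ((bb s + 2) * (bb s + 3))

/-- the second diagonal quantity -/
noncomputable def Ym (b K : ℝ) (d : ℕ → ℂ) (m : ℕ) : ℝ :=
  ‖Ls d m‖ ^ 2 / (4 * (m : ℝ) ^ 2 * K * pq (b + 3) (m - 1))

/-- the supremum of the products -/
noncomputable def KK (s : ℂ) : ℝ := Ks s.re (‖s‖ ^ 2)

/-- the antidiagonals of `exp (s Φ)` -/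
noncomputable def dd (Φ : ℂ → ℂ → ℂ) (s : ℂ) (m : ℕ) : ℕ → ℂ := diagc (EE Φ s) m

/-- first diagonal quantity -/
noncomputable def Xs (Φ : ℂ → ℂ → ℂ) (s : ℂ) (m : ℕ) : ℝ := Xm (bb s) (KK s) (dd Φ s m) m

/-- second diagonal quantity -/
noncomputable def Ys (Φ : ℂ → ℂ → ℂ) (s : ℂ) (m : ℕ) : ℝ := Ym (bb s) (KK s) (dd Φ s m) m

/-- the lower forms -/
noncomputable def Ps (Φ : ℂ → ℂ → ℂ) (s : ℂ) (m : ℕ) : ℝ := Pf s (bb s) (dd Φ s m) m

/-- the upper forms -/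
noncomputable def Us (Φ : ℂ → ℂ → ℂ) (s : ℂ) (m J : ℕ) : ℝ :=
  ∑ j ∈ Finset.range J, ((j : ℝ) + 1) * (pq (bb s + 1 - 2 * s.re) (m + 1 + j))⁻¹
    * ‖Vd s (dd Φ s m) m (m + 1 + j)‖ ^ 2

section basic
variable {s : ℂ}

theorem KK_pos (hs : ‖s‖ < 1 / 2) : 1 ≤ KK s := by
  have hre := Complex.abs_re_le_norm s
  have hre2 := abs_lt.mp (hre.trans_lt hs)
  exact one_le_Ks (by nlinarith [hre2.1, hre2.2]) (sq_nonneg _)

theorem kap_le_KK (hs : ‖s‖ < 1 / 2) (n : ℕ) : kap s.re (‖s‖ ^ 2) n ≤ KK s := by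
  have hre := Complex.abs_re_le_norm s
  have hre2 := abs_lt.mp (hre.trans_lt hs)
  exact kap_le_Ks (by nlinarith [hre2.1, hre2.2]) (sq_nonneg _) n

theorem rho_bounds (hs : ‖s‖ < 1 / 2) : s.re ^ 2 ≤ ‖s‖ ^ 2 ∧ ‖s‖ ^ 2 ≤ 1 / 4 := by
  have hre := Complex.abs_re_le_norm s
  have hn := norm_nonneg s
  constructor
  · exact sq_le_sq' (by linarith [neg_abs_le s.re]) ((le_abs_self s.re).trans hre)
  · nlinarith

theorem re_bounds (hs : ‖s‖ < 1 / 2) : -(1 / 2) < s.re ∧ s.re < 1 / 2 :=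
  abs_lt.mp ((Complex.abs_re_le_norm s).trans_lt hs)

theorem bb_pos (hs0 : s ≠ 0) : 0 < bb s := by
  have := norm_pos_iff.mpr hs0
  unfold bb
  positivity

theorem bb_nonneg (s : ℂ) : 0 ≤ bb s := by unfold bb; positivity

theorem bb_le (hs : ‖s‖ < 1 / 2) : bb s ≤ 4 / 9 := by
  have := (rho_bounds hs).2
  unfold bb
  linarith

/-- lower bound of `σ` -/
theorem sigma_ge (hs : ‖s‖ < 1 / 2) : 7 / 16 ≤ bb s + 1 - 2 * s.re := by
  have := (rho_bounds hs).1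
  unfold bb
  nlinarith [sq_nonneg (s.re - 9 / 16)]

end basic

end Pool.Agent.Helper39.HR
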