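import Mathlib
import Pool.Agent.Helper39.HR.FunId
import Pool.Agent.Helper22.Half.GrowthA
import Pool.Agent.Helper22.Half.MeanA
import Pool.Agent.Helper22.Half.CloseA

/-!
MP_16b0ee, project HR: the second moment identity on an antidiagonal of the two point function.
-/

set_option autoImplicit false

open MeasureTheory Set Metric Filter Topology
open scoped ENNReal NNReal Real Nat ComplexConjugate

namespace Pool.Agent.Helper39.HR

open Pool.Agent.Helper22.Half
open Pool.Agent.Helper39.Area (Ext phi)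
open Pool.Agent.Helper22.Marshall (coeff coeff_mul coeff_congr coeff_eq_of_hasSum hasSum_coeff
  hasSum_coeff_deriv coeff_zero coeff_const_mul SepHol LogPhi dcoeff)

/-- the operator `t d/dt` on power series -/
noncomputable def Dt {R : Type} [CommRing R] (f : PowerSeries R) : PowerSeries R :=
  PowerSeries.mk fun n => (n : R) * PowerSeries.coeff n f

theorem coeff_Dt {R : Type} [CommRing R] (f : PowerSeries R) (n : ℕ) :
    PowerSeries.coeff n (Dt f) = (n : R) * PowerSeries.coeff n f := PowerSeries.coeff_mk _ _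

theorem Dt_mul {R : Type} [CommRing R] (f g : PowerSeries R) :
    Dt (f * g) = Dt f * g + f * Dt g := by
  ext n
  rw [coeff_Dt, map_add, PowerSeries.coeff_mul, PowerSeries.coeff_mul, PowerSeries.coeff_mul,
    Finset.mul_sum, ← Finset.sum_add_distrib]
  apply Finset.sum_congr rfl
  intro p hp
  rw [Finset.HasAntidiagonal.mem_antidiagonal] at hp
  rw [coeff_Dt, coeff_Dt, ← hp]
  push_cast
  ring

theorem Dt_add {R : Type} [CommRing R] (f g : PowerSeries R) : Dt (f + g) = Dt f + Dt g := by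
  ext n
  rw [coeff_Dt, map_add, map_add, coeff_Dt, coeff_Dt]
  ring

theorem Dt_sub {R : Type} [CommRing R] (f g : PowerSeries R) : Dt (f - g) = Dt f - Dt g := by
  ext n
  rw [coeff_Dt, map_sub, map_sub, coeff_Dt, coeff_Dt]
  ring

theorem Dt_C_mul {R : Type} [CommRing R] (c : R) (f : PowerSeries R) :
    Dt (PowerSeries.C c * f) = PowerSeries.C c * Dt f := by
  ext n
  rw [coeff_Dt, PowerSeries.coeff_C_mul, PowerSeries.coeff_C_mul, coeff_Dt]
  ring

theorem Dt_map {R S : Type} [CommRing R] [CommRing S] (f0 : R →+* S) (f : PowerSeries R) :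
    PowerSeries.map f0 (Dt f) = Dt (PowerSeries.map f0 f) := by
  ext n
  rw [PowerSeries.coeff_map, coeff_Dt, coeff_Dt, PowerSeries.coeff_map, map_mul, map_natCast]

/-- the operator `x d/dx` on power series in `t` with polynomial coefficients in `x` -/
noncomputable def Th (f : PowerSeries (Polynomial ℂ)) : PowerSeries (Polynomial ℂ) :=
  PowerSeries.mk fun n => Polynomial.X * Polynomial.derivative (PowerSeries.coeff n f)

theorem coeff_Th (f : PowerSeries (Polynomial ℂ)) (n : ℕ) :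
    PowerSeries.coeff n (Th f) = Polynomial.X * Polynomial.derivative (PowerSeries.coeff n f) :=
  PowerSeries.coeff_mk _ _

theorem Th_mul (f g : PowerSeries (Polynomial ℂ)) : Th (f * g) = Th f * g + f * Th g := by
  ext1 n
  rw [coeff_Th, map_add, PowerSeries.coeff_mul, PowerSeries.coeff_mul, PowerSeries.coeff_mul,
    Polynomial.derivative_sum, Finset.mul_sum, ← Finset.sum_add_distrib]
  apply Finset.sum_congr rfl
  intro p _
  rw [coeff_Th, coeff_Th, Polynomial.derivative_mul]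
  ring

theorem Th_add (f g : PowerSeries (Polynomial ℂ)) : Th (f + g) = Th f + Th g := by
  ext1 n
  rw [coeff_Th, map_add, Polynomial.derivative_add, (PowerSeries.coeff n).map_add, coeff_Th,
    coeff_Th]
  ring

theorem Th_C_mul (c : ℂ) (f : PowerSeries (Polynomial ℂ)) :
    Th (PowerSeries.C (Polynomial.C c) * f) = PowerSeries.C (Polynomial.C c) * Th f := by
  ext1 n
  rw [coeff_Th, PowerSeries.coeff_C_mul, PowerSeries.coeff_C_mul, coeff_Th,
    Polynomial.derivative_C_mul]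
  ring

theorem Dt_Th (f : PowerSeries (Polynomial ℂ)) : Dt (Th f) = Th (Dt f) := by
  ext1 n
  rw [coeff_Dt, coeff_Th, coeff_Th, coeff_Dt, Polynomial.derivative_natCast_mul]
  ring

/-- evaluation of the coefficients at `1` -/
noncomputable def Ev (f : PowerSeries (Polynomial ℂ)) : PowerSeries ℂ :=
  PowerSeries.map (Polynomial.evalRingHom (1 : ℂ)) f

/-- power series with coefficients given by a double array -/
noncomputable def Pa (a : ℕ → ℕ → ℂ) : PowerSeries (Polynomial ℂ) :=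
  PowerSeries.mk fun m => ∑ l ∈ Finset.range (m + 1), Polynomial.C (a m l) * Polynomial.X ^ l

theorem Th_Pa (a : ℕ → ℕ → ℂ) : Th (Pa a) = Pa (fun m l => (l : ℂ) * a m l) := by
  ext1 m
  rw [coeff_Th, Pa, Pa, PowerSeries.coeff_mk, PowerSeries.coeff_mk, Polynomial.derivative_sum,
    Finset.mul_sum]
  apply Finset.sum_congr rfl
  intro l _
  rw [Polynomial.derivative_C_mul_X_pow]
  cases l with
  | zero => simp
  | succ l =>
    rw [Nat.add_sub_cancel, pow_succ, Polynomial.C_mul, Polynomial.C_mul]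
    ring

theorem Ev_Pa (a : ℕ → ℕ → ℂ) (m : ℕ) :
    PowerSeries.coeff m (Ev (Pa a)) = ∑ l ∈ Finset.range (m + 1), a m l := by
  rw [Ev, PowerSeries.coeff_map, Pa, PowerSeries.coeff_mk, Polynomial.coe_evalRingHom,
    Polynomial.eval_finsetSum]
  apply Finset.sum_congr rfl
  intro l _
  simp

/-- uniqueness for `D Z = s K Z` -/
theorem eq_zero_of_ode {K Z : PowerSeries ℂ} (hK : PowerSeries.coeff 0 K = 0)
    (hZ0 : PowerSeries.coeff 0 Z = 0) {s : ℂ} (h : Dt Z = PowerSeries.C s * (K * Z)) : Z = 0 := by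
  ext n
  rw [map_zero]
  induction n using Nat.strong_induction_on with
  | _ n ih =>
    rcases Nat.eq_zero_or_pos n with h0 | hpos
    · rw [h0]; exact hZ0
    · have h1 := congrArg (PowerSeries.coeff n) h
      rw [coeff_Dt, PowerSeries.coeff_C_mul, PowerSeries.coeff_mul] at h1
      have h2 : ∑ p ∈ Finset.HasAntidiagonal.antidiagonal n,
          PowerSeries.coeff p.1 K * PowerSeries.coeff p.2 Z = 0 := by
        apply Finset.sum_eq_zero
        intro p hp
        rw [Finset.HasAntidiagonal.mem_antidiagonal] at hp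
        rcases Nat.eq_zero_or_pos p.1 with h3 | h3
        · rw [h3, hK, zero_mul]
        · rw [ih p.2 (by omega), mul_zero]
      rw [h2, mul_zero] at h1
      have h3 : (n : ℂ) ≠ 0 := by
        exact_mod_cast hpos.ne'
      exact (mul_eq_zero.mp h1).resolve_left h3

/-- the formal computation -/
theorem formal_id {K g p e1 e2 p1 p2 : PowerSeries ℂ} {s : ℂ}
    (hK : PowerSeries.coeff 0 K = 0) (he0 : PowerSeries.coeff 0 e2 = 0)
    (hp0 : PowerSeries.coeff 0 p = 1)
    (hg : Dt g = PowerSeries.C s * (K * g)) (hp : Dt p = K * p)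
    (h1 : e1 = PowerSeries.C (1 / 2) * Dt g)
    (hp1 : p1 = PowerSeries.C (1 / 2) * Dt p)
    (hp2 : p2 = PowerSeries.C (1 / 3) * Dt (Dt p) - PowerSeries.C (1 / 6) * Dt p)
    (h : Dt e2 * p + 2 * (Dt e1 * p1) + Dt g * p2
      = PowerSeries.C s * (e2 * Dt p + 2 * (e1 * Dt p1) + g * Dt p2)) :
    e2 = PowerSeries.C (1 / 3) * Dt (Dt g) - PowerSeries.C (1 / 6) * Dt g
      + PowerSeries.C (s * (1 - s) / 12) * (K ^ 2 * g) := by
  have hpne : p ≠ 0 := by
    intro hh
    rw [hh, map_zero] at hp0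
    exact zero_ne_one hp0
  rw [← sub_eq_zero]
  have hC : ∀ a b : ℂ, (PowerSeries.C (a * b) : PowerSeries ℂ) = PowerSeries.C a * PowerSeries.C b :=
    fun a b => map_mul _ a b
  apply eq_zero_of_ode (K := K) (s := s) hK
  · rw [map_sub, he0, map_add, map_sub, PowerSeries.coeff_C_mul, PowerSeries.coeff_C_mul,
      PowerSeries.coeff_C_mul, coeff_Dt, coeff_Dt, pow_two, mul_assoc, PowerSeries.coeff_mul]
    simp [hK]
  · apply mul_right_cancel₀ hpne
    -- derivatives
    obtain ⟨c, hc⟩ : ∃ c : PowerSeries ℂ, c = PowerSeries.C s := ⟨_, rfl⟩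
    obtain ⟨u, hu⟩ : ∃ u : PowerSeries ℂ, u = PowerSeries.C (1 / 12 : ℂ) := ⟨_, rfl⟩
    have hu12 : 12 * u = 1 := by
      rw [hu]
      have : (12 : PowerSeries ℂ) = PowerSeries.C (12 : ℂ) := (map_ofNat PowerSeries.C 12).symm
      rw [this, ← map_mul]
      norm_num
    have e2' : (PowerSeries.C (1 / 2 : ℂ) : PowerSeries ℂ) = 6 * u := by
      rw [hu]
      have : (6 : PowerSeries ℂ) = PowerSeries.C (6 : ℂ) := (map_ofNat PowerSeries.C 6).symm
      rw [this, ← map_mul]
      norm_num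
    have e3' : (PowerSeries.C (1 / 3 : ℂ) : PowerSeries ℂ) = 4 * u := by
      rw [hu]
      have : (4 : PowerSeries ℂ) = PowerSeries.C (4 : ℂ) := (map_ofNat PowerSeries.C 4).symm
      rw [this, ← map_mul]
      norm_num
    have e6' : (PowerSeries.C (1 / 6 : ℂ) : PowerSeries ℂ) = 2 * u := by
      rw [hu]
      have : (2 : PowerSeries ℂ) = PowerSeries.C (2 : ℂ) := (map_ofNat PowerSeries.C 2).symm
      rw [this, ← map_mul]
      norm_num
    have e12' : (PowerSeries.C (s * (1 - s) / 12) : PowerSeries ℂ) = c * (1 - c) * u := by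
      rw [hu, hc]
      have : (1 : PowerSeries ℂ) = PowerSeries.C (1 : ℂ) := (map_one PowerSeries.C).symm
      rw [this, ← map_sub, ← map_mul, ← map_mul]
      congr 1
      ring
    have hD2g : Dt (Dt g) = c * (Dt K * g + K * Dt g) := by
      rw [hg, ← hc, hc, Dt_C_mul, Dt_mul, hg]
    have hD3g : Dt (Dt (Dt g)) = c * (Dt (Dt K) * g + 2 * (Dt K * Dt g) + K * Dt (Dt g)) := by
      rw [hD2g, hc, Dt_C_mul, Dt_add, Dt_mul, Dt_mul, ← hc, hD2g]
      ring
    have hD2p : Dt (Dt p) = Dt K * p + K * Dt p := by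
      rw [hp, Dt_mul, hp]
    have hD3p : Dt (Dt (Dt p)) = Dt (Dt K) * p + 2 * (Dt K * Dt p) + K * Dt (Dt p) := by
      rw [hD2p, Dt_add, Dt_mul, Dt_mul, hD2p]
      ring
    rw [Dt_sub, Dt_add, Dt_sub, Dt_C_mul, Dt_C_mul, Dt_C_mul, Dt_mul, pow_two, Dt_mul]
    rw [h1, hp1, hp2, Dt_C_mul, Dt_C_mul, Dt_sub, Dt_C_mul, Dt_C_mul] at h
    rw [e2', e3', e6', ← hc] at h
    rw [e3', e6', e12', ← hc]
    have q1 : 2 * (6 * u * Dt (Dt g) * (6 * u * Dt p)) = 6 * u * (Dt (Dt g) * Dt p) := by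
      linear_combination (6 * u * (Dt (Dt g) * Dt p)) * hu12
    have q2 : 2 * (6 * u * Dt g * (6 * u * Dt (Dt p))) = 6 * u * (Dt g * Dt (Dt p)) := by
      linear_combination (6 * u * (Dt g * Dt (Dt p))) * hu12
    rw [q1, q2, hD3p, hD2g, hD2p, hg, hp, ← hc] at h
    rw [hD3g, hD2g, hg, ← hc]
    linear_combination h

/-- the Taylor series of a function at zero -/
noncomputable def psf (f : ℂ → ℂ) : PowerSeries ℂ := PowerSeries.mk (coeff f)

theorem coeff_psf (f : ℂ → ℂ) (n : ℕ) : PowerSeries.coeff n (psf f) = coeff f n :=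
  PowerSeries.coeff_mk _ _

theorem anAt {f : ℂ → ℂ} (hf : DifferentiableOn ℂ f (ball 0 1)) : AnalyticAt ℂ f 0 :=
  hf.analyticAt (ball_mem_nhds _ one_pos)

theorem psf_mul {f g : ℂ → ℂ} (hf : DifferentiableOn ℂ f (ball 0 1))
    (hg : DifferentiableOn ℂ g (ball 0 1)) : psf (fun z => f z * g z) = psf f * psf g := by
  ext n
  rw [coeff_psf, coeff_mul (anAt hf) (anAt hg), PowerSeries.coeff_mul,
    Finset.Nat.sum_antidiagonal_eq_sum_range_succ_mk]
  apply Finset.sum_congr rfl
  intro k _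
  rw [coeff_psf, coeff_psf]

theorem psf_congr {f g : ℂ → ℂ} (h : ∀ z ∈ ball (0 : ℂ) 1, f z = g z) : psf f = psf g := by
  ext n
  rw [coeff_psf, coeff_psf]
  apply coeff_congr
  filter_upwards [ball_mem_nhds (0 : ℂ) one_pos] with z hz
  exact h z hz

theorem psf_const_mul (c : ℂ) (f : ℂ → ℂ) :
    psf (fun z => c * f z) = PowerSeries.C c * psf f := by
  ext n
  rw [coeff_psf, PowerSeries.coeff_C_mul, coeff_psf, coeff_const_mul]

theorem psf_D {f : ℂ → ℂ} (hf : DifferentiableOn ℂ f (ball 0 1)) :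
    psf (fun z => z * deriv f z) = Dt (psf f) := by
  ext n
  rw [coeff_psf, coeff_Dt, coeff_psf]
  exact coeff_eq_of_hasSum (f := fun z => z * deriv f z) (a := fun n => (n : ℂ) * coeff f n)
    one_pos (fun z hz => hasSum_coeff_deriv hf hz) n

/-- the logarithmic derivative of an exponential -/
theorem psf_exp {f : ℂ → ℂ} (hf : DifferentiableOn ℂ f (ball 0 1)) (s : ℂ) :
    Dt (psf (fun z => Complex.exp (s * f z)))
      = PowerSeries.C s * (psf (fun z => z * deriv f z) * psf (fun z => Complex.exp (s * f z))) := by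
  have h1 : DifferentiableOn ℂ (fun z => Complex.exp (s * f z)) (ball 0 1) :=
    (hf.const_mul s).cexp
  have h2 : DifferentiableOn ℂ (fun z => z * deriv f z) (ball 0 1) :=
    differentiableOn_id.mul (hf.deriv isOpen_ball)
  rw [← psf_D h1, ← psf_mul h2 h1, ← psf_const_mul]
  apply psf_congr
  intro z hz
  have h3 := (hf.differentiableAt (isOpen_ball.mem_nhds hz)).hasDerivAt
  have h4 := ((h3.const_mul s).cexp).deriv
  rw [h4]
  ring

theorem coeff_scale {f : ℂ → ℂ} (hf : DifferentiableOn ℂ f (ball 0 1)) {x : ℂ} (hx : ‖x‖ ≤ 1)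
    (n : ℕ) : coeff (fun w => f (x * w)) n = coeff f n * x ^ n := by
  apply coeff_eq_of_hasSum (f := fun w => f (x * w)) (a := fun n => coeff f n * x ^ n) one_pos
  intro z hz
  have h1 : ‖x * z‖ < 1 := by
    rw [norm_mul]
    have := norm_nonneg z
    nlinarith
  have h2 := hasSum_coeff hf h1
  have e : (fun n => coeff f n * x ^ n * z ^ n) = fun n => coeff f n * (x * z) ^ n := by
    funext n
    rw [mul_pow]
    ring
  rw [e]
  exact h2

theorem mul_mem_ball {x z : ℂ} (hx : ‖x‖ ≤ 1) (hz : z ∈ ball (0 : ℂ) 1) :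
    x * z ∈ ball (0 : ℂ) 1 := by
  rw [mem_ball_zero_iff] at hz ⊢
  rw [norm_mul]
  have := norm_nonneg z
  nlinarith

theorem sep_scale {U : ℂ → ℂ → ℂ} (h : SepHol U) {x : ℂ} (hx : ‖x‖ ≤ 1) :
    SepHol (fun z w => U z (x * w)) where
  cont := by
    have := h.cont.comp (f := fun p : ℂ × ℂ => (p.1, x * p.2)) (s := ball 0 1 ×ˢ ball 0 1)
      (by fun_prop) (fun p hp => ⟨hp.1, mul_mem_ball hx hp.2⟩)
    exact this
  left := fun w hw => h.left _ (mul_mem_ball hx hw)
  right := fun z hz => by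
    have := (h.right z hz).comp (f := fun w => x * w) (s := ball 0 1)
      (by fun_prop) (fun w hw => mul_mem_ball hx hw)
    exact this

theorem coeff_diag_scale {U : ℂ → ℂ → ℂ} (h : SepHol U) {x : ℂ} (hx : ‖x‖ ≤ 1) (m : ℕ) :
    coeff (fun z => U z (x * z)) m = ∑ l ∈ Finset.range (m + 1), diagc U m l * x ^ l := by
  have h1 := (sep_scale h hx).hasSum_diag m
  rw [h1, ← Finset.sum_range_reflect]
  apply Finset.sum_congr rfl
  intro l hl
  rw [Finset.mem_range] at hl
  have e1 : m + 1 - 1 - l = m - l := by omega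
  have e2 : m - (m - l) = l := by omega
  rw [e1, e2]
  unfold diagc dcoeff
  have h2 : coeff (fun z => coeff (fun w => U z (x * w)) l) (m - l)
      = coeff (fun z => x ^ l * coeff (fun w => U z w) l) (m - l) := by
    apply coeff_congr
    filter_upwards [ball_mem_nhds (0 : ℂ) one_pos] with z hz
    rw [coeff_scale (h.right z hz) hx, mul_comm]
  rw [h2, coeff_const_mul, mul_comm]

/-- the coefficients of the two point function -/
noncomputable def qa (β : ℂ → ℂ) (k l : ℕ) : ℂ :=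
  if l = 0 then (if k = 0 then 1 else 0) else (if l < k then -coeff β (k - 1) else 0)

theorem qa_sum (β : ℂ → ℂ) (f : ℕ → ℂ) (k : ℕ) :
    ∑ l ∈ Finset.range (k + 1 + 1), qa β (k + 1) l * f l
      = -coeff β k * ∑ l ∈ Finset.range k, f (l + 1) := by
  rw [Finset.sum_range_succ', Finset.sum_range_succ]
  have e0 : qa β (k + 1) 0 = 0 := by simp [qa]
  have e1 : qa β (k + 1) (k + 1) = 0 := by simp [qa]
  rw [e0, e1, zero_mul, zero_mul, add_zero, add_zero, Finset.mul_sum]
  apply Finset.sum_congr rfl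
  intro l hl
  rw [Finset.mem_range] at hl
  have e2 : qa β (k + 1) (l + 1) = -coeff β k := by
    unfold qa
    rw [if_neg (Nat.succ_ne_zero l), if_pos (by omega), Nat.add_sub_cancel]
  rw [e2]

theorem qa_zero (β : ℂ → ℂ) (f : ℕ → ℂ) :
    ∑ l ∈ Finset.range (0 + 1), qa β 0 l * f l = f 0 := by
  simp [qa]

theorem qq_line {β : ℂ → ℂ} {x : ℂ} (hx1 : x ≠ 1) (z : ℂ) :
    Pool.Agent.Helper39.Area.qq β z (x * z) = 1 - x * z * (β (x * z) - β z) / (x - 1) := by
  unfold Pool.Agent.Helper39.Area.qq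
  by_cases hz : z = 0
  · subst hz; simp
  · have h1 : x - 1 ≠ 0 := sub_ne_zero.mpr hx1
    have h2 : x * z ≠ z := by
      intro h
      apply h1
      have : (x - 1) * z = 0 := by linear_combination h
      exact (mul_eq_zero.mp this).resolve_right hz
    have h3 : x * z - z ≠ 0 := sub_ne_zero.mpr h2
    rw [dslope_of_ne _ h2, slope_def_field]
    have h4 : x * z - z = z * (x - 1) := by ring
    rw [h4]
    field_simp

theorem coeff_qq {β : ℂ → ℂ} (hβ : DifferentiableOn ℂ β (ball 0 1)) {x : ℂ} (hx : ‖x‖ < 1)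
    (m : ℕ) : coeff (fun z => Pool.Agent.Helper39.Area.qq β z (x * z)) m
      = ∑ l ∈ Finset.range (m + 1), qa β m l * x ^ l := by
  have hx1 : x ≠ 1 := by
    rintro rfl
    simp at hx
  have h1 : x - 1 ≠ 0 := sub_ne_zero.mpr hx1
  apply coeff_eq_of_hasSum (f := fun z => Pool.Agent.Helper39.Area.qq β z (x * z))
    (a := fun m => ∑ l ∈ Finset.range (m + 1), qa β m l * x ^ l) one_pos
  intro z hz
  rw [qq_line hx1, ← hasSum_nat_add_iff' 1]
  rw [Finset.sum_range_one, qa_zero, pow_zero, pow_zero, mul_one]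
  have hxz : ‖x * z‖ < 1 := by
    rw [norm_mul]
    have := norm_nonneg z
    nlinarith
  have h2 := ((hasSum_coeff hβ hxz).sub (hasSum_coeff hβ hz)).mul_left (-(x * z) / (x - 1))
  have e1 : 1 - x * z * (β (x * z) - β z) / (x - 1) - 1
      = -(x * z) / (x - 1) * (β (x * z) - β z) := by ring
  rw [e1]
  have e2 : (fun n => (∑ l ∈ Finset.range (n + 1 + 1), qa β (n + 1) l * x ^ l) * z ^ (n + 1))
      = fun n => -(x * z) / (x - 1) * (coeff β n * (x * z) ^ n - coeff β n * z ^ n) := by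
    funext n
    rw [qa_sum]
    have e3 : ∑ l ∈ Finset.range n, x ^ (l + 1) = x * ((x ^ n - 1) / (x - 1)) := by
      rw [← geom_sum_eq hx1, Finset.mul_sum]
      apply Finset.sum_congr rfl
      intro l _
      rw [pow_succ]; ring
    rw [e3, mul_pow]
    field_simp
    ring
  rw [e2]
  exact h2

theorem map_Pa (a : ℕ → ℕ → ℂ) (x : ℂ) (m : ℕ) :
    PowerSeries.coeff m (PowerSeries.map (Polynomial.evalRingHom x) (Pa a))
      = ∑ l ∈ Finset.range (m + 1), a m l * x ^ l := by
  rw [PowerSeries.coeff_map, Pa, PowerSeries.coeff_mk, Polynomial.coe_evalRingHom,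
    Polynomial.eval_finsetSum]
  apply Finset.sum_congr rfl
  intro l _
  simp

section
variable {β H : ℂ → ℂ} {Φ : ℂ → ℂ → ℂ}

theorem line_diff (hE : Ext β) (hΦ : LogPhi β H Φ) {x : ℂ} (hx : ‖x‖ < 1) :
    DifferentiableOn ℂ (fun z => Φ z (x * z)) (ball 0 1) := by
  have hx1 : x ≠ 1 := by
    rintro rfl
    simp at hx
  apply Pool.Agent.Helper22.Marshall.differentiableOn_of_exp isOpen_ball
  · have := hΦ.sep.cont.comp (f := fun z : ℂ => (z, x * z)) (s := ball 0 1)
      (by fun_prop) (fun z hz => ⟨hz, mul_mem_ball hx.le hz⟩)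
    exact this
  · have h1 : DifferentiableOn ℂ (fun z => 1 - x * z * (β (x * z) - β z) / (x - 1))
        (ball 0 1) := by
      have h2 := hE.diff
      have h3 : DifferentiableOn ℂ (fun z => β (x * z)) (ball 0 1) :=
        h2.comp (f := fun z => x * z) (by fun_prop) (fun z hz => mul_mem_ball hx.le hz)
      have h4 : DifferentiableOn ℂ (fun z : ℂ => x * z) (ball 0 1) := by fun_prop
      exact ((h4.mul (h3.sub h2)).div_const _).const_sub _
    apply h1.congr
    intro z hz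
    rw [hΦ.exp_eq z hz _ (mul_mem_ball hx.le hz), qq_line hx1]

theorem map_E (hΦ : LogPhi β H Φ) (s : ℂ) {x : ℂ} (hx : ‖x‖ < 1) :
    PowerSeries.map (Polynomial.evalRingHom x) (Pa (fun m l => diagc (EE Φ s) m l))
      = psf (fun z => Complex.exp (s * Φ z (x * z))) := by
  ext m
  rw [map_Pa, coeff_psf, ← coeff_diag_scale (EE_sep hΦ s) hx.le]
  rfl

theorem map_Q (hE : Ext β) (hΦ : LogPhi β H Φ) {x : ℂ} (hx : ‖x‖ < 1) :
    PowerSeries.map (Polynomial.evalRingHom x) (Pa (qa β))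
      = psf (fun z => Complex.exp (1 * Φ z (x * z))) := by
  ext m
  rw [map_Pa, coeff_psf, ← coeff_qq hE.diff hx]
  apply coeff_congr
  filter_upwards [ball_mem_nhds (0 : ℂ) one_pos] with z hz
  rw [one_mul, hΦ.exp_eq z hz _ (mul_mem_ball hx.le hz)]

theorem poly_ode (hE : Ext β) (hΦ : LogPhi β H Φ) (s : ℂ) :
    Dt (Pa (fun m l => diagc (EE Φ s) m l)) * Pa (qa β)
      = PowerSeries.C (Polynomial.C s) * (Pa (fun m l => diagc (EE Φ s) m l) * Dt (Pa (qa β))) := by
  ext1 n
  apply Polynomial.eq_of_infinite_eval_eq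
  apply Set.Infinite.mono (s := ball (0 : ℂ) 1)
  · intro x hx
    rw [mem_ball_zero_iff] at hx
    show Polynomial.evalRingHom x _ = Polynomial.evalRingHom x _
    rw [← PowerSeries.coeff_map, ← PowerSeries.coeff_map]
    congr 1
    rw [map_mul, map_mul, map_mul, Dt_map, Dt_map, map_E hΦ s hx, map_Q hE hΦ hx,
      psf_exp (line_diff hE hΦ hx), psf_exp (line_diff hE hΦ hx), PowerSeries.map_C,
      Polynomial.coe_evalRingHom, Polynomial.eval_C, map_one]
    ring
  · exact infinite_of_mem_nhds (0 : ℂ) (ball_mem_nhds _ one_pos)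

theorem Ev_Q (hE : Ext β) (hΦ : LogPhi β H Φ) :
    Ev (Pa (qa β)) = psf (fun z => Complex.exp (1 * H z)) := by
  ext m
  rw [Ev_Pa, coeff_psf]
  have h1 : coeff (fun z => Complex.exp (1 * H z)) m = coeff (fun z => 1 - z * (z * deriv β z)) m := by
    apply coeff_congr
    filter_upwards [ball_mem_nhds (0 : ℂ) one_pos] with z hz
    rw [one_mul, ← hΦ.diag z hz, hΦ.exp_eq z hz z hz]
    unfold Pool.Agent.Helper39.Area.qq
    rw [dslope_same]
    ring
  rw [h1]
  symm
  apply coeff_eq_of_hasSum (f := fun z => 1 - z * (z * deriv β z))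
    (a := fun m => ∑ l ∈ Finset.range (m + 1), qa β m l) one_pos
  intro z hz
  rw [← hasSum_nat_add_iff' 1]
  have h0 := qa_zero β (fun _ => 1)
  simp only [mul_one] at h0
  rw [Finset.sum_range_one, h0, pow_zero, mul_one]
  have h2 := (hasSum_coeff_deriv hE.diff hz).mul_left (-z)
  have e1 : 1 - z * (z * deriv β z) - 1 = -z * (z * deriv β z) := by ring
  rw [e1]
  have e2 : (fun n => (∑ l ∈ Finset.range (n + 1 + 1), qa β (n + 1) l) * z ^ (n + 1))
      = fun n : ℕ => -z * ((n : ℂ) * coeff β n * z ^ n) := by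
    funext n
    have h3 := qa_sum β (fun _ => 1) n
    simp only [mul_one, Finset.sum_const, Finset.card_range, nsmul_eq_mul] at h3
    rw [h3, pow_succ]
    ring
  rw [e2]
  exact h2

theorem sum_id (k : ℕ) : ∑ l ∈ Finset.range k, ((l + 1 : ℕ) : ℂ) = (k : ℂ) * (k + 1) / 2 := by
  induction k with
  | zero => simp
  | succ k ih =>
    rw [Finset.sum_range_succ, ih]
    push_cast
    ring

theorem sum_sq (k : ℕ) :
    ∑ l ∈ Finset.range k, ((l + 1 : ℕ) : ℂ) * ((l + 1 : ℕ) : ℂ) = (k : ℂ) * (k + 1) * (2 * k + 1) / 6 := by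
  induction k with
  | zero => simp
  | succ k ih =>
    rw [Finset.sum_range_succ, ih]
    push_cast
    ring

theorem Ev_Q1 (β : ℂ → ℂ) :
    Ev (Th (Pa (qa β))) = PowerSeries.C (1 / 2) * Dt (Ev (Pa (qa β))) := by
  ext m
  rw [Th_Pa, Ev_Pa, PowerSeries.coeff_C_mul, coeff_Dt, Ev_Pa]
  cases m with
  | zero => simp
  | succ m =>
    have h1 := qa_sum β (fun l => (l : ℂ)) m
    have h2 := qa_sum β (fun _ => 1) m
    simp only [mul_one, Finset.sum_const, Finset.card_range, nsmul_eq_mul] at h2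
    rw [sum_id] at h1
    rw [h2]
    have h3 : ∑ l ∈ Finset.range (m + 1 + 1), (l : ℂ) * qa β (m + 1) l
        = ∑ l ∈ Finset.range (m + 1 + 1), qa β (m + 1) l * (l : ℂ) := by
      apply Finset.sum_congr rfl
      intro l _
      ring
    rw [h3, h1]
    push_cast
    ring

theorem Ev_Q2 (β : ℂ → ℂ) :
    Ev (Th (Th (Pa (qa β)))) = PowerSeries.C (1 / 3) * Dt (Dt (Ev (Pa (qa β))))
      - PowerSeries.C (1 / 6) * Dt (Ev (Pa (qa β))) := by
  ext m
  rw [Th_Pa, Th_Pa, Ev_Pa, map_sub, PowerSeries.coeff_C_mul, PowerSeries.coeff_C_mul, coeff_Dt,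
    coeff_Dt, Ev_Pa]
  cases m with
  | zero => simp
  | succ m =>
    have h1 := qa_sum β (fun l => (l : ℂ) * (l : ℂ)) m
    have h2 := qa_sum β (fun _ => 1) m
    simp only [mul_one, Finset.sum_const, Finset.card_range, nsmul_eq_mul] at h2
    rw [sum_sq] at h1
    rw [h2]
    have h3 : ∑ l ∈ Finset.range (m + 1 + 1), (l : ℂ) * ((l : ℂ) * qa β (m + 1) l)
        = ∑ l ∈ Finset.range (m + 1 + 1), qa β (m + 1) l * ((l : ℂ) * (l : ℂ)) := by
      apply Finset.sum_congr rfl
      intro l _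
      ring
    rw [h3, h1]
    push_cast
    ring

theorem jet_id {β H : ℂ → ℂ} {Φ : ℂ → ℂ → ℂ} (hE : Pool.Agent.Helper39.Area.Ext β)
    (hΦ : Pool.Agent.Helper22.Marshall.LogPhi β H Φ) (hH : DifferentiableOn ℂ H (Metric.ball 0 1)) (s : ℂ) (m : ℕ) :
    Ls (diagc (EE Φ s) m) m
      = s * (1 - s) / 2 * Pool.Agent.Helper22.Marshall.coeff (fun z => (z * deriv H z) ^ 2 * Complex.exp (s * H z)) m
        - m * Sk (diagc (EE Φ s) m) m 0 := by
  obtain ⟨E, hEd⟩ : ∃ E, E = Pa (fun m l => diagc (EE Φ s) m l) := ⟨_, rfl⟩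
  obtain ⟨Q, hQd⟩ : ∃ Q, Q = Pa (qa β) := ⟨_, rfl⟩
  have hode := poly_ode hE hΦ s
  rw [← hEd, ← hQd] at hode
  have ht1 := congrArg Th hode
  rw [Th_mul, Th_C_mul, Th_mul, ← Dt_Th, ← Dt_Th] at ht1
  have ht2 := congrArg Th ht1
  rw [Th_add, Th_mul, Th_mul, Th_C_mul, Th_add, Th_mul, Th_mul, ← Dt_Th, ← Dt_Th, ← Dt_Th,
    ← Dt_Th] at ht2
  have hev := congrArg Ev ht2
  -- the pieces
  obtain ⟨g, hg⟩ : ∃ g, g = psf (fun z => Complex.exp (s * H z)) := ⟨_, rfl⟩
  obtain ⟨K, hK⟩ : ∃ K, K = psf (fun z => z * deriv H z) := ⟨_, rfl⟩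
  have hgE : Ev E = g := by
    ext n
    rw [hEd, Ev_Pa, hg, coeff_psf]
    exact EE_diag hΦ s n
  have hpd := psf_exp hH 1
  rw [← Ev_Q hE hΦ, ← hQd, ← hK, map_one, one_mul] at hpd
  have hgd := psf_exp hH s
  rw [← hg, ← hK] at hgd
  have hE1 : Ev (Th E) = PowerSeries.C (1 / 2) * Dt g := by
    ext n
    rw [PowerSeries.coeff_C_mul, coeff_Dt, hEd, Th_Pa, Ev_Pa, hg, coeff_psf, ← EE_diag hΦ s n]
    have h1 := Sk_one (diagc (EE Φ s) n) n (EE_symm hΦ s n)
    unfold Sk at h1
    simp only [pow_one, pow_zero, one_mul] at h1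
    rw [h1]
    ring
  have hK0 : PowerSeries.coeff 0 K = 0 := by
    rw [hK, coeff_psf, coeff_zero, zero_mul]
  have hE20 : PowerSeries.coeff 0 (Ev (Th (Th E))) = 0 := by
    rw [hEd, Th_Pa, Th_Pa, Ev_Pa]
    simp
  have hp0 : PowerSeries.coeff 0 (Ev Q) = 1 := by
    rw [hQd, Ev_Pa]
    simp [qa]
  have hmul : ∀ a b, Ev (a * b) = Ev a * Ev b := fun a b => map_mul _ a b
  have hadd : ∀ a b, Ev (a + b) = Ev a + Ev b := fun a b => map_add _ a b
  have hD : ∀ a, Ev (Dt a) = Dt (Ev a) := fun a => Dt_map _ a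
  have hC : Ev (PowerSeries.C (Polynomial.C s)) = PowerSeries.C s := by
    rw [Ev, PowerSeries.map_C, Polynomial.coe_evalRingHom, Polynomial.eval_C]
  simp only [hmul, hadd, hD, hC] at hev
  have hfin := formal_id (K := K) (g := g) (p := Ev Q) (e1 := Ev (Th E)) (e2 := Ev (Th (Th E)))
    (p1 := Ev (Th Q)) (p2 := Ev (Th (Th Q))) (s := s) hK0 hE20 hp0 hgd hpd hE1
    (by rw [hQd]; exact Ev_Q1 β) (by rw [hQd]; exact Ev_Q2 β)
    (by rw [← hgE]; linear_combination hev)
  have hc := congrArg (PowerSeries.coeff m) hfin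
  have hK2 : K ^ 2 * g = psf (fun z => (z * deriv H z) ^ 2 * Complex.exp (s * H z)) := by
    have d1 : DifferentiableOn ℂ (fun z => z * deriv H z) (ball 0 1) :=
      differentiableOn_id.mul (hH.deriv isOpen_ball)
    have d2 : DifferentiableOn ℂ (fun z => Complex.exp (s * H z)) (ball 0 1) :=
      (hH.const_mul s).cexp
    have d3 : DifferentiableOn ℂ (fun z => (z * deriv H z) * (z * deriv H z)) (ball 0 1) :=
      d1.mul d1
    rw [pow_two, hK, hg, ← psf_mul d1 d1, ← psf_mul d3 d2]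
    apply psf_congr
    intro z _
    ring
  rw [hK2, map_add, map_sub, PowerSeries.coeff_C_mul, PowerSeries.coeff_C_mul,
    PowerSeries.coeff_C_mul, coeff_Dt, coeff_Dt, coeff_psf, hg, coeff_psf, ← EE_diag hΦ s m,
    hEd, Th_Pa, Th_Pa, Ev_Pa] at hc
  have hS2 : Sk (diagc (EE Φ s) m) m 2
      = ∑ l ∈ Finset.range (m + 1), (l : ℂ) * ((l : ℂ) * diagc (EE Φ s) m l) := by
    unfold Sk
    apply Finset.sum_congr rfl
    intro l _
    ring
  have hS0 : Sk (diagc (EE Φ s) m) m 0 = ∑ l ∈ Finset.range (m + 1), diagc (EE Φ s) m l := by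
    unfold Sk
    apply Finset.sum_congr rfl
    intro l _
    ring
  rw [← hS2, ← hS0] at hc
  unfold Ls
  linear_combination 6 * hc

end

end Pool.Agent.Helper39.HR
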