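import Mathlib
import Pool.Agent.Helper39.HR.Const
import Pool.Agent.Helper39.HR.Jet
import Pool.Agent.Helper39.HR.Bergman

/-!
MP_16b0ee, project HR: the asymptotic comparison of the two diagonal quantities.
-/

set_option autoImplicit false

open Metric
open scoped ComplexConjugate

namespace Pool.Agent.Helper39.HR

open Pool.Agent.Helper22.Half
open Pool.Agent.Helper39.Area (Ext)
open Pool.Agent.Helper22.Marshall (coeff LogPhi)

theorem Sk_dd {β H : ℂ → ℂ} {Φ : ℂ → ℂ → ℂ} (hΦ : LogPhi β H Φ) (s : ℂ) (m : ℕ) :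
    Sk (dd Φ s m) m 0 = coeff (gs H s) m := by
  unfold dd gs
  rw [← EE_diag hΦ s m]
  unfold Sk
  simp

theorem G_zero {β H : ℂ → ℂ} {Φ : ℂ → ℂ → ℂ} (hΦ : LogPhi β H Φ) (s : ℂ) :
    coeff (gs H s) 0 = 1 := by
  rw [← Sk_dd hΦ s 0]
  unfold Sk dd
  simp [EE_zero hΦ s]

theorem B_zero (H : ℂ → ℂ) (s : ℂ) : coeff (Bs H s) 0 = 0 := by
  rw [Pool.Agent.Helper22.Marshall.coeff_zero]
  unfold Bs
  simp

theorem Ls_dd {β H : ℂ → ℂ} {Φ : ℂ → ℂ → ℂ} (hE : Ext β) (hΦ : LogPhi β H Φ)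
    (hH : DifferentiableOn ℂ H (Metric.ball 0 1)) (s : ℂ) (m : ℕ) :
    Ls (dd Φ s m) m = s * (1 - s) / 2 * coeff (Bs H s) m - m * coeff (gs H s) m := by
  rw [← Sk_dd hΦ s m]
  exact jet_id hE hΦ hH s m

theorem weights {b : ℝ} {m : ℕ} (hm : 1 ≤ m) :
    (m : ℝ) * pq (b + 3) m = (b + 2 + m) * pq (b + 3) (m - 1) ∧
    (m : ℝ) * (b + 1 + m) * pq (b + 1) m = (b + 1) * (b + 2) * pq (b + 3) (m - 1) ∧
    (b + 3) * (b + 4) * pq (b + 5) m = (b + 3 + m) * (b + 4 + m) * pq (b + 3) m := by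
  obtain ⟨n, rfl⟩ : ∃ n, m = n + 1 := ⟨m - 1, by omega⟩
  rw [Nat.add_sub_cancel]
  have h1 := pq_shift (b + 1) n
  have h2 := pq_add_one (b + 2) n
  have e1 : b + 1 + 1 = b + 2 := by ring
  have e2 : b + 2 + 1 = b + 3 := by ring
  rw [e1] at h1
  rw [e2] at h2
  refine ⟨?_, ?_, ?_⟩
  · have h3 := pq_succ' (b + 3) n
    push_cast
    linear_combination h3
  · push_cast
    linear_combination (b + 2 + n) * h1 - (b + 1) * h2
  · have h3 := pq_add_one (b + 3) (n + 1)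
    have h4 := pq_add_one (b + 4) (n + 1)
    have e3 : b + 3 + 1 = b + 4 := by ring
    have e4 : b + 4 + 1 = b + 5 := by ring
    rw [e3] at h3
    rw [e4] at h4
    linear_combination (b + 3) * h4 + (b + 4 + ((n + 1 : ℕ) : ℝ)) * h3

/-- comparison of the weights of the first power of `G` -/
theorem w3 {b : ℝ} (hb : 0 < b) {m : ℕ} (hm : 1 ≤ m) (u : ℝ) :
    u / ((b + 2) * pq (b + 3) m) = u / pq (b + 3) (m - 1) * (m / ((b + 2) * (b + 2 + m))) := by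
  have h := (weights (b := b) hm).1
  have hm' : (0 : ℝ) < m := by exact_mod_cast hm
  have p1 := pq_pos (by linarith : 0 < b + 3) m
  have p2 := pq_pos (by linarith : 0 < b + 3) (m - 1)
  rw [div_mul_div_comm, div_eq_div_iff (by positivity) (by positivity)]
  linear_combination (-(u * (b + 2))) * h

theorem w2 {b : ℝ} (hb : 0 < b) {m : ℕ} (hm : 1 ≤ m) (u : ℝ) :
    u / (b * pq (b + 1) m)
      = (m : ℝ) ^ 2 * u / pq (b + 3) (m - 1) * ((1 + (b + 1) / m) / (b * (b + 1) * (b + 2))) := by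
  have h := (weights (b := b) hm).2.1
  have hm' : (0 : ℝ) < m := by exact_mod_cast hm
  have p1 := pq_pos (by linarith : 0 < b + 1) m
  have p2 := pq_pos (by linarith : 0 < b + 3) (m - 1)
  have e : 1 + (b + 1) / (m : ℝ) = (m + (b + 1)) / m := by field_simp
  rw [e, div_div (m + (b + 1) : ℝ), div_mul_div_comm, div_eq_div_iff (by positivity) (by positivity)]
  linear_combination (-(u * m * b)) * h

theorem w1 {b : ℝ} (hb : 0 < b) {m : ℕ} (hm : 1 ≤ m) {u : ℝ} (hu : 0 ≤ u) :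
    u / ((b + 4) * pq (b + 5) m) ≤ (b + 3) * (u / ((m : ℝ) ^ 2 * pq (b + 3) (m - 1))) := by
  obtain ⟨h1, -, h3⟩ := weights (b := b) hm
  have hm' : (0 : ℝ) < m := by exact_mod_cast hm
  have p1 := pq_pos (by linarith : 0 < b + 5) m
  have p2 := pq_pos (by linarith : 0 < b + 3) (m - 1)
  have p3 := pq_pos (by linarith : 0 < b + 3) m
  have h4 : pq (b + 3) (m - 1) ≤ pq (b + 3) m := by
    refine le_of_mul_le_mul_left ?_ hm'
    rw [h1]
    nlinarith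
  rw [← mul_div_assoc, div_le_div_iff₀ (by positivity) (by positivity)]
  have h5 : (m : ℝ) ^ 2 * pq (b + 3) (m - 1) ≤ (b + 3) * ((b + 4) * pq (b + 5) m) := by
    rw [← mul_assoc, h3]
    have h6 : (m : ℝ) ^ 2 ≤ (b + 3 + m) * (b + 4 + m) := by nlinarith
    exact mul_le_mul h6 h4 p2.le (by positivity)
  calc u * ((m : ℝ) ^ 2 * pq (b + 3) (m - 1)) ≤ u * ((b + 3) * ((b + 4) * pq (b + 5) m)) :=
        mul_le_mul_of_nonneg_left h5 hu
    _ = _ := by ring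

theorem w1' {b : ℝ} (hb : 0 < b) (hb1 : b ≤ 1) {m : ℕ} (hm : 1 ≤ m) {u : ℝ} (hu : 0 ≤ u) :
    u / ((m : ℝ) ^ 2 * pq (b + 3) (m - 1)) ≤ 40 * (u / ((b + 4) * pq (b + 5) m)) := by
  obtain ⟨h1, -, h3⟩ := weights (b := b) hm
  have hm' : (1 : ℝ) ≤ m := by exact_mod_cast hm
  have p1 := pq_pos (by linarith : 0 < b + 5) m
  have p2 := pq_pos (by linarith : 0 < b + 3) (m - 1)
  have p3 := pq_pos (by linarith : 0 < b + 3) m
  have hm0 : (0 : ℝ) < m := by linarith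
  have h4 : pq (b + 3) m ≤ 4 * pq (b + 3) (m - 1) := by
    refine le_of_mul_le_mul_left ?_ hm0
    rw [h1]
    nlinarith
  rw [← mul_div_assoc, div_le_div_iff₀ (by positivity) (by positivity)]
  have h5 : (b + 3) * ((b + 4) * pq (b + 5) m) ≤ 120 * ((m : ℝ) ^ 2 * pq (b + 3) (m - 1)) := by
    rw [← mul_assoc, h3]
    have h6 : (b + 3 + m) * (b + 4 + m) ≤ 30 * (m : ℝ) ^ 2 := by
      have a1 : b + 3 + m ≤ 5 * m := by linarith
      have a2 : b + 4 + m ≤ 6 * m := by linarith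
      calc (b + 3 + m) * (b + 4 + m) ≤ (5 * m) * (6 * m) :=
            mul_le_mul a1 a2 (by positivity) (by positivity)
        _ = _ := by ring
    calc (b + 3 + m) * (b + 4 + m) * pq (b + 3) m
        ≤ (30 * (m : ℝ) ^ 2) * (4 * pq (b + 3) (m - 1)) := mul_le_mul h6 h4 p3.le (by positivity)
      _ = _ := by ring
  have h7 : (b + 4) * pq (b + 5) m ≤ 40 * ((m : ℝ) ^ 2 * pq (b + 3) (m - 1)) := by
    have : 0 < (b + 4) * pq (b + 5) m := by positivity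
    nlinarith
  calc u * ((b + 4) * pq (b + 5) m) ≤ u * (40 * ((m : ℝ) ^ 2 * pq (b + 3) (m - 1))) :=
        mul_le_mul_of_nonneg_left h7 hu
    _ = _ := by ring

section seqs
variable {β H : ℂ → ℂ} {Φ : ℂ → ℂ → ℂ} {s : ℂ}

/-- the first diagonal quantity without the constant -/
noncomputable def Xp (H : ℂ → ℂ) (s : ℂ) (t : ℝ) (m : ℕ) : ℝ :=
  (m : ℝ) ^ 2 * ‖coeff (gs H s) m‖ ^ 2 * t ^ m / pq (bb s + 3) (m - 1)

/-- the same for `B` -/
noncomputable def Bp (H : ℂ → ℂ) (s : ℂ) (t : ℝ) (m : ℕ) : ℝ :=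
  ‖coeff (Bs H s) m‖ ^ 2 * t ^ m / ((m : ℝ) ^ 2 * pq (bb s + 3) (m - 1))

theorem Xp_nonneg {t : ℝ} (ht : 0 ≤ t) (m : ℕ) : 0 ≤ Xp H s t m := by
  have := pq_pos (by linarith [bb_nonneg s] : 0 < bb s + 3) (m - 1)
  unfold Xp
  positivity

theorem Bp_nonneg {t : ℝ} (ht : 0 ≤ t) (m : ℕ) : 0 ≤ Bp H s t m := by
  have := pq_pos (by linarith [bb_nonneg s] : 0 < bb s + 3) (m - 1)
  unfold Bp
  positivity

theorem Xp_zero {t : ℝ} : Xp H s t 0 = 0 := by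
  unfold Xp
  simp

theorem Bp_zero {t : ℝ} : Bp H s t 0 = 0 := by
  unfold Bp
  simp

theorem Xs_eq (hΦ : LogPhi β H Φ) {t : ℝ} (m : ℕ) :
    t ^ m * Xs Φ s m = Xp H s t m / (4 * KK s) := by
  unfold Xs Xm Xp
  rw [Sk_dd hΦ, div_div, mul_comm (pq (bb s + 3) (m - 1)) (4 * KK s)]
  ring

theorem Xs_nonneg (hs : ‖s‖ < 1 / 2) (m : ℕ) : 0 ≤ Xs Φ s m := by
  have h1 := pq_pos (by linarith [bb_nonneg s] : 0 < bb s + 3) (m - 1)
  have h2 := KK_pos hs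
  unfold Xs Xm
  positivity

theorem Ys_eq (hE : Ext β) (hΦ : LogPhi β H Φ) (hH : DifferentiableOn ℂ H (Metric.ball 0 1))
    {t : ℝ} (m : ℕ) :
    t ^ m * Ys Φ s m
      = ‖s * (1 - s) / 2 * coeff (Bs H s) m - m * coeff (gs H s) m‖ ^ 2 * t ^ m
        / ((m : ℝ) ^ 2 * pq (bb s + 3) (m - 1)) / (4 * KK s) := by
  unfold Ys Ym
  rw [Ls_dd hE hΦ hH, div_div]
  have e : 4 * (m : ℝ) ^ 2 * KK s * pq (bb s + 3) (m - 1)
      = (m : ℝ) ^ 2 * pq (bb s + 3) (m - 1) * (4 * KK s) := by ring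
  rw [e]
  ring

theorem Ys_nonneg (hs : ‖s‖ < 1 / 2) (m : ℕ) : 0 ≤ Ys Φ s m := by
  have h1 := pq_pos (by linarith [bb_nonneg s] : 0 < bb s + 3) (m - 1)
  have h2 := KK_pos hs
  unfold Ys Ym
  positivity

theorem Xp_summable (hH : DifferentiableOn ℂ H (Metric.ball 0 1)) (hs0 : s ≠ 0)
    (hs : ‖s‖ < 1 / 2) {t : ℝ} (ht0 : 0 ≤ t) (ht1 : t < 1) : Summable (Xp H s t) := by
  have hb := bb_pos hs0
  have hb1 := bb_le hs
  obtain ⟨-, -, h3, -⟩ := bergman_cs hH s hb one_pos ht0 ht1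
  refine Summable.of_nonneg_of_le (fun m => Xp_nonneg ht0 m) ?_ (h3.mul_left 12)
  intro m
  rcases Nat.eq_zero_or_pos m with h0 | hm
  · rw [h0, Xp_zero]
    simp
  · rw [w3 hb hm]
    have hX := Xp_nonneg (H := H) (s := s) ht0 m
    have hm' : (1 : ℝ) ≤ m := by exact_mod_cast hm
    have e : (1 : ℝ) ≤ 12 * (m / ((bb s + 2) * (bb s + 2 + m))) := by
      rw [← mul_div_assoc, one_le_div (by positivity)]
      nlinarith
    change Xp H s t m ≤ 12 * (Xp H s t m * (m / ((bb s + 2) * (bb s + 2 + m))))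
    calc Xp H s t m = Xp H s t m * 1 := (mul_one _).symm
      _ ≤ Xp H s t m * (12 * (m / ((bb s + 2) * (bb s + 2 + m)))) :=
        mul_le_mul_of_nonneg_left e hX
      _ = _ := by ring

theorem Bp_summable (hH : DifferentiableOn ℂ H (Metric.ball 0 1)) (hs0 : s ≠ 0)
    (hs : ‖s‖ < 1 / 2) {t : ℝ} (ht0 : 0 ≤ t) (ht1 : t < 1) : Summable (Bp H s t) := by
  have hb := bb_pos hs0
  have hb1 := bb_le hs
  obtain ⟨h1, -, -, -⟩ := bergman_cs hH s hb one_pos ht0 ht1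
  refine Summable.of_nonneg_of_le (fun m => Bp_nonneg ht0 m) ?_ (h1.mul_left 40)
  intro m
  rcases Nat.eq_zero_or_pos m with h0 | hm
  · rw [h0, Bp_zero, B_zero]
    simp
  · exact w1' hb (by linarith) hm (by positivity)

theorem norm_sub_sq_le (a c : ℂ) : ‖a - c‖ ^ 2 ≤ 2 * (‖a‖ ^ 2 + ‖c‖ ^ 2) := by
  have h1 := norm_sub_le a c
  have h2 := norm_nonneg (a - c)
  nlinarith [sq_nonneg (‖a‖ - ‖c‖)]

theorem norm_sub_sq_ge (a c : ℂ) {η : ℝ} (hη : 0 < η) :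
    (1 - η) * ‖a‖ ^ 2 - 1 / η * ‖c‖ ^ 2 ≤ ‖a - c‖ ^ 2 := by
  have h1 : |‖a‖ - ‖c‖| ≤ ‖a - c‖ := abs_norm_sub_norm_le a c
  have h2 : (‖a‖ - ‖c‖) ^ 2 ≤ ‖a - c‖ ^ 2 := by
    rw [← sq_abs]
    exact pow_le_pow_left₀ (abs_nonneg _) h1 2
  have h3 : 0 ≤ 1 / η * (η * ‖a‖ - ‖c‖) ^ 2 := by positivity
  have h4 : 1 / η * (η * ‖a‖ - ‖c‖) ^ 2 = η * ‖a‖ ^ 2 - 2 * ‖a‖ * ‖c‖ + 1 / η * ‖c‖ ^ 2 := by
    field_simp
    ring
  nlinarith [sq_nonneg ‖c‖]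

set_option linter.unusedVariables false in
theorem Xs_summable {β H : ℂ → ℂ} {Φ : ℂ → ℂ → ℂ} (hE : Ext β) (hΦ : LogPhi β H Φ)
    (hH : DifferentiableOn ℂ H (Metric.ball 0 1)) {s : ℂ} (hs0 : s ≠ 0) (hs : ‖s‖ < 1 / 2) {t : ℝ}
    (ht0 : 0 ≤ t) (ht1 : t < 1) : Summable fun m => t ^ m * Xs Φ s m := by
  have h := (Xp_summable hH hs0 hs ht0 ht1).div_const (4 * KK s)
  refine h.congr ?_
  intro m
  exact (Xs_eq hΦ m).symm

/-- `m = 0` included, because of the convention `x / 0 = 0` -/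
theorem Yterm_le {t : ℝ} (ht0 : 0 ≤ t) (m : ℕ) :
    ‖s * (1 - s) / 2 * coeff (Bs H s) m - m * coeff (gs H s) m‖ ^ 2 * t ^ m
        / ((m : ℝ) ^ 2 * pq (bb s + 3) (m - 1))
      ≤ 2 * (‖s * (1 - s) / 2‖ ^ 2 * Bp H s t m + Xp H s t m) := by
  have hP := pq_pos (by linarith [bb_nonneg s] : 0 < bb s + 3) (m - 1)
  have hX := Xp_nonneg (H := H) (s := s) ht0 m
  have hB := Bp_nonneg (H := H) (s := s) ht0 m
  rcases Nat.eq_zero_or_pos m with h0 | hm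
  · have : ((m : ℝ) ^ 2 * pq (bb s + 3) (m - 1)) = 0 := by rw [h0]; simp
    rw [this, div_zero]
    positivity
  · have hm' : (1 : ℝ) ≤ m := by exact_mod_cast hm
    rw [div_le_iff₀ (by positivity)]
    have e1 : Bp H s t m * ((m : ℝ) ^ 2 * pq (bb s + 3) (m - 1)) = ‖coeff (Bs H s) m‖ ^ 2 * t ^ m := by
      unfold Bp
      have : (m : ℝ) ^ 2 * pq (bb s + 3) (m - 1) ≠ 0 := by positivity
      rw [div_mul_cancel₀ _ this]
    have e2 : Xp H s t m * ((m : ℝ) ^ 2 * pq (bb s + 3) (m - 1))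
        = (m : ℝ) ^ 2 * ((m : ℝ) ^ 2 * ‖coeff (gs H s) m‖ ^ 2 * t ^ m) := by
      unfold Xp
      field_simp
    have h1 := norm_sub_sq_le (s * (1 - s) / 2 * coeff (Bs H s) m) (m * coeff (gs H s) m)
    rw [norm_mul (s * (1 - s) / 2), norm_mul (m : ℂ), Complex.norm_natCast, mul_pow, mul_pow] at h1
    have ht : 0 ≤ t ^ m := pow_nonneg ht0 m
    have h2 := mul_le_mul_of_nonneg_right h1 ht
    have h3 : (m : ℝ) ^ 2 * ‖coeff (gs H s) m‖ ^ 2 * t ^ m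
        ≤ (m : ℝ) ^ 2 * ((m : ℝ) ^ 2 * ‖coeff (gs H s) m‖ ^ 2 * t ^ m) := by
      have h4 : 0 ≤ (m : ℝ) ^ 2 * ‖coeff (gs H s) m‖ ^ 2 * t ^ m := by positivity
      have h5 : (1 : ℝ) ≤ (m : ℝ) ^ 2 := one_le_pow₀ hm'
      exact le_mul_of_one_le_left h4 h5
    linear_combination h2 + 2 * h3 + (-2 * ‖s * (1 - s) / 2‖ ^ 2) * e1 - 2 * e2

theorem Ys_summable {β H : ℂ → ℂ} {Φ : ℂ → ℂ → ℂ} (hE : Ext β) (hΦ : LogPhi β H Φ)
    (hH : DifferentiableOn ℂ H (Metric.ball 0 1)) {s : ℂ} (hs0 : s ≠ 0) (hs : ‖s‖ < 1 / 2) {t : ℝ}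
    (ht0 : 0 ≤ t) (ht1 : t < 1) : Summable fun m => t ^ m * Ys Φ s m := by
  have h1 := Xp_summable hH hs0 hs ht0 ht1
  have h2 := Bp_summable hH hs0 hs ht0 ht1
  have h3 := (((h2.mul_left (‖s * (1 - s) / 2‖ ^ 2)).add h1).mul_left 2).div_const (4 * KK s)
  have hK := KK_pos hs
  refine Summable.of_nonneg_of_le ?_ ?_ h3
  · intro m
    exact mul_nonneg (pow_nonneg ht0 m) (Ys_nonneg hs m)
  · intro m
    rw [Ys_eq hE hΦ hH]
    exact div_le_div_of_nonneg_right (Yterm_le ht0 m) (by positivity)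

end seqs

/-- the real inequality behind the comparison, for one index -/
theorem core_real {b q η ε u v m κ Y S1 S2 S3 W ρ μ L : ℝ} (hb : 0 < b)
    (hb1 : b ≤ 4 / 9) (hρ : ρ = 9 / 16 * b) (hμ : μ = ρ / (b * (b + 1))) (hq0 : 0 ≤ q)
    (hq1 : q ≤ 9 / 4) (hη0 : 0 < η) (hη1 : η < 1)
    (hκ : κ = 4 / 9 * q * (b + 1) / ((b + 2) * (b + 3)))
    (hL : L = (1 - η) * q * (8 / 9) * (b + 1) / (b + 3)) (hm : 1 ≤ m) (hu : 0 ≤ u)
    (hY : (1 - η) * (ρ * q / 4) * v - 1 / η * (u / m ^ 2) ≤ Y)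
    (hS3 : S3 = u * (m / ((b + 2) * (b + 2 + m))))
    (hS2 : S2 = u * ((1 + (b + 1) / m) / (b * (b + 1) * (b + 2))))
    (hS1 : S1 ≤ (b + 3) * v) (hW : (η * κ + 2 / m + 1 / (η * m ^ 2)) * u ≤ ε * u + W) :
    κ * u ≤ Y + ε * u + W + L * (S3 - ρ / 2 * (μ * S1 + μ⁻¹ * S2)) := by
  have hm0 : 0 < m := by linarith
  have hρ0 : 0 < ρ := by rw [hρ]; positivity
  have hη2 : 0 ≤ 1 - η := by linarith
  have hL0 : 0 ≤ L := by rw [hL]; positivity
  have hL1 : L ≤ 1 := by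
    rw [hL, div_le_one (by positivity)]
    have a1 : (1 - η) * q ≤ 1 * (9 / 4) := mul_le_mul (by linarith) hq1 hq0 (by norm_num)
    calc (1 - η) * q * (8 / 9) * (b + 1) ≤ 1 * (9 / 4) * (8 / 9) * (b + 1) := by gcongr
      _ ≤ b + 3 := by linarith
  have hμ0 : 0 < μ := by rw [hμ]; positivity
  -- the three identities
  have i1 : L * (ρ / 2 * μ * (b + 3)) = (1 - η) * (ρ * q / 4) := by
    rw [hL, hμ, hρ]
    field_simp
    ring
  have i2 : ρ / 2 * μ⁻¹ = b * (b + 1) / 2 := by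
    rw [hμ]
    field_simp
  have i3 : L / (2 * (b + 2)) = (1 - η) * κ := by
    rw [hL, hκ]
    field_simp
    ring
  have j3 : u * (1 / (b + 2) - 1 / m) ≤ S3 := by
    rw [hS3]
    apply mul_le_mul_of_nonneg_left _ hu
    rw [div_sub_div _ _ (by positivity) (by positivity), div_le_div_iff₀ (by positivity) (by positivity)]
    have hc : 0 < (b + 2) ^ 3 := by positivity
    linarith [hc]
  have j2 : ρ / 2 * (μ⁻¹ * S2) = u * ((1 + (b + 1) / m) / (2 * (b + 2))) := by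
    rw [← mul_assoc, i2, hS2]
    field_simp
  have j1 : ρ / 2 * (μ * S1) ≤ ρ / 2 * μ * (b + 3) * v := by
    have := mul_le_mul_of_nonneg_left hS1 (by positivity : 0 ≤ ρ / 2 * μ)
    linarith
  have j4 : u * (1 / (2 * (b + 2)) - 2 / m) - ρ / 2 * μ * (b + 3) * v
      ≤ S3 - ρ / 2 * (μ * S1 + μ⁻¹ * S2) := by
    have e1 : u * (1 / (2 * (b + 2)) - 2 / m)
        ≤ u * (1 / (b + 2) - 1 / m) - u * ((1 + (b + 1) / m) / (2 * (b + 2))) := by
      rw [← mul_sub]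
      apply mul_le_mul_of_nonneg_left _ hu
      have e2 : (1 + (b + 1) / m) / (2 * (b + 2))
          = 1 / (2 * (b + 2)) + (b + 1) / (2 * (b + 2)) * (1 / m) := by
        field_simp
      have e3 : 1 / (b + 2) = 1 / (2 * (b + 2)) + 1 / (2 * (b + 2)) := by
        field_simp
        norm_num
      have e4 : (b + 1) / (2 * (b + 2)) ≤ 1 := by
        rw [div_le_one (by positivity)]
        linarith
      have e5 : (b + 1) / (2 * (b + 2)) * (1 / m) ≤ 1 * (1 / m) :=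
        mul_le_mul_of_nonneg_right e4 (by positivity)
      have e6 : 2 / m = 1 / m + 1 / m := by ring
      rw [e2, e3, e6]
      linarith
    linarith
  have j5 := mul_le_mul_of_nonneg_left j4 hL0
  have j6 : L * (u * (1 / (2 * (b + 2)) - 2 / m) - ρ / 2 * μ * (b + 3) * v)
      = (1 - η) * κ * u - L * (2 / m * u) - (1 - η) * (ρ * q / 4) * v := by
    rw [← i1, ← i3]
    ring
  have j7 : L * (2 / m * u) ≤ 2 / m * u := by
    have : 0 ≤ 2 / m * u := by positivity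
    nlinarith
  have j8 : 1 / η * (u / m ^ 2) = 1 / (η * m ^ 2) * u := by
    field_simp
  rw [j8] at hY
  linarith

theorem coef_big {η ε κ m : ℝ} (hη : η = ε / 2) (hε : 0 < ε) (hκ : κ ≤ 1 / 2)
    (hm : 20 / ε ≤ m) : η * κ + 2 / m + 1 / (η * m ^ 2) ≤ ε := by
  have h0 : 0 < 20 / ε := by positivity
  have hm0 : 0 < m := by linarith
  have h1 : 20 ≤ m * ε := by rwa [div_le_iff₀ hε] at hm
  have a1 : η * κ ≤ ε / 4 := by
    rw [hη]
    nlinarith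
  have a2 : 2 / m ≤ ε / 10 := by
    rw [div_le_iff₀ hm0]
    linarith
  have a3 : 1 / (η * m ^ 2) ≤ ε / 100 := by
    rw [hη, div_le_iff₀ (by positivity)]
    nlinarith
  linarith

theorem coef_small {η ε κ m : ℝ} (hη : η = ε / 2) (hε : 0 < ε) (hε1 : ε ≤ 1) (hκ : κ ≤ 1 / 2)
    (hm : 1 ≤ m) : η * κ + 2 / m + 1 / (η * m ^ 2) ≤ 3 + 2 / ε := by
  have hm0 : 0 < m := by linarith
  have a1 : η * κ ≤ 1 := by
    rw [hη]
    nlinarith
  have a2 : 2 / m ≤ 2 := by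
    rw [div_le_iff₀ hm0]
    linarith
  have a3 : 1 / (η * m ^ 2) ≤ 2 / ε := by
    rw [hη, div_le_div_iff₀ (by positivity) hε]
    have : 1 ≤ m ^ 2 := one_le_pow₀ hm
    nlinarith
  linarith

theorem kc_bounds {s : ℂ} (hs : ‖s‖ < 1 / 2) : 0 ≤ kc s ∧ kc s ≤ 1 / 2 := by
  have hb := bb_nonneg s
  have hb1 := bb_le hs
  have h1 := rho_bounds hs
  have h2 := re_bounds hs
  have hq0 : 0 ≤ 1 - 2 * s.re + ‖s‖ ^ 2 := by nlinarith [h2.1, h2.2]
  have hq1 : 1 - 2 * s.re + ‖s‖ ^ 2 ≤ 9 / 4 := by linarith [h2.1, h1.2]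
  unfold kc
  constructor
  · positivity
  · rw [div_le_iff₀ (by positivity)]
    calc 4 / 9 * (1 - 2 * s.re + ‖s‖ ^ 2) * (bb s + 1) ≤ 4 / 9 * (9 / 4) * (bb s + 1) := by
          gcongr
      _ ≤ 1 / 2 * ((bb s + 2) * (bb s + 3)) := by nlinarith

theorem norm_one_sub_sq (s : ℂ) : ‖1 - s‖ ^ 2 = 1 - 2 * s.re + ‖s‖ ^ 2 := by
  rw [← Complex.normSq_eq_norm_sq, ← Complex.normSq_eq_norm_sq, Complex.normSq_apply,
    Complex.normSq_apply]
  simp only [Complex.sub_re, Complex.sub_im, Complex.one_re, Complex.one_im]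
  ring

theorem term_ineq {ε : ℝ} (hε : 0 < ε) (hε1 : ε ≤ 1) {M : ℕ} (hM : 20 / ε ≤ M) {β H : ℂ → ℂ}
    {Φ : ℂ → ℂ → ℂ} (hE : Ext β) (hΦ : LogPhi β H Φ)
    (hH : DifferentiableOn ℂ H (Metric.ball 0 1)) {s : ℂ} (hs0 : s ≠ 0) (hs : ‖s‖ < 1 / 2)
    {t : ℝ} (ht0 : 0 ≤ t) (ht1 : t < 1) (m : ℕ) :
    kc s * (t ^ m * Xs Φ s m) ≤ t ^ m * Ys Φ s m + ε * (t ^ m * Xs Φ s m)
      + (3 + 2 / ε) * (if m = 0 then 1 else 0)
      + (3 + 2 / ε) * (if m < M then Xs Φ s m else 0)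
      + (1 - ε / 2) * (1 - 2 * s.re + ‖s‖ ^ 2) * (8 / 9) * (bb s + 1) / (bb s + 3) / (4 * KK s)
        * ((m : ℝ) ^ 2 * ‖coeff (gs H s) m‖ ^ 2 * t ^ m / ((bb s + 2) * pq (bb s + 3) m)
          - ‖s‖ ^ 2 / 2 * (‖s‖ ^ 2 / (bb s * (bb s + 1))
              * (‖coeff (Bs H s) m‖ ^ 2 * t ^ m / ((bb s + 4) * pq (bb s + 5) m))
            + (‖s‖ ^ 2 / (bb s * (bb s + 1)))⁻¹
              * (‖coeff (gs H s) m‖ ^ 2 * t ^ m / (bb s * pq (bb s + 1) m)))) := by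
  have hb := bb_pos hs0
  have hb1 := bb_le hs
  have hK := KK_pos hs
  have hkc := kc_bounds hs
  have hrb := rho_bounds hs
  have hre := re_bounds hs
  have hq0 : 0 ≤ 1 - 2 * s.re + ‖s‖ ^ 2 := by nlinarith [hre.1, hre.2]
  have hq1 : 1 - 2 * s.re + ‖s‖ ^ 2 ≤ 9 / 4 := by linarith [hre.1, hrb.2]
  have hρ : ‖s‖ ^ 2 = 9 / 16 * bb s := by unfold bb; ring
  have hρ0 : 0 < ‖s‖ ^ 2 := by rw [hρ]; positivity
  have hK4 : 0 < 4 * KK s := by linarith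
  have hη2 : 0 ≤ 1 - ε / 2 := by linarith
  rcases Nat.eq_zero_or_pos m with h0 | hm
  · -- the index 0
    subst h0
    have x0 : t ^ 0 * Xs Φ s 0 = 0 := by rw [Xs_eq hΦ, Xp_zero, zero_div]
    rw [x0, B_zero, G_zero hΦ, if_pos rfl]
    have y0 : 0 ≤ t ^ 0 * Ys Φ s 0 := mul_nonneg (pow_nonneg ht0 0) (Ys_nonneg hs 0)
    have z0 : 0 ≤ (3 + 2 / ε) * (if 0 < M then Xs Φ s 0 else 0) := by
      have : 0 ≤ (if 0 < M then Xs Φ s 0 else 0) := by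
        split_ifs
        · exact Xs_nonneg hs 0
        · exact le_rfl
      positivity
    have hL1 : (1 - ε / 2) * (1 - 2 * s.re + ‖s‖ ^ 2) * (8 / 9) * (bb s + 1) / (bb s + 3)
        / (4 * KK s) ≤ 1 := by
      rw [div_le_one hK4, div_le_iff₀ (by positivity)]
      have a1 : (1 - ε / 2) * (1 - 2 * s.re + ‖s‖ ^ 2) ≤ 1 * (9 / 4) :=
        mul_le_mul (by linarith) hq1 hq0 (by norm_num)
      calc (1 - ε / 2) * (1 - 2 * s.re + ‖s‖ ^ 2) * (8 / 9) * (bb s + 1)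
          ≤ 1 * (9 / 4) * (8 / 9) * (bb s + 1) := by gcongr
        _ ≤ 4 * (bb s + 3) := by linarith
        _ ≤ 4 * KK s * (bb s + 3) := by nlinarith
    have hL0 : 0 ≤ (1 - ε / 2) * (1 - 2 * s.re + ‖s‖ ^ 2) * (8 / 9) * (bb s + 1) / (bb s + 3)
        / (4 * KK s) := by positivity
    generalize (1 - ε / 2) * (1 - 2 * s.re + ‖s‖ ^ 2) * (8 / 9) * (bb s + 1) / (bb s + 3)
        / (4 * KK s) = L at hL1 hL0
    have e1 : ‖s‖ ^ 2 / 2 * ((‖s‖ ^ 2 / (bb s * (bb s + 1)))⁻¹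
        * (‖(1 : ℂ)‖ ^ 2 * t ^ 0 / (bb s * pq (bb s + 1) 0))) = (bb s + 1) / 2 := by
      rw [norm_one, pow_zero, pq_zero]
      field_simp
    have e2 : ‖s‖ ^ 2 / 2 * (‖s‖ ^ 2 / (bb s * (bb s + 1))
              * (‖(0 : ℂ)‖ ^ 2 * t ^ 0 / ((bb s + 4) * pq (bb s + 5) 0))) = 0 := by
      rw [norm_zero]
      ring
    have e3 : ((0 : ℕ) : ℝ) ^ 2 * ‖(1 : ℂ)‖ ^ 2 * t ^ 0 / ((bb s + 2) * pq (bb s + 3) 0) = 0 := by
      simp
    rw [mul_add (‖s‖ ^ 2 / 2), e1, e2, e3]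
    have e4 : L * (0 - (0 + (bb s + 1) / 2)) ≥ -1 := by nlinarith
    have e5 : 0 ≤ 2 / ε := by positivity
    nlinarith
  · -- positive indices
    have hm' : (1 : ℝ) ≤ m := by exact_mod_cast hm
    have hm0 : (0 : ℝ) < m := by linarith
    have hX := Xp_nonneg (H := H) (s := s) ht0 m
    have hP := pq_pos (by linarith [bb_nonneg s] : 0 < bb s + 3) (m - 1)
    rw [if_neg (by omega), Xs_eq hΦ, Ys_eq hE hΦ hH]
    have hS1 : ‖coeff (Bs H s) m‖ ^ 2 * t ^ m / ((bb s + 4) * pq (bb s + 5) m)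
        ≤ (bb s + 3) * Bp H s t m := w1 hb hm (by positivity)
    have hS3 : (m : ℝ) ^ 2 * ‖coeff (gs H s) m‖ ^ 2 * t ^ m / ((bb s + 2) * pq (bb s + 3) m)
        = Xp H s t m * (m / ((bb s + 2) * (bb s + 2 + m))) := w3 hb hm _
    have hS2 : ‖coeff (gs H s) m‖ ^ 2 * t ^ m / (bb s * pq (bb s + 1) m)
        = Xp H s t m * ((1 + (bb s + 1) / m) / (bb s * (bb s + 1) * (bb s + 2))) := by
      rw [w2 hb hm, ← mul_assoc]
      rfl
    have hY : (1 - ε / 2) * (‖s‖ ^ 2 * (1 - 2 * s.re + ‖s‖ ^ 2) / 4) * Bp H s t m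
          - 1 / (ε / 2) * (Xp H s t m / (m : ℝ) ^ 2)
        ≤ ‖s * (1 - s) / 2 * coeff (Bs H s) m - m * coeff (gs H s) m‖ ^ 2 * t ^ m
          / ((m : ℝ) ^ 2 * pq (bb s + 3) (m - 1)) := by
      have h1 := norm_sub_sq_ge (s * (1 - s) / 2 * coeff (Bs H s) m) (m * coeff (gs H s) m)
        (by positivity : 0 < ε / 2)
      have e1 : ‖s * (1 - s) / 2 * coeff (Bs H s) m‖ ^ 2
          = ‖s‖ ^ 2 * (1 - 2 * s.re + ‖s‖ ^ 2) / 4 * ‖coeff (Bs H s) m‖ ^ 2 := by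
        rw [norm_mul, norm_div, norm_mul, ← norm_one_sub_sq, Complex.norm_two]
        ring
      have e2 : ‖(m : ℂ) * coeff (gs H s) m‖ ^ 2 = (m : ℝ) ^ 2 * ‖coeff (gs H s) m‖ ^ 2 := by
        rw [norm_mul, Complex.norm_natCast, mul_pow]
      rw [e1, e2] at h1
      rw [le_div_iff₀ (by positivity)]
      have f1 : Bp H s t m * ((m : ℝ) ^ 2 * pq (bb s + 3) (m - 1))
          = ‖coeff (Bs H s) m‖ ^ 2 * t ^ m := by
        unfold Bp
        have : (m : ℝ) ^ 2 * pq (bb s + 3) (m - 1) ≠ 0 := by positivity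
        rw [div_mul_cancel₀ _ this]
      have f2 : Xp H s t m / (m : ℝ) ^ 2 * ((m : ℝ) ^ 2 * pq (bb s + 3) (m - 1))
          = (m : ℝ) ^ 2 * ‖coeff (gs H s) m‖ ^ 2 * t ^ m := by
        unfold Xp
        field_simp
      have ht : 0 ≤ t ^ m := pow_nonneg ht0 m
      have h2 := mul_le_mul_of_nonneg_right h1 ht
      linear_combination h2 + (1 - ε / 2) * (‖s‖ ^ 2 * (1 - 2 * s.re + ‖s‖ ^ 2) / 4) * f1
        - 1 / (ε / 2) * f2
    have hWx : Xp H s t m ≤ 4 * KK s * Xs Φ s m := by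
      have h1 := Xs_eq hΦ (s := s) (t := t) m
      have h2 : Xp H s t m = 4 * KK s * (t ^ m * Xs Φ s m) := by
        rw [h1]
        field_simp
      rw [h2]
      have h3 : t ^ m * Xs Φ s m ≤ Xs Φ s m :=
        mul_le_of_le_one_left (Xs_nonneg hs m) (pow_le_one₀ ht0 ht1.le)
      exact mul_le_mul_of_nonneg_left h3 hK4.le
    have hW : (ε / 2 * kc s + 2 / m + 1 / (ε / 2 * (m : ℝ) ^ 2)) * Xp H s t m
        ≤ ε * Xp H s t m + 4 * KK s * ((3 + 2 / ε) * (if m < M then Xs Φ s m else 0)) := by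
      split_ifs with hlt
      · have h1 := coef_small (η := ε / 2) (ε := ε) (κ := kc s) (m := (m : ℝ)) rfl hε hε1 hkc.2 hm'
        have h2 := mul_le_mul_of_nonneg_right h1 hX
        have h3 : 0 ≤ ε * Xp H s t m := by positivity
        have h4 := mul_le_mul_of_nonneg_left hWx (by positivity : 0 ≤ 3 + 2 / ε)
        linarith
      · have hMm : (M : ℝ) ≤ m := by exact_mod_cast (not_lt.mp hlt)
        have h1 := coef_big (η := ε / 2) (ε := ε) (κ := kc s) (m := (m : ℝ)) rfl hε hkc.2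
          (hM.trans hMm)
        have h2 := mul_le_mul_of_nonneg_right h1 hX
        linarith
    have key := core_real (b := bb s) (q := 1 - 2 * s.re + ‖s‖ ^ 2) (η := ε / 2) (ε := ε)
      (u := Xp H s t m) (v := Bp H s t m) (m := (m : ℝ)) (κ := kc s) hb hb1 hρ rfl hq0 hq1
      (by positivity) (by linarith) rfl rfl hm' hX hY hS3 hS2 hS1 hW
    have key2 := div_le_div_of_nonneg_right key hK4.le
    have e : ∀ a c d e f : ℝ, (a + c + 4 * KK s * d + e * f) / (4 * KK s)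
        = a / (4 * KK s) + c / (4 * KK s) + d + e / (4 * KK s) * f := by
      intro a c d e f
      field_simp
    rw [e] at key2
    rw [mul_zero, add_zero, ← mul_div_assoc, ← mul_div_assoc]
    exact key2

theorem asym {ε : ℝ} (hε : 0 < ε) (hε1 : ε ≤ 1) : ∃ (M : ℕ) (C : ℝ), 0 ≤ C ∧
    ∀ (β H : ℂ → ℂ) (Φ : ℂ → ℂ → ℂ), Ext β → LogPhi β H Φ →
    DifferentiableOn ℂ H (Metric.ball 0 1) → ∀ s : ℂ, s ≠ 0 → ‖s‖ < 1 / 2 → ∀ t : ℝ, 0 ≤ t →
    t < 1 →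
    kc s * ∑' m, t ^ m * Xs Φ s m ≤ ∑' m, t ^ m * Ys Φ s m + ε * ∑' m, t ^ m * Xs Φ s m
      + C * (1 + ∑ m ∈ Finset.range M, Xs Φ s m) := by
  obtain ⟨M, hM⟩ := exists_nat_ge (20 / ε)
  refine ⟨M, 3 + 2 / ε, by positivity, ?_⟩
  intro β H Φ hE hΦ hH s hs0 hs t ht0 ht1
  have hb := bb_pos hs0
  have hb1 := bb_le hs
  have hK := KK_pos hs
  have hre := re_bounds hs
  have hrb := rho_bounds hs
  have hq0 : 0 ≤ 1 - 2 * s.re + ‖s‖ ^ 2 := by nlinarith [hre.1, hre.2]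
  have hρ : ‖s‖ ^ 2 = 9 / 16 * bb s := by unfold bb; ring
  have hρ0 : 0 < ‖s‖ ^ 2 := by rw [hρ]; positivity
  have hμ : 0 < ‖s‖ ^ 2 / (bb s * (bb s + 1)) := by positivity
  obtain ⟨h1, h2, h3, h4⟩ := bergman_cs hH s hb hμ ht0 ht1
  have hx := Xs_summable hE hΦ hH hs0 hs ht0 ht1
  have hy := Ys_summable hE hΦ hH hs0 hs ht0 ht1
  have hη2 : 0 ≤ 1 - ε / 2 := by linarith
  have hL0 : 0 ≤ (1 - ε / 2) * (1 - 2 * s.re + ‖s‖ ^ 2) * (8 / 9) * (bb s + 1) / (bb s + 3)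
        / (4 * KK s) := by positivity
  have q1 : HasSum (fun m : ℕ => if m = 0 then (1 : ℝ) else 0) 1 := hasSum_ite_eq 0 1
  have q2 : HasSum (fun m : ℕ => if m < M then Xs Φ s m else 0)
      (∑ m ∈ Finset.range M, Xs Φ s m) := by
    have e : ∑ m ∈ Finset.range M, Xs Φ s m
        = ∑ m ∈ Finset.range M, (if m < M then Xs Φ s m else 0) := by
      apply Finset.sum_congr rfl
      intro m hm
      rw [if_pos (Finset.mem_range.mp hm)]
    rw [e]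
    apply hasSum_sum_of_ne_finset_zero
    intro m hm
    rw [Finset.mem_range] at hm
    rw [if_neg hm]
  have hR := ((((hy.hasSum.add (hx.hasSum.mul_left ε)).add (q1.mul_left (3 + 2 / ε))).add
    (q2.mul_left (3 + 2 / ε))).add ((h3.hasSum.sub (((h1.hasSum.mul_left
      (‖s‖ ^ 2 / (bb s * (bb s + 1)))).add (h2.hasSum.mul_left
      (‖s‖ ^ 2 / (bb s * (bb s + 1)))⁻¹)).mul_left (‖s‖ ^ 2 / 2))).mul_left
      ((1 - ε / 2) * (1 - 2 * s.re + ‖s‖ ^ 2) * (8 / 9) * (bb s + 1) / (bb s + 3)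
        / (4 * KK s))))
  have hL := hx.hasSum.mul_left (kc s)
  have hle := hasSum_le (fun m => term_ineq hε hε1 hM hE hΦ hH hs0 hs ht0 ht1 m) hL hR
  refine hle.trans ?_
  have h5 := mul_nonneg hL0 (sub_nonneg.mpr h4)
  nlinarith [h5]

end Pool.Agent.Helper39.HR
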