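import Mathlib
import Pool.Agent.Helper39.HR.Const
import Pool.Agent.Helper22.Half.FamExt

/-!
MP_16b0ee, project HR: from the bound of the diagonal sums to exponential square integrability with
every exponent below `5 / 9`.
-/

set_option autoImplicit false

open MeasureTheory Set Metric Filter Topology
open scoped ENNReal NNReal Real ComplexConjugate

namespace Pool.Agent.Helper39.HR

open Pool.Agent.Helper22.Half
open Pool.Agent.Helper39.Area (Ext phi toDisc)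
open Pool.Agent.Helper22.Marshall (coeff SepHol LogPhi dcoeff GLe coeff_congr parseval_comb
  exists_logPhi gLe_one gauss_average)

/-- The bound of the sums of the diagonal quantities. -/
def XBound : Prop :=
  ∃ C : ℝ, 0 ≤ C ∧ ∀ (β H : ℂ → ℂ) (Φ : ℂ → ℂ → ℂ), Ext β → LogPhi β H Φ →
    DifferentiableOn ℂ H (ball 0 1) → ∀ s : ℂ, s ≠ 0 → ‖s‖ < 1 / 2 → ∀ M : ℕ,
      ∑ m ∈ Finset.range M, Xs Φ s m ≤ C

theorem Bq_le_two {r ρ : ℝ} (hr : -(1 / 2) ≤ r) (hr1 : r ≤ 1 / 2) (hρ0 : 0 ≤ ρ)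
    (hρ1 : ρ ≤ 1 / 4) : Bq r ρ ≤ 2 := by
  unfold Bq
  have a1 : ρ / (2 * (2 + 2 * r)) ≤ 1 / 8 := by
    rw [div_le_iff₀ (by linarith)]; linarith
  have a2 : ρ / (2 * (2 - 2 * r)) ≤ 1 / 8 := by
    rw [div_le_iff₀ (by linarith)]; linarith
  have a5 : ρ / (3 * (3 + 2 * r)) ≤ 1 / 24 := by
    rw [div_le_iff₀ (by linarith)]; linarith
  have a6 : ρ / (3 * (3 - 2 * r)) ≤ 1 / 24 := by
    rw [div_le_iff₀ (by linarith)]; linarith
  have a1' : 0 ≤ ρ / (2 * (2 + 2 * r)) := by apply div_nonneg hρ0; linarith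
  have a2' : 0 ≤ ρ / (2 * (2 - 2 * r)) := by apply div_nonneg hρ0; linarith
  have a5' : 0 ≤ ρ / (3 * (3 + 2 * r)) := by apply div_nonneg hρ0; linarith
  have a6' : 0 ≤ ρ / (3 * (3 - 2 * r)) := by apply div_nonneg hρ0; linarith
  have a3 : Real.exp (7 * ρ / 12) ≤ 48 / 41 := by
    refine (Real.exp_le_exp.mpr (by linarith : 7 * ρ / 12 ≤ 7 / 48)).trans ?_
    have h := Real.add_one_le_exp (-(7 / 48) : ℝ)
    have h2 : Real.exp (7 / 48) * Real.exp (-(7 / 48)) = 1 := by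
      rw [← Real.exp_add, add_neg_cancel, Real.exp_zero]
    have h4 : Real.exp (7 / 48) * (41 / 48) ≤ 1 := by
      rw [← h2]
      apply mul_le_mul_of_nonneg_left _ (Real.exp_pos _).le
      linarith
    linarith
  have a4 := Real.exp_pos (7 * ρ / 12)
  calc (1 + ρ / (2 * (2 + 2 * r))) * (1 + ρ / (2 * (2 - 2 * r))) * (1 + ρ / (3 * (3 + 2 * r)))
        * (1 + ρ / (3 * (3 - 2 * r))) * Real.exp (7 * ρ / 12)
      ≤ (1 + 1 / 8) * (1 + 1 / 8) * (1 + 1 / 24) * (1 + 1 / 24) * (48 / 41) := by gcongr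
    _ ≤ 2 := by norm_num

theorem KK_le_two {s : ℂ} (hs : ‖s‖ < 1 / 2) : KK s ≤ 2 := by
  have hre2 := re_bounds hs
  have hρ := rho_bounds hs
  unfold KK Ks
  apply ciSup_le
  intro n
  refine (kap_le_Bq (by nlinarith [hre2.1, hre2.2]) (sq_nonneg _) n).trans ?_
  exact Bq_le_two hre2.1.le hre2.2.le (sq_nonneg _) hρ.2

theorem mean9 (hX : XBound) : ∃ C : ℝ, 0 ≤ C ∧ ∀ (β H : ℂ → ℂ) (Φ : ℂ → ℂ → ℂ),
    Ext β → LogPhi β H Φ → DifferentiableOn ℂ H (ball 0 1) → ∀ s : ℂ, ‖s‖ < 1 / 2 →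
    ∀ r : ℝ, 0 ≤ r → r < 1 →
    ∫ θ in (-π)..π, ‖Complex.exp (s * H ((r : ℂ) * Complex.exp ((θ : ℂ) * Complex.I)))‖ ^ 2
      ≤ C * (1 - r ^ 2) ^ (-(bb s)) := by
  obtain ⟨C, hC, hsum⟩ := hX
  refine ⟨2 * π * (1 + 8 * C), by positivity, ?_⟩
  intro β H Φ hE hΦ hH s hs r hr0 hr1
  have hpi := Real.pi_pos
  by_cases hs0 : s = 0
  · subst hs0
    have e1 : bb 0 = 0 := by unfold bb; simp
    simp only [zero_mul, Complex.exp_zero, norm_one, one_pow, e1, neg_zero, Real.rpow_zero, mul_one]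
    rw [intervalIntegral.integral_const, smul_eq_mul, mul_one]
    nlinarith
  have hb := bb_pos hs0
  obtain ⟨b, hbdef⟩ : ∃ b, b = bb s := ⟨_, rfl⟩
  rw [← hbdef] at hb ⊢
  have hK1 := KK_pos hs
  have hK2 := KK_le_two hs
  obtain ⟨x, hx⟩ : ∃ x, x = r ^ 2 := ⟨_, rfl⟩
  have hx0 : 0 ≤ x := by rw [hx]; positivity
  have hx1 : x < 1 := by rw [hx]; nlinarith
  have hfd : DifferentiableOn ℂ (fun z => Complex.exp (s * H z)) (ball 0 1) := (hH.const_mul s).cexp
  have hpar := parseval_comb hfd 0 1 hr0 hr1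
  simp only [zero_mul, zero_add, one_mul] at hpar
  have hone : 1 ≤ (1 - x) ^ (-b) := Real.one_le_rpow_of_pos_of_le_one_of_nonpos (by linarith)
    (by linarith) (by linarith)
  have hXnn : ∀ m : ℕ, 0 ≤ Xs Φ s m := by
    intro m
    unfold Xs Xm
    rw [← hbdef]
    have p2 := pq_nonneg (by linarith : 0 ≤ b + 3) (m - 1)
    have : 0 ≤ KK s := by linarith
    positivity
  have hterm : ∀ m : ℕ, ‖coeff (fun z => Complex.exp (s * H z)) m‖ ^ 2 * r ^ (2 * m)
      ≤ (if m = 0 then 1 else 0) * (1 - x) ^ (-b)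
        + 8 * Xs Φ s m * (1 - x) ^ (-b) := by
    intro m
    have hP := hXnn m
    by_cases hm : m = 0
    · subst hm
      rw [if_pos rfl]
      have hH0 : H 0 = 0 := by
        rw [← hΦ.diag 0 (mem_ball_self one_pos), hΦ.zero_right 0 (mem_ball_self one_pos)]
      have e : ‖coeff (fun z => Complex.exp (s * H z)) 0‖ ^ 2 * r ^ (2 * 0) = 1 := by
        rw [Pool.Agent.Helper22.Marshall.coeff_zero, hH0]
        simp
      rw [e]
      have : 0 ≤ 8 * Xs Φ s 0 * (1 - x) ^ (-b) := by positivity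
      linarith
    · rw [if_neg hm, zero_mul, zero_add]
      have hm1 : 1 ≤ m := by omega
      have hm' : (0 : ℝ) < m := by exact_mod_cast (by omega : 0 < m)
      have h2 := pq_three_shift hb hm1
      have p1 := pq_pos (by linarith : 0 < b + 1) m
      have p2 := pq_pos (by linarith : 0 < b + 3) (m - 1)
      have e1 : Sk (dd Φ s m) m 0 = coeff (fun z => Complex.exp (s * H z)) m := by
        rw [← EE_diag hΦ s m]
        unfold Sk dd
        apply Finset.sum_congr rfl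
        intro l _
        rw [pow_zero, one_mul]
      have h1 : (m : ℝ) ^ 2 * ‖coeff (fun z => Complex.exp (s * H z)) m‖ ^ 2
          = 4 * KK s * pq (b + 3) (m - 1) * Xs Φ s m := by
        unfold Xs Xm
        rw [← hbdef, e1]
        have : KK s ≠ 0 := by linarith
        field_simp
      have h3 : (m : ℝ) ^ 2 * ‖coeff (fun z => Complex.exp (s * H z)) m‖ ^ 2
          ≤ (m : ℝ) ^ 2 * (8 * Xs Φ s m * pq (b + 1) m) := by
        rw [h1]
        calc 4 * KK s * pq (b + 3) (m - 1) * Xs Φ s m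
            ≤ 4 * 2 * (m ^ 2 * pq (b + 1) m) * Xs Φ s m := by gcongr
          _ = _ := by ring
      have h4 := le_of_mul_le_mul_left h3 (by positivity)
      have h5 := pow_mul_pq_le hb.le hx0 hx1 m
      have h6 : r ^ (2 * m) = x ^ m := by rw [hx, ← pow_mul]
      rw [h6]
      calc ‖coeff (fun z => Complex.exp (s * H z)) m‖ ^ 2 * x ^ m
          ≤ (8 * Xs Φ s m * pq (b + 1) m) * x ^ m := by gcongr
        _ = 8 * Xs Φ s m * (x ^ m * pq (b + 1) m) := by ring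
        _ ≤ 8 * Xs Φ s m * (1 - x) ^ (-b) := by gcongr
  have hpos : 0 < (1 - x) ^ (-b) := by linarith
  have hsumle : (1 / (2 * π)) * ∫ θ in (-π)..π,
      ‖Complex.exp (s * H ((r : ℂ) * Complex.exp ((θ : ℂ) * Complex.I)))‖ ^ 2
      ≤ (1 + 8 * C) * (1 - x) ^ (-b) := by
    refine hasSum_le_of_sum_le hpar (fun F => ?_)
    obtain ⟨M, hM⟩ : ∃ M, F ⊆ Finset.range M := F.exists_nat_subset_range
    have hnn : ∀ m : ℕ, 0 ≤ ‖coeff (fun z => Complex.exp (s * H z)) m‖ ^ 2 * r ^ (2 * m) := by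
      intro m; positivity
    calc ∑ m ∈ F, ‖coeff (fun z => Complex.exp (s * H z)) m‖ ^ 2 * r ^ (2 * m)
        ≤ ∑ m ∈ Finset.range M, ‖coeff (fun z => Complex.exp (s * H z)) m‖ ^ 2 * r ^ (2 * m) :=
          Finset.sum_le_sum_of_subset_of_nonneg hM (fun m _ _ => hnn m)
      _ ≤ ∑ m ∈ Finset.range M, ((if m = 0 then 1 else 0) * (1 - x) ^ (-b)
        + 8 * Xs Φ s m * (1 - x) ^ (-b)) :=
          Finset.sum_le_sum (fun m _ => hterm m)
      _ = (∑ m ∈ Finset.range M, (if m = 0 then (1 : ℝ) else 0)) * (1 - x) ^ (-b)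
        + 8 * (∑ m ∈ Finset.range M, Xs Φ s m) * (1 - x) ^ (-b) := by
          rw [Finset.sum_add_distrib, ← Finset.sum_mul, ← Finset.sum_mul, ← Finset.mul_sum]
      _ ≤ 1 * (1 - x) ^ (-b) + 8 * C * (1 - x) ^ (-b) := by
          have h7 : ∑ m ∈ Finset.range M, (if m = 0 then (1 : ℝ) else 0) ≤ 1 := by
            cases M with
            | zero => simp
            | succ M =>
              rw [Finset.sum_range_succ']
              simp
          have h8 := hsum β H Φ hE hΦ hH s hs0 hs M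
          gcongr
      _ = _ := by ring
  have h9 := mul_le_mul_of_nonneg_left hsumle (by positivity : 0 ≤ 2 * π)
  rw [← mul_assoc, mul_one_div_cancel (by positivity), one_mul] at h9
  rw [← hx]
  linarith

/-- Numerical lemma for large `v`. -/
theorem quad_le {a' ρ t : ℝ} (ha' : 0 < a') (hρ : ρ = 4 / 9 + a') (hρ1 : ρ ≤ 1) :
    t - ρ + 4 / 9 * ρ ^ 2 ≤ t ^ 2 / (4 * a') := by
  rw [le_div_iff₀ (by positivity)]
  have h0 : 0 < ρ := by rw [hρ]; positivity
  have h1 : -ρ + 4 / 9 * ρ ^ 2 ≤ -a' := by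
    have : ρ ^ 2 ≤ 1 := by nlinarith
    linarith
  nlinarith [sq_nonneg (t - 2 * a')]

/-- the exponential means with the Gaussian bound -/
theorem gmean9 (hX : XBound) {a' : ℝ} (ha' : 0 < a') (ha1 : a' < 5 / 9) : ∃ C : ℝ, 0 ≤ C ∧
    ∀ (β H : ℂ → ℂ) (Φ : ℂ → ℂ → ℂ), Ext β → LogPhi β H Φ → DifferentiableOn ℂ H (ball 0 1) →
    (∀ ζ ∈ ball (0 : ℂ) 1, ‖H ζ‖ ≤ Real.log (1 / (1 - ‖ζ‖ ^ 2))) →
    ∀ r : ℝ, 0 < r → r < 1 → ∀ v : ℂ,
    ∫ θ in (-π)..π, Real.exp (inner ℝ v (H ((r : ℂ) * Complex.exp ((θ : ℂ) * Complex.I))))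
      ≤ C * Real.exp (Real.log (1 / (1 - r ^ 2)) / (4 * a') * ‖v‖ ^ 2) := by
  obtain ⟨C, hC, hmean⟩ := mean9 hX
  refine ⟨C, hC, ?_⟩
  intro β H Φ hE hΦ hH hHb r hr0 hr1 v
  have hpi := Real.pi_pos
  obtain ⟨L, hL⟩ : ∃ L, L = Real.log (1 / (1 - r ^ 2)) := ⟨_, rfl⟩
  rw [← hL]
  have hx : 0 < 1 - r ^ 2 := by nlinarith
  have hLpos : 0 < L := by
    rw [hL]
    apply Real.log_pos
    rw [one_lt_div hx]
    have : 0 < r ^ 2 := by positivity
    linarith
  have hnorm : ∀ θ : ℝ, ‖(r : ℂ) * Complex.exp ((θ : ℂ) * Complex.I)‖ = r := by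
    intro θ
    rw [norm_mul, Complex.norm_exp_ofReal_mul_I, mul_one, Complex.norm_real,
      Real.norm_of_nonneg hr0.le]
  have hmem : ∀ θ : ℝ, (r : ℂ) * Complex.exp ((θ : ℂ) * Complex.I) ∈ ball (0 : ℂ) 1 := by
    intro θ
    rw [mem_ball_zero_iff, hnorm]; exact hr1
  have hf : Continuous (fun θ : ℝ => H ((r : ℂ) * Complex.exp ((θ : ℂ) * Complex.I))) :=
    hH.continuousOn.comp_continuous (by fun_prop) hmem
  have hfb : ∀ θ : ℝ, ‖H ((r : ℂ) * Complex.exp ((θ : ℂ) * Complex.I))‖ ≤ L := by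
    intro θ
    have := hHb _ (hmem θ)
    rw [hnorm, ← hL] at this
    exact this
  -- small v
  have hsmall : ∀ u : ℂ, ‖u‖ < 1 → ∫ θ in (-π)..π, Real.exp (inner ℝ u
      (H ((r : ℂ) * Complex.exp ((θ : ℂ) * Complex.I)))) ≤ C * Real.exp (L * (4 / 9 * ‖u‖ ^ 2)) := by
    intro u hu
    have hns : ‖conj u / 2‖ = ‖u‖ / 2 := by
      rw [norm_div, RCLike.norm_conj]
      norm_num
    have h1 := hmean β H Φ hE hΦ hH (conj u / 2) (by rw [hns]; linarith) r hr0.le hr1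
    simp_rw [exp_inner]
    refine h1.trans (le_of_eq ?_)
    congr 1
    rw [Real.rpow_def_of_pos hx, hL, one_div, Real.log_inv]
    congr 1
    unfold bb
    rw [hns]
    ring
  obtain ⟨ρ, hρ⟩ : ∃ ρ, ρ = 4 / 9 + a' := ⟨_, rfl⟩
  have hρ0 : 0 < ρ := by rw [hρ]; positivity
  have hρ1 : ρ < 1 := by rw [hρ]; linarith
  by_cases hv : ‖v‖ ≤ ρ
  · refine (hsmall v (lt_of_le_of_lt hv hρ1)).trans ?_
    have h2 : L * (4 / 9 * ‖v‖ ^ 2) ≤ L / (4 * a') * ‖v‖ ^ 2 := by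
      have h3 : (4 : ℝ) / 9 ≤ 1 / (4 * a') := by
        rw [le_div_iff₀ (by positivity)]
        linarith
      calc L * (4 / 9 * ‖v‖ ^ 2) ≤ L * (1 / (4 * a') * ‖v‖ ^ 2) := by gcongr
        _ = _ := by ring
    gcongr
  · push Not at hv
    have hv0 : 0 < ‖v‖ := hρ0.trans hv
    obtain ⟨c, hc⟩ : ∃ c, c = ρ / ‖v‖ := ⟨_, rfl⟩
    have hc0 : 0 < c := by rw [hc]; positivity
    have hc1 : c ≤ 1 := by rw [hc]; exact (div_le_one hv0).mpr hv.le
    have hcv : c * ‖v‖ = ρ := by rw [hc]; field_simp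
    have hnu : ‖(c : ℂ) * v‖ = ρ := by
      rw [norm_mul, Complex.norm_real, Real.norm_of_nonneg hc0.le, hcv]
    have h1 := hsmall ((c : ℂ) * v) (by rw [hnu]; exact hρ1)
    rw [hnu] at h1
    have hpt : ∀ θ : ℝ, Real.exp (inner ℝ v (H ((r : ℂ) * Complex.exp ((θ : ℂ) * Complex.I)))) ≤
        Real.exp ((‖v‖ - ρ) * L) * Real.exp (inner ℝ ((c : ℂ) * v)
          (H ((r : ℂ) * Complex.exp ((θ : ℂ) * Complex.I)))) := by
      intro θ
      rw [← Real.exp_add]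
      apply Real.exp_le_exp.mpr
      have e1 : (c : ℂ) * v = c • v := by rw [Complex.real_smul]
      rw [e1, real_inner_smul_left]
      have h2 := real_inner_le_norm v (H ((r : ℂ) * Complex.exp ((θ : ℂ) * Complex.I)))
      have h3 : inner ℝ v (H ((r : ℂ) * Complex.exp ((θ : ℂ) * Complex.I))) ≤ ‖v‖ * L :=
        h2.trans (mul_le_mul_of_nonneg_left (hfb θ) hv0.le)
      have h4 : (1 - c) * inner ℝ v (H ((r : ℂ) * Complex.exp ((θ : ℂ) * Complex.I))) ≤
          (1 - c) * (‖v‖ * L) := mul_le_mul_of_nonneg_left h3 (by linarith)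
      have h5 : (1 - c) * (‖v‖ * L) = (‖v‖ - ρ) * L := by rw [← hcv]; ring
      linarith
    have h6 : ∫ θ in (-π)..π, Real.exp (inner ℝ v
        (H ((r : ℂ) * Complex.exp ((θ : ℂ) * Complex.I)))) ≤
        ∫ θ in (-π)..π, Real.exp ((‖v‖ - ρ) * L) * Real.exp (inner ℝ ((c : ℂ) * v)
          (H ((r : ℂ) * Complex.exp ((θ : ℂ) * Complex.I)))) := by
      apply intervalIntegral.integral_mono (by linarith)
      · apply Continuous.intervalIntegrable
        exact Real.continuous_exp.comp (Continuous.inner continuous_const hf)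
      · apply Continuous.intervalIntegrable
        exact continuous_const.mul (Real.continuous_exp.comp (Continuous.inner continuous_const hf))
      · intro θ; exact hpt θ
    rw [intervalIntegral.integral_const_mul] at h6
    refine h6.trans ?_
    have h7 := quad_le (t := ‖v‖) ha' hρ hρ1.le
    calc Real.exp ((‖v‖ - ρ) * L) * ∫ θ in (-π)..π, Real.exp (inner ℝ ((c : ℂ) * v)
          (H ((r : ℂ) * Complex.exp ((θ : ℂ) * Complex.I))))
        ≤ Real.exp ((‖v‖ - ρ) * L) * (C * Real.exp (L * (4 / 9 * ρ ^ 2))) := by gcongr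
      _ = C * Real.exp (L * (‖v‖ - ρ + 4 / 9 * ρ ^ 2)) := by
          rw [mul_left_comm, ← Real.exp_add]
          congr 2
          ring
      _ ≤ C * Real.exp (L * (‖v‖ ^ 2 / (4 * a'))) := by gcongr
      _ = _ := by
          congr 2
          ring

/-- the disc version of the bound, for every exponent below five ninths -/
theorem disc9 (hX : XBound) {a : ℝ} (ha : 0 < a) (ha1 : a < 5 / 9) : ∃ C : ℝ, 0 ≤ C ∧
    ∀ (β H : ℂ → ℂ), Ext β → DifferentiableOn ℂ H (ball 0 1) → H 0 = 0 →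
    (∀ ζ ∈ ball (0 : ℂ) 1, Complex.exp (H ζ) = 1 - ζ ^ 2 * deriv β ζ) →
    (∀ ζ ∈ ball (0 : ℂ) 1, ‖H ζ‖ ≤ Real.log (1 / (1 - ‖ζ‖ ^ 2))) →
    ∀ r : ℝ, 0 < r → r < 1 →
    ∫ θ in (-π)..π, Real.exp (a * ‖H ((r : ℂ) * Complex.exp ((θ : ℂ) * Complex.I))‖ ^ 2
      / Real.log (1 / (1 - r ^ 2))) ≤ C := by
  obtain ⟨a', ha'⟩ : ∃ a' : ℝ, a' = (a + 5 / 9) / 2 := ⟨_, rfl⟩
  have haa : a < a' := by rw [ha']; linarith
  have h2 : a' < 5 / 9 := by rw [ha']; linarith
  have ha'0 : 0 < a' := ha.trans haa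
  obtain ⟨C, hC, hmean⟩ := gmean9 hX ha'0 h2
  have hrat : 0 < 1 - a / a' := by
    have : a / a' < 1 := (div_lt_one ha'0).mpr haa
    linarith
  obtain ⟨L0, hL0⟩ : ∃ L0, L0 = 8 * a * Real.log 4 / (1 : ℝ) ^ 2 := ⟨_, rfl⟩
  have hpi := Real.pi_pos
  refine ⟨2 * π * Real.exp (a * L0) + 2 * C / (1 - a / a'), by positivity, ?_⟩
  intro β H hE hH hH0 hexp hHb r hr0 hr1
  obtain ⟨Φ, hΦ⟩ := exists_logPhi hE hH.continuousOn hH0 hexp
  have hm := hmean β H Φ hE hΦ hH hHb r hr0 hr1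
  obtain ⟨L, hL⟩ : ∃ L, L = Real.log (1 / (1 - r ^ 2)) := ⟨_, rfl⟩
  rw [← hL] at hm ⊢
  have hx : 0 < 1 - r ^ 2 := by nlinarith
  have hLpos : 0 < L := by
    rw [hL]
    apply Real.log_pos
    rw [one_lt_div hx]
    have : 0 < r ^ 2 := by positivity
    linarith
  have hnorm : ∀ θ : ℝ, ‖(r : ℂ) * Complex.exp ((θ : ℂ) * Complex.I)‖ = r := by
    intro θ
    rw [norm_mul, Complex.norm_exp_ofReal_mul_I, mul_one, Complex.norm_real,
      Real.norm_of_nonneg hr0.le]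
  have hmem : ∀ θ : ℝ, (r : ℂ) * Complex.exp ((θ : ℂ) * Complex.I) ∈ ball (0 : ℂ) 1 := by
    intro θ
    rw [mem_ball_zero_iff, hnorm]; exact hr1
  have hf : Continuous (fun θ : ℝ => H ((r : ℂ) * Complex.exp ((θ : ℂ) * Complex.I))) :=
    hH.continuousOn.comp_continuous (by fun_prop) hmem
  have hfb : ∀ θ : ℝ, ‖H ((r : ℂ) * Complex.exp ((θ : ℂ) * Complex.I))‖ ≤ L := by
    intro θ
    have := hHb _ (hmem θ)
    rw [hnorm, ← hL] at this
    exact this
  have hA1 : 0 ≤ 2 * π * Real.exp (a * L0) := by positivity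
  have hA2 : 0 ≤ 2 * C / (1 - a / a') := by positivity
  rcases le_total L L0 with hcase | hcase
  · -- small L
    have h1 : ∀ θ : ℝ, Real.exp (a * ‖H ((r : ℂ) * Complex.exp ((θ : ℂ) * Complex.I))‖ ^ 2 / L)
        ≤ Real.exp (a * L0) := by
      intro θ
      apply Real.exp_le_exp.mpr
      rw [div_le_iff₀ hLpos]
      have h3 := hfb θ
      have h4 : ‖H ((r : ℂ) * Complex.exp ((θ : ℂ) * Complex.I))‖ ^ 2 ≤ L ^ 2 :=
        pow_le_pow_left₀ (norm_nonneg _) h3 2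
      calc a * ‖H ((r : ℂ) * Complex.exp ((θ : ℂ) * Complex.I))‖ ^ 2 ≤ a * L ^ 2 := by gcongr
        _ = a * L * L := by ring
        _ ≤ a * L0 * L := by gcongr
    have h5 : ∫ θ in (-π)..π, Real.exp (a * ‖H ((r : ℂ) * Complex.exp ((θ : ℂ) * Complex.I))‖ ^ 2 / L)
        ≤ ∫ θ in (-π)..π, Real.exp (a * L0) := by
      apply intervalIntegral.integral_mono (by linarith)
      · apply Continuous.intervalIntegrable
        exact Real.continuous_exp.comp ((continuous_const.mul (hf.norm.pow 2)).div_const L)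
      · apply Continuous.intervalIntegrable
        exact continuous_const
      · intro θ; exact h1 θ
    rw [intervalIntegral.integral_const, smul_eq_mul] at h5
    have : (π - -π) * Real.exp (a * L0) = 2 * π * Real.exp (a * L0) := by ring
    linarith
  · -- large L
    have hbig : Real.log 4 ≤ L / (4 * a) * (1 : ℝ) ^ 2 / 2 := by
      have h1 : L0 * (1 : ℝ) ^ 2 = 8 * a * Real.log 4 := by
        rw [hL0]; field_simp
      have h2 : L0 * (1 : ℝ) ^ 2 ≤ L * (1 : ℝ) ^ 2 := by gcongr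
      rw [h1] at h2
      have h3 : L / (4 * a) * (1 : ℝ) ^ 2 / 2 = L * (1 : ℝ) ^ 2 / (8 * a) := by
        field_simp
        norm_num
      rw [h3, le_div_iff₀ (by positivity)]
      linarith
    have hgm : ∀ v : ℂ, ‖v‖ ≤ 2 * a * 1 + 1 →
        ∫⁻ θ in Ioc (-π) π, ENNReal.ofReal (Real.exp (inner ℝ v
          (H ((r : ℂ) * Complex.exp ((θ : ℂ) * Complex.I)))))
        ≤ ENNReal.ofReal (C * Real.exp (L / (4 * a') * ‖v‖ ^ 2)) := by
      intro v _
      have hcont : Continuous (fun θ : ℝ => Real.exp (inner ℝ v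
          (H ((r : ℂ) * Complex.exp ((θ : ℂ) * Complex.I))))) :=
        Real.continuous_exp.comp (Continuous.inner continuous_const hf)
      rw [← ofReal_integral_eq_lintegral_ofReal hcont.integrableOn_Ioc
        (Eventually.of_forall fun θ => (Real.exp_pos _).le)]
      apply ENNReal.ofReal_le_ofReal
      rw [← intervalIntegral.integral_of_le (by linarith : -π ≤ π)]
      exact hm v
    have h1 := gauss_average (L := L) (k := 1) (δ := 1) (C := C) ha haa hLpos one_pos hC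
      hbig hf (fun θ => by rw [one_mul]; exact hfb θ) (s := Ioc (-π) π) hgm
    have hcont : Continuous (fun θ : ℝ => Real.exp (a *
        ‖H ((r : ℂ) * Complex.exp ((θ : ℂ) * Complex.I))‖ ^ 2 / L)) :=
      Real.continuous_exp.comp ((continuous_const.mul (hf.norm.pow 2)).div_const L)
    rw [← ofReal_integral_eq_lintegral_ofReal hcont.integrableOn_Ioc
      (Eventually.of_forall fun θ => (Real.exp_pos _).le)] at h1
    rw [← intervalIntegral.integral_of_le (by linarith : -π ≤ π)] at h1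
    have h2 := (ENNReal.ofReal_le_ofReal_iff hA2).mp h1
    linarith

/-- the exterior version of the bound, for every exponent below five ninths -/
theorem ext9 (hX : XBound) {a : ℝ} (ha : 0 < a) (ha1 : a < 5 / 9) : ∃ C : ℝ, 0 ≤ C ∧
    ∀ R : ℝ, 1 < R → ∀ ψ h : ℂ → ℂ,
      DifferentiableOn ℂ ψ {z : ℂ | 1 < ‖z‖} →
      Set.InjOn ψ {z : ℂ | 1 < ‖z‖} →
      (∃ b : ℂ, Filter.Tendsto (fun z => ψ z - z) (Bornology.cobounded ℂ) (nhds b)) →
      DifferentiableOn ℂ h {z : ℂ | 1 < ‖z‖} →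
      (∀ z : ℂ, 1 < ‖z‖ → Complex.exp (h z) = deriv ψ z) →
      Filter.Tendsto h (Bornology.cobounded ℂ) (nhds 0) →
      (1 / (2 * Real.pi)) * ∫ θ in (0:ℝ)..(2 * Real.pi),
        Real.exp (a * ‖h ((R : ℂ) * Complex.exp ((θ : ℂ) * Complex.I))‖ ^ 2
          / Real.log (R ^ 2 / (R ^ 2 - 1))) ≤ C := by
  obtain ⟨C, hC, hmain⟩ := disc9 hX ha ha1
  refine ⟨1 / (2 * π) * C, by positivity, ?_⟩
  intro R hR ψ h hψ hinj hb hh hexp hh0
  obtain ⟨hd, hg⟩ := Pool.Agent.Helper39.Area.goluzin_disc hψ hinj hb hh hexp hh0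
  obtain ⟨b, hb⟩ := hb
  obtain ⟨hE, hex⟩ := Pool.Agent.Helper39.Area.ext_data hψ hinj hb hexp
  rw [Pool.Agent.Helper39.Area.integral_transfer h a R hR]
  rw [periodic_shift (f := fun ζ => Real.exp (a * ‖toDisc 0 h ζ‖ ^ 2
          / Real.log (1 / (1 - (R⁻¹) ^ 2)))) R⁻¹]
  have hR0 : 0 < R⁻¹ := by positivity
  have hR1 : R⁻¹ < 1 := inv_lt_one_of_one_lt₀ hR
  have := hmain _ (toDisc 0 h) hE hd (by simp [toDisc]) hex hg R⁻¹ hR0 hR1
  gcongr

theorem mInt9 (hX : XBound) {a : ℝ} (ha : 0 < a) (ha1 : a < 5 / 9) : ∃ C : ℝ, 0 ≤ C ∧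
    ∀ R : ℝ, 1 < R → ∀ ψ h : ℂ → ℂ, SigmaLog ψ h → mInt a R h ≤ C := by
  obtain ⟨C, hC, hm⟩ := ext9 hX ha ha1
  refine ⟨C, hC, ?_⟩
  intro R hR ψ h H
  exact hm R hR ψ h H.diff H.inj H.normalised H.hdiff H.exp_eq H.lim

theorem mInt_family9 (hX : XBound) {k a : ℝ} (hk0 : 0 < k) (hk1 : k < 1) (ha : 0 < a)
    (hak : a * k ^ 2 < 5 / 9) :
    ∃ C : ℝ, 0 ≤ C ∧ ∀ R : ℝ, 1 < R → ∀ ψ h : ℂ → ℂ → ℂ, HolFam ψ h →
      ∀ l : ℂ, ‖l‖ ≤ k → mInt a R (h l) ≤ C := by
  have hpi := Real.pi_pos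
  obtain ⟨A, hA⟩ : ∃ A, A = a * k ^ 2 := ⟨_, rfl⟩
  have hA0 : 0 < A := by rw [hA]; positivity
  have hA1 : A < 5 / 9 := by
    rw [hA]; exact hak
  obtain ⟨m, hm⟩ : ∃ m, m = max (k ^ 2) (9 / 5 * A) := ⟨_, rfl⟩
  have hm1 : m < 1 := by
    rw [hm]
    apply max_lt
    · nlinarith
    · linarith
  have hmk : k ^ 2 ≤ m := by rw [hm]; exact le_max_left _ _
  have hmA : 9 / 5 * A ≤ m := by rw [hm]; exact le_max_right _ _
  have hm0 : 0 < m := lt_of_lt_of_le (by positivity) hmk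
  obtain ⟨κ, hκ⟩ : ∃ κ, κ = Real.sqrt ((m + 1) / 2) := ⟨_, rfl⟩
  have hκ2 : κ ^ 2 = (m + 1) / 2 := by
    rw [hκ, Real.sq_sqrt (by linarith)]
  have hκ0 : 0 < κ := by rw [hκ]; exact Real.sqrt_pos.mpr (by linarith)
  have hκ1 : κ < 1 := by nlinarith
  have hkκ : k < κ := by nlinarith
  have hAκ : A / κ ^ 2 < 5 / 9 := by
    rw [div_lt_iff₀ (by positivity), hκ2]
    linarith
  obtain ⟨C, hC, hmain⟩ := mInt9 hX (a := A / κ ^ 2) (by positivity) hAκ
  refine ⟨C + 1, by linarith, ?_⟩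
  intro R hR ψ h H l hl
  have hR0 : 0 < R⁻¹ := by positivity
  have hR1 : R⁻¹ < 1 := inv_lt_one_of_one_lt₀ hR
  obtain ⟨r, hr⟩ : ∃ r, r = R⁻¹ := ⟨_, rfl⟩
  obtain ⟨L, hL⟩ : ∃ L, L = Real.log (1 / (1 - r ^ 2)) := ⟨_, rfl⟩
  rw [← hr] at hR0 hR1
  have hx : 0 < 1 - r ^ 2 := by nlinarith
  have hLpos : 0 < L := by
    rw [hL]
    apply Real.log_pos
    rw [one_lt_div hx]
    have : 0 < r ^ 2 := by positivity
    linarith
  have hmem : ∀ θ : ℝ, (r : ℂ) * Complex.exp ((θ : ℂ) * Complex.I) ∈ ball (0 : ℂ) 1 := by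
    intro θ
    rw [mem_ball_zero_iff, norm_mul, Complex.norm_exp_ofReal_mul_I, mul_one, Complex.norm_real,
      Real.norm_of_nonneg hR0.le]
    exact hR1
  have hl1 : l ∈ ball (0:ℂ) 1 := by
    rw [mem_ball_zero_iff]; linarith
  rw [mInt_disc a R hR, ← hr, ← hL]
  by_cases hl0 : l = 0
  · subst hl0
    have h1 : ∀ θ : ℝ, Real.exp (a * ‖toDisc 0 (h 0) ((r : ℂ) * Complex.exp ((θ : ℂ) * Complex.I))‖ ^ 2
          / L) = 1 := by
      intro θ
      rw [H.h_zero _ (hmem θ)]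
      simp
    simp_rw [h1]
    rw [intervalIntegral.integral_const, smul_eq_mul]
    have : 1 / (2 * π) * ((2 * π - 0) * 1) = 1 := by
      field_simp
      ring
    rw [this]
    linarith
  · have hln : 0 < ‖l‖ := norm_pos_iff.mpr hl0
    have hfam := fam_disc H (A := A) (C := 2 * π * C) (κ := κ) (L := L) (r := r) hA0.le hLpos hκ0 hκ1
      hR0.le hR1 (fun l' hl' => by
        have h1 := hmain R hR (ψ l') (h l') (H.mem l' hl')
        rw [mInt_disc _ R hR, ← hr, ← hL] at h1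
        rw [one_div, inv_mul_le_iff₀ (by positivity)] at h1
        exact h1) (lt_of_le_of_lt hl hkκ) hl0
    have hfc : Continuous (fun θ : ℝ => toDisc 0 (h l) ((r : ℂ) * Complex.exp ((θ : ℂ) * Complex.I))) :=
      ((H.mem l hl1).goluzin.1.continuousOn).comp_continuous (by fun_prop) hmem
    have haA : a ≤ A / ‖l‖ ^ 2 := by
      rw [le_div_iff₀ (by positivity), hA]
      gcongr
    have hmono : ∫ θ in (0:ℝ)..(2 * π),
        Real.exp (a * ‖toDisc 0 (h l) ((r : ℂ) * Complex.exp ((θ : ℂ) * Complex.I))‖ ^ 2 / L)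
        ≤ ∫ θ in (0:ℝ)..(2 * π),
        Real.exp (A / ‖l‖ ^ 2 *
          ‖toDisc 0 (h l) ((r : ℂ) * Complex.exp ((θ : ℂ) * Complex.I))‖ ^ 2 / L) := by
      apply intervalIntegral.integral_mono (by positivity)
      · apply Continuous.intervalIntegrable
        exact Real.continuous_exp.comp ((continuous_const.mul (hfc.norm.pow 2)).div_const L)
      · apply Continuous.intervalIntegrable
        exact Real.continuous_exp.comp ((continuous_const.mul (hfc.norm.pow 2)).div_const L)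
      · intro θ
        simp only
        gcongr
    have h2 := hmono.trans hfam
    rw [one_div, inv_mul_le_iff₀ (by positivity)]
    have h3 : 0 ≤ 2 * π * 1 := by positivity
    linarith

end Pool.Agent.Helper39.HR
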