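import Mathlib
import Pool.Agent.Helper39.HR.CertDefs

/-!
MP_16b0ee, project HR: upper bound of the product
-/

set_option autoImplicit false

namespace Pool.Agent.Helper39.HR

open Pool.Agent.Helper63.PolyBox

def MA : List (List ℤ) := [[-1039948661988971387393454328948328371322880,
  159082532491061757312818629015117592788992, -114102105679239950317256920325154668544,
  -1474081563920186635291216636758982656, -1539245315547781040855866757087232,
  -500839631376566397655232544768, -23326908990870495833358336, 7780685835998167302144,
  -33776997205278720], [-47953070408561830471200767026519489904640,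
  -586387881933576162060123642444159909888, 4266041134827092260596634304724860928,
  6880520259555020431842418007998464, 2585199309076629042807611326464,
  -30152232839846405880152064, -51228739223191868669952, 17859690214067273728, 38482906972160],
  [295787873568512894527618727920439132160, -2846665282687035848439865541765627904,
  -9543366839986410840566831316467712, -1861211646334990226415125790720,
  3475751082801189228852019200, 923466263998993709137920, -130393244411732426752,
  -10600350935416832, -10737418240], [-53102346763585874083710788928798720,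
  9730752506228890410299546721583104, -1433840288835511814706853576704,
  -16806364775990889569719418880, -7525029825275874622046208, -192529421317347213312,
  79878387966935040, -11299093217280], [-1140437259519263030766267122319360,
  -6010986896528352151373283852288, 16717927170308571166333206528, 14423398501774088963358720,
  422767077490075631616, -529890231549689856, 88239055298560, 5523033600],
  [1283194023867949313350246072320, -6133014891589359141012897792, -10405460541298841739067392,
  5143987437553764532224, 4622890235718205440, 304770034206720, -43390728000],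
  [169264311521448692809728000, 9261911859793528677728256, -3630615918337478098944,
  -10152106320770629632, -2496344952481920, -44932887000], [-983812387758577633198080,
  -3832371298134675947520, 5911750752347750400, 4015617322383360, 373945784625],
  [602438795359546245120, 144894075267317760, -2165650291848960, -508088116800],
  [-147456512486277120, 273005464884480, 267081360750], [12589057843200, -50883507450]]

theorem MA_run : run [[OUT], [MA]] 278
    0x5505500550550550005555000155515101044541054150505050041554150415541150010444444454141000000010550550501545015050450501101550505505055001550550055055000551551551001155055055005505001055151515505051550550055500105511015505501550555005505001544010541404040404040401155505104401000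
    [[(0, 1024), (0, 256)]] = true := by decide +kernel

theorem MA_val (r ρ : ℝ) : Rep.val [1024 * r + 512, 1024 * ρ] MA
    = 1021999790665410122123657592480391495680 * (gp r ρ * (16 * (1 - r ^ 2) * (9 * (9 - 4 * r ^ 2)) * (4 * ((16 / 9 * ρ) + 2 - 2 * r)) * (5 * ((16 / 9 * ρ) + 3 - 2 * r))
      * (((16 / 9 * ρ) + 181 / 20 - 2 * r) - 7 / 12 * ρ * ((16 / 9 * ρ) + 181 / 20 - 2 * r) + 4 * ((16 / 9 * ρ) * (1 + r))))
    - (16 * (1 - r ^ 2) + 8 * ρ + ρ ^ 2) * (9 * (9 - 4 * r ^ 2) + 18 * ρ + ρ ^ 2) * (1 + (16 / 9 * ρ) / 3)
      * (4 * ((16 / 9 * ρ) + 2 - 2 * r) - 2 * (16 / 9 * ρ) * (1 + r)) * (5 * ((16 / 9 * ρ) + 3 - 2 * r) - 2 * (16 / 9 * ρ) * (1 + r))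
      * ((16 / 9 * ρ) + 181 / 20 - 2 * r)) := by
  simp only [MA, Rep.val, lval]
  push_cast
  unfold gp
  ring

theorem MA_pos {r ρ : ℝ} (h1 : r ^ 2 ≤ ρ) (h2 : ρ ≤ 1 / 4) : 0 < gp r ρ * (16 * (1 - r ^ 2) * (9 * (9 - 4 * r ^ 2)) * (4 * ((16 / 9 * ρ) + 2 - 2 * r)) * (5 * ((16 / 9 * ρ) + 3 - 2 * r))
      * (((16 / 9 * ρ) + 181 / 20 - 2 * r) - 7 / 12 * ρ * ((16 / 9 * ρ) + 181 / 20 - 2 * r) + 4 * ((16 / 9 * ρ) * (1 + r))))
    - (16 * (1 - r ^ 2) + 8 * ρ + ρ ^ 2) * (9 * (9 - 4 * r ^ 2) + 18 * ρ + ρ ^ 2) * (1 + (16 / 9 * ρ) / 3)
      * (4 * ((16 / 9 * ρ) + 2 - 2 * r) - 2 * (16 / 9 * ρ) * (1 + r)) * (5 * ((16 / 9 * ρ) + 3 - 2 * r) - 2 * (16 / 9 * ρ) * (1 + r))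
      * ((16 / 9 * ρ) + 181 / 20 - 2 * r) := by
  have h := pos_of_run MA_run h1 h2
  rw [MA_val] at h
  exact (mul_pos_iff_of_pos_left (by norm_num)).mp h

end Pool.Agent.Helper39.HR
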