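import Mathlib
import Pool.Agent.Helper39.HR.CertDefs

/-!
MP_16b0ee, project HR: first weight
-/

set_option autoImplicit false

namespace Pool.Agent.Helper39.HR

open Pool.Agent.Helper63.PolyBox

def MB : List (List ℤ) := [[-7638127192971375250389646184797962240,
  -8124871631428809568184434654445568, 252537728383108065859723503599616,
  98799880420778058519058317312, -853108184084314521503531008, -1084441693779647862407168,
  -209338737190489817088, 265600888087773184, 148380208332800, 25173760000, 1376000],
  [80361918849661861840599656442101760, -112644692268215177894309268553728,
  -825149664191284408638291050496, -799570831803868998996590592, -153718535244315407417344,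
  -506410597759026462720, -349089467927101440, 114798922547200, 108495065600, 12062500],
  [-187262401438062488754114999091200, 319468563139690515275679006720,
  1478593125889213532221734912, 1250065355671092785577984, 956963885788952526848,
  541910762520576, -660745447014400, -277740876800, -2238000], [130302941725463859362267136000,
  -326286099402578333584588800, -554846144159825893785600, -279922201252488806400,
  378394782990336000, 606378525900800, 28533520000, -107689450], [0, 128954999981167607808000,
  -118683742977707212800, -201525149093068800, 14551231692800, 409806092800, 213271000], [0,
  -61945103203172352000, 62357092171776000, 16284047155200, -216737553600, -111414175], [0,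
  -176533285109760000, -282943383552000, -201858480000, -56610750], [0, 131513932800000,
  190269000000, 66065625]]

theorem MB_run : run [[OUT], [MB]] 202
    0x550515055015550501550510055151550550550005515515500555001015555011500555051051550505101015505151515511550505500550055010555105555400400054011550555540005540041401055414005404040140115544001440104401000
    [[(0, 1024), (0, 256)]] = true := by decide +kernel

theorem MB_val (r ρ : ℝ) : Rep.val [1024 * r + 512, 1024 * ρ] MB
    = 665364447047793048257589578437754880 * (D4 (16 / 9 * ρ) - phi1 r ρ * (N11 r ρ + D4 (16 / 9 * ρ) / 10)) := by
  simp only [MB, Rep.val, lval]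
  push_cast
  unfold phi1 N11 D4 FR R2 eA0 eB0 eA1 eB1
  ring

theorem MB_pos {r ρ : ℝ} (h1 : r ^ 2 ≤ ρ) (h2 : ρ ≤ 1 / 4) : 0 < D4 (16 / 9 * ρ) - phi1 r ρ * (N11 r ρ + D4 (16 / 9 * ρ) / 10) := by
  have h := pos_of_run MB_run h1 h2
  rw [MB_val] at h
  exact (mul_pos_iff_of_pos_left (by norm_num)).mp h

end Pool.Agent.Helper39.HR
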