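import Mathlib
import Pool.Agent.Helper39.HR.Const
import Pool.Agent.Helper39.HR.CertA
import Pool.Agent.Helper39.HR.CertB
import Pool.Agent.Helper39.HR.CertC
import Pool.Agent.Helper39.HR.CertD

/-!
MP_16b0ee, project HR: the numerical inequalities.
-/

set_option autoImplicit false

open scoped ComplexConjugate

namespace Pool.Agent.Helper39.HR

open Pool.Agent.Helper22.Half

theorem fac1 {r ρ : ℝ} (h1 : -1 < r) (h2 : r < 1) :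
    (1 + ρ / (2 * (2 + 2 * r))) * (1 + ρ / (2 * (2 - 2 * r)))
      = (16 * (1 - r ^ 2) + 8 * ρ + ρ ^ 2) / (16 * (1 - r ^ 2)) := by
  have e1 : (1 : ℝ) + r ≠ 0 := by intro h; linarith
  have e2 : (1 : ℝ) - r ≠ 0 := by intro h; linarith
  have f1 : (2 : ℝ) + 2 * r = 2 * (1 + r) := by ring
  have f2 : (2 : ℝ) - 2 * r = 2 * (1 - r) := by ring
  rw [f1, f2]
  have e3 : (1 : ℝ) - r ^ 2 ≠ 0 := by
    have : (1 : ℝ) - r ^ 2 = (1 - r) * (1 + r) := by ring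
    rw [this]
    exact mul_ne_zero (by intro h; linarith) (by intro h; linarith)
  rw [eq_div_iff (mul_ne_zero (by norm_num) e3)]
  field_simp
  ring

theorem fac2 {r ρ : ℝ} (h1 : -1 < r) (h2 : r < 1) :
    (1 + ρ / (3 * (3 + 2 * r))) * (1 + ρ / (3 * (3 - 2 * r)))
      = (9 * (9 - 4 * r ^ 2) + 18 * ρ + ρ ^ 2) / (9 * (9 - 4 * r ^ 2)) := by
  have e1 : (3 : ℝ) + 2 * r ≠ 0 := by intro h; linarith
  have e2 : (3 : ℝ) - 2 * r ≠ 0 := by intro h; linarith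
  have e3 : (9 : ℝ) - 4 * r ^ 2 ≠ 0 := by
    have : (9 : ℝ) - 4 * r ^ 2 = (3 - 2 * r) * (3 + 2 * r) := by ring
    rw [this]
    exact mul_ne_zero e2 e1
  rw [eq_div_iff (mul_ne_zero (by norm_num) e3)]
  field_simp
  ring

theorem six {n1 n2 B x e1 e2 e3 e4 q w : ℝ} (h1 : e1 ≠ 0) (h2 : e2 ≠ 0) (h3 : e3 ≠ 0)
    (h4 : e4 ≠ 0) (h5 : w ≠ 0) :
    n1 / (16 * e1) * (n2 / (9 * e2)) * (B * (1 - x / (4 * e3)) * (1 - x / (5 * e4))) * (q / w)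
      = n1 * n2 * B * (4 * e3 - x) * (5 * e4 - x) * q
        / (16 * e1 * (9 * e2) * (4 * e3) * (5 * e4) * w) := by
  field_simp

/-- the exponential factor -/
theorem expfac {X : ℝ} (hX : X < 1) : Real.exp X ≤ 1 / (1 - X) := by
  rw [le_div_iff₀ (by linarith)]
  have h1 := Real.add_one_le_exp (-X)
  have h2 : Real.exp X * Real.exp (-X) = 1 := by rw [← Real.exp_add, add_neg_cancel, Real.exp_zero]
  calc Real.exp X * (1 - X) ≤ Real.exp X * Real.exp (-X) := by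
        apply mul_le_mul_of_nonneg_left _ (Real.exp_pos X).le
        linarith
    _ = 1 := h2

theorem Pi_le_aux {r ρ b : ℝ} (hr : -(1 / 2) ≤ r) (hr1 : r < 1 / 2) (hb : 0 < b) (hb1 : b ≤ 1 / 2)
    (hρ0 : 0 ≤ ρ) (hρ1 : ρ ≤ 1 / 4) {g : ℝ}
    (h : 0 < g * (16 * (1 - r ^ 2) * (9 * (9 - 4 * r ^ 2)) * (4 * (b + 2 - 2 * r))
      * (5 * (b + 3 - 2 * r))
      * ((b + 181 / 20 - 2 * r) - 7 / 12 * ρ * (b + 181 / 20 - 2 * r) + 4 * (b * (1 + r))))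
    - (16 * (1 - r ^ 2) + 8 * ρ + ρ ^ 2) * (9 * (9 - 4 * r ^ 2) + 18 * ρ + ρ ^ 2) * (1 + b / 3)
      * (4 * (b + 2 - 2 * r) - 2 * b * (1 + r)) * (5 * (b + 3 - 2 * r) - 2 * b * (1 + r))
      * (b + 181 / 20 - 2 * r)) : Bq r ρ * Rb b r ≤ g := by
  obtain ⟨e1, he1⟩ : ∃ x, x = 1 - r ^ 2 := ⟨_, rfl⟩
  obtain ⟨e2, he2⟩ : ∃ x, x = 9 - 4 * r ^ 2 := ⟨_, rfl⟩
  obtain ⟨e3, he3⟩ : ∃ x, x = b + 2 - 2 * r := ⟨_, rfl⟩
  obtain ⟨e4, he4⟩ : ∃ x, x = b + 3 - 2 * r := ⟨_, rfl⟩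
  obtain ⟨q, hq⟩ : ∃ x, x = b + 181 / 20 - 2 * r := ⟨_, rfl⟩
  obtain ⟨A, hA⟩ : ∃ x, x = b * (1 + r) := ⟨_, rfl⟩
  have p1 : 0 < e1 := by rw [he1]; nlinarith
  have p2 : 0 < e2 := by rw [he2]; nlinarith
  have p3 : 0 < e3 := by rw [he3]; linarith
  have p4 : 0 < e4 := by rw [he4]; linarith
  have p5 : 0 < q := by rw [hq]; linarith
  have p6 : 0 ≤ A := by rw [hA]; apply mul_nonneg hb.le; linarith
  have p7 : 0 < q - 7 / 12 * ρ * q + 4 * A := by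
    have : q - 7 / 12 * ρ * q = q * (1 - 7 / 12 * ρ) := by ring
    have h2 : 0 < q * (1 - 7 / 12 * ρ) := mul_pos p5 (by linarith)
    linarith
  have p8 : 0 < 1 - 2 * b * (1 + r) / (4 * e3) := by rw [he3]; exact F1_pos hb hb1 hr hr1
  have p9 : 0 < 1 - 2 * b * (1 + r) / (5 * e4) := by rw [he4]; exact F2_pos hb hb1 hr hr1
  unfold Bq Rb
  rw [← he3, ← he4]
  have hexp : Real.exp (7 * ρ / 12) * Real.exp (-(2 * b * (1 + r) / (qe b r + 2)))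
      ≤ q / (q - 7 / 12 * ρ * q + 4 * A) := by
    rw [← Real.exp_add]
    have e0 : 2 * b * (1 + r) / (qe b r + 2) = 4 * A / q := by
      have : qe b r + 2 = q / 2 := by unfold qe; rw [hq]; ring
      rw [this, hA]
      field_simp
      ring
    rw [e0]
    have hX : 7 * ρ / 12 + -(4 * A / q) < 1 := by
      have : 0 ≤ 4 * A / q := by positivity
      linarith
    refine (expfac hX).trans (le_of_eq ?_)
    have : 1 - (7 * ρ / 12 + -(4 * A / q)) = (q - 7 / 12 * ρ * q + 4 * A) / q := by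
      field_simp
      ring
    rw [this, one_div_div]
  have f1 := fac1 (r := r) (ρ := ρ) (by linarith) (by linarith)
  have f2 := fac2 (r := r) (ρ := ρ) (by linarith) (by linarith)
  rw [← he1] at f1
  rw [← he2] at f2
  obtain ⟨n1, hn1⟩ : ∃ x, x = 16 * e1 + 8 * ρ + ρ ^ 2 := ⟨_, rfl⟩
  obtain ⟨n2, hn2⟩ : ∃ x, x = 9 * e2 + 18 * ρ + ρ ^ 2 := ⟨_, rfl⟩
  rw [← hn1] at f1
  rw [← hn2] at f2
  have q1 : 0 < n1 := by rw [hn1]; positivity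
  have q2 : 0 < n2 := by rw [hn2]; positivity
  have e5 : (1 + ρ / (2 * (2 + 2 * r))) * (1 + ρ / (2 * (2 - 2 * r))) * (1 + ρ / (3 * (3 + 2 * r)))
      * (1 + ρ / (3 * (3 - 2 * r))) * Real.exp (7 * ρ / 12)
      * ((1 + b / 3) * (1 - 2 * b * (1 + r) / (4 * e3)) * (1 - 2 * b * (1 + r) / (5 * e4))
        * Real.exp (-(2 * b * (1 + r) / (qe b r + 2))))
      = (n1 / (16 * e1)) * (n2 / (9 * e2)) * ((1 + b / 3) * (1 - 2 * b * (1 + r) / (4 * e3))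
        * (1 - 2 * b * (1 + r) / (5 * e4)))
        * (Real.exp (7 * ρ / 12) * Real.exp (-(2 * b * (1 + r) / (qe b r + 2)))) := by
    rw [← f1, ← f2]
    ring
  rw [e5]
  have hF : 0 ≤ (n1 / (16 * e1)) * (n2 / (9 * e2)) * ((1 + b / 3)
      * (1 - 2 * b * (1 + r) / (4 * e3)) * (1 - 2 * b * (1 + r) / (5 * e4))) := by
    positivity
  refine (mul_le_mul_of_nonneg_left hexp hF).trans ?_
  have e6 : (n1 / (16 * e1)) * (n2 / (9 * e2)) * ((1 + b / 3)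
      * (1 - 2 * b * (1 + r) / (4 * e3)) * (1 - 2 * b * (1 + r) / (5 * e4)))
      * (q / (q - 7 / 12 * ρ * q + 4 * A))
      = n1 * n2 * (1 + b / 3) * (4 * e3 - 2 * b * (1 + r)) * (5 * e4 - 2 * b * (1 + r)) * q
        / (16 * e1 * (9 * e2) * (4 * e3) * (5 * e4) * (q - 7 / 12 * ρ * q + 4 * A)) := by
    exact six p1.ne' p2.ne' p3.ne' p4.ne' p7.ne'
  rw [e6, div_le_iff₀ (by positivity)]
  rw [← he1, ← he2, ← he3, ← he4, ← hq, ← hA, ← hn1, ← hn2] at h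
  linarith

section
variable {s : ℂ}

theorem Pi_le (hs0 : s ≠ 0) (hs : ‖s‖ < 1 / 2) :
    Bq s.re (‖s‖ ^ 2) * Rb (bb s) s.re ≤ gp s.re (‖s‖ ^ 2) := by
  have h1 := rho_bounds hs
  have h2 := re_bounds hs
  have h3 := bb_pos hs0
  have h4 := bb_le hs
  apply Pi_le_aux h2.1.le h2.2 h3 (by linarith) (sq_nonneg _) h1.2
  have h := MA_pos h1.1 h1.2
  unfold bb
  exact h

theorem phi1_pos (hs : ‖s‖ < 1 / 2) : 0 < phi1 s.re (‖s‖ ^ 2) :=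
  ME_pos (rho_bounds hs).1 (rho_bounds hs).2

theorem phi2_pos (hs : ‖s‖ < 1 / 2) : 0 < phi2 s.re (‖s‖ ^ 2) :=
  MF_pos (rho_bounds hs).1 (rho_bounds hs).2

theorem gp_pos (hs : ‖s‖ < 1 / 2) : 0 < gp s.re (‖s‖ ^ 2) :=
  MG_pos (rho_bounds hs).1 (rho_bounds hs).2

/-- the norm factor -/
noncomputable def n23 (s : ℂ) : ℝ := ‖2 + s‖ ^ 2 * ‖3 + s‖ ^ 2

theorem norm_nat_add_sq (k : ℝ) (s : ℂ) : ‖(k : ℂ) + s‖ ^ 2 = k ^ 2 + 2 * k * s.re + ‖s‖ ^ 2 := by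
  rw [← Complex.normSq_eq_norm_sq, ← Complex.normSq_eq_norm_sq, Complex.normSq_apply,
    Complex.normSq_apply]
  simp only [Complex.add_re, Complex.add_im, Complex.ofReal_re, Complex.ofReal_im]
  ring

theorem n23_eq (s : ℂ) : n23 s = (4 + 4 * s.re + ‖s‖ ^ 2) * (9 + 6 * s.re + ‖s‖ ^ 2) := by
  unfold n23
  have h1 := norm_nat_add_sq 2 s
  have h2 := norm_nat_add_sq 3 s
  push_cast at h1 h2
  rw [h1, h2]
  ring

theorem n23_pos (hs : ‖s‖ < 1 / 2) : 0 < n23 s := by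
  have h1 := rho_bounds hs
  have h2 := re_bounds hs
  rw [n23_eq]
  have : 0 ≤ ‖s‖ ^ 2 := sq_nonneg _
  apply mul_pos <;> linarith

theorem kc_pos (hs : ‖s‖ < 1 / 2) : 0 < kc s := by
  have h1 := rho_bounds hs
  have h2 := re_bounds hs
  have hb := bb_nonneg s
  have : 0 ≤ ‖s‖ ^ 2 := sq_nonneg _
  have hq : 0 < 1 - 2 * s.re + ‖s‖ ^ 2 := by linarith
  unfold kc
  positivity

/-- the second weight -/
noncomputable def AA2 (s : ℂ) : ℝ := kc s * n23 s / phi2 s.re (‖s‖ ^ 2)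

theorem AA2_pos (hs : ‖s‖ < 1 / 2) : 0 < AA2 s := by
  have h1 := kc_pos hs
  have h2 := n23_pos hs
  have h3 := phi2_pos hs
  unfold AA2
  positivity

theorem hQ_s (hs0 : s ≠ 0) (hs : ‖s‖ < 1 / 2) (α β : ℂ) :
    Qf (bb s) s.re (α * a0 s (ctv s) + β * b0 s (cpv s))
      (α * a1 s (ctv s) + β * b1 s (cpv s)) (α * a2 (ctv s) + β * b2 (cpv s))
      ≤ (1 / phi1 s.re (‖s‖ ^ 2)) * ‖α‖ ^ 2 + AA2 s * ‖β‖ ^ 2 := by
  have h1 := rho_bounds hs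
  have hp1 := phi1_pos hs
  have hp2 := phi2_pos hs
  apply hQ_main hs0
  · have h := MB_pos h1.1 h1.2
    obtain ⟨D, hD⟩ : ∃ D, D = D4 (16 / 9 * ‖s‖ ^ 2) := ⟨_, rfl⟩
    rw [← hD] at h ⊢
    rw [div_mul_eq_mul_div, one_mul, le_div_iff₀ hp1]
    linarith
  · have h := MC_pos h1.1 h1.2
    have hb := bb_nonneg s
    have hB : 0 < (bb s + 2) * (bb s + 3) := by positivity
    obtain ⟨L, hL⟩ : ∃ L, L = N22 s.re (‖s‖ ^ 2) * D4 (16 / 9 * ‖s‖ ^ 2) + 10 * (RBp s.re (‖s‖ ^ 2) ^ 2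
      + (‖s‖ ^ 2 - s.re ^ 2) * IBp s.re (‖s‖ ^ 2) ^ 2) := ⟨_, rfl⟩
    rw [← hL] at h ⊢
    obtain ⟨D, hD⟩ : ∃ D, D = D4 (16 / 9 * ‖s‖ ^ 2) := ⟨_, rfl⟩
    rw [← hD] at h ⊢
    unfold AA2 kc
    rw [n23_eq, div_mul_eq_mul_div, le_div_iff₀ hp2, div_mul_eq_mul_div, div_mul_eq_mul_div,
      le_div_iff₀ hB]
    unfold bb
    linarith

/-- the final inequality -/
theorem main_ineq (hs : ‖s‖ < 1 / 2) :
    1 / 1000 ≤ (1 - thg s) * (phi1 s.re (‖s‖ ^ 2) + phi2 s.re (‖s‖ ^ 2)) - zeg s := by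
  have h1 := rho_bounds hs
  have h := MD_pos h1.1 h1.2
  have hb := bb_nonneg s
  have hσ := sigma_ge hs
  obtain ⟨ψ, hψ⟩ : ∃ ψ, ψ = phi1 s.re (‖s‖ ^ 2) + phi2 s.re (‖s‖ ^ 2) := ⟨_, rfl⟩
  obtain ⟨g, hg⟩ : ∃ g, g = gp s.re (‖s‖ ^ 2) := ⟨_, rfl⟩
  obtain ⟨b, hbd⟩ : ∃ b, b = bb s := ⟨_, rfl⟩
  obtain ⟨σ, hσd⟩ : ∃ σ, σ = bb s + 1 - 2 * s.re := ⟨_, rfl⟩
  obtain ⟨ρ, hρ⟩ : ∃ ρ, ρ = ‖s‖ ^ 2 := ⟨_, rfl⟩
  obtain ⟨r, hr⟩ : ∃ r, r = s.re := ⟨_, rfl⟩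
  have hb' : 16 / 9 * ‖s‖ ^ 2 = b := by rw [hbd]; rfl
  rw [hb', ← hg, ← hψ, ← hr, ← hρ] at h
  have hσ' : b + 1 - 2 * r = σ := by rw [hbd, hσd, hr]
  rw [hσ'] at h
  rw [← hσd] at hσ
  rw [← hbd] at hb
  unfold thg zeg Hg
  rw [← hψ, ← hg, ← hσd, ← hbd, ← hr, ← hρ]
  have hσ0 : 0 < σ := by linarith
  have hD : 0 < 4 * (b + 1) * (b + 2) * σ ^ 2 := by positivity
  have key : ((1 - 9 / 8 * ((1 - 2 * r + ρ) / σ) * g * b / 4 * ((1 + 2 * r + ρ) / σ + 1 / (b + 2))) * ψ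
      - (9 / 8 * ((1 - 2 * r + ρ) / σ) * g / (b + 1)
        + 9 / 8 * ((1 - 2 * r + ρ) / σ) * g * b * (1 + r) * (b + 3) / (2 * (b + 1) * (b + 2))
        + 9 / 8 * ((1 - 2 * r + ρ) / σ) * g * b * (1 + 2 * r + ρ) / (4 * (b + 2))) - 1 / 1000)
      * (4 * (b + 1) * (b + 2) * σ ^ 2)
      = (4 * (b + 1) * (b + 2) * σ ^ 2 - 9 / 8 * ((1 - 2 * r + ρ) * g) * (b + 1)
      * (b * (b + 2) * (1 + 2 * r + ρ) + b * σ)) * ψ
    - 9 / 8 * ((1 - 2 * r + ρ) * g) * σ * (4 * (b + 2)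
      + 2 * (b * (1 + r) * (b + 3)) + b * (b + 1) * (1 + 2 * r + ρ))
    - 1 / 250 * ((b + 1) * (b + 2) * σ ^ 2) := by
    have t1 : σ ≠ 0 := hσ0.ne'
    have t2 : b + 1 ≠ 0 := by positivity
    have t3 : b + 2 ≠ 0 := by positivity
    generalize 1 - 2 * r + ρ = u1
    generalize 1 + 2 * r + ρ = u2
    field_simp
    ring
  have h5 : 0 < ((1 - 9 / 8 * ((1 - 2 * r + ρ) / σ) * g * b / 4 * ((1 + 2 * r + ρ) / σ + 1 / (b + 2))) * ψ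
      - (9 / 8 * ((1 - 2 * r + ρ) / σ) * g / (b + 1)
        + 9 / 8 * ((1 - 2 * r + ρ) / σ) * g * b * (1 + r) * (b + 3) / (2 * (b + 1) * (b + 2))
        + 9 / 8 * ((1 - 2 * r + ρ) / σ) * g * b * (1 + 2 * r + ρ) / (4 * (b + 2))) - 1 / 1000)
      * (4 * (b + 1) * (b + 2) * σ ^ 2) := by
    rw [key]
    exact h
  have h6 := (mul_pos_iff_of_pos_right hD).mp h5
  linarith

end

end Pool.Agent.Helper39.HR
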