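import Mathlib
import Pool.Agent.Helper39.HR.Const

/-!
MP_16b0ee, project HR: the bound of the upper form for large `m`, uniform in the parameter.
-/

set_option autoImplicit false

open Filter Topology

namespace Pool.Agent.Helper39.HR

open Pool.Agent.Helper22.Half

/-- the coefficient of the lower form -/
theorem unif_coefP {b σ N h c fac ζ u e v : ℝ} (hb0 : 0 < b) (hb1 : b ≤ 4 / 9)
    (hσ : 7 / 16 ≤ σ) (hN0 : 0 ≤ N) (hN : N ≤ 9 / 4) (hh0 : 0 ≤ h) (hh1 : h ≤ 1)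
    (hc : c ≤ h * b * fac) (hf : fac ≤ 1 + ζ) (hζ0 : 0 < ζ) (hζ1 : ζ ≤ 1)
    (hu0 : 0 ≤ u) (hu : u ≤ ζ) (he0 : 0 ≤ e) (he : e ≤ ζ) (hv0 : 0 ≤ v) (hv : v ≤ 2 * ζ) :
    c * (N * ((1 + (b + 3) * u) / σ + 24 * e) + 2 * ((1 + (b + 3) * u) / (2 * (b + 2)) + v) / 1)
      ≤ h * b * (N / σ + 1 / (b + 2)) + 200 * ζ := by
  have hσ0 : 0 < σ := by linarith
  have hb2 : 0 < b + 2 := by linarith
  -- the limit and the error
  obtain ⟨A, hA⟩ : ∃ A, A = N / σ + 1 / (b + 2) := ⟨_, rfl⟩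
  obtain ⟨δ, hδ⟩ : ∃ δ, δ = N / σ * ((b + 3) * u) + 24 * (N * e) + (b + 3) / (b + 2) * u + 2 * v :=
    ⟨_, rfl⟩
  have hsplit : N * ((1 + (b + 3) * u) / σ + 24 * e)
      + 2 * ((1 + (b + 3) * u) / (2 * (b + 2)) + v) / 1 = A + δ := by
    rw [hA, hδ]
    field_simp
    ring
  have hNσ0 : 0 ≤ N / σ := by positivity
  have hNσ : N / σ ≤ 36 / 7 := by
    rw [div_le_iff₀ hσ0]
    linarith
  have hb3 : (b + 3) / (b + 2) ≤ 3 / 2 := by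
    rw [div_le_iff₀ hb2]
    linarith
  have hb30 : 0 ≤ (b + 3) / (b + 2) := by positivity
  have hA0 : 0 ≤ A := by rw [hA]; positivity
  have hA1 : A ≤ 6 := by
    have : 1 / (b + 2) ≤ 1 / 2 := one_div_le_one_div_of_le (by norm_num) (by linarith)
    rw [hA]; linarith
  have hδ0 : 0 ≤ δ := by rw [hδ]; positivity
  have hδ1 : δ ≤ 84 * ζ := by
    have h1 : N / σ * ((b + 3) * u) ≤ 36 / 7 * (31 / 9 * ζ) := by
      have : (b + 3) * u ≤ 31 / 9 * ζ := by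
        apply mul_le_mul (by linarith) hu hu0 (by norm_num)
      exact mul_le_mul hNσ this (by positivity) (by norm_num)
    have h2 : N * e ≤ 9 / 4 * ζ := mul_le_mul hN he he0 (by norm_num)
    have h3 : (b + 3) / (b + 2) * u ≤ 3 / 2 * ζ := mul_le_mul hb3 hu hu0 (by norm_num)
    rw [hδ]
    linarith
  rw [hsplit, ← hA]
  have hhb0 : 0 ≤ h * b := by positivity
  have hhb1 : h * b ≤ 1 := by
    calc h * b ≤ 1 * 1 := mul_le_mul hh1 (by linarith) hb0.le (by norm_num)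
      _ = 1 := by norm_num
  have h4 : c ≤ h * b * (1 + ζ) := hc.trans (mul_le_mul_of_nonneg_left hf hhb0)
  calc c * (A + δ) ≤ h * b * (1 + ζ) * (A + δ) := mul_le_mul_of_nonneg_right h4 (by linarith)
    _ = h * b * A + h * b * (ζ * A + (1 + ζ) * δ) := by ring
    _ ≤ h * b * A + 1 * (ζ * 6 + (1 + 1) * (84 * ζ)) := by gcongr
    _ ≤ _ := by linarith

/-- the coefficient of the diagonal quantity -/
theorem unif_coefX {b r N h c fac ζ u v : ℝ} (hb0 : 0 < b) (hb1 : b ≤ 4 / 9)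
    (hr0 : -(1 / 2) ≤ r) (hr1 : r ≤ 1 / 2) (hN0 : 0 ≤ N) (hN : N ≤ 9 / 4) (hh0 : 0 ≤ h)
    (hh1 : h ≤ 1) (hc : c ≤ h * b * fac) (hf : fac ≤ 1 + ζ) (hζ0 : 0 < ζ) (hζ1 : ζ ≤ 1)
    (hu0 : 0 ≤ u) (hu : u ≤ ζ) (hv0 : 0 ≤ v) (hv : v ≤ 2 * ζ) :
    c * (4 * (1 + (b + 1) * u) / ((b + 1) * b)
        + 2 * (1 + r) * (1 / (b + 1) + (1 + (b + 3) * u) / ((b + 2) * (b + 1)))
        + 2 * ((1 + (b + 3) * u) / (2 * (b + 2)) + v) * N * 1)
      ≤ h * (4 / (b + 1) + b * (2 * (1 + r) * (b + 3) / ((b + 1) * (b + 2)) + N / (b + 2)))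
        + 200 * ζ := by
  have hb2 : 0 < b + 2 := by linarith
  have hb1' : 0 < b + 1 := by linarith
  have hr : 0 ≤ 1 + r := by linarith
  obtain ⟨B, hB⟩ : ∃ B, B = 4 / (b + 1) + b * (2 * (1 + r) * (b + 3) / ((b + 1) * (b + 2))
    + N / (b + 2)) := ⟨_, rfl⟩
  obtain ⟨δ, hδ⟩ : ∃ δ, δ = 4 * u + b * (2 * (1 + r) * ((b + 3) / ((b + 2) * (b + 1))) * u
    + N * ((b + 3) / (b + 2)) * u + 2 * v * N) := ⟨_, rfl⟩
  obtain ⟨Q, hQ⟩ : ∃ Q, Q = 4 * (1 + (b + 1) * u) / ((b + 1) * b)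
        + 2 * (1 + r) * (1 / (b + 1) + (1 + (b + 3) * u) / ((b + 2) * (b + 1)))
        + 2 * ((1 + (b + 3) * u) / (2 * (b + 2)) + v) * N * 1 := ⟨_, rfl⟩
  have hQ0 : 0 ≤ Q := by rw [hQ]; positivity
  have hsplit : b * Q = B + δ := by
    rw [hQ, hB, hδ]
    field_simp
    ring
  have hb3 : (b + 3) / (b + 2) ≤ 3 / 2 := by
    rw [div_le_iff₀ hb2]
    linarith
  have hb30 : 0 ≤ (b + 3) / (b + 2) := by positivity
  have hb4 : (b + 3) / ((b + 2) * (b + 1)) ≤ 3 / 2 := by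
    rw [div_le_iff₀ (by positivity)]
    nlinarith
  have hb40 : 0 ≤ (b + 3) / ((b + 2) * (b + 1)) := by positivity
  have hB0 : 0 ≤ B := by rw [hB]; positivity
  have hB1 : B ≤ 8 := by
    have h1 : 4 / (b + 1) ≤ 4 := by
      rw [div_le_iff₀ hb1']
      linarith
    have h2 : 2 * (1 + r) * (b + 3) / ((b + 1) * (b + 2)) ≤ 9 / 2 := by
      have e : 2 * (1 + r) * (b + 3) / ((b + 1) * (b + 2))
          = 2 * (1 + r) * ((b + 3) / ((b + 2) * (b + 1))) := by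
        field_simp
      rw [e]
      calc 2 * (1 + r) * ((b + 3) / ((b + 2) * (b + 1))) ≤ 3 * (3 / 2) := by
            apply mul_le_mul (by linarith) hb4 hb40 (by norm_num)
        _ = 9 / 2 := by norm_num
    have h3 : N / (b + 2) ≤ 9 / 8 := by
      rw [div_le_iff₀ hb2]
      linarith
    have h4 : b * (2 * (1 + r) * (b + 3) / ((b + 1) * (b + 2)) + N / (b + 2))
        ≤ 4 / 9 * (9 / 2 + 9 / 8) := by
      apply mul_le_mul hb1 (by linarith) (by positivity) (by norm_num)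
    rw [hB]
    linarith
  have hδ0 : 0 ≤ δ := by rw [hδ]; positivity
  have hδ1 : δ ≤ 40 * ζ := by
    have h1 : 2 * (1 + r) * ((b + 3) / ((b + 2) * (b + 1))) * u ≤ 3 * (3 / 2) * ζ := by
      apply mul_le_mul _ hu hu0 (by norm_num)
      exact mul_le_mul (by linarith) hb4 hb40 (by norm_num)
    have h2 : N * ((b + 3) / (b + 2)) * u ≤ 9 / 4 * (3 / 2) * ζ := by
      apply mul_le_mul _ hu hu0 (by norm_num)
      exact mul_le_mul hN hb3 hb30 (by norm_num)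
    have h3 : 2 * v * N ≤ 2 * (2 * ζ) * (9 / 4) := by
      apply mul_le_mul (by linarith) hN hN0 (by positivity)
    have h4 : b * (2 * (1 + r) * ((b + 3) / ((b + 2) * (b + 1))) * u
        + N * ((b + 3) / (b + 2)) * u + 2 * v * N)
        ≤ 1 * (3 * (3 / 2) * ζ + 9 / 4 * (3 / 2) * ζ + 2 * (2 * ζ) * (9 / 4)) := by
      apply mul_le_mul (by linarith) (by linarith) (by positivity) (by norm_num)
    rw [hδ]
    linarith
  rw [← hQ, ← hB]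
  have h4 : c ≤ h * b * (1 + ζ) := hc.trans (mul_le_mul_of_nonneg_left hf (by positivity))
  calc c * Q ≤ h * b * (1 + ζ) * Q := mul_le_mul_of_nonneg_right h4 hQ0
    _ = h * (1 + ζ) * (b * Q) := by ring
    _ = h * B + h * (ζ * B + (1 + ζ) * δ) := by rw [hsplit]; ring
    _ ≤ h * B + 1 * (ζ * 8 + (1 + 1) * (40 * ζ)) := by gcongr
    _ ≤ _ := by linarith

theorem gp_le {r ρ : ℝ} (hr0 : -(1 / 2) ≤ r) (hr1 : r ≤ 1 / 2) (hρ0 : 0 ≤ ρ) (hρ : ρ ≤ 1 / 4) :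
    gp r ρ ≤ 3 := by
  have hρ2 : ρ ^ 2 ≤ 1 / 16 := by nlinarith
  have hρ20 : 0 ≤ ρ ^ 2 := sq_nonneg ρ
  have hρ3 : 0 ≤ ρ ^ 3 := by positivity
  have hr2 : r ^ 2 ≤ 1 / 4 := by nlinarith
  have hr20 : 0 ≤ r ^ 2 := sq_nonneg r
  have h1 : -(r * ρ) ≤ 1 / 8 := by nlinarith
  have h2 : -(r * ρ ^ 2) ≤ 1 / 32 := by nlinarith
  have h3 : r ^ 2 * ρ ≤ 1 / 16 := by nlinarith
  have h4 : -(r ^ 3) ≤ 1 / 8 := by nlinarith
  unfold gp
  nlinarith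

theorem unif {ε : ℝ} (hε : 0 < ε) : ∃ m0 : ℕ, 1 ≤ m0 ∧ ∀ m : ℕ, m0 ≤ m → ∀ J : ℕ, ∀ s : ℂ, s ≠ 0 → ‖s‖ < 1 / 2 →
    Bq s.re (‖s‖ ^ 2) * Rb (bb s) s.re ≤ gp s.re (‖s‖ ^ 2) →
    ∀ d : ℕ → ℂ, (∀ l ≤ m, d l = d (m - l)) →
    ∑ j ∈ Finset.range J, ((j : ℝ) + 1) * (pq (bb s + 1 - 2 * s.re) (m + 1 + j))⁻¹ * ‖Vd s d m (m + 1 + j)‖ ^ 2
      ≤ (thg s + ε) * Pf s (bb s) d m + (zeg s + ε) * Xm (bb s) (KK s) d m := by
  -- small parameter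
  obtain ⟨ζ, hζ0, hζ1, hζε⟩ : ∃ ζ : ℝ, 0 < ζ ∧ ζ ≤ 1 ∧ 200 * ζ ≤ ε := by
    refine ⟨min 1 (ε / 200), by positivity, min_le_left _ _, ?_⟩
    have := min_le_right 1 (ε / 200)
    linarith
  have hlim1 : Tendsto (fun m : ℕ => (1 + 2 / (m : ℝ)) * Real.exp (3 / (2 * (m : ℝ)))) atTop (𝓝 1) := by
    have h1 : Tendsto (fun m : ℕ => 1 + 2 / (m : ℝ)) atTop (𝓝 (1 + 0)) :=
      tendsto_const_nhds.add (tendsto_const_div_atTop_nhds_zero_nat 2)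
    have h2 : Tendsto (fun m : ℕ => Real.exp (3 / (2 * (m : ℝ)))) atTop (𝓝 (Real.exp 0)) := by
      apply (Real.continuous_exp.tendsto 0).comp
      have h3 := tendsto_const_div_atTop_nhds_zero_nat (3 / 2 : ℝ)
      refine h3.congr (fun m => ?_)
      rw [div_div]
    have h4 := h1.mul h2
    rw [add_zero, Real.exp_zero, mul_one] at h4
    exact h4
  have hev1 : ∀ᶠ m : ℕ in atTop, (1 + 2 / (m : ℝ)) * Real.exp (3 / (2 * (m : ℝ))) ≤ 1 + ζ :=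
    (hlim1.eventually_lt_const (by linarith : (1 : ℝ) < 1 + ζ)).mono (fun m h => h.le)
  have hev2 : ∀ᶠ m : ℕ in atTop, 1 / (m : ℝ) ≤ ζ :=
    ((tendsto_const_div_atTop_nhds_zero_nat 1).eventually_lt_const hζ0).mono (fun m h => h.le)
  obtain ⟨L, hL⟩ := exists_nat_gt (1 / ζ)
  have hLpos : (0 : ℝ) < L := lt_trans (by positivity) hL
  have hL1 : 1 ≤ L := by
    have : 0 < L := by exact_mod_cast hLpos
    omega
  have hLζ : 1 / (L : ℝ) ≤ ζ := by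
    rw [div_le_iff₀ hLpos]
    rw [div_lt_iff₀ hζ0] at hL
    linarith
  have hev3 : ∀ᶠ m : ℕ in atTop, (L : ℝ) / (m : ℝ) ≤ ζ :=
    ((tendsto_const_div_atTop_nhds_zero_nat (L : ℝ)).eventually_lt_const hζ0).mono
      (fun m h => h.le)
  -- the fourth sum
  obtain ⟨I0, hI0⟩ := exists_nat_gt (2 / ζ)
  have hI0pos : (0 : ℝ) < I0 := lt_trans (by positivity) hI0
  have hI1 : 1 ≤ I0 := by
    have : 0 < I0 := by exact_mod_cast hI0pos
    omega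
  obtain ⟨δ, hδ0, hδ1⟩ : ∃ δ : ℝ, 0 < δ ∧ I0 * ((I0 : ℝ) + 1) ^ 2 * δ = ζ / 2 := by
    refine ⟨ζ / 2 / (I0 * ((I0 : ℝ) + 1) ^ 2), by positivity, ?_⟩
    field_simp
  obtain ⟨m1, hm1⟩ := exists_nat_gt (4 / δ ^ 4)
  have hev4 : ∀ᶠ m : ℕ in atTop, m1 ≤ m := eventually_ge_atTop m1
  obtain ⟨m0, hm0⟩ := eventually_atTop.mp (hev1.and (hev2.and (hev3.and hev4)))
  refine ⟨max 3 m0, le_trans (by norm_num) (le_max_left _ _), fun m hm J s hs0 hs hg d hd => ?_⟩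
  have hm3 : 3 ≤ m := (le_max_left _ _).trans hm
  have hm1' : 1 ≤ m := by omega
  obtain ⟨g1, g2, g3, g4⟩ := hm0 m ((le_max_right _ _).trans hm)
  have hb0 := bb_pos hs0
  have hb1 := bb_le hs
  have hb12 : bb s ≤ 1 / 2 := by linarith
  have hσ := sigma_ge hs
  obtain ⟨hr0, hr1⟩ := re_bounds hs
  obtain ⟨hρr, hρ1⟩ := rho_bounds hs
  have hρ0 : 0 ≤ ‖s‖ ^ 2 := sq_nonneg _
  have hK := KK_pos hs
  have hCw := Cw_nonneg s hs hb0 hb12 m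
  have hδm : 4 ≤ δ ^ 4 * ((m : ℝ) + 4) := by
    have h6 : 4 / δ ^ 4 < m := hm1.trans_le (by exact_mod_cast g4)
    rw [div_lt_iff₀ (by positivity)] at h6
    nlinarith [pow_pos hδ0 4]
  have h4 := S4_le hb0 (by linarith) (by linarith : -(1 / 2) ≤ s.re)
    (by linarith : 1 / 4 ≤ bb s + 1 - 2 * s.re) hm1' J hI1 hδ0.le hδm
  have he4 : 1 / (I0 : ℝ) + I0 * ((I0 : ℝ) + 1) ^ 2 * δ ≤ ζ := by
    rw [hδ1]
    have : 1 / (I0 : ℝ) ≤ ζ / 2 := by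
      rw [div_le_iff₀ hI0pos]
      rw [div_lt_iff₀ hζ0] at hI0
      linarith
    linarith
  have key := N_bound hs hb0 (K := KK s) (by linarith) (kap_le_KK hs) hCw hm1' hd J hL1
    (fun j => hw_Cw s hs hb0 hb12 hm3 j) (h4.trans he4) one_pos
  refine key.trans ?_
  rw [norm_one_add_sq]
  have hP := Pf_nonneg (by linarith : 0 < bb s + 1 - 2 * s.re) d m
  have hX : 0 ≤ Xm (bb s) (KK s) d m := by
    have := pq_pos (by linarith : 0 < bb s + 3) (m - 1)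
    unfold Xm
    positivity
  -- the common data
  have hN0 : 0 ≤ 1 + 2 * s.re + ‖s‖ ^ 2 := by linarith
  have hN : 1 + 2 * s.re + ‖s‖ ^ 2 ≤ 9 / 4 := by linarith
  have hq0 : 0 ≤ (1 - 2 * s.re + ‖s‖ ^ 2) / (bb s + 1 - 2 * s.re) := by
    apply div_nonneg <;> linarith
  have hq1 : (1 - 2 * s.re + ‖s‖ ^ 2) / (bb s + 1 - 2 * s.re) ≤ 1 := by
    rw [div_le_one (by linarith)]
    unfold bb
    linarith
  have hBq : 0 ≤ Bq s.re (‖s‖ ^ 2) := by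
    have := kap_le_Bq (r := s.re) (by nlinarith) hρ0 0
    rw [kap_zero] at this
    linarith
  have hRb := Rb_nonneg hb0 hb12 (by linarith : -(1 / 2) ≤ s.re) hr1
  have hgp0 : 0 ≤ gp s.re (‖s‖ ^ 2) := (mul_nonneg hBq hRb).trans hg
  have hgp1 := gp_le hr0.le hr1.le hρ0 hρ1
  obtain ⟨h, hh⟩ : ∃ h, h = Hg s / 4 := ⟨_, rfl⟩
  have hh0 : 0 ≤ h := by rw [hh]; unfold Hg; positivity
  have hh1 : h ≤ 1 := by
    rw [hh]
    unfold Hg
    have : 9 / 8 * ((1 - 2 * s.re + ‖s‖ ^ 2) / (bb s + 1 - 2 * s.re)) * gp s.re (‖s‖ ^ 2)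
        ≤ 9 / 8 * 1 * 3 := by gcongr
    linarith
  have hc : KK s * Cw s (bb s) m ≤ h * bb s * ((1 + 2 / m) * Real.exp (3 / (2 * m))) := by
    refine (K_mul_Cw s hs hb0 hb12 m hm1').trans ?_
    have e : h * bb s = ‖s‖ ^ 2 / 2 * ((1 - 2 * s.re + ‖s‖ ^ 2) / (bb s + 1 - 2 * s.re))
        * gp s.re (‖s‖ ^ 2) := by
      rw [hh]
      unfold Hg
      have : bb s = 16 / 9 * ‖s‖ ^ 2 := rfl
      calc 9 / 8 * ((1 - 2 * s.re + ‖s‖ ^ 2) / (bb s + 1 - 2 * s.re)) * gp s.re (‖s‖ ^ 2) / 4 * bb s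
          = 9 / 8 * ((1 - 2 * s.re + ‖s‖ ^ 2) / (bb s + 1 - 2 * s.re)) * gp s.re (‖s‖ ^ 2) / 4
            * (16 / 9 * ‖s‖ ^ 2) := by rw [← this]
        _ = _ := by ring
    rw [e]
    gcongr
  have hm0r : (0 : ℝ) < m := by exact_mod_cast (by omega : 0 < m)
  have hu0 : 0 ≤ 1 / (m : ℝ) := by positivity
  have hv0 : 0 ≤ 1 / (L : ℝ) + L / m := by positivity
  have hv : 1 / (L : ℝ) + L / m ≤ 2 * ζ := by linarith
  have hP1 := unif_coefP (e := ζ) hb0 hb1 hσ hN0 hN hh0 hh1 hc g1 hζ0 hζ1 hu0 g2 hζ0.le le_rfl hv0 hv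
  have hX1 := unif_coefX hb0 hb1 hr0.le hr1.le hN0 hN hh0 hh1 hc g1 hζ0 hζ1 hu0 g2 hv0 hv
  have ekp : kp (bb s) m L = (1 + (bb s + 3) * (1 / (m : ℝ))) / (2 * (bb s + 2))
      + (1 / (L : ℝ) + L / m) := by
    unfold kp
    ring
  have e1 : (bb s + 3) / (m : ℝ) = (bb s + 3) * (1 / (m : ℝ)) := by ring
  have e2 : (bb s + 1) / (m : ℝ) = (bb s + 1) * (1 / (m : ℝ)) := by ring
  rw [ekp, e1, e2]
  have et : thg s = h * bb s * ((1 + 2 * s.re + ‖s‖ ^ 2) / (bb s + 1 - 2 * s.re)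
      + 1 / (bb s + 2)) := by
    rw [hh]
    unfold thg
    ring
  have ez : zeg s = h * (4 / (bb s + 1) + bb s * (2 * (1 + s.re) * (bb s + 3)
      / ((bb s + 1) * (bb s + 2)) + (1 + 2 * s.re + ‖s‖ ^ 2) / (bb s + 2))) := by
    rw [hh]
    unfold zeg
    have q1 : bb s + 1 ≠ 0 := by positivity
    have q2 : bb s + 2 ≠ 0 := by positivity
    field_simp
    ring
  rw [et, ez]
  apply add_le_add
  · apply mul_le_mul_of_nonneg_right _ hP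
    linarith
  · apply mul_le_mul_of_nonneg_right _ hX
    linarith

end Pool.Agent.Helper39.HR
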