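import Mathlib
import Pool.Agent.Helper39.HR.Numeric
import Pool.Agent.Helper39.HR.Unif
import Pool.Agent.Helper39.HR.Asym
import Pool.Agent.Helper39.HR.Final9

/-!
MP_16b0ee, project HR: the closing argument.
-/

set_option autoImplicit false

open scoped ComplexConjugate

namespace Pool.Agent.Helper39.HR

open Pool.Agent.Helper22.Half
open Pool.Agent.Helper39.Area (Ext)
open Pool.Agent.Helper22.Marshall (LogPhi GLe gLe_one)

section
variable {β H : ℂ → ℂ} {Φ : ℂ → ℂ → ℂ} {s : ℂ}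

theorem area_t (hE : Ext β) (hΦ : LogPhi β H Φ) (s : ℂ) {t : ℝ} (ht0 : 0 ≤ t) (ht1 : t ≤ 1)
    (i M : ℕ) :
    ∑ m ∈ Finset.range M, ((m - i : ℕ) : ℝ) * (t ^ m * ‖Vd s (dd Φ s m) m i‖ ^ 2)
      ≤ 1 * ∑ m ∈ Finset.range i, ((i - m : ℕ) : ℝ) * (t ^ m * ‖Vd s (dd Φ s m) m i‖ ^ 2) := by
  have h := area_V (gLe_one hE) hE hΦ s i M
  rw [one_pow, one_mul] at h
  rw [one_mul]
  have hti : 0 ≤ t ^ i := pow_nonneg ht0 i
  calc ∑ m ∈ Finset.range M, ((m - i : ℕ) : ℝ) * (t ^ m * ‖Vd s (dd Φ s m) m i‖ ^ 2)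
      ≤ ∑ m ∈ Finset.range M, t ^ i * (((m - i : ℕ) : ℝ) * ‖Vd s (dd Φ s m) m i‖ ^ 2) := by
        apply Finset.sum_le_sum
        intro m _
        rcases le_or_gt m i with hmi | hmi
        · have : m - i = 0 := by omega
          rw [this]
          simp
        · have h1 : t ^ m ≤ t ^ i := pow_le_pow_of_le_one ht0 ht1 hmi.le
          calc ((m - i : ℕ) : ℝ) * (t ^ m * ‖Vd s (dd Φ s m) m i‖ ^ 2)
              ≤ ((m - i : ℕ) : ℝ) * (t ^ i * ‖Vd s (dd Φ s m) m i‖ ^ 2) := by gcongr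
            _ = _ := by ring
    _ = t ^ i * ∑ m ∈ Finset.range M, ((m - i : ℕ) : ℝ) * ‖Vd s (dd Φ s m) m i‖ ^ 2 := by
        rw [Finset.mul_sum]
    _ ≤ t ^ i * ∑ m ∈ Finset.range i, ((i - m : ℕ) : ℝ) * ‖Vd s (dd Φ s m) m i‖ ^ 2 :=
        mul_le_mul_of_nonneg_left h hti
    _ ≤ _ := by
        rw [Finset.mul_sum]
        apply Finset.sum_le_sum
        intro m hm
        rw [Finset.mem_range] at hm
        have h1 : t ^ i ≤ t ^ m := pow_le_pow_of_le_one ht0 ht1 hm.le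
        calc t ^ i * (((i - m : ℕ) : ℝ) * ‖Vd s (dd Φ s m) m i‖ ^ 2)
            = ((i - m : ℕ) : ℝ) * (t ^ i * ‖Vd s (dd Φ s m) m i‖ ^ 2) := by ring
          _ ≤ _ := by gcongr

/-- the weighted sum inequality -/
theorem sum_t (hE : Ext β) (hΦ : LogPhi β H Φ) (hs : ‖s‖ < 1 / 2) {t : ℝ} (ht0 : 0 ≤ t)
    (ht1 : t ≤ 1) (I : ℕ) :
    ∑ m ∈ Finset.range I, t ^ m * Ps Φ s m
      ≤ ∑ m ∈ Finset.range I, t ^ m * Us Φ s m (I - (m + 1)) := by
  have hσ : 0 < bb s + 1 - 2 * s.re := by linarith [sigma_ge hs]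
  have h1 := double_fin (S := fun m i => t ^ m * ‖Vd s (dd Φ s m) m i‖ ^ 2)
    (lam := fun i => (pq (bb s + 1 - 2 * s.re) i)⁻¹) (κ := 1)
    (fun i => (inv_pos.mpr (pq_pos hσ i)).le) (fun i M => area_t hE hΦ s ht0 ht1 i M) I
  rw [one_mul] at h1
  have e1 : ∑ m ∈ Finset.range I, ∑ i ∈ Finset.range I, ((m - i : ℕ) : ℝ)
      * (pq (bb s + 1 - 2 * s.re) i)⁻¹ * (t ^ m * ‖Vd s (dd Φ s m) m i‖ ^ 2)
      = ∑ m ∈ Finset.range I, t ^ m * Ps Φ s m := by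
    apply Finset.sum_congr rfl
    intro m hm
    unfold Ps
    rw [← lower_eq (dd Φ s m) (Finset.mem_range.mp hm), Finset.mul_sum]
    apply Finset.sum_congr rfl
    intro i _
    ring
  have e2 : ∑ m ∈ Finset.range I, ∑ i ∈ Finset.range I, ((i - m : ℕ) : ℝ)
      * (pq (bb s + 1 - 2 * s.re) i)⁻¹ * (t ^ m * ‖Vd s (dd Φ s m) m i‖ ^ 2)
      = ∑ m ∈ Finset.range I, t ^ m * Us Φ s m (I - (m + 1)) := by
    apply Finset.sum_congr rfl
    intro m _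
    have h3 := upper_eq (fun i => (pq (bb s + 1 - 2 * s.re) i)⁻¹
      * ‖Vd s (dd Φ s m) m i‖ ^ 2) m I
    simp only [← mul_assoc] at h3
    unfold Us
    rw [← h3, Finset.mul_sum]
    apply Finset.sum_congr rfl
    intro i _
    ring
  rw [e1, e2] at h1
  exact h1

theorem Ps_nonneg (hs : ‖s‖ < 1 / 2) (m : ℕ) : 0 ≤ Ps Φ s m :=
  Pf_nonneg (by linarith [sigma_ge hs]) _ m

/-- crude bounds -/
theorem crude : ∃ C1 : ℝ, 0 ≤ C1 ∧ ∀ (β H : ℂ → ℂ) (Φ : ℂ → ℂ → ℂ), Ext β → LogPhi β H Φ →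
    ∀ s : ℂ, s ≠ 0 → ‖s‖ < 1 / 2 →
    (∀ J, Us Φ s 0 J ≤ 1 + C1) ∧ (∀ m, 1 ≤ m → ∀ J, Us Φ s m J ≤ C1 * Ps Φ s m) := by
  obtain ⟨C1, hC1, hcr⟩ := HS_crude
  refine ⟨C1, hC1, ?_⟩
  intro β H Φ hE hΦ s hs0 hs
  have hb := bb_pos hs0
  have hb1 : bb s ≤ 1 / 2 := by linarith [bb_le hs]
  have hsb : ‖s‖ ^ 2 ≤ bb s := by
    unfold bb
    have := sq_nonneg ‖s‖
    linarith
  constructor
  · intro J
    exact N_zero_le hs hb hsb (EE_zero hΦ s) (C1 := C1)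
      (fun J => hcr 1 le_rfl J s hs (bb s) hb hb1 hsb) J
  · intro m hm J
    have h1 := cs_upper hs hb hm (EE_symm hΦ s m) J
    have h2 := hcr m hm J s hs (bb s) hb hb1 hsb
    have hP : 0 ≤ Ps Φ s m := Ps_nonneg hs m
    exact h1.trans (mul_le_mul_of_nonneg_right h2 hP)

/-- the first terms -/
theorem first_le {C1 : ℝ} (hC1 : 0 ≤ C1) (hE : Ext β) (hΦ : LogPhi β H Φ) (hs : ‖s‖ < 1 / 2)
    (h0 : ∀ J, Us Φ s 0 J ≤ 1 + C1) (h1 : ∀ m, 1 ≤ m → ∀ J, Us Φ s m J ≤ C1 * Ps Φ s m) (I : ℕ) :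
    ∑ m ∈ Finset.range I, Ps Φ s m ≤ Kc (1 + C1) C1 I := by
  have hb : ∀ m J, Us Φ s m J ≤ (if m = 0 then 1 + C1 else 0) + C1 * Ps Φ s m := by
    intro m J
    have hP : 0 ≤ Ps Φ s m := Ps_nonneg hs m
    split_ifs with h
    · subst h
      have := h0 J
      have : 0 ≤ C1 * Ps Φ s 0 := mul_nonneg hC1 hP
      linarith
    · have := h1 m (by omega) J
      linarith
  induction I with
  | zero => simp [Kc]
  | succ I ih =>
    have h2 := sum_t hE hΦ hs (zero_le_one) (le_refl (1 : ℝ)) (I + 1)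
    simp only [one_pow, one_mul] at h2
    rw [Finset.sum_range_succ (fun m => Us Φ s m (I + 1 - (m + 1)))] at h2
    have h3 : Us Φ s I (I + 1 - (I + 1)) = 0 := by
      unfold Us
      simp
    rw [h3, add_zero] at h2
    have h4 : ∑ m ∈ Finset.range I, Us Φ s m (I + 1 - (m + 1))
        ≤ ∑ m ∈ Finset.range I, ((if m = 0 then 1 + C1 else 0) + C1 * Ps Φ s m) :=
      Finset.sum_le_sum (fun m _ => hb m _)
    rw [Finset.sum_add_distrib, ← Finset.mul_sum] at h4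
    have h5 : ∑ m ∈ Finset.range I, (if m = 0 then 1 + C1 else 0) ≤ 1 + C1 := by
      cases I with
      | zero => simpa using by linarith
      | succ I =>
        rw [Finset.sum_range_succ']
        simp
    show ∑ m ∈ Finset.range (I + 1), Ps Φ s m ≤ (1 + C1) + C1 * Kc (1 + C1) C1 I
    have h6 : C1 * ∑ m ∈ Finset.range I, Ps Φ s m ≤ C1 * Kc (1 + C1) C1 I := by gcongr
    linarith

theorem low_eq (s : ℂ) {m : ℕ} (hm : 1 ≤ m) {K Q : ℝ} (hK : 0 < K) (hQ : 0 < Q) (G L : ℂ) :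
    ‖(m : ℂ) * G / 2‖ ^ 2 = K * Q * ((m : ℝ) ^ 2 * ‖G‖ ^ 2 / (4 * K * Q)) ∧
    ‖(2 + s) * (3 + s) * (L / (2 * m))‖ ^ 2
      = K * Q * (n23 s * (‖L‖ ^ 2 / (4 * (m : ℝ) ^ 2 * K * Q))) := by
  have hm0 : (0 : ℝ) < m := by exact_mod_cast (by omega : 0 < m)
  constructor
  · rw [norm_div, norm_mul, Complex.norm_natCast, Complex.norm_two]
    field_simp
    ring
  · rw [norm_mul, norm_mul, norm_div, norm_mul, Complex.norm_natCast, Complex.norm_two]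
    unfold n23
    field_simp
    ring

/-- the two functionals against the lower form -/
theorem lowXY (hΦ : LogPhi β H Φ) (hs0 : s ≠ 0) (hs : ‖s‖ < 1 / 2) {m : ℕ} (hm : 1 ≤ m) :
    Xs Φ s m / (1 / phi1 s.re (‖s‖ ^ 2) + 10 ^ 10 * (1 / m))
      + n23 s * Ys Φ s m / (AA2 s + 10 ^ 10 * (1 / m)) ≤ Ps Φ s m := by
  have hm0 : (0 : ℝ) < m := by exact_mod_cast (by omega : 0 < m)
  have hb := bb_pos hs0
  have hb1 : bb s ≤ 1 / 2 := by linarith [bb_le hs]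
  have hK := KK_pos hs
  have hK0 : 0 < KK s := by linarith
  have hp1 := phi1_pos hs
  have hA2 := AA2_pos hs
  have hQ := pq_pos (by linarith : 0 < bb s + 3) (m - 1)
  have h := Pf_lower hs hb hb1 hK0 (fun n => kap_le_KK hs n) (ctv_norm hs) (cpv_norm hs)
    (A1 := 1 / phi1 s.re (‖s‖ ^ 2)) (A2 := AA2 s) (by positivity) hA2 (hQ_s hs0 hs)
    (d := dd Φ s m) hm (EE_symm hΦ s m)
  obtain ⟨e1, e2⟩ := low_eq s hm hK0 hQ (Sk (dd Φ s m) m 0) (Ls (dd Φ s m) m)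
  rw [e1, e2] at h
  have hKQ : 0 < KK s * pq (bb s + 3) (m - 1) := by positivity
  refine le_of_mul_le_mul_left ?_ hKQ
  have e3 : Xs Φ s m = (m : ℝ) ^ 2 * ‖Sk (dd Φ s m) m 0‖ ^ 2
      / (4 * KK s * pq (bb s + 3) (m - 1)) := rfl
  have e4 : Ys Φ s m = ‖Ls (dd Φ s m) m‖ ^ 2
      / (4 * (m : ℝ) ^ 2 * KK s * pq (bb s + 3) (m - 1)) := rfl
  rw [← e3, ← e4] at h
  calc KK s * pq (bb s + 3) (m - 1) * (Xs Φ s m / (1 / phi1 s.re (‖s‖ ^ 2) + 10 ^ 10 * (1 / m))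
      + n23 s * Ys Φ s m / (AA2 s + 10 ^ 10 * (1 / m)))
      = KK s * pq (bb s + 3) (m - 1) * Xs Φ s m / (1 / phi1 s.re (‖s‖ ^ 2) + 10 ^ 10 * (1 / m))
      + KK s * pq (bb s + 3) (m - 1) * (n23 s * Ys Φ s m) / (AA2 s + 10 ^ 10 * (1 / m)) := by ring
    _ ≤ _ := h

end

/-- bounded partial sums -/
theorem sum_of_partial {f : ℕ → ℝ} (hf : ∀ m, 0 ≤ f m) {B : ℝ}
    (hB : ∀ I, ∑ m ∈ Finset.range I, f m ≤ B) : Summable f ∧ ∑' m, f m ≤ B := by
  have hs : Summable f := summable_of_sum_range_le hf hB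
  exact ⟨hs, hs.tsum_le_of_sum_range_le hB⟩

/-- step A -/
theorem stepA {P X : ℕ → ℝ} {U : ℕ → ℕ → ℝ} {t θ ζ C0 C1 Kb : ℝ} {m0 : ℕ} (hm0 : 1 ≤ m0)
    (ht0 : 0 ≤ t) (ht1 : t ≤ 1) (hP : ∀ m, 0 ≤ P m) (hX : ∀ m, 0 ≤ X m) (hC0 : 0 ≤ C0)
    (hC1 : 0 ≤ C1) (hθ : 0 ≤ θ) (hθ1 : θ < 1) (hζ : 0 ≤ ζ)
    (hsum : ∀ I, ∑ m ∈ Finset.range I, t ^ m * P m
      ≤ ∑ m ∈ Finset.range I, t ^ m * U m (I - (m + 1)))
    (h0 : ∀ J, U 0 J ≤ C0) (h1 : ∀ m, 1 ≤ m → ∀ J, U m J ≤ C1 * P m)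
    (h2 : ∀ m, m0 ≤ m → ∀ J, U m J ≤ θ * P m + ζ * X m)
    (hfirst : ∑ m ∈ Finset.range m0, P m ≤ Kb)
    (hXs : Summable fun m => t ^ m * X m) :
    Summable (fun m => t ^ m * P m) ∧
      (1 - θ) * ∑' m, t ^ m * P m ≤ C0 + C1 * Kb + ζ * ∑' m, t ^ m * X m := by
  have htm : ∀ m : ℕ, 0 ≤ t ^ m := fun m => pow_nonneg ht0 m
  have htm1 : ∀ m : ℕ, t ^ m ≤ 1 := fun m => pow_le_one₀ ht0 ht1
  have hb : ∀ m J, t ^ m * U m J ≤ (if m = 0 then C0 else 0) + C1 * (if m < m0 then P m else 0)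
      + (θ * (t ^ m * P m) + ζ * (t ^ m * X m)) := by
    intro m J
    have hPm := hP m
    have hXm := hX m
    have a1 : 0 ≤ θ * (t ^ m * P m) := mul_nonneg hθ (mul_nonneg (htm m) hPm)
    have a2 : 0 ≤ ζ * (t ^ m * X m) := mul_nonneg hζ (mul_nonneg (htm m) hXm)
    by_cases hm : m < m0
    · rw [if_pos hm]
      split_ifs with h
      · subst h
        have := h0 J
        have : 0 ≤ C1 * P 0 := mul_nonneg hC1 hPm
        rw [pow_zero] at *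
        linarith
      · have h3 := h1 m (by omega) J
        have h4 : 0 ≤ C1 * P m := mul_nonneg hC1 hPm
        have h5 : t ^ m * U m J ≤ t ^ m * (C1 * P m) := mul_le_mul_of_nonneg_left h3 (htm m)
        have h6 : t ^ m * (C1 * P m) ≤ 1 * (C1 * P m) := mul_le_mul_of_nonneg_right (htm1 m) h4
        linarith
    · rw [if_neg hm]
      have hm2 : m ≠ 0 := by omega
      rw [if_neg hm2]
      have h3 := h2 m (by omega) J
      have h5 := mul_le_mul_of_nonneg_left h3 (htm m)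
      calc t ^ m * U m J ≤ t ^ m * (θ * P m + ζ * X m) := h5
        _ = _ := by ring
  have hite : ∀ I : ℕ, ∑ m ∈ Finset.range I, (if m = 0 then C0 else 0) ≤ C0 := by
    intro I
    cases I with
    | zero => simpa using hC0
    | succ I =>
      rw [Finset.sum_range_succ']
      simp
  have hsmall : ∀ I, ∑ m ∈ Finset.range I, (if m < m0 then P m else 0) ≤ Kb := by
    intro I
    rw [← Finset.sum_filter]
    refine le_trans ?_ hfirst
    apply Finset.sum_le_sum_of_subset_of_nonneg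
    · intro m hm
      rw [Finset.mem_filter] at hm
      exact Finset.mem_range.mpr hm.2
    · intro m _ _
      exact hP m
  have hpart : ∀ I, ∑ m ∈ Finset.range I, t ^ m * P m
      ≤ (C0 + C1 * Kb + ζ * ∑' m, t ^ m * X m) / (1 - θ) := by
    intro I
    have h3 : ∑ m ∈ Finset.range I, t ^ m * U m (I - (m + 1)) ≤ ∑ m ∈ Finset.range I,
        ((if m = 0 then C0 else 0) + C1 * (if m < m0 then P m else 0)
      + (θ * (t ^ m * P m) + ζ * (t ^ m * X m))) := Finset.sum_le_sum (fun m _ => hb m _)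
    rw [Finset.sum_add_distrib, Finset.sum_add_distrib, Finset.sum_add_distrib, ← Finset.mul_sum,
      ← Finset.mul_sum, ← Finset.mul_sum] at h3
    have h4 := hite I
    have h5 := mul_le_mul_of_nonneg_left (hsmall I) hC1
    have h6 : ∑ m ∈ Finset.range I, t ^ m * X m ≤ ∑' m, t ^ m * X m :=
      hXs.sum_le_tsum _ (fun m _ => mul_nonneg (htm m) (hX m))
    have h7 := mul_le_mul_of_nonneg_left h6 hζ
    have h8 := hsum I
    rw [le_div_iff₀ (by linarith)]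
    linarith
  obtain ⟨hs, hle⟩ := sum_of_partial (fun m => mul_nonneg (htm m) (hP m)) hpart
  refine ⟨hs, ?_⟩
  rw [le_div_iff₀ (by linarith)] at hle
  linarith

/-- step B -/
theorem stepB {P X Y : ℕ → ℝ} {t α1 α2 C3 Kb : ℝ} {m1 : ℕ} (ht0 : 0 ≤ t) (ht1 : t ≤ 1)
    (hP : ∀ m, 0 ≤ P m) (hC3 : 0 ≤ C3) (hX0 : X 0 = 0) (hY0 : Y 0 = 0)
    (h1 : ∀ m, 1 ≤ m → m < m1 → α1 * X m + α2 * Y m ≤ C3 * P m)
    (h2 : ∀ m, 1 ≤ m → m1 ≤ m → α1 * X m + α2 * Y m ≤ P m)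
    (hfirst : ∑ m ∈ Finset.range m1, P m ≤ Kb)
    (hPs : Summable fun m => t ^ m * P m)
    (hXs : Summable fun m => t ^ m * X m) (hYs : Summable fun m => t ^ m * Y m) :
    α1 * ∑' m, t ^ m * X m + α2 * ∑' m, t ^ m * Y m ≤ ∑' m, t ^ m * P m + C3 * Kb := by
  have htm : ∀ m : ℕ, 0 ≤ t ^ m := fun m => pow_nonneg ht0 m
  have htm1 : ∀ m : ℕ, t ^ m ≤ 1 := fun m => pow_le_one₀ ht0 ht1
  have hb : ∀ m, α1 * (t ^ m * X m) + α2 * (t ^ m * Y m)
      ≤ t ^ m * P m + C3 * (if m < m1 then P m else 0) := by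
    intro m
    have hPm := hP m
    have a1 : 0 ≤ t ^ m * P m := mul_nonneg (htm m) hPm
    have e : α1 * (t ^ m * X m) + α2 * (t ^ m * Y m) = t ^ m * (α1 * X m + α2 * Y m) := by ring
    by_cases hm0 : m = 0
    · subst hm0
      rw [hX0, hY0]
      have : 0 ≤ C3 * (if 0 < m1 then P 0 else 0) := by
        apply mul_nonneg hC3
        split_ifs
        · exact hPm
        · exact le_rfl
      linarith
    · by_cases hm : m < m1
      · rw [if_pos hm, e]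
        have h3 := mul_le_mul_of_nonneg_left (h1 m (by omega) hm) (htm m)
        have h4 : t ^ m * (C3 * P m) ≤ 1 * (C3 * P m) :=
          mul_le_mul_of_nonneg_right (htm1 m) (mul_nonneg hC3 hPm)
        linarith
      · rw [if_neg hm, e]
        have h3 := mul_le_mul_of_nonneg_left (h2 m (by omega) (by omega)) (htm m)
        linarith
  have hfin : Summable fun m => (if m < m1 then P m else 0) := by
    apply summable_of_ne_finset_zero (s := Finset.range m1)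
    intro m hm
    rw [Finset.mem_range] at hm
    rw [if_neg hm]
  have h5 : ∑' m, (α1 * (t ^ m * X m) + α2 * (t ^ m * Y m))
      ≤ ∑' m, (t ^ m * P m + C3 * (if m < m1 then P m else 0)) :=
    ((hXs.mul_left α1).add (hYs.mul_left α2)).tsum_le_tsum hb (hPs.add (hfin.mul_left C3))
  rw [(hXs.mul_left α1).tsum_add (hYs.mul_left α2), hPs.tsum_add (hfin.mul_left C3),
    tsum_mul_left, tsum_mul_left, tsum_mul_left] at h5
  have h6 : ∑' m, (if m < m1 then P m else 0) ≤ Kb := by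
    rw [tsum_eq_sum (s := Finset.range m1) (fun m hm => by
      rw [Finset.mem_range] at hm
      rw [if_neg hm])]
    refine le_trans (le_of_eq ?_) hfirst
    apply Finset.sum_congr rfl
    intro m hm
    rw [Finset.mem_range] at hm
    rw [if_pos hm]
  have h7 := mul_le_mul_of_nonneg_left h6 hC3
  linarith

/-- the final algebra -/
theorem final_alg {θ ζ ψ ε SX SP C2 C7 : ℝ} (hθ : 0 ≤ θ) (hψ : 0 < ψ) (hψ8 : ψ ≤ 8) (hε : 0 < ε)
    (hε1 : ε ≤ 1 / 10 ^ 6) (hSX : 0 ≤ SX) (hζ : 0 ≤ ζ) (hC7 : 0 ≤ C7)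
    (hmain : 1 / 1000 ≤ (1 - θ) * ψ - ζ)
    (h1 : (1 - (θ + ε)) * SP ≤ C2 + (ζ + ε) * SX)
    (h2 : (ψ - 450 * ε) * SX - C7 ≤ SP) : SX ≤ 2000 * (C2 + C7) := by
  have hθ1 : 1 / 8000 ≤ 1 - θ := by
    by_contra hcon
    rw [not_le] at hcon
    have h3 : 0 < (1 - θ) := by
      by_contra h4
      rw [not_lt] at h4
      nlinarith
    have : (1 - θ) * ψ < 1 / 8000 * 8 := by
      calc (1 - θ) * ψ ≤ (1 - θ) * 8 := by gcongr
        _ < 1 / 8000 * 8 := by linarith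
    linarith
  have hp : 0 < 1 - (θ + ε) := by
    have : (1 : ℝ) / 10 ^ 6 < 1 / 8000 := by norm_num
    linarith
  have h3 : (1 - (θ + ε)) * ((ψ - 450 * ε) * SX - C7) ≤ C2 + (ζ + ε) * SX :=
    (mul_le_mul_of_nonneg_left h2 hp.le).trans h1
  have h4 : (1 - (θ + ε)) * C7 ≤ C7 := by
    have : 0 ≤ (θ + ε) * C7 := by positivity
    linarith
  have h5 : 1 / 2000 ≤ (1 - (θ + ε)) * (ψ - 450 * ε) - (ζ + ε) := by
    have e : (1 - (θ + ε)) * (ψ - 450 * ε) = (1 - θ) * ψ - ε * ψ - 450 * ε * (1 - (θ + ε)) := by ring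
    rw [e]
    have a1 : ε * ψ ≤ ε * 8 := by gcongr
    have a2 : 450 * ε * (1 - (θ + ε)) ≤ 450 * ε := by
      have : 0 ≤ 450 * ε * (θ + ε) := by positivity
      linarith
    have : (459 : ℝ) * (1 / 10 ^ 6) ≤ 1 / 2000 := by norm_num
    linarith
  have h6 : (1 / 2000) * SX ≤ ((1 - (θ + ε)) * (ψ - 450 * ε) - (ζ + ε)) * SX :=
    mul_le_mul_of_nonneg_right h5 hSX
  linarith

end Pool.Agent.Helper39.HR
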