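import Mathlib
import Pool.Agent.Helper39.HR.Close

/-!
MP_16b0ee, project HR: the bound of the diagonal sums.
-/

set_option autoImplicit false

open scoped ComplexConjugate

namespace Pool.Agent.Helper39.HR

open Pool.Agent.Helper22.Half
open Pool.Agent.Helper39.Area (Ext)
open Pool.Agent.Helper22.Marshall (LogPhi GLe gLe_one)

section
variable {β H : ℂ → ℂ} {Φ : ℂ → ℂ → ℂ} {s : ℂ}

theorem Xs_zero : Xs Φ s 0 = 0 := by
  unfold Xs Xm
  simp

theorem Ys_zero : Ys Φ s 0 = 0 := by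
  unfold Ys Ym
  simp

/-- the diagonal quantity against the lower form -/
theorem Xs_le (hΦ : LogPhi β H Φ) (hs0 : s ≠ 0) (hs : ‖s‖ < 1 / 2) (m : ℕ) :
    Xs Φ s m ≤ Ps Φ s m := by
  rcases Nat.eq_zero_or_pos m with h | hm
  · subst h
    rw [Xs_zero]
    exact Ps_nonneg hs 0
  have hm0 : (0 : ℝ) < m := by exact_mod_cast hm
  have hb := bb_pos hs0
  have hK := KK_pos hs
  have hK0 : 0 < KK s := by linarith
  have hQ := pq_pos (by linarith : 0 < bb s + 3) (m - 1)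
  have h := Fn_cs hs hb (fun n => kap_le_KK hs n) (dd Φ s m) m (fun _ => 1)
  rw [Fn_one s (dd Φ s m) m (EE_symm hΦ s m)] at h
  simp only [norm_one, one_pow, mul_one] at h
  rw [sum_Wt hm, (low_eq s hm hK0 hQ (Sk (dd Φ s m) m 0) 0).1] at h
  have hKQ : 0 < KK s * pq (bb s + 3) (m - 1) := by positivity
  exact le_of_mul_le_mul_left h hKQ

theorem kc_lower (hs : ‖s‖ < 1 / 2) : 1 / 80 ≤ kc s := by
  have h1 := rho_bounds hs
  have h2 := re_bounds hs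
  have hb := bb_nonneg s
  have hb1 := bb_le hs
  have hq : 1 / 4 ≤ 1 - 2 * s.re + ‖s‖ ^ 2 := by nlinarith
  have hD : 0 < (bb s + 2) * (bb s + 3) := by positivity
  unfold kc
  rw [le_div_iff₀ hD]
  have h3 : (bb s + 2) * (bb s + 3) ≤ (22 / 9) * (31 / 9) := by
    apply mul_le_mul <;> linarith
  have h4 : (1 : ℝ) / 4 * 1 ≤ (1 - 2 * s.re + ‖s‖ ^ 2) * (bb s + 1) := by
    apply mul_le_mul hq <;> linarith
  nlinarith

theorem n23_ge (hs : ‖s‖ < 1 / 2) : 12 ≤ n23 s := by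
  have h1 := rho_bounds hs
  have h2 := re_bounds hs
  rw [n23_eq]
  have h0 : 0 ≤ ‖s‖ ^ 2 := sq_nonneg _
  have : (2 : ℝ) * 6 ≤ (4 + 4 * s.re + ‖s‖ ^ 2) * (9 + 6 * s.re + ‖s‖ ^ 2) := by
    apply mul_le_mul <;> linarith
  linarith

theorem phi1_lt (hs : ‖s‖ < 1 / 2) : phi1 s.re (‖s‖ ^ 2) < 4 := by
  have := MH_pos (rho_bounds hs).1 (rho_bounds hs).2
  linarith

theorem phi2_lt (hs : ‖s‖ < 1 / 2) : phi2 s.re (‖s‖ ^ 2) < 4 := by
  have := MI_pos (rho_bounds hs).1 (rho_bounds hs).2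
  linarith

theorem Hg_nonneg (hs : ‖s‖ < 1 / 2) : 0 ≤ Hg s := by
  have h1 := rho_bounds hs
  have h2 := re_bounds hs
  have h0 : 0 ≤ ‖s‖ ^ 2 := sq_nonneg _
  have h3 := gp_pos hs
  have h4 := sigma_ge hs
  have hq : 0 ≤ 1 - 2 * s.re + ‖s‖ ^ 2 := by linarith
  have hσ : 0 < bb s + 1 - 2 * s.re := by linarith
  unfold Hg
  positivity

theorem thg_nonneg (hs : ‖s‖ < 1 / 2) : 0 ≤ thg s := by
  have h2 := re_bounds hs
  have h0 : 0 ≤ ‖s‖ ^ 2 := sq_nonneg _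
  have h3 := Hg_nonneg hs
  have h4 := sigma_ge hs
  have hb := bb_nonneg s
  have hq : 0 ≤ 1 + 2 * s.re + ‖s‖ ^ 2 := by linarith
  have hσ : 0 < bb s + 1 - 2 * s.re := by linarith
  unfold thg
  positivity

theorem zeg_nonneg (hs : ‖s‖ < 1 / 2) : 0 ≤ zeg s := by
  have h2 := re_bounds hs
  have h0 : 0 ≤ ‖s‖ ^ 2 := sq_nonneg _
  have h3 := Hg_nonneg hs
  have hb := bb_nonneg s
  have hq : 0 ≤ 1 + 2 * s.re + ‖s‖ ^ 2 := by linarith
  have hr : 0 ≤ 1 + s.re := by linarith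
  unfold zeg
  positivity

end

/-- the first coefficient -/
theorem alpha1_ge {φ ε : ℝ} (hφ : 0 < φ) (hφ4 : φ ≤ 4) (hε : 0 < ε) :
    φ - 16 * ε ≤ 1 / (1 / φ + ε) := by
  rw [le_div_iff₀ (by positivity)]
  have e : (φ - 16 * ε) * (1 / φ + ε) = 1 + ε * φ - 16 * ε / φ - 16 * ε * ε := by
    field_simp
    ring
  rw [e]
  have h1 : ε * φ ≤ 16 * ε / φ := by
    rw [le_div_iff₀ hφ]
    have : φ * φ ≤ 16 := by nlinarith
    nlinarith
  have h2 : 0 ≤ 16 * ε * ε := by positivity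
  linarith

/-- the second coefficient -/
theorem alpha2_ge {φ ε kc n : ℝ} (hφ : 0 < φ) (hφ4 : φ ≤ 4) (hε : 0 < ε) (hkc : 1 / 80 ≤ kc)
    (hn : 12 ≤ n) :
    φ - 430 * ε ≤ n / (kc * n / φ + ε) * (kc - ε) ∧ n / (kc * n / φ + ε) ≤ 320 := by
  have hkc0 : 0 < kc := by linarith
  have hn0 : 0 < n := by linarith
  have hA : 0 < kc * n / φ := by positivity
  have hkn : 3 / 20 ≤ kc * n := by
    calc (3 : ℝ) / 20 = 1 / 80 * 12 := by norm_num
      _ ≤ kc * n := by gcongr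
  have e1 : n / (kc * n / φ + ε) = n * φ / (kc * n + ε * φ) := by
    field_simp
  have hD : 0 < kc * n + ε * φ := by positivity
  have hle : n / (kc * n / φ + ε) ≤ 320 := by
    rw [e1, div_le_iff₀ hD]
    have h1 : n * φ ≤ n * 4 := by gcongr
    have h2 : n * 4 ≤ 320 * (kc * n) := by
      have : 4 ≤ 320 * kc := by linarith
      calc n * 4 ≤ n * (320 * kc) := by gcongr
        _ = _ := by ring
    have h3 : 0 ≤ 320 * (ε * φ) := by positivity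
    linarith
  refine ⟨?_, hle⟩
  have h4 : φ - 110 * ε ≤ n / (kc * n / φ + ε) * kc := by
    rw [e1, div_mul_eq_mul_div, le_div_iff₀ hD]
    have e2 : (φ - 110 * ε) * (kc * n + ε * φ)
        = n * φ * kc + ε * φ * φ - 110 * ε * (kc * n) - 110 * ε * ε * φ := by ring
    rw [e2]
    have h5 : ε * φ * φ ≤ ε * 4 * 4 := by gcongr
    have h6 : 110 * ε * (3 / 20) ≤ 110 * ε * (kc * n) := by gcongr
    have h7 : 0 ≤ 110 * ε * ε * φ := by positivity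
    nlinarith
  have h8 : n / (kc * n / φ + ε) * ε ≤ 320 * ε := by gcongr
  rw [mul_sub]
  linarith

theorem xbound : XBound := by
  obtain ⟨C1, hC1, hcr⟩ := crude
  obtain ⟨ε, hεd⟩ : ∃ ε : ℝ, ε = 1 / 10 ^ 6 := ⟨_, rfl⟩
  have hε : 0 < ε := by rw [hεd]; positivity
  obtain ⟨m0, hm0, hun⟩ := unif hε
  obtain ⟨M, C5, hC5, has⟩ := asym hε (by rw [hεd]; norm_num)
  obtain ⟨m1, hm1⟩ : ∃ m1 : ℕ, 10 ^ 10 / ε ≤ m1 := exists_nat_ge _
  obtain ⟨Kb0, hKb0⟩ : ∃ x, x = Kc (1 + C1) C1 m0 := ⟨_, rfl⟩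
  obtain ⟨Kb1, hKb1⟩ : ∃ x, x = Kc (1 + C1) C1 m1 := ⟨_, rfl⟩
  obtain ⟨KbM, hKbM⟩ : ∃ x, x = Kc (1 + C1) C1 M := ⟨_, rfl⟩
  have n0 : 0 ≤ Kb0 := by rw [hKb0]; exact Kc_nonneg (by linarith) hC1 _
  have n1 : 0 ≤ Kb1 := by rw [hKb1]; exact Kc_nonneg (by linarith) hC1 _
  have nM : 0 ≤ KbM := by rw [hKbM]; exact Kc_nonneg (by linarith) hC1 _
  obtain ⟨C2, hC2⟩ : ∃ x, x = (1 + C1) + C1 * Kb0 := ⟨_, rfl⟩
  obtain ⟨C7, hC7⟩ : ∃ x, x = 10 ^ 13 * Kb1 + 320 * (C5 * (1 + KbM)) := ⟨_, rfl⟩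
  have n2 : 0 ≤ C2 := by rw [hC2]; positivity
  have n7 : 0 ≤ C7 := by rw [hC7]; positivity
  refine ⟨2000 * (C2 + C7), by positivity, ?_⟩
  intro β H Φ hE hΦ hH s hs0 hs N
  obtain ⟨hc0, hc1⟩ := hcr β H Φ hE hΦ s hs0 hs
  have hfirst := fun I => first_le hC1 hE hΦ hs hc0 hc1 I
  have hp1 := phi1_pos hs
  have hp2 := phi2_pos hs
  have hp14 := phi1_lt hs
  have hp24 := phi2_lt hs
  have hkc := kc_lower hs
  have hn23 := n23_ge hs
  have hA2 := AA2_pos hs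
  have hθ := thg_nonneg hs
  have hζ := zeg_nonneg hs
  have hmain := main_ineq hs
  have hPn : ∀ m, 0 ≤ Ps Φ s m := fun m => Ps_nonneg hs m
  have hXn : ∀ m, 0 ≤ Xs Φ s m := fun m => Xs_nonneg hs m
  have hYn : ∀ m, 0 ≤ Ys Φ s m := fun m => Ys_nonneg hs m
  obtain ⟨φ1, hφ1⟩ : ∃ x, x = phi1 s.re (‖s‖ ^ 2) := ⟨_, rfl⟩
  obtain ⟨φ2, hφ2⟩ : ∃ x, x = phi2 s.re (‖s‖ ^ 2) := ⟨_, rfl⟩
  rw [← hφ1] at hp1 hp14 hmain
  rw [← hφ2] at hp2 hp24 hmain
  have hAA : AA2 s = kc s * n23 s / φ2 := by rw [hφ2]; rfl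
  have hA2low : 3 / 80 ≤ AA2 s := by
    rw [hAA, le_div_iff₀ hp2]
    have : (1 : ℝ) / 80 * 12 ≤ kc s * n23 s := by
      apply mul_le_mul hkc hn23 (by norm_num) (by linarith)
    linarith
  -- the weights
  obtain ⟨α1, hα1⟩ : ∃ x, x = 1 / (1 / φ1 + ε) := ⟨_, rfl⟩
  obtain ⟨α2, hα2⟩ : ∃ x, x = n23 s / (AA2 s + ε) := ⟨_, rfl⟩
  have hα10 : 0 < α1 := by rw [hα1]; positivity
  have hα20 : 0 < α2 := by
    rw [hα2]
    have : 0 < n23 s := by linarith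
    positivity
  have hlow : ∀ m : ℕ, 1 ≤ m → Xs Φ s m / (1 / φ1 + 10 ^ 10 * (1 / m))
      + n23 s * Ys Φ s m / (AA2 s + 10 ^ 10 * (1 / m)) ≤ Ps Φ s m := by
    intro m hm
    have := lowXY hΦ hs0 hs hm
    rw [← hφ1] at this
    exact this
  have hB1 : ∀ m : ℕ, 1 ≤ m → m < m1 → α1 * Xs Φ s m + α2 * Ys Φ s m ≤ 10 ^ 13 * Ps Φ s m := by
    intro m hm _
    have h := hlow m hm
    have hm' : (1 : ℝ) ≤ m := by exact_mod_cast hm
    have hu : (1 : ℝ) / m ≤ 1 := by rw [div_le_one (by linarith)]; exact hm'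
    have hu0 : (0 : ℝ) < 1 / m := by positivity
    have hx : Xs Φ s m / (1 / φ1 + 10 ^ 10 * (1 / m)) ≤ Ps Φ s m := by
      have : 0 ≤ n23 s * Ys Φ s m / (AA2 s + 10 ^ 10 * (1 / m)) := by
        have := hYn m
        have : 0 < n23 s := by linarith
        positivity
      linarith
    have hy : n23 s * Ys Φ s m / (AA2 s + 10 ^ 10 * (1 / m)) ≤ Ps Φ s m := by
      have : 0 ≤ Xs Φ s m / (1 / φ1 + 10 ^ 10 * (1 / m)) := by
        have := hXn m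
        positivity
      linarith
    rw [div_le_iff₀ (by positivity)] at hx hy
    have hP := hPn m
    have h1 : α1 * Xs Φ s m ≤ (1 + 4 * 10 ^ 10) * Ps Φ s m := by
      have hα : α1 ≤ φ1 := by
        rw [hα1, div_le_iff₀ (by positivity)]
        have : φ1 * (1 / φ1 + ε) = 1 + φ1 * ε := by field_simp
        rw [this]
        have : 0 ≤ φ1 * ε := by positivity
        linarith
      calc α1 * Xs Φ s m ≤ φ1 * (Ps Φ s m * (1 / φ1 + 10 ^ 10 * (1 / m))) := by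
            apply mul_le_mul hα hx (hXn m) hp1.le
        _ = Ps Φ s m * (1 + φ1 * (10 ^ 10 * (1 / m))) := by
            field_simp
        _ ≤ Ps Φ s m * (1 + 4 * (10 ^ 10 * 1)) := by gcongr
        _ = _ := by ring
    have h2 : α2 * Ys Φ s m ≤ (1 + 10 ^ 12) * Ps Φ s m := by
      have e : α2 * Ys Φ s m = n23 s * Ys Φ s m / (AA2 s + ε) := by rw [hα2]; ring
      rw [e, div_le_iff₀ (by positivity)]
      refine hy.trans ?_
      have h3 : AA2 s + 10 ^ 10 * (1 / m) ≤ (1 + 10 ^ 12) * (AA2 s + ε) := by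
        have h4 : (10 : ℝ) ^ 10 * (1 / m) ≤ 10 ^ 10 * 1 := by gcongr
        have h5 : (10 : ℝ) ^ 12 * (3 / 80) ≤ 10 ^ 12 * AA2 s := by gcongr
        have h6 : (10 : ℝ) ^ 10 * 1 ≤ 10 ^ 12 * (3 / 80) := by norm_num
        have h7 : 0 ≤ (1 + (10 : ℝ) ^ 12) * ε := by positivity
        rw [mul_add]
        linarith
      calc Ps Φ s m * (AA2 s + 10 ^ 10 * (1 / m)) ≤ Ps Φ s m * ((1 + 10 ^ 12) * (AA2 s + ε)) := by
            gcongr
        _ = _ := by ring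
    have h3 : (1 + 4 * 10 ^ 10 : ℝ) + (1 + 10 ^ 12) ≤ 10 ^ 13 := by norm_num
    have h4 := mul_le_mul_of_nonneg_right h3 hP
    rw [add_mul] at h4
    linarith
  have hB2 : ∀ m : ℕ, 1 ≤ m → m1 ≤ m → α1 * Xs Φ s m + α2 * Ys Φ s m ≤ Ps Φ s m := by
    intro m hm hmm
    have h := hlow m hm
    have hm' : (0 : ℝ) < m := by exact_mod_cast (by omega : 0 < m)
    have hmm' : 10 ^ 10 / ε ≤ (m : ℝ) := hm1.trans (by exact_mod_cast hmm)
    have hu : 10 ^ 10 * (1 / (m : ℝ)) ≤ ε := by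
      rw [div_le_iff₀ hε] at hmm'
      rw [mul_one_div, div_le_iff₀ hm']
      linarith
    have hu0 : (0 : ℝ) < 10 ^ 10 * (1 / m) := by positivity
    have h1 : α1 * Xs Φ s m ≤ Xs Φ s m / (1 / φ1 + 10 ^ 10 * (1 / m)) := by
      have e : α1 * Xs Φ s m = Xs Φ s m / (1 / φ1 + ε) := by rw [hα1]; ring
      rw [e]
      apply div_le_div_of_nonneg_left (hXn m) (by positivity)
      linarith
    have h2 : α2 * Ys Φ s m ≤ n23 s * Ys Φ s m / (AA2 s + 10 ^ 10 * (1 / m)) := by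
      have e : α2 * Ys Φ s m = n23 s * Ys Φ s m / (AA2 s + ε) := by rw [hα2]; ring
      rw [e]
      apply div_le_div_of_nonneg_left (mul_nonneg (by linarith) (hYn m)) (by positivity)
      linarith
    linarith
  -- the limit in t
  have hfin : ∀ t : ℝ, 0 ≤ t → t < 1 → ∑' m, t ^ m * Xs Φ s m ≤ 2000 * (C2 + C7) := by
    intro t ht0 ht1
    have hXsum := Xs_summable hE hΦ hH hs0 hs ht0 ht1
    have hYsum := Ys_summable hE hΦ hH hs0 hs ht0 ht1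
    have hθ1 : thg s + ε < 1 := by
      by_contra hcon
      rw [not_lt] at hcon
      have : (1 - thg s) * (φ1 + φ2) ≤ ε * 8 := by
        calc (1 - thg s) * (φ1 + φ2) ≤ ε * (φ1 + φ2) := by
              apply mul_le_mul_of_nonneg_right _ (by linarith)
              linarith
          _ ≤ ε * 8 := by gcongr; linarith
      have : ε * 8 < 1 / 1000 := by rw [hεd]; norm_num
      linarith
    obtain ⟨hPsum, hA⟩ := stepA (P := Ps Φ s) (X := Xs Φ s) (U := Us Φ s) (t := t) (θ := thg s + ε)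
      (ζ := zeg s + ε) (C0 := 1 + C1) (C1 := C1) (Kb := Kb0) hm0 ht0 ht1.le hPn hXn (by linarith)
      hC1 (by linarith) hθ1 (by linarith) (fun I => sum_t hE hΦ hs ht0 ht1.le I) hc0 hc1
      (fun m hm J => hun m hm J s hs0 hs (Pi_le hs0 hs) (dd Φ s m) (EE_symm hΦ s m))
      (by rw [hKb0]; exact hfirst m0) hXsum
    rw [← hC2] at hA
    have hB := stepB (P := Ps Φ s) (X := Xs Φ s) (Y := Ys Φ s) (t := t) (α1 := α1) (α2 := α2)
      (C3 := 10 ^ 13) (Kb := Kb1) (m1 := m1) ht0 ht1.le hPn (by positivity) Xs_zero Ys_zero hB1 hB2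
      (by rw [hKb1]; exact hfirst m1) hPsum hXsum hYsum
    have hC := has β H Φ hE hΦ hH s hs0 hs t ht0 ht1
    have hXM : ∑ m ∈ Finset.range M, Xs Φ s m ≤ KbM := by
      rw [hKbM]
      exact (Finset.sum_le_sum (fun m _ => Xs_le hΦ hs0 hs m)).trans (hfirst M)
    obtain ⟨SX, hSX⟩ : ∃ x, x = ∑' m, t ^ m * Xs Φ s m := ⟨_, rfl⟩
    obtain ⟨SY, hSY⟩ : ∃ x, x = ∑' m, t ^ m * Ys Φ s m := ⟨_, rfl⟩
    obtain ⟨SP, hSP⟩ : ∃ x, x = ∑' m, t ^ m * Ps Φ s m := ⟨_, rfl⟩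
    rw [← hSX, ← hSP] at hA
    rw [← hSX, ← hSY, ← hSP] at hB
    rw [← hSX, ← hSY] at hC
    rw [← hSX]
    have hSX0 : 0 ≤ SX := by
      rw [hSX]
      exact tsum_nonneg (fun m => mul_nonneg (pow_nonneg ht0 m) (hXn m))
    obtain ⟨hg1, hg2⟩ := alpha2_ge (ε := ε) hp2 hp24.le hε hkc hn23
    rw [← hAA, ← hα2] at hg1 hg2
    have hg3 := alpha1_ge hp1 hp14.le hε
    rw [← hα1] at hg3
    apply final_alg (θ := thg s) (ζ := zeg s) (ψ := φ1 + φ2) (ε := ε) (SX := SX) (SP := SP) hθ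
      (by linarith) (by linarith) hε (by rw [hεd]) hSX0 hζ n7 hmain hA
    -- the lower bound
    have h1 : C5 * (1 + ∑ m ∈ Finset.range M, Xs Φ s m) ≤ C5 * (1 + KbM) := by gcongr
    have h2 : α2 * (kc s * SX) ≤ α2 * (SY + ε * SX + C5 * (1 + KbM)) :=
      mul_le_mul_of_nonneg_left (by linarith) hα20.le
    have h3 : α2 * (C5 * (1 + KbM)) ≤ 320 * (C5 * (1 + KbM)) := by gcongr
    have h4 := mul_le_mul_of_nonneg_right hg3 hSX0
    have h5 := mul_le_mul_of_nonneg_right hg1 hSX0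
    rw [hC7]
    nlinarith
  -- finite sums
  have hcont : Filter.Tendsto (fun t : ℝ => ∑ m ∈ Finset.range N, t ^ m * Xs Φ s m)
      (nhdsWithin 1 (Set.Iio 1)) (nhds (∑ m ∈ Finset.range N, (1 : ℝ) ^ m * Xs Φ s m)) := by
    apply Filter.Tendsto.mono_left _ nhdsWithin_le_nhds
    apply Continuous.tendsto
    fun_prop
  have hlim := le_of_tendsto hcont (b := 2000 * (C2 + C7)) (by
    have h0 : ∀ᶠ t : ℝ in nhdsWithin 1 (Set.Iio 1), 0 ≤ t :=
      Filter.Eventually.filter_mono nhdsWithin_le_nhds (Filter.eventually_of_mem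
        (Ici_mem_nhds (by norm_num : (0 : ℝ) < 1)) (fun t ht => ht))
    filter_upwards [h0, self_mem_nhdsWithin] with t ht0 ht1
    have h1 := hfin t ht0 ht1
    refine le_trans ?_ h1
    exact (Xs_summable hE hΦ hH hs0 hs ht0 ht1).sum_le_tsum _
      (fun m _ => mul_nonneg (pow_nonneg ht0 m) (hXn m)))
  simp only [one_pow, one_mul] at hlim
  exact hlim

end Pool.Agent.Helper39.HR
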