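import Mathlib
import Pool.Agent.Helper39.HR.XB

/-!
MP_16b0ee, project HR: integral means of the complex powers of the derivative.
-/

set_option autoImplicit false

open MeasureTheory Set Metric Filter Topology
open scoped ENNReal NNReal Real ComplexConjugate

namespace Pool.Agent.Helper39.HR

open Pool.Agent.Helper22.Half
open Pool.Agent.Helper39.Area (Ext phi toDisc)
open Pool.Agent.Helper22.Marshall (LogPhi exists_logPhi)

/-- the circle integral in both coordinates -/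
theorem transfer_gen (F : ℂ → ℝ) (h : ℂ → ℂ) {R : ℝ} (hR : 1 < R) :
    (∫ θ in (0:ℝ)..(2 * π), F (h ((R : ℂ) * Complex.exp ((θ : ℂ) * Complex.I)))) =
      ∫ θ in (0:ℝ)..(2 * π),
        F (toDisc 0 h (((R⁻¹ : ℝ) : ℂ) * Complex.exp ((θ : ℂ) * Complex.I))) := by
  have hR0 : R ≠ 0 := by linarith
  obtain ⟨k, hk⟩ : ∃ k : ℝ → ℝ, k = fun (θ : ℝ) =>
    F (toDisc 0 h (((R⁻¹ : ℝ) : ℂ) * Complex.exp ((θ : ℂ) * Complex.I))) := ⟨_, rfl⟩
  have h1 : ∀ θ : ℝ, F (h ((R : ℂ) * Complex.exp ((θ : ℂ) * Complex.I))) = k (-θ) := by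
    intro θ
    simp only [hk]
    have hne : ((R⁻¹ : ℝ) : ℂ) * Complex.exp (((-θ : ℝ) : ℂ) * Complex.I) ≠ 0 := by
      apply mul_ne_zero _ (Complex.exp_ne_zero _)
      exact_mod_cast inv_ne_zero hR0
    have h2 : (((R⁻¹ : ℝ) : ℂ) * Complex.exp (((-θ : ℝ) : ℂ) * Complex.I))⁻¹ =
        (R : ℂ) * Complex.exp ((θ : ℂ) * Complex.I) := by
      rw [mul_inv, ← Complex.exp_neg]
      push_cast
      rw [inv_inv]
      congr 2
      ring
    simp only [toDisc]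
    rw [if_neg hne, h2]
  simp_rw [h1]
  rw [intervalIntegral.integral_comp_neg (fun θ => k θ)]
  have hper : Function.Periodic k (2 * π) := by
    intro θ
    simp only [hk]
    have : Complex.exp (((θ + 2 * π : ℝ) : ℂ) * Complex.I) = Complex.exp ((θ : ℂ) * Complex.I) := by
      push_cast
      rw [add_mul, Complex.exp_add, Complex.exp_two_pi_mul_I, mul_one]
    rw [this]
  have h2 := hper.intervalIntegral_add_eq (-(2 * π)) 0
  have e1 : -(2 * π) + 2 * π = (0:ℝ) := by ring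
  have e2 : (0:ℝ) + 2 * π = 2 * π := by ring
  rw [e1, e2] at h2
  rw [neg_zero, h2, hk]

theorem means_lt : ∃ C : ℝ, 0 ≤ C ∧ ∀ R : ℝ, 1 < R → ∀ ψ h : ℂ → ℂ, SigmaLog ψ h →
    ∀ t : ℂ, ‖t‖ < 1 →
    ∫ θ in (0:ℝ)..(2 * π), ‖Complex.exp (t * h ((R : ℂ) * Complex.exp ((θ : ℂ) * Complex.I)))‖
      ≤ C * (R ^ 2 / (R ^ 2 - 1)) ^ (4 / 9 * ‖t‖ ^ 2) := by
  obtain ⟨C, hC, hm⟩ := mean9 xbound
  refine ⟨C, hC, ?_⟩
  intro R hR ψ h Hh t ht
  obtain ⟨hd, hg⟩ := Hh.goluzin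
  obtain ⟨hE, hex⟩ := Pool.Agent.Helper39.Area.ext_data Hh.diff Hh.inj Hh.normalised.choose_spec
    Hh.exp_eq
  obtain ⟨Φ, hΦ⟩ := exists_logPhi hE hd.continuousOn (by simp [toDisc]) hex
  have hR0 : 0 < R⁻¹ := by positivity
  have hR1 : R⁻¹ < 1 := inv_lt_one_of_one_lt₀ hR
  have hs : ‖t / 2‖ < 1 / 2 := by
    rw [norm_div, Complex.norm_two]
    linarith
  have h1 := hm _ (toDisc 0 h) Φ hE hΦ hd (t / 2) hs R⁻¹ hR0.le hR1
  have e1 : ∀ w : ℂ, ‖Complex.exp (t * w)‖ = ‖Complex.exp (t / 2 * w)‖ ^ 2 := by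
    intro w
    rw [← norm_pow, ← Complex.exp_nat_mul]
    congr 2
    push_cast
    ring
  rw [transfer_gen (fun w => ‖Complex.exp (t * w)‖) h hR]
  simp_rw [e1]
  rw [periodic_shift (f := fun ζ => ‖Complex.exp (t / 2 * toDisc 0 h ζ)‖ ^ 2) R⁻¹]
  refine h1.trans (le_of_eq ?_)
  congr 1
  have e2 : bb (t / 2) = 4 / 9 * ‖t‖ ^ 2 := by
    unfold bb
    rw [norm_div, Complex.norm_two]
    ring
  have hx : 0 < 1 - R⁻¹ ^ 2 := by nlinarith
  have e3 : R ^ 2 / (R ^ 2 - 1) = (1 - R⁻¹ ^ 2)⁻¹ := by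
    have h4 : R ^ 2 - 1 ≠ 0 := by nlinarith
    have h5 : R ≠ 0 := by linarith
    have h6 : 1 - R⁻¹ ^ 2 = (R ^ 2 - 1) / R ^ 2 := by
      field_simp
    rw [h6, inv_div]
  rw [e2, e3, Real.rpow_neg hx.le, Real.inv_rpow hx.le]

/-- the integral means for all complex powers in the closed unit disc -/
theorem means9 : ∃ C : ℝ, 0 ≤ C ∧ ∀ R : ℝ, 1 < R → ∀ ψ h : ℂ → ℂ, SigmaLog ψ h →
    ∀ t : ℂ, ‖t‖ ≤ 1 →
    (1 / (2 * π)) * ∫ θ in (0:ℝ)..(2 * π),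
      ‖Complex.exp (t * h ((R : ℂ) * Complex.exp ((θ : ℂ) * Complex.I)))‖
      ≤ C * (R ^ 2 / (R ^ 2 - 1)) ^ (4 / 9 * ‖t‖ ^ 2) := by
  obtain ⟨C, hC, hm⟩ := means_lt
  refine ⟨1 / (2 * π) * C, by positivity, ?_⟩
  intro R hR ψ h Hh t ht
  rw [mul_assoc]
  apply mul_le_mul_of_nonneg_left _ (by positivity)
  have hRm : ∀ θ : ℝ, 1 < ‖(R : ℂ) * Complex.exp ((θ : ℂ) * Complex.I)‖ := by
    intro θ
    rw [norm_mul, Complex.norm_exp_ofReal_mul_I, mul_one, Complex.norm_real,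
      Real.norm_of_nonneg (by linarith)]
    exact hR
  have hc : Continuous (fun θ : ℝ => h ((R : ℂ) * Complex.exp ((θ : ℂ) * Complex.I))) :=
    Hh.hdiff.continuousOn.comp_continuous (by fun_prop) (fun θ => hRm θ)
  have hG : Continuous (fun u : ℝ => ∫ θ in (0:ℝ)..(2 * π),
      ‖Complex.exp ((u * t) * h ((R : ℂ) * Complex.exp ((θ : ℂ) * Complex.I)))‖) := by
    apply intervalIntegral.continuous_parametric_intervalIntegral_of_continuous'
    have h1 : Continuous (fun p : ℝ × ℝ => h ((R : ℂ) * Complex.exp ((p.2 : ℂ) * Complex.I))) :=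
      hc.comp continuous_snd
    exact (Complex.continuous_exp.comp
      (((Complex.continuous_ofReal.comp continuous_fst).mul continuous_const).mul h1)).norm
  have hX : 0 < R ^ 2 / (R ^ 2 - 1) := by
    have : 0 < R ^ 2 - 1 := by nlinarith
    positivity
  have hB : Continuous (fun u : ℝ => C * (R ^ 2 / (R ^ 2 - 1)) ^ (4 / 9 * (u ^ 2 * ‖t‖ ^ 2))) := by
    apply Continuous.mul continuous_const
    apply Continuous.rpow continuous_const (by fun_prop)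
    intro u
    exact Or.inl hX.ne'
  have h2 : Tendsto (fun u : ℝ => ∫ θ in (0:ℝ)..(2 * π),
      ‖Complex.exp ((u * t) * h ((R : ℂ) * Complex.exp ((θ : ℂ) * Complex.I)))‖)
      (𝓝[<] 1) (𝓝 (∫ θ in (0:ℝ)..(2 * π),
      ‖Complex.exp ((((1 : ℝ) : ℂ) * t) * h ((R : ℂ) * Complex.exp ((θ : ℂ) * Complex.I)))‖)) :=
    (hG.tendsto 1).mono_left nhdsWithin_le_nhds
  have h3 : Tendsto (fun u : ℝ => C * (R ^ 2 / (R ^ 2 - 1)) ^ (4 / 9 * (u ^ 2 * ‖t‖ ^ 2)))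
      (𝓝[<] 1) (𝓝 (C * (R ^ 2 / (R ^ 2 - 1)) ^ (4 / 9 * ((1:ℝ) ^ 2 * ‖t‖ ^ 2)))) :=
    (hB.tendsto 1).mono_left nhdsWithin_le_nhds
  have h4 := le_of_tendsto_of_tendsto h2 h3 (by
    have h0 : ∀ᶠ u : ℝ in 𝓝[<] 1, 0 ≤ u :=
      Filter.Eventually.filter_mono nhdsWithin_le_nhds (Filter.eventually_of_mem
        (Ici_mem_nhds (by norm_num : (0 : ℝ) < 1)) (fun t ht => ht))
    filter_upwards [h0, self_mem_nhdsWithin] with u hu0 hu1
    have hu1' : u < 1 := hu1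
    have hn : ‖(u : ℂ) * t‖ = u * ‖t‖ := by
      rw [norm_mul, Complex.norm_real, Real.norm_of_nonneg hu0]
    have hlt : ‖(u : ℂ) * t‖ < 1 := by
      rw [hn]
      have := norm_nonneg t
      nlinarith
    have h5 := hm R hR ψ h Hh (u * t) hlt
    rw [hn, mul_pow] at h5
    exact h5)
  simp only [Complex.ofReal_one, one_mul, one_pow] at h4
  exact h4

end Pool.Agent.Helper39.HR
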