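import Mathlib
import Pool.Agent.Helper63.PolyBox.Basic

/-!
MP_16b0ee, project HR: multiplication of nested coefficient lists.
-/

set_option autoImplicit false

namespace Pool.Agent.Helper39.HR

open Pool.Agent.Helper63.PolyBox

/-- sum in one variable -/
def s1 : List ℤ → List ℤ → List ℤ
  | [], b => b
  | a :: as, [] => a :: as
  | a :: as, b :: bs => (a + b) :: s1 as bs

/-- product in one variable -/
def m1 : List ℤ → List ℤ → List ℤ
  | [], _ => []
  | a :: as, b => s1 (b.map (fun z => a * z)) (0 :: m1 as b)

/-- sum in two variables -/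
def s2 : List (List ℤ) → List (List ℤ) → List (List ℤ)
  | [], b => b
  | a :: as, [] => a :: as
  | a :: as, b :: bs => s1 a b :: s2 as bs

/-- product in two variables -/
def m2 : List (List ℤ) → List (List ℤ) → List (List ℤ)
  | [], _ => []
  | a :: as, b => s2 (b.map (fun z => m1 a z)) ([] :: m2 as b)

/-- integer multiple in two variables -/
def c2 (c : ℤ) (p : List (List ℤ)) : List (List ℤ) := p.map (fun l => l.map (fun z => c * z))

/-- value in one variable -/
noncomputable def v1 (y : ℝ) : List ℤ → ℝ
  | [] => 0
  | a :: as => a + y * v1 y as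

/-- value in two variables -/
noncomputable def v2 (x y : ℝ) : List (List ℤ) → ℝ
  | [] => 0
  | a :: as => v1 y a + x * v2 x y as

theorem v1_eq (y : ℝ) (l : List ℤ) : lval y [] l = v1 y l := by
  induction l with
  | nil => rfl
  | cons a as ih =>
    simp only [lval, v1, ih, Rep.val]

theorem v2_eq (x y : ℝ) (p : List (List ℤ)) : Rep.val [x, y] p = v2 x y p := by
  induction p with
  | nil => rfl
  | cons a as ih =>
    simp only [Rep.val] at ih ⊢
    simp only [lval, v2, Rep.val, v1_eq, ih]

theorem v1_s1 (y : ℝ) (a b : List ℤ) : v1 y (s1 a b) = v1 y a + v1 y b := by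
  induction a generalizing b with
  | nil => simp [s1, v1]
  | cons a as ih =>
    cases b with
    | nil => simp [s1, v1]
    | cons b bs =>
      simp only [s1, v1, ih]
      push_cast
      ring

theorem v1_map (y : ℝ) (c : ℤ) (a : List ℤ) : v1 y (a.map (fun z => c * z)) = c * v1 y a := by
  induction a with
  | nil => simp [v1]
  | cons a as ih =>
    simp only [List.map_cons, v1, ih]
    push_cast
    ring

theorem v1_m1 (y : ℝ) (a b : List ℤ) : v1 y (m1 a b) = v1 y a * v1 y b := by
  induction a with
  | nil => simp [m1, v1]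
  | cons a as ih =>
    simp only [m1, v1_s1, v1_map, v1, ih]
    push_cast
    ring

theorem v2_s2 (x y : ℝ) (a b : List (List ℤ)) : v2 x y (s2 a b) = v2 x y a + v2 x y b := by
  induction a generalizing b with
  | nil => simp [s2, v2]
  | cons a as ih =>
    cases b with
    | nil => simp [s2, v2]
    | cons b bs =>
      simp only [s2, v2, ih, v1_s1]
      ring

theorem v2_map (x y : ℝ) (c : List ℤ) (a : List (List ℤ)) :
    v2 x y (a.map (fun z => m1 c z)) = v1 y c * v2 x y a := by
  induction a with
  | nil => simp [v2]
  | cons a as ih =>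
    simp only [List.map_cons, v2, ih, v1_m1]
    ring

theorem v2_m2 (x y : ℝ) (a b : List (List ℤ)) : v2 x y (m2 a b) = v2 x y a * v2 x y b := by
  induction a with
  | nil => simp [m2, v2]
  | cons a as ih =>
    simp only [m2, v2_s2, v2_map, v2, ih, v1]
    ring

theorem v2_c2 (x y : ℝ) (c : ℤ) (a : List (List ℤ)) : v2 x y (c2 c a) = c * v2 x y a := by
  induction a with
  | nil => simp [c2, v2]
  | cons a as ih =>
    simp only [c2, List.map_cons, v2, v1_map] at ih ⊢
    rw [ih]
    ring

end Pool.Agent.Helper39.HR
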